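import Mathlib
import Pool.Agent.N423.DE.Closed

/-!
# Graphs with a dominating clique: definitions
-/

set_option autoImplicit false
set_option linter.unusedSectionVars false

namespace Pool.Agent.N423.DC

open Matrix Finset Pool.Agent.H283R2.DR Pool.Agent.H789R5 Pool.Agent.N423.DE

/-- Pinned motions: velocities supported on `Z \ D` which preserve the lengths of all edges of `G`
that do not touch `D`. -/
def PM {V : Type} (G : SimpleGraph V) (Z D : Finset V) (p : V → Fin 3 → ℝ) :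
    Submodule ℝ (V → Fin 3 → ℝ) where
  carrier := {q | (∀ x y, G.Adj x y → x ∉ D → y ∉ D → (p x - p y) ⬝ᵥ (q x - q y) = 0) ∧
    (∀ x, x ∉ Z → q x = 0) ∧ ∀ x ∈ D, q x = 0}
  add_mem' := by
    rintro a b ⟨h1, h2, h3⟩ ⟨h1', h2', h3'⟩
    refine ⟨fun x y hxy hx hy => ?_, fun x hx => ?_, fun x hx => ?_⟩
    · have e : (a + b) x - (a + b) y = (a x - a y) + (b x - b y) := by
        simp only [Pi.add_apply]; abel
      rw [e, dotProduct_add, h1 x y hxy hx hy, h1' x y hxy hx hy, add_zero]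
    · rw [Pi.add_apply, h2 x hx, h2' x hx, add_zero]
    · rw [Pi.add_apply, h3 x hx, h3' x hx, add_zero]
  zero_mem' := ⟨fun _ _ _ _ _ => by simp, fun _ _ => rfl, fun _ _ => rfl⟩
  smul_mem' := by
    rintro c a ⟨h1, h2, h3⟩
    refine ⟨fun x y hxy hx hy => ?_, fun x hx => ?_, fun x hx => ?_⟩
    · rw [Pi.smul_apply, Pi.smul_apply, ← smul_sub, dotProduct_smul, h1 x y hxy hx hy, smul_zero]
    · rw [Pi.smul_apply, h2 x hx, smul_zero]
    · rw [Pi.smul_apply, h3 x hx, smul_zero]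

theorem mem_PM {V : Type} {G : SimpleGraph V} {Z D : Finset V} {p q : V → Fin 3 → ℝ} :
    q ∈ PM G Z D p ↔ (∀ x y, G.Adj x y → x ∉ D → y ∉ D → (p x - p y) ⬝ᵥ (q x - q y) = 0) ∧
      (∀ x, x ∉ Z → q x = 0) ∧ ∀ x ∈ D, q x = 0 := Iff.rfl

/-- The data of a minimal counterexample: `R` is a clique (the hub), each of the vertices in `Z` has
exactly one neighbour in `R` and four in `Z`, the other vertices are isolated. -/
structure Core {V : Type} [Fintype V] (G : SimpleGraph V) (R Z : Finset V) (hub : V → V) : Prop where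
  disj : ∀ x ∈ R, x ∉ Z
  supp : ∀ x y, G.Adj x y → x ∈ R ∨ x ∈ Z
  card3 : 3 ≤ R.card
  clique : Cq G R
  ne : Z.Nonempty
  hub_mem : ∀ v ∈ Z, hub v ∈ R
  hub_adj : ∀ v ∈ Z, G.Adj v (hub v)
  hub_uniq : ∀ v ∈ Z, ∀ r ∈ R, G.Adj v r → r = hub v
  deg : ∀ v ∈ Z, (nb G v).card = 5
  noK5 : ∀ A : Finset V, A.card = 5 → Cq G A → ∀ v ∈ A, v ∉ Z
  closed : ∀ p : V → Fin 3 → ℝ, MG p → ∀ x y, x ∈ R ∨ x ∈ Z → y ∈ R ∨ y ∈ Z → x ≠ y →
    (∀ q ∈ PM G Z ∅ p, (p x - p y) ⬝ᵥ (q x - q y) = 0) → G.Adj x y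
  closed1 : ∀ p : V → Fin 3 → ℝ, MG p → ∀ v ∈ Z, ∀ x y, x ∈ R ∨ x ∈ Z → y ∈ R ∨ y ∈ Z →
    x ≠ v → y ≠ v → x ≠ y →
    (∀ q ∈ PM G Z {v} p, (p x - p y) ⬝ᵥ (q x - q y) = 0) → G.Adj x y
  dimG : ∀ p : V → Fin 3 → ℝ, MG p → Module.finrank ℝ (PM G Z ∅ p) = 1
  dimS : ∀ p : V → Fin 3 → ℝ, MG p → ∀ G' : SimpleGraph V, G' ≤ G → Cq G' R →
    (∃ x ∈ Z, ∃ y ∈ Z, G.Adj x y ∧ ¬ G'.Adj x y) →
    Module.finrank ℝ (PM G' Z ∅ p) = (G.edgeSet \ G'.edgeSet).ncard
  all : ∀ p p' : V → Fin 3 → ℝ, MG p → (∀ r ∈ R, p' r = p r) → ∃ q ∈ PM G Z ∅ p', q ≠ 0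

/-- the coefficients of the affine dependency of five points -/
noncomputable def mu (P : Fin 5 → Fin 3 → ℝ) (i : Fin 5) : ℝ :=
  (-1) ^ (i : ℕ) * Matrix.det (Matrix.of fun (a b : Fin 4) =>
    (Fin.snoc (P (i.succAbove a)) (1 : ℝ) : Fin 4 → ℝ) b)

/-- any four of the five points are affinely independent -/
def GP5 (P : Fin 5 → Fin 3 → ℝ) : Prop :=
  ∀ i : Fin 5, AffineIndependent ℝ (fun a : Fin 4 => P (i.succAbove a))

/-- an enumeration of the neighbours of the vertices in `Z` -/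
def Enum {V : Type} (G : SimpleGraph V) (Z : Finset V) (en : V → Fin 5 → V) : Prop :=
  ∀ v ∈ Z, Function.Injective (en v) ∧ ∀ u, G.Adj v u ↔ ∃ i, en v i = u

open Classical in
/-- the coefficient of `w` in the affine dependency of the neighbours of `v` -/
noncomputable def kap {V : Type} (en : V → Fin 5 → V) (p : V → Fin 3 → ℝ) (v w : V) : ℝ :=
  ∑ i : Fin 5, if en v i = w then mu (fun j => p (en v j)) i else 0

/-- the velocity field of an infinitesimal isometry -/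
def fld (T : (Fin 3 → ℝ) × (Fin 3 → ℝ)) (y : Fin 3 → ℝ) : Fin 3 → ℝ := crossProduct T.1 y + T.2

/-- three planes through a point meet only there -/
def J3 {V : Type} (p : V → Fin 3 → ℝ) : Prop :=
  ∀ (r : V) (z z' : Fin 3 → V), Function.Injective (Sum.elim z z') →
    (∀ i, z i ≠ r ∧ z' i ≠ r) → ∀ α β : Fin 3 → ℝ,
    (∀ i j, α i • (p (z i) - p r) + β i • (p (z' i) - p r) =
      α j • (p (z j) - p r) + β j • (p (z' j) - p r)) → α = 0 ∧ β = 0

/-- the edges of `G` in `Z` that are no edges with exceptional four-set `X` -/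
def HX {V : Type} [Fintype V] [DecidableEq V] (G : SimpleGraph V) (Z X : Finset V) :
    SimpleGraph V where
  Adj v w := v ∈ Z ∧ w ∈ Z ∧ G.Adj v w ∧ (nb G v).erase w ≠ X ∧ (nb G w).erase v ≠ X
  symm := ⟨fun _ _ h => ⟨h.2.1, h.1, h.2.2.1.symm, h.2.2.2.2, h.2.2.2.1⟩⟩
  loopless := ⟨fun _ h => h.2.2.1.ne rfl⟩

/-- type A: the neighbours of each vertex of `Z` move like the points of an affine map, and the
affine dependency is preserved in the mean -/
def TypeA {V : Type} [Fintype V] (G : SimpleGraph V) (Z : Finset V) (en : V → Fin 5 → V) : Prop :=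
  ∀ p : V → Fin 3 → ℝ, MG p → ∀ v ∈ Z, ∀ m ∈ PM G Z {v} p,
    ∑ i, mu (fun j => p (en v j)) i • m (en v i) = 0 ∧
    ∑ i, mu (fun j => p (en v j)) i * (p (en v i) ⬝ᵥ m (en v i)) = 0

/-- no complete graph with four vertices touches `Z` -/
def NoK4 {V : Type} (G : SimpleGraph V) (Z : Finset V) : Prop :=
  ∀ A : Finset V, A.card = 4 → Cq G A → ∀ v ∈ A, v ∉ Z

end Pool.Agent.N423.DC
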