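import Mathlib
import Pool.Agent.N423.DC.Defs
import Pool.Agent.N423.DE.Fin

/-!
# Graphs with a dominating clique: the statements of the parts
-/

set_option autoImplicit false
set_option linter.unusedSectionVars false

namespace Pool.Agent.N423.DC

open Matrix Finset Pool.Agent.H283R2.DR Pool.Agent.H789R5 Pool.Agent.N423.DE

/-! ### Generic placements -/

/-- the most generic placements fail only finitely often on each line through one of them -/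
def S_MGG : Prop := ∀ (V : Type) [Fintype V], TA.Good (fun p : V → Fin 3 → ℝ => MG p)

def S_J3 : Prop := ∀ (V : Type) [Fintype V], ∃ p : V → Fin 3 → ℝ, MG p ∧ J3 p

/-- a placement in which `X` is the only set of four coplanar points -/
def S_SP : Prop := ∀ (V : Type) [Fintype V] [DecidableEq V] (X : Finset V), X.card = 4 →
  ∃ p : V → Fin 3 → ℝ, ∀ x : Fin 4 → V, Function.Injective x →
    (AffineIndependent ℝ (fun i => p (x i)) ↔ ¬ ∀ i, x i ∈ X)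

/-! ### Infinitesimal isometries -/

def S_TRI : Prop :=
  (∀ a : Fin 3 → Fin 3 → ℝ, AffineIndependent ℝ a → ∀ v : Fin 3 → Fin 3 → ℝ,
    (∀ i j, (a i - a j) ⬝ᵥ (v i - v j) = 0) → ∃ T, ∀ i, fld T (a i) = v i) ∧
  (∀ a : Fin 3 → Fin 3 → ℝ, AffineIndependent ℝ a → ∀ T, (∀ i, fld T (a i) = 0) → T = 0) ∧
  (∀ T a b, (a - b) ⬝ᵥ (fld T a - fld T b) = 0)

/-! ### Motions of the whole graph and pinned motions -/

def S_PIN : Prop := ∀ (V : Type) [Fintype V] (G : SimpleGraph V) (R Z : Finset V),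
  (∀ x ∈ R, x ∉ Z) → (∀ x y, G.Adj x y → x ∈ R ∨ x ∈ Z) → 3 ≤ R.card → Cq G R →
  ∀ p p' : V → Fin 3 → ℝ, MG p → (∀ r ∈ R, p' r = p r) →
    mo G p' + 3 * (R.card + Z.card) = 6 + 3 * Fintype.card V + Module.finrank ℝ (PM G Z ∅ p') ∧
    ∀ x y, x ∈ R ∨ x ∈ Z → y ∈ R ∨ y ∈ Z →
      (Imp G p' x y ↔ ∀ q ∈ PM G Z ∅ p', (p' x - p' y) ⬝ᵥ (q x - q y) = 0)

/-! ### Dimensions in the core -/

def S_DIM : Prop := ∀ (V : Type) [Fintype V] [DecidableEq V] (G : SimpleGraph V) (R Z : Finset V)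
  (hub : V → V), Core G R Z hub → ∀ p, MG p → ∀ D : Finset V, D ⊆ Z → D.Nonempty → Cq G D →
    Module.finrank ℝ (PM G Z D p) + D.card.choose 2 = 2 * D.card

/-! ### The affine dependency of five points -/

def S_MU : Prop := ∀ P : Fin 5 → Fin 3 → ℝ,
  ∑ i, mu P i = 0 ∧ ∑ i, mu P i • P i = 0 ∧
  (∀ i, mu P i ≠ 0 ↔ AffineIndependent ℝ (fun a : Fin 4 => P (i.succAbove a)))

/-! ### Step 2: type A -/

def S_ALG : Prop := ∀ (E : Type) [AddCommGroup E] [Module ℝ E], Module.finrank ℝ E = 2 →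
  ∀ (μ : Fin 5 → ℝ) (l : Fin 5 → Fin 5 → (E →ₗ[ℝ] ℝ)), (∀ i, μ i ≠ 0) →
  (∀ i j, l i j = l j i) → (∀ i, l i i = 0) →
  (∀ m, ∑ i, ∑ j, μ i * μ j * l i j m = 0) →
  (∀ i, (∀ m, ∑ j, μ j * l i j m = 0) ∨ ∃ m, m ≠ 0 ∧ ∀ j, l i j m = 0) →
  (∀ m, (∀ i j, l i j m = 0) → m = 0) →
  (∀ i j k, i ≠ j → j ≠ k → i ≠ k → ¬ (l i j = 0 ∧ l j k = 0 ∧ l i k = 0)) →
  ∀ i m, ∑ j, μ j * l i j m = 0

def S_BU : Prop := ∀ (E : Type) [AddCommGroup E] [Module ℝ E], Module.finrank ℝ E = 2 →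
  ∀ (P : Fin 5 → Fin 3 → ℝ) (φ : E →ₗ[ℝ] (Fin 5 → Fin 3 → ℝ)), GP5 P →
  (∀ x : Fin 3 → ℝ, ∃ (m : E) (t : Fin 3 → ℝ), (m ≠ 0 ∨ t ≠ 0) ∧
    ∀ i, (x - P i) ⬝ᵥ (t - φ m i) = 0) →
  ∀ i, (∀ m, ∑ j, mu P j * ((P i - P j) ⬝ᵥ (φ m i - φ m j)) = 0) ∨
    ∃ m, m ≠ 0 ∧ ∀ j, (P i - P j) ⬝ᵥ (φ m i - φ m j) = 0

def S_TA : Prop := ∀ (E : Type) [AddCommGroup E] [Module ℝ E], Module.finrank ℝ E = 2 →
  ∀ (P : Fin 5 → Fin 3 → ℝ) (φ : E →ₗ[ℝ] (Fin 5 → Fin 3 → ℝ)), GP5 P →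
  (∀ x : Fin 3 → ℝ, ∃ (m : E) (t : Fin 3 → ℝ), (m ≠ 0 ∨ t ≠ 0) ∧
    ∀ i, (x - P i) ⬝ᵥ (t - φ m i) = 0) →
  (∀ m, (∀ i j, (P i - P j) ⬝ᵥ (φ m i - φ m j) = 0) → m = 0) →
  (∀ i j k, i ≠ j → j ≠ k → i ≠ k → ¬ ∀ m, (P i - P j) ⬝ᵥ (φ m i - φ m j) = 0 ∧
    (P j - P k) ⬝ᵥ (φ m j - φ m k) = 0 ∧ (P i - P k) ⬝ᵥ (φ m i - φ m k) = 0) →
  ∀ m, ∑ i, mu P i • φ m i = 0 ∧ ∑ i, mu P i * (P i ⬝ᵥ φ m i) = 0

def S_TAG : Prop := ∀ (V : Type) [Fintype V] [DecidableEq V] (G : SimpleGraph V) (R Z : Finset V)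
  (hub : V → V) (en : V → Fin 5 → V), Core G R Z hub → Enum G Z en → NoK4 G Z → TypeA G Z en

/-! ### Step 3: the stress and the cuts -/

/-- a stress, at each vertex of `Z` proportional to the affine dependency of the neighbours -/
def Str {V : Type} [Fintype V] (G : SimpleGraph V) (Z : Finset V) (en : V → Fin 5 → V)
    (p : V → Fin 3 → ℝ) : Prop :=
  ∃ ω : V → V → ℝ, (∀ x y, ω x y = ω y x) ∧ (∀ x y, ω x y ≠ 0 → G.Adj x y) ∧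
    (∀ q : V → Fin 3 → ℝ, (∀ x, x ∉ Z → q x = 0) →
      ∑ x, ∑ y, ω x y * ((p x - p y) ⬝ᵥ (q x - q y)) = 0) ∧
    ∀ v ∈ Z, ∃ s : ℝ, s ≠ 0 ∧ ∀ w, ω v w = s * kap en p v w

def S_STR : Prop := ∀ (V : Type) [Fintype V] [DecidableEq V] (G : SimpleGraph V) (R Z : Finset V)
  (hub : V → V) (en : V → Fin 5 → V), Core G R Z hub → Enum G Z en → TypeA G Z en →
  ∀ p, MG p → Str G Z en p

def S_MUT : Prop := ∀ (V : Type) [Fintype V] [DecidableEq V] (G : SimpleGraph V) (R Z : Finset V)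
  (hub : V → V) (en : V → Fin 5 → V), Core G R Z hub → Enum G Z en →
  (∀ p, MG p → Str G Z en p) →
  ∀ v ∈ Z, ∀ w ∈ Z, G.Adj v w → (nb G v).erase w ≠ (nb G w).erase v

def S_CUT : Prop := ∀ (V : Type) [Fintype V] [DecidableEq V] (G : SimpleGraph V) (R Z : Finset V)
  (hub : V → V) (en : V → Fin 5 → V), Core G R Z hub → Enum G Z en →
  (∀ p, MG p → Str G Z en p) →
  ∀ v ∈ Z, ∀ w ∈ Z, G.Adj v w → (nb G v).erase w ≠ (nb G w).erase v →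
    ¬ (HX G Z ((nb G v).erase w)).Reachable v w

def S_FC : Prop := ∀ (V : Type) [Fintype V] [DecidableEq V] (G : SimpleGraph V) (Z : Finset V),
  (∀ v ∈ Z, (nb G v).card = 5) → (∀ v ∈ Z, (nb G v \ Z).card = 1) →
  (∀ v ∈ Z, ∀ w ∈ Z, G.Adj v w → (nb G v).erase w ≠ (nb G w).erase v) →
  (∀ v ∈ Z, ∀ w ∈ Z, G.Adj v w → ¬ (HX G Z ((nb G v).erase w)).Reachable v w) →
  ∀ v ∈ Z, ∀ w ∈ Z, ∀ u ∈ Z, G.Adj v w → G.Adj w u → nb G u = nb G v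

def S_ROT : Prop := ∀ (V : Type) [Fintype V] [DecidableEq V] (G : SimpleGraph V) (R Z : Finset V)
  (hub : V → V), Core G R Z hub →
  (∀ v ∈ Z, ∀ w ∈ Z, ∀ u ∈ Z, G.Adj v w → G.Adj w u → nb G u = nb G v) → False

/-! ### Step 1: no complete graph with four vertices -/

def S_DICH : Prop := ∀ (E : Type) [AddCommGroup E] [Module ℝ E], Module.finrank ℝ E = 2 →
  ∀ (z z' : Fin 3 → ℝ) (δ δ' : E →ₗ[ℝ] (Fin 3 → ℝ)),
  (∀ y, ∃ u, u ≠ 0 ∧ (y - z) ⬝ᵥ δ u = 0 ∧ (y - z') ⬝ᵥ δ' u = 0) →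
  (∀ u, δ u = 0 → δ' u = 0 → u = 0) → δ ≠ 0 → δ' ≠ 0 →
  ∃ ρ : ℝ, ρ ≠ 0 ∧ ∀ u, δ' u = ρ • δ u ∧ (z - z') ⬝ᵥ δ u = 0

/-- both constraints of the index `x` -/
def cc {ι U : Type} [AddCommGroup U] [Module ℝ U] (z z' : ι → Fin 3 → ℝ)
    (δ δ' : ι → (U →ₗ[ℝ] (Fin 3 → ℝ))) (q : ι → Fin 3 → ℝ) (x : ι) (u : U) : Prop :=
  (q x - z x) ⬝ᵥ δ x u = 0 ∧ (q x - z' x) ⬝ᵥ δ' x u = 0

def S_KL : Prop := ∀ (ι : Type) [Fintype ι] [DecidableEq ι] (U : Type) [AddCommGroup U]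
  [Module ℝ U] [FiniteDimensional ℝ U] (z z' : ι → Fin 3 → ℝ)
  (δ δ' : ι → (U →ₗ[ℝ] (Fin 3 → ℝ))) (g : (ι → Fin 3 → ℝ) → Prop), Nonempty ι → TA.Good g →
  (∃ q, g q) →
  (∀ q, g q → ∃ u, u ≠ 0 ∧ ∀ x, cc z z' δ δ' q x u) →
  (∀ q, g q → ∀ u u', (∀ x, cc z z' δ δ' q x u) → (∀ x, cc z z' δ δ' q x u') → u ≠ 0 →
    ∃ c : ℝ, u' = c • u) →
  (∀ q, g q → ∀ x, Module.finrank ℝ (Submodule.span ℝ
    {u : U | ∀ y, y ≠ x → cc z z' δ δ' q y u}) ≤ 2) →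
  (∀ q, g q → ∀ u, u ≠ 0 → (∀ x, cc z z' δ δ' q x u) → ∀ x, δ x u ≠ 0 ∧ δ' x u ≠ 0) →
  (∀ q, g q → ∀ x y, x ≠ y → ∃ u, (∀ w, w ≠ x → w ≠ y → cc z z' δ δ' q w u) ∧
    (z x - z' x) ⬝ᵥ δ x u ≠ 0) →
  ∃ ρ : ι → ℝ, (∀ x, ρ x ≠ 0) ∧ Module.finrank ℝ (Submodule.span ℝ
    {u : U | ∀ x, δ' x u = ρ x • δ x u ∧ (z x - z' x) ⬝ᵥ δ x u = 0}) = Fintype.card ι + 1

/-- `K` is a complete subgraph with four vertices, `KZ` its part in `Z`, and `z x`, `z' x` are the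
two neighbours outside of `K` of each `x` in `KZ`. -/
structure Cfg {V : Type} (G : SimpleGraph V) (Z K KZ : Finset V) (z z' : V → V) : Prop where
  card : K.card = 4
  clique : Cq G K
  mem : ∀ x, x ∈ KZ ↔ x ∈ K ∧ x ∈ Z
  ne : KZ.Nonempty
  adj : ∀ x ∈ KZ, G.Adj x (z x) ∧ G.Adj x (z' x) ∧ z x ≠ z' x ∧ z x ∉ K ∧ z' x ∉ K
  nbx : ∀ x ∈ KZ, ∀ y, G.Adj x y → y ∈ K ∨ y = z x ∨ y = z' x

/-- pairs of an infinitesimal isometry `T` of `K`, which is zero at the vertices of `K` outside of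
`KZ`, and a pinned motion of the graph without `KZ` -/
def UU {V : Type} (G : SimpleGraph V) (Z K KZ : Finset V) (p : V → Fin 3 → ℝ) :
    Submodule ℝ (((Fin 3 → ℝ) × (Fin 3 → ℝ)) × (V → Fin 3 → ℝ)) where
  carrier := {u | u.2 ∈ PM G Z KZ p ∧ ∀ r ∈ K, r ∉ KZ → fld u.1 (p r) = 0}
  add_mem' := by
    rintro a b ⟨h1, h2⟩ ⟨h1', h2'⟩
    refine ⟨Submodule.add_mem _ h1 h1', fun r hr hr' => ?_⟩
    have e : fld (a + b).1 (p r) = fld a.1 (p r) + fld b.1 (p r) := by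
      simp only [fld, Prod.fst_add, Prod.snd_add, map_add, LinearMap.add_apply]
      abel
    rw [e, h2 r hr hr', h2' r hr hr', add_zero]
  zero_mem' := ⟨Submodule.zero_mem _, fun r _ _ => by simp [fld]⟩
  smul_mem' := by
    rintro c a ⟨h1, h2⟩
    refine ⟨Submodule.smul_mem _ c h1, fun r hr hr' => ?_⟩
    have e : fld (c • a).1 (p r) = c • fld a.1 (p r) := by
      simp only [fld, Prod.smul_fst, Prod.smul_snd, map_smul, LinearMap.smul_apply, smul_add]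
    rw [e, h2 r hr hr', smul_zero]

/-- velocity of the vertex `y` relative to the infinitesimal isometry -/
noncomputable def dlt {V : Type} (p : V → Fin 3 → ℝ) (y : V) :
    (((Fin 3 → ℝ) × (Fin 3 → ℝ)) × (V → Fin 3 → ℝ)) →ₗ[ℝ] (Fin 3 → ℝ) where
  toFun u := u.2 y - fld u.1 (p y)
  map_add' a b := by
    simp only [fld, Prod.fst_add, Prod.snd_add, map_add, LinearMap.add_apply, Pi.add_apply]
    abel
  map_smul' c a := by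
    simp only [fld, Prod.smul_fst, Prod.smul_snd, map_smul, LinearMap.smul_apply, smul_add,
      Pi.smul_apply, RingHom.id_apply, smul_sub]

/-- both constraints of the vertex `x` -/
def cst {V : Type} (p : V → Fin 3 → ℝ) (z z' : V → V) (x : V)
    (u : ((Fin 3 → ℝ) × (Fin 3 → ℝ)) × (V → Fin 3 → ℝ)) : Prop :=
  (p x - p (z x)) ⬝ᵥ dlt p (z x) u = 0 ∧ (p x - p (z' x)) ⬝ᵥ dlt p (z' x) u = 0

open Classical in
/-- the velocities given by `T` on `KZ` and by `m` elsewhere -/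
noncomputable def Phi {V : Type} (KZ : Finset V) (p : V → Fin 3 → ℝ)
    (T : (Fin 3 → ℝ) × (Fin 3 → ℝ)) (m : V → Fin 3 → ℝ) : V → Fin 3 → ℝ :=
  fun x => if x ∈ KZ then fld T (p x) else m x

/-- pinned motions of a graph that contains the complete graph `K` -/
def S_PAR : Prop := ∀ (V : Type) [Fintype V] [DecidableEq V] (G G' : SimpleGraph V)
  (Z K KZ : Finset V) (p : V → Fin 3 → ℝ), MG p → K.card = 4 → Cq G' K →
  (∀ x, x ∈ KZ ↔ x ∈ K ∧ x ∈ Z) → G' ≤ G → (∀ x y, x ∉ KZ → y ∉ KZ → G.Adj x y → G'.Adj x y) →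
  (∀ g, g ∈ PM G' Z ∅ p ↔ ∃ u ∈ UU G Z K KZ p, g = Phi KZ p u.1 u.2 ∧
    ∀ x ∈ KZ, ∀ y, y ∉ K → G'.Adj x y → (p x - p y) ⬝ᵥ dlt p y u = 0) ∧
  (∀ u ∈ UU G Z K KZ p, Phi KZ p u.1 u.2 = 0 → u = 0)

def S_HH : Prop := ∀ (V : Type) [Fintype V] [DecidableEq V] (G : SimpleGraph V) (R Z : Finset V)
  (hub : V → V), Core G R Z hub → ∀ (K KZ : Finset V) (z z' : V → V), Cfg G Z K KZ z z' →
  ∀ p, MG p →
  (∃ u ∈ UU G Z K KZ p, u ≠ 0 ∧ ∀ x ∈ KZ, cst p z z' x u) ∧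
  (∀ u ∈ UU G Z K KZ p, ∀ u' ∈ UU G Z K KZ p, (∀ x ∈ KZ, cst p z z' x u) →
    (∀ x ∈ KZ, cst p z z' x u') → u ≠ 0 → ∃ c : ℝ, u' = c • u) ∧
  (∀ x ∈ KZ, Module.finrank ℝ (Submodule.span ℝ
    {u | u ∈ UU G Z K KZ p ∧ ∀ y ∈ KZ, y ≠ x → cst p z z' y u}) ≤ 2) ∧
  (∀ u ∈ UU G Z K KZ p, u ≠ 0 → (∀ x ∈ KZ, cst p z z' x u) →
    ∀ x ∈ KZ, dlt p (z x) u ≠ 0 ∧ dlt p (z' x) u ≠ 0) ∧
  (∀ x ∈ KZ, ∀ y ∈ KZ, x ≠ y → ∃ u ∈ UU G Z K KZ p,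
    (∀ w ∈ KZ, w ≠ x → w ≠ y → cst p z z' w u) ∧ (p (z x) - p (z' x)) ⬝ᵥ dlt p (z x) u ≠ 0)

/-- the two other neighbours of `x` are not adjacent to the rest of `K` -/
def S_DJ : Prop := ∀ (V : Type) [Fintype V] [DecidableEq V] (G : SimpleGraph V) (R Z : Finset V)
  (hub : V → V), Core G R Z hub → ∀ (K KZ : Finset V) (z z' : V → V), Cfg G Z K KZ z z' →
  ∀ x ∈ KZ, ∀ y ∈ K, y ≠ x → ¬ G.Adj y (z x) ∧ ¬ G.Adj y (z' x)

def S_KAP : Prop := ∀ (V : Type) [Fintype V] [DecidableEq V] (G : SimpleGraph V) (R Z : Finset V)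
  (hub : V → V), Core G R Z hub → ∀ (K KZ : Finset V) (z z' : V → V), Cfg G Z K KZ z z' →
  ∀ p, MG p → ∃ ρ : V → ℝ, (∀ x ∈ KZ, ρ x ≠ 0) ∧ Module.finrank ℝ (Submodule.span ℝ
    {u | u ∈ UU G Z K KZ p ∧ ∀ x ∈ KZ, dlt p (z' x) u = ρ x • dlt p (z x) u ∧
      (p (z x) - p (z' x)) ⬝ᵥ dlt p (z x) u = 0}) = KZ.card + 1

def S_K3 : Prop := ∀ (V : Type) [Fintype V] [DecidableEq V] (G : SimpleGraph V) (R Z : Finset V)
  (hub : V → V), Core G R Z hub → ∀ (K KZ : Finset V) (z z' : V → V), Cfg G Z K KZ z z' →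
  KZ.card ≠ 3

def S_K4 : Prop := ∀ (V : Type) [Fintype V] [DecidableEq V] (G : SimpleGraph V) (R Z : Finset V)
  (hub : V → V), Core G R Z hub → ∀ (K KZ : Finset V) (z z' : V → V), Cfg G Z K KZ z z' →
  KZ.card ≠ 4

def S_NK : Prop := ∀ (V : Type) [Fintype V] [DecidableEq V] (G : SimpleGraph V) (R Z : Finset V)
  (hub : V → V), Core G R Z hub → NoK4 G Z

/-! ### Step 0: the reduction -/

/-- the complete graph on `R` and one edge from each vertex of `Z` to `R` -/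
def base {V : Type} (R Z : Finset V) (hub : V → V) : SimpleGraph V where
  Adj x y := x ≠ y ∧ ((x ∈ R ∧ y ∈ R) ∨ (x ∈ Z ∧ y = hub x) ∨ (y ∈ Z ∧ x = hub y))
  symm := ⟨fun _ _ h => ⟨h.1.symm, by tauto⟩⟩
  loopless := ⟨fun _ h => h.1 rfl⟩

/-- additional edges -/
def Ext {V : Type} (R Z : Finset V) (hub : V → V) (F : SimpleGraph V) : Prop :=
  ∀ x y, F.Adj x y → (x ∈ R ∨ x ∈ Z) ∧ (y ∈ R ∨ y ∈ Z) ∧ ¬ (base R Z hub).Adj x y

/-- the additional edges are independent over the base in the matroid `M` -/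
def MInd {V : Type} (M : Matroid (Sym2 V)) (R Z : Finset V) (hub : V → V)
    (F : SimpleGraph V) : Prop :=
  M.eRk (base R Z hub ⊔ F).edgeSet = M.eRk (base R Z hub).edgeSet + (F.edgeSet.ncard : ℕ∞)

/-- the additional edges are independent over the base in the generic rigidity matroid -/
def RInd {V : Type} [Fintype V] (R Z : Finset V) (hub : V → V) (F : SimpleGraph V) : Prop :=
  ∀ p : V → Fin 3 → ℝ, MG p → mo (base R Z hub) p = mo (base R Z hub ⊔ F) p + F.edgeSet.ncard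

/-- all pairs are in the ground set and complete graphs with five vertices are circuits -/
def K5C {V : Type} (M : Matroid (Sym2 V)) : Prop :=
  (∀ e : Sym2 V, ¬ e.IsDiag → e ∈ M.E) ∧ ∀ A : Finset V, A.card = 5 → M.IsCircuit (pairs A)

/-- `R` and `Z` are disjoint, `R` has at least three elements, the hubs are in `R` -/
def Hb {V : Type} (R Z : Finset V) (hub : V → V) : Prop :=
  (∀ x ∈ R, x ∉ Z) ∧ 3 ≤ R.card ∧ ∀ v ∈ Z, hub v ∈ R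

/-- the statement holds for all smaller sets `Z` -/
def MinZ {V : Type} [Fintype V] (M : Matroid (Sym2 V)) (R Z : Finset V) (hub : V → V) : Prop :=
  ∀ Z' : Finset V, Z' ⊂ Z → ∀ F, Ext R Z' hub F → MInd M R Z' hub F → RInd R Z' hub F

def S_BAS : Prop := ∀ (V : Type) [Fintype V] (R Z : Finset V) (hub : V → V), Hb R Z hub →
  ∀ p : V → Fin 3 → ℝ, MG p →
    mo (base R Z hub) p + 3 * R.card + Z.card = 6 + 3 * Fintype.card V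

def S_KR : Prop := ∀ (V : Type) [Fintype V] [DecidableEq V] (M : Matroid (Sym2 V)), K5C M →
  ∀ A : Finset V, 3 ≤ A.card → M.eRk (pairs A) + 6 ≤ (3 * A.card : ℕ)

def S_SPAN : Prop := ∀ (V : Type) [Fintype V] [DecidableEq V] (M : Matroid (Sym2 V)), K5C M →
  ∀ (R Z : Finset V) (hub : V → V), Hb R Z hub →
  M.eRk (pairs (R ∪ Z)) ≤ M.eRk (base R Z hub).edgeSet + ((2 * Z.card : ℕ) : ℕ∞) ∧
  (M.eRk (base R Z hub).edgeSet + ((2 * Z.card : ℕ) : ℕ∞) ≤ M.eRk (pairs (R ∪ Z)) →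
    ∀ e ∈ pairs (R ∪ Z), e ∉ (base R Z hub).edgeSet → e ∉ M.closure (base R Z hub).edgeSet)

def S_DEG : Prop := ∀ (V : Type) [Fintype V] [DecidableEq V] (M : Matroid (Sym2 V)), K5C M →
  ∀ (R Z : Finset V) (hub : V → V), Hb R Z hub → MinZ M R Z hub →
  ∀ F, Ext R Z hub F → MInd M R Z hub F → ¬ RInd R Z hub F → ∀ v ∈ Z, 4 ≤ (nb F v).card

def S_CNT : Prop := ∀ (V : Type) [Fintype V] [DecidableEq V] (M : Matroid (Sym2 V)), K5C M →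
  ∀ (R Z : Finset V) (hub : V → V), Hb R Z hub →
  ∀ F, Ext R Z hub F → MInd M R Z hub F → (∀ v ∈ Z, 4 ≤ (nb F v).card) →
  F.edgeSet.ncard = 2 * Z.card ∧ (∀ x y, F.Adj x y → x ∈ Z) ∧ (∀ v ∈ Z, (nb F v).card = 4)

def S_CLO : Prop := ∀ (V : Type) [Fintype V] [DecidableEq V] (M : Matroid (Sym2 V)), K5C M →
  ∀ (R Z : Finset V) (hub : V → V), Hb R Z hub → MinZ M R Z hub →
  ∀ F, Ext R Z hub F → MInd M R Z hub F → ¬ RInd R Z hub F →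
  ∀ p : V → Fin 3 → ℝ, MG p → ∀ x y, x ∈ R ∨ x ∈ Z → y ∈ R ∨ y ∈ Z → x ≠ y →
    Imp (base R Z hub ⊔ F) p x y → (base R Z hub ⊔ F).Adj x y

def S_COR : Prop := ∀ (V : Type) [Fintype V] [DecidableEq V] (M : Matroid (Sym2 V)), K5C M →
  ∀ (R Z : Finset V) (hub : V → V), Hb R Z hub → MinZ M R Z hub →
  ∀ F, Ext R Z hub F → MInd M R Z hub F → ¬ RInd R Z hub F →
  (∀ F', F' < F → Ext R Z hub F' → MInd M R Z hub F' → RInd R Z hub F') →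
  Core (base R Z hub ⊔ F) R Z hub

def S_FIN : Prop := ∀ (V : Type) [Fintype V] [DecidableEq V] (M : Matroid (Sym2 V)), K5C M →
  (∀ (R Z : Finset V) (hub : V → V), Hb R Z hub →
    ∀ F, Ext R Z hub F → MInd M R Z hub F → RInd R Z hub F) →
  ∀ (G : SimpleGraph V) (R : Finset V), 3 ≤ R.card →
  (∀ a ∈ R, ∀ b ∈ R, a ≠ b → Linked 3 G a b) → (∀ v, v ∉ R → ∃ r ∈ R, Linked 3 G v r) →
  M.eRk G.edgeSet ≤ genRank 3 G

end Pool.Agent.N423.DC
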