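import Mathlib
import Pool.Agent.N423.DC.Stm

/-!
# Graphs with a dominating clique: linear algebra of five points (helper441)
-/

set_option autoImplicit false

namespace Pool.Agent.N423.DC

namespace ALG

lemma sum5 {a b c d e : Fin 5} (hp : Function.Injective ![a, b, c, d, e]) (f : Fin 5 → ℝ) :
    ∑ i, f i = f a + f b + f c + f d + f e := by
  rw [← (Equiv.ofBijective _ (Finite.injective_iff_bijective.1 hp)).sum_comp f,
    Fin.sum_univ_five]
  rfl

lemma inj5 {a b c d e : Fin 5} (h1 : a ≠ b) (h2 : a ≠ c) (h3 : a ≠ d) (h4 : a ≠ e) (h5 : b ≠ c)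
    (h6 : b ≠ d) (h7 : b ≠ e) (h8 : c ≠ d) (h9 : c ≠ e) (h10 : d ≠ e) :
    Function.Injective ![a, b, c, d, e] := by
  intro x y hxy
  fin_cases x <;> fin_cases y <;> simp_all

lemma fifth (a b c d : Fin 5) : ∃ e, e ≠ a ∧ e ≠ b ∧ e ≠ c ∧ e ≠ d := by
  have h1 : ({a, b, c, d} : Finset (Fin 5)).card < (Finset.univ : Finset (Fin 5)).card := by
    refine lt_of_le_of_lt Finset.card_le_four ?_
    simp
  obtain ⟨e, -, he⟩ := Finset.exists_mem_notMem_of_card_lt_card h1
  simp only [Finset.mem_insert, Finset.mem_singleton, not_or] at he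
  exact ⟨e, he.1, he.2.1, he.2.2.1, he.2.2.2⟩

/-- three zero rows -/
lemma three (A : Fin 5 → Fin 5 → ℝ) (hs : ∀ i j, A i j = A j i) (hd : ∀ i, A i i = 0)
    (ht : ∑ i, ∑ j, A i j = 0) {a b c d e : Fin 5} (hp : Function.Injective ![a, b, c, d, e])
    (ha : ∀ j, A a j = 0) (hb : ∀ j, A b j = 0) (hc : ∀ j, A c j = 0) : ∑ j, A d j = 0 := by
  have e1 : ∀ i, ∑ j, A i j = A i a + A i b + A i c + A i d + A i e := fun i => sum5 hp _
  have e2 := sum5 hp (fun i => ∑ j, A i j)
  have c1 : ∀ i, A i a = 0 := fun i => by rw [hs]; exact ha i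
  have c2 : ∀ i, A i b = 0 := fun i => by rw [hs]; exact hb i
  have c3 : ∀ i, A i c = 0 := fun i => by rw [hs]; exact hc i
  simp only [e1] at e2 ht ⊢
  rw [e2] at ht
  have k1 := hs d e
  simp only [ha, hb, hc, c1, c2, c3, hd] at ht ⊢
  linarith

/-- two zero rows and zero row sums -/
lemma two (A : Fin 5 → Fin 5 → ℝ) (hs : ∀ i j, A i j = A j i) (hd : ∀ i, A i i = 0)
    (ht : ∀ i, ∑ j, A i j = 0) {a b : Fin 5} (hab : a ≠ b)
    (ha : ∀ j, A a j = 0) (hb : ∀ j, A b j = 0) (i j : Fin 5) : A i j = 0 := by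
  have c1 : ∀ i, A i a = 0 := fun i => by rw [hs]; exact ha i
  have c2 : ∀ i, A i b = 0 := fun i => by rw [hs]; exact hb i
  by_cases h1 : i = a
  · rw [h1]; exact ha j
  by_cases h2 : i = b
  · rw [h2]; exact hb j
  by_cases h3 : j = a
  · rw [h3]; exact c1 i
  by_cases h4 : j = b
  · rw [h4]; exact c2 i
  by_cases h5 : i = j
  · rw [h5]; exact hd j
  obtain ⟨k, k1, k2, k3, k4⟩ := fifth a b i j
  have hp : Function.Injective ![a, b, i, j, k] :=
    inj5 hab (Ne.symm h1) (Ne.symm h3) k1.symm (Ne.symm h2) (Ne.symm h4) k2.symm h5 k3.symm k4.symm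
  have e1 := ht i
  have e2 := ht j
  have e3 := ht k
  rw [sum5 hp] at e1 e2 e3
  have s1 := hs i j
  have s2 := hs i k
  have s3 := hs j k
  simp only [c1, c2, hd] at e1 e2 e3
  linarith

/-- two zero rows, total sum zero and one more row sum zero -/
lemma tri (A : Fin 5 → Fin 5 → ℝ) (hs : ∀ i j, A i j = A j i) (hd : ∀ i, A i i = 0)
    (ht : ∑ i, ∑ j, A i j = 0) {a b c d e : Fin 5} (hp : Function.Injective ![a, b, c, d, e])
    (ha : ∀ j, A a j = 0) (hb : ∀ j, A b j = 0) (hc : ∑ j, A c j = 0) : A d e = 0 := by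
  have e1 : ∀ i, ∑ j, A i j = A i a + A i b + A i c + A i d + A i e := fun i => sum5 hp _
  have e2 := sum5 hp (fun i => ∑ j, A i j)
  have c1 : ∀ i, A i a = 0 := fun i => by rw [hs]; exact ha i
  have c2 : ∀ i, A i b = 0 := fun i => by rw [hs]; exact hb i
  simp only [e1] at e2 ht hc ⊢
  rw [e2] at ht
  have k1 := hs d e
  have k2 := hs c d
  have k3 := hs c e
  simp only [ha, hb, c1, c2, hd] at ht hc ⊢
  linarith

section

variable {E : Type} [AddCommGroup E] [Module ℝ E]

lemma eq0 (hE : Module.finrank ℝ E = 2) {x y : E} (h : LinearIndependent ℝ ![x, y])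
    (f : E →ₗ[ℝ] ℝ) (hx : f x = 0) (hy : f y = 0) : f = 0 := by
  have hfd : FiniteDimensional ℝ E := Module.finite_of_finrank_pos (by rw [hE]; norm_num)
  have h1 := h.span_eq_top_of_card_eq_finrank' (by rw [hE]; simp)
  refine LinearMap.ext_on_range h1 fun i => ?_
  fin_cases i
  · simpa using hx
  · simpa using hy

lemma par {x y : E} (hx : x ≠ 0) (hy : y ≠ 0) (h : ¬ LinearIndependent ℝ ![x, y]) :
    ∃ a : ℝ, a • y = x := by
  rw [LinearIndependent.pair_iff' hx] at h
  push Not at h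
  obtain ⟨a, ha⟩ := h
  have ha0 : a ≠ 0 := by
    rintro rfl
    rw [zero_smul] at ha
    exact hy ha.symm
  refine ⟨a⁻¹, ?_⟩
  rw [← ha, smul_smul, inv_mul_cancel₀ ha0, one_smul]

end

end ALG

open ALG in
theorem alg : S_ALG := by
  intro E _ _ hE μ l hμ hs hd hrel h5 h6 h7
  -- the weighted matrix
  obtain ⟨A, hA⟩ : ∃ A : E → Fin 5 → Fin 5 → ℝ, A = fun m i j => μ i * μ j * l i j m := ⟨_, rfl⟩
  have hA0 : ∀ m i j, A m i j = 0 ↔ l i j m = 0 := by
    intro m i j
    rw [hA]
    simp [hμ i, hμ j]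
  have hAs : ∀ m i j, A m i j = A m j i := by
    intro m i j
    rw [hA]
    simp only []
    rw [hs i j]
    ring
  have hAd : ∀ m i, A m i i = 0 := by
    intro m i
    rw [hA0, hd]
    rfl
  have hAr : ∀ m i, ∑ j, A m i j = μ i * ∑ j, μ j * l i j m := by
    intro m i
    rw [hA, Finset.mul_sum]
    refine Finset.sum_congr rfl fun j _ => ?_
    ring
  have hAr0 : ∀ m i, ∑ j, A m i j = 0 ↔ ∑ j, μ j * l i j m = 0 := by
    intro m i
    rw [hAr]
    simp [hμ i]
  have hAt : ∀ m, ∑ i, ∑ j, A m i j = 0 := by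
    intro m
    rw [hA]
    exact hrel m
  -- the functionals
  obtain ⟨L, hL⟩ : ∃ L : Fin 5 → (E →ₗ[ℝ] ℝ), L = fun i => ∑ j, μ j • l i j := ⟨_, rfl⟩
  have hLm : ∀ i m, L i m = ∑ j, μ j * l i j m := by
    intro i m
    rw [hL]
    simp [LinearMap.sum_apply]
  have hRL : ∀ i m, (∀ j, l i j m = 0) → L i m = 0 := by
    intro i m h
    rw [hLm]
    exact Finset.sum_eq_zero fun j _ => by rw [h j, mul_zero]
  have hLA : ∀ i m, L i m = 0 ↔ ∑ j, A m i j = 0 := by
    intro i m
    rw [hLm, hAr0]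
  -- the directions
  have hm : ∀ i, ∃ m : E, L i ≠ 0 → m ≠ 0 ∧ ∀ j, l i j m = 0 := by
    intro i
    rcases h5 i with h | ⟨m, hm0, hm⟩
    · refine ⟨0, fun h1 => absurd ?_ h1⟩
      ext m
      rw [hLm]
      exact h m
    · exact ⟨m, fun _ => ⟨hm0, hm⟩⟩
  choose m hm using hm
  by_contra hcon
  push Not at hcon
  obtain ⟨i0, y0, hy0⟩ := hcon
  have hi0 : L i0 ≠ 0 := by
    intro h
    apply hy0
    rw [← hLm, h]
    rfl
  obtain ⟨hm0, hR0⟩ := hm i0 hi0
  -- a row vanishes at `x` if the direction is parallel to `x`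
  have hpar : ∀ i (x : E), x ≠ 0 → L i ≠ 0 → ¬ LinearIndependent ℝ ![x, m i] →
      ∀ j, l i j x = 0 := by
    intro i x hx hi h j
    obtain ⟨a, ha⟩ := par hx (hm i hi).1 h
    rw [← ha, map_smul, (hm i hi).2 j, smul_zero]
  by_cases hcase : ∃ i1, L i1 ≠ 0 ∧ LinearIndependent ℝ ![m i0, m i1]
  · obtain ⟨i1, hi1, hLI⟩ := hcase
    obtain ⟨hm1, hR1⟩ := hm i1 hi1
    have hLI' : LinearIndependent ℝ ![m i1, m i0] := by
      rw [LinearIndependent.pair_symm_iff]
      exact hLI
    -- the three types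
    have hT : ∀ i, L i = 0 ∨ (∀ j, l i j (m i0) = 0) ∨ ∀ j, l i j (m i1) = 0 := by
      intro i
      by_cases hi : L i = 0
      · exact Or.inl hi
      right
      by_cases k1 : LinearIndependent ℝ ![m i0, m i]
      · right
        by_cases k2 : LinearIndependent ℝ ![m i1, m i]
        · exfalso
          have z1 : l i0 i = 0 := eq0 hE k1 _ (hR0 i) (by rw [hs]; exact (hm i hi).2 i0)
          have z2 : l i1 i = 0 := eq0 hE k2 _ (hR1 i) (by rw [hs]; exact (hm i hi).2 i1)
          have z3 : l i0 i1 = 0 := eq0 hE hLI _ (hR0 i1) (by rw [hs]; exact hR1 i0)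
          have n1 : i0 ≠ i := by
            rintro rfl
            rw [LinearIndependent.pair_iff' hm0] at k1
            exact k1 1 (one_smul _ _)
          have n2 : i1 ≠ i := by
            rintro rfl
            rw [LinearIndependent.pair_iff' hm1] at k2
            exact k2 1 (one_smul _ _)
          have n3 : i0 ≠ i1 := by
            rintro rfl
            rw [LinearIndependent.pair_iff' hm0] at hLI
            exact hLI 1 (one_smul _ _)
          exact h7 i0 i1 i n3 n2 n1 ⟨z3, z2, z1⟩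
        · exact hpar i (m i1) hm1 hi k2
      · left
        exact hpar i (m i0) hm0 hi k1
    have q0 : L i0 (m i1) ≠ 0 := fun h => hi0 (eq0 hE hLI _ (hRL i0 _ hR0) h)
    have q1 : L i1 (m i0) ≠ 0 := fun h => hi1 (eq0 hE hLI _ h (hRL i1 _ hR1))
    -- partners
    have hpart : ∀ (i : Fin 5) (x : E), L i x ≠ 0 → ∃ i', i' ≠ i ∧ L i' x ≠ 0 := by
      intro i x hi
      by_contra hc
      push Not at hc
      apply hi
      rw [hLA]
      have h1 := hAt x
      rw [Finset.sum_eq_single i] at h1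
      · exact h1
      · intro b _ hb
        exact (hLA b x).1 (hc b hb)
      · intro h
        exact absurd (Finset.mem_univ _) h
    obtain ⟨j0, hj0, p0⟩ := hpart i0 (m i1) q0
    obtain ⟨j1, hj1, p1⟩ := hpart i1 (m i0) q1
    have hj0n : L j0 ≠ 0 := by
      intro h
      apply p0
      rw [h]
      rfl
    have hj1n : L j1 ≠ 0 := by
      intro h
      apply p1
      rw [h]
      rfl
    have hRj0 : ∀ j, l j0 j (m i0) = 0 := by
      rcases hT j0 with h | h | h
      · exact absurd h hj0n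
      · exact h
      · exact absurd (hRL j0 _ h) p0
    have hRj1 : ∀ j, l j1 j (m i1) = 0 := by
      rcases hT j1 with h | h | h
      · exact absurd h hj1n
      · exact absurd (hRL j1 _ h) p1
      · exact h
    have n1 : i0 ≠ i1 := by
      intro h
      apply q1
      rw [← h]
      exact hRL i0 _ hR0
    have n2 : i0 ≠ j1 := by
      intro h
      apply p1
      rw [← h]
      exact hRL i0 _ hR0
    have n3 : j0 ≠ i1 := by
      intro h
      apply q1
      rw [← h]
      exact hRL j0 _ hRj0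
    have n4 : j0 ≠ j1 := by
      intro h
      apply p1
      rw [← h]
      exact hRL j0 _ hRj0
    obtain ⟨a, a1, a2, a3, a4⟩ := fifth i0 j0 i1 j1
    rcases hT a with h | h | h
    · -- `a` of the type zero
      have hp : Function.Injective ![i0, j0, a, i1, j1] :=
        inj5 hj0.symm a1.symm n1 n2 a2.symm n3 n4 a3 a4 hj1.symm
      have z0 : A (m i0) i1 j1 = 0 := tri (A (m i0)) (hAs _) (hAd _) (hAt _) hp
        (fun j => (hA0 _ _ _).2 (hR0 j)) (fun j => (hA0 _ _ _).2 (hRj0 j))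
        ((hLA a _).1 (by rw [h]; rfl))
      have z1 : l i1 j1 = 0 := eq0 hE hLI _ ((hA0 _ _ _).1 z0) (hR1 j1)
      have z2 : l i0 i1 = 0 := eq0 hE hLI _ (hR0 i1) (by rw [hs]; exact hR1 i0)
      have z3 : l i0 j1 = 0 := eq0 hE hLI _ (hR0 j1) (by rw [hs]; exact hRj1 i0)
      exact h7 i0 i1 j1 n1 hj1.symm n2 ⟨z2, z1, z3⟩
    · have hp : Function.Injective ![i0, j0, a, i1, j1] :=
        inj5 hj0.symm a1.symm n1 n2 a2.symm n3 n4 a3 a4 hj1.symm
      apply q1
      rw [hLA]
      exact three (A (m i0)) (hAs _) (hAd _) (hAt _) hp (fun j => (hA0 _ _ _).2 (hR0 j))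
        (fun j => (hA0 _ _ _).2 (hRj0 j)) (fun j => (hA0 _ _ _).2 (h j))
    · have hp : Function.Injective ![i1, j1, a, i0, j0] :=
        inj5 hj1.symm a3.symm n1.symm n3.symm a4.symm n2.symm n4.symm a1 a2 hj0.symm
      apply q0
      rw [hLA]
      exact three (A (m i1)) (hAs _) (hAd _) (hAt _) hp (fun j => (hA0 _ _ _).2 (hR1 j))
        (fun j => (hA0 _ _ _).2 (hRj1 j)) (fun j => (hA0 _ _ _).2 (h j))
  · push Not at hcase
    -- another index of nonzero type
    have hex : ∃ i1, i1 ≠ i0 ∧ L i1 ≠ 0 := by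
      by_contra hc
      push Not at hc
      apply hi0
      ext x
      rw [LinearMap.zero_apply, hLA]
      have h1 := hAt x
      rw [Finset.sum_eq_single i0] at h1
      · exact h1
      · intro b _ hb
        rw [← hLA, hc b hb]
        rfl
      · intro h
        exact absurd (Finset.mem_univ _) h
    obtain ⟨i1, hne, hi1⟩ := hex
    have hR1 : ∀ j, l i1 j (m i0) = 0 := hpar i1 (m i0) hm0 hi1 (hcase i1 hi1)
    have hrow : ∀ i, ∑ j, A (m i0) i j = 0 := by
      intro i
      rw [← hLA]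
      by_cases hi : L i = 0
      · rw [hi]
        rfl
      · exact hRL i _ (hpar i (m i0) hm0 hi (hcase i hi))
    apply hm0
    apply h6
    intro i j
    rw [← hA0]
    exact two (A (m i0)) (hAs _) (hAd _) hrow hne.symm (fun j => (hA0 _ _ _).2 (hR0 j))
      (fun j => (hA0 _ _ _).2 (hR1 j)) i j

end Pool.Agent.N423.DC
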