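import Mathlib
import Pool.Agent.N423.DC.Stm

/-!
# Graphs with a dominating clique: the assembly
-/

set_option autoImplicit false
set_option linter.unusedSectionVars false

namespace Pool.Agent.N423.DC

open Matrix Finset Pool.Agent.H283R2.DR Pool.Agent.H789R5 Pool.Agent.N423.DE

theorem exists_enum {V : Type} [Fintype V] {G : SimpleGraph V} {Z : Finset V}
    (h : ∀ v ∈ Z, (nb G v).card = 5) : ∃ en : V → Fin 5 → V, Enum G Z en := by
  classical
  have h1 : ∀ v, ∃ e : Fin 5 → V, v ∈ Z → Function.Injective e ∧ ∀ u, G.Adj v u ↔ ∃ i, e i = u := by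
    intro v
    by_cases hv : v ∈ Z
    · have e := (nb G v).equivFinOfCardEq (h v hv)
      refine ⟨fun i => (e.symm i : V), fun _ => ⟨?_, ?_⟩⟩
      · intro i j hij
        exact e.symm.injective (Subtype.ext hij)
      · intro u
        constructor
        · intro hu
          refine ⟨e ⟨u, mem_nb.2 hu⟩, ?_⟩
          show ((e.symm (e ⟨u, mem_nb.2 hu⟩) : nb G v) : V) = u
          rw [Equiv.symm_apply_apply]
        · rintro ⟨i, rfl⟩
          exact mem_nb.1 (e.symm i).2
    · exact ⟨fun _ => v, fun h => absurd h hv⟩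
  choose en hen using h1
  exact ⟨en, fun v hv => hen v hv⟩

theorem core_false (hNK : S_NK) (hTAG : S_TAG) (hSTR : S_STR) (hMUT : S_MUT) (hCUT : S_CUT)
    (hFC : S_FC) (hROT : S_ROT) {V : Type} [Fintype V] [DecidableEq V] {G : SimpleGraph V}
    {R Z : Finset V} {hub : V → V} (hc : Core G R Z hub) : False := by
  obtain ⟨en, hen⟩ := exists_enum (G := G) (Z := Z) hc.deg
  have h1 : NoK4 G Z := hNK V G R Z hub hc
  have h2 : TypeA G Z en := hTAG V G R Z hub en hc hen h1
  have h3 : ∀ p, MG p → Str G Z en p := hSTR V G R Z hub en hc hen h2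
  have h4 := hMUT V G R Z hub en hc hen h3
  have h5 := hCUT V G R Z hub en hc hen h3
  refine hROT V G R Z hub hc (hFC V G Z hc.deg ?_ h4 (fun v hv w hw hvw => h5 v hv w hw hvw
    (h4 v hv w hw hvw)))
  intro v hv
  rw [card_eq_one]
  refine ⟨hub v, ?_⟩
  ext x
  rw [mem_sdiff, mem_nb, mem_singleton]
  constructor
  · rintro ⟨hx, hxZ⟩
    rcases hc.supp x v hx.symm with h | h
    · exact hc.hub_uniq v hv x h hx
    · exact absurd h hxZ
  · rintro rfl
    exact ⟨hc.hub_adj v hv, hc.disj _ (hc.hub_mem v hv)⟩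

theorem claim (hCF : ∀ (V : Type) [Fintype V] [DecidableEq V] (G : SimpleGraph V)
    (R Z : Finset V) (hub : V → V), Core G R Z hub → False) (hCOR : S_COR)
    {V : Type} [Fintype V] [DecidableEq V] (M : Matroid (Sym2 V)) (hM : K5C M) (R : Finset V)
    (hub : V → V) : ∀ Z : Finset V, Hb R Z hub →
    ∀ F, Ext R Z hub F → MInd M R Z hub F → RInd R Z hub F := by
  intro Z
  induction Z using Finset.strongInduction with
  | H Z ih =>
    intro hb F
    have hmin : MinZ M R Z hub := by
      intro Z' hZ' F' h1 h2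
      refine ih Z' hZ' ⟨fun x hx hxZ => hb.1 x hx (hZ'.1 hxZ), hb.2.1,
        fun v hv => hb.2.2 v (hZ'.1 hv)⟩ F' h1 h2
    induction F using (wellFounded_lt (α := SimpleGraph V)).induction with
    | _ F ihF =>
      intro h1 h2
      by_contra h3
      exact hCF V _ R Z hub (hCOR V M hM R Z hub hb hmin F h1 h2 h3
        (fun F' hF' h1' h2' => ihF F' hF' h1' h2'))

theorem main_le (hCF : ∀ (V : Type) [Fintype V] [DecidableEq V] (G : SimpleGraph V)
    (R Z : Finset V) (hub : V → V), Core G R Z hub → False) (hCOR : S_COR) (hFIN : S_FIN)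
    {V : Type} [Fintype V] [DecidableEq V] (M : Matroid (Sym2 V)) (hM : K5C M)
    (G : SimpleGraph V) (R : Finset V) (hR : 3 ≤ R.card)
    (hlink : ∀ a ∈ R, ∀ b ∈ R, a ≠ b → Linked 3 G a b)
    (hdom : ∀ v, v ∉ R → ∃ r ∈ R, Linked 3 G v r) : M.eRk G.edgeSet ≤ genRank 3 G :=
  hFIN V M hM (fun R Z hub hb F h1 h2 => claim hCF hCOR M hM R hub Z hb F h1 h2) G R hR hlink hdom

/-- without the assumption on the ground set -/
theorem main_le' (hCF : ∀ (V : Type) [Fintype V] [DecidableEq V] (G : SimpleGraph V)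
    (R Z : Finset V) (hub : V → V), Core G R Z hub → False) (hCOR : S_COR) (hFIN : S_FIN)
    {V : Type} [Fintype V] [DecidableEq V] (M : Matroid (Sym2 V))
    (hM : ∀ A : Finset V, A.card = 5 → M.IsCircuit (pairs A))
    (G : SimpleGraph V) (R : Finset V) (hR : 3 ≤ R.card)
    (hlink : ∀ a ∈ R, ∀ b ∈ R, a ≠ b → Linked 3 G a b)
    (hdom : ∀ v, v ∉ R → ∃ r ∈ R, Linked 3 G v r) : M.eRk G.edgeSet ≤ genRank 3 G := by
  by_cases hV : 5 ≤ Fintype.card V
  · refine main_le hCF hCOR hFIN M ⟨?_, hM⟩ G R hR hlink hdom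
    intro e he
    induction e using Sym2.ind with
    | _ x y =>
      rw [Sym2.mk_isDiag_iff] at he
      obtain ⟨A, hA1, -, hA2⟩ := exists_subsuperset_card_eq (n := 5)
        (subset_univ ({x, y} : Finset V)) (by rw [card_pair he]; omega)
        (by rw [card_univ]; exact hV)
      refine (hM A hA2).subset_ground ⟨by rw [Sym2.mk_isDiag_iff]; exact he, ?_⟩
      intro z hz
      rw [Sym2.mem_iff] at hz
      apply hA1
      rw [mem_insert, mem_singleton]
      exact hz
  · have h1 : M.eRk G.edgeSet ≤ (Matroid.freeOn (Set.univ : Set (Sym2 V))).eRk G.edgeSet := by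
      refine (M.eRk_le_encard _).trans ?_
      rw [Matroid.eRk_freeOn (Set.subset_univ _)]
    refine h1.trans (main_le hCF hCOR hFIN _ ⟨fun e _ => Set.mem_univ e, ?_⟩ G R hR hlink hdom)
    intro A hA
    have := card_le_univ A
    omega

end Pool.Agent.N423.DC
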