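import Mathlib
import Pool.Agent.N423.DC.Stm

/-!
# Graphs with a dominating clique, part BU: blow-up at a point

By helper286.
-/

set_option autoImplicit false
set_option linter.unusedSectionVars false

namespace Pool.Agent.N423.DC.BU

open Matrix Finset Pool.Agent.H283R2.DR Pool.Agent.H789R5 Pool.Agent.N423.DE

/-- a vector which is orthogonal to all differences is zero -/
theorem span_zero {P : Fin 5 → Fin 3 → ℝ} (hP : GP5 P) (i : Fin 5) (s : Fin 3 → ℝ)
    (hs : ∀ j, (P i - P j) ⬝ᵥ s = 0) : s = 0 := by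
  obtain ⟨k, hk⟩ : ∃ k : Fin 5, i ≠ k := ⟨i + 1, by
    fin_cases i <;> decide⟩
  obtain ⟨a₀, ha₀⟩ := Fin.exists_succAbove_eq hk
  have hind := hP k
  have htop : affineSpan ℝ (Set.range fun a : Fin 4 => P (k.succAbove a)) = ⊤ := by
    rw [hind.affineSpan_eq_top_iff_card_eq_finrank_add_one]
    simp
  have hv : vectorSpan ℝ (Set.range fun a : Fin 4 => P (k.succAbove a)) = ⊤ := by
    rw [← direction_affineSpan, htop, AffineSubspace.direction_top]
  have h0 : s ∈ vectorSpan ℝ (Set.range fun a : Fin 4 => P (k.succAbove a)) := by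
    rw [hv]
    exact Submodule.mem_top
  rw [vectorSpan_range_eq_span_range_vsub_right ℝ _ a₀] at h0
  have h1 : s ⬝ᵥ s = 0 := by
    refine Submodule.span_induction (p := fun v _ => v ⬝ᵥ s = 0) ?_ ?_ ?_ ?_ h0
    · rintro _ ⟨a, rfl⟩
      have h2 := hs (k.succAbove a)
      simp only [ha₀, vsub_eq_sub]
      rw [← neg_sub, neg_dotProduct, h2, neg_zero]
    · exact zero_dotProduct _
    · intro x y _ _ hx hy
      rw [add_dotProduct, hx, hy, add_zero]
    · intro c x _ hx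
      rw [smul_dotProduct, hx, smul_zero]
  exact dotProduct_self_eq_zero.1 h1

variable {E : Type} [AddCommGroup E] [Module ℝ E]

/-- the linear map with the coefficient vectors `c` -/
noncomputable def lam (φ : E →ₗ[ℝ] (Fin 5 → Fin 3 → ℝ)) (c : Fin 5 → Fin 3 → ℝ) :
    (E × (Fin 3 → ℝ)) →ₗ[ℝ] (Fin 5 → ℝ) where
  toFun z j := c j ⬝ᵥ (z.2 - φ z.1 j)
  map_add' a b := by
    funext j
    simp only [Prod.fst_add, Prod.snd_add, map_add, Pi.add_apply]
    rw [← dotProduct_add]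
    congr 1
    abel
  map_smul' r a := by
    funext j
    simp only [Prod.smul_fst, Prod.smul_snd, map_smul, Pi.smul_apply, RingHom.id_apply]
    rw [← smul_sub, dotProduct_smul]

theorem lam_apply (φ : E →ₗ[ℝ] (Fin 5 → Fin 3 → ℝ)) (c : Fin 5 → Fin 3 → ℝ)
    (z : E × (Fin 3 → ℝ)) (j : Fin 5) : lam φ c z j = c j ⬝ᵥ (z.2 - φ z.1 j) := rfl

theorem lam_add (φ : E →ₗ[ℝ] (Fin 5 → Fin 3 → ℝ)) (c c' : Fin 5 → Fin 3 → ℝ) (e : ℝ) :
    lam φ (c + e • c') = lam φ c + e • lam φ c' := by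
  refine LinearMap.ext fun z => funext fun j => ?_
  rw [LinearMap.add_apply, LinearMap.smul_apply, Pi.add_apply, Pi.smul_apply, lam_apply, lam_apply,
    lam_apply, Pi.add_apply, Pi.smul_apply, add_dotProduct, smul_dotProduct]

/-- the first step -/
theorem step1 [FiniteDimensional ℝ E] (P : Fin 5 → Fin 3 → ℝ)
    (φ : E →ₗ[ℝ] (Fin 5 → Fin 3 → ℝ))
    (h : ∀ x : Fin 3 → ℝ, ∃ (m : E) (t : Fin 3 → ℝ), (m ≠ 0 ∨ t ≠ 0) ∧
      ∀ i, (x - P i) ⬝ᵥ (t - φ m i) = 0) (i : Fin 5) (d : Fin 3 → ℝ) :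
    ∃ (m : E) (t : Fin 3 → ℝ), (m ≠ 0 ∨ t ≠ 0) ∧ d ⬝ᵥ (t - φ m i) = 0 ∧
      ∀ j, (P i - P j) ⬝ᵥ (t - φ m j) = 0 := by
  classical
  obtain ⟨c, hc⟩ : ∃ c : Fin 5 → Fin 3 → ℝ, ∀ j, c j = if j = i then d else P i - P j :=
    ⟨_, fun _ => rfl⟩
  obtain ⟨c', hc'⟩ : ∃ c' : Fin 5 → Fin 3 → ℝ, ∀ j, c' j = if j = i then 0 else d :=
    ⟨_, fun _ => rfl⟩
  have hni : ¬ Function.Injective (lam φ c) := by
    intro hinj
    have hfin := TA.inj_good (lam φ c) (lam φ c') hinj
    have hsub : {s : ℝ | s ≠ 0} ⊆ {s : ℝ | ¬ Function.Injective (lam φ c + s • lam φ c')} := by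
      intro s hs hin
      rw [Set.mem_ofPred_eq] at hs
      obtain ⟨m, t, hne, hmt⟩ := h (P i + s • d)
      rw [injective_iff_map_eq_zero] at hin
      have hz := hin (m, t) (by
        rw [← lam_add]
        funext j
        rw [lam_apply, Pi.add_apply, Pi.smul_apply, hc, hc']
        by_cases hj : j = i
        · rw [if_pos hj, if_pos hj, smul_zero, add_zero]
          subst hj
          have h1 := hmt j
          have e1 : P j + s • d - P j = s • d := by abel
          rw [e1, smul_dotProduct, smul_eq_mul] at h1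
          exact (mul_eq_zero.1 h1).resolve_left hs
        · rw [if_neg hj, if_neg hj]
          have h1 := hmt j
          have e1 : P i + s • d - P j = P i - P j + s • d := by abel
          rw [e1] at h1
          exact h1)
      rw [Prod.mk_eq_zero] at hz
      rcases hne with h1 | h1
      · exact h1 hz.1
      · exact h1 hz.2
    have hinf : {s : ℝ | s ≠ 0}.Infinite := by
      have : {s : ℝ | s ≠ 0} = ({0} : Set ℝ)ᶜ := by
        ext s
        simp
      rw [this]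
      exact (Set.finite_singleton (0 : ℝ)).infinite_compl
    exact hinf (hfin.subset hsub)
  rw [injective_iff_map_eq_zero] at hni
  push Not at hni
  obtain ⟨⟨m, t⟩, h0, hne⟩ := hni
  refine ⟨m, t, ?_, ?_, ?_⟩
  · by_contra hcon
    push Not at hcon
    apply hne
    rw [hcon.1, hcon.2]
    rfl
  · have h1 := congrFun h0 i
    rw [lam_apply, hc, if_pos rfl] at h1
    exact h1
  · intro j
    by_cases hj : j = i
    · subst hj
      rw [sub_self, zero_dotProduct]
    · have h1 := congrFun h0 j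
      rw [lam_apply, hc, if_neg hj] at h1
      exact h1

/-- the linear form -/
noncomputable def ell (P : Fin 5 → Fin 3 → ℝ) (φ : E →ₗ[ℝ] (Fin 5 → Fin 3 → ℝ)) (i : Fin 5) :
    E →ₗ[ℝ] ℝ where
  toFun m := ∑ j, mu P j * ((P i - P j) ⬝ᵥ (φ m i - φ m j))
  map_add' a b := by
    rw [← Finset.sum_add_distrib]
    refine Finset.sum_congr rfl fun j _ => ?_
    rw [← mul_add, ← dotProduct_add, map_add, Pi.add_apply, Pi.add_apply]
    congr 2
    abel
  map_smul' r a := by
    rw [RingHom.id_apply, smul_eq_mul, Finset.mul_sum]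
    refine Finset.sum_congr rfl fun j _ => ?_
    rw [map_smul, Pi.smul_apply, Pi.smul_apply, ← smul_sub, dotProduct_smul, smul_eq_mul]
    ring

theorem ell_apply (P : Fin 5 → Fin 3 → ℝ) (φ : E →ₗ[ℝ] (Fin 5 → Fin 3 → ℝ)) (i : Fin 5) (m : E) :
    ell P φ i m = ∑ j, mu P j * ((P i - P j) ⬝ᵥ (φ m i - φ m j)) := rfl

/-- the second step -/
theorem step2 (hmu : S_MU) [FiniteDimensional ℝ E] (P : Fin 5 → Fin 3 → ℝ)
    (φ : E →ₗ[ℝ] (Fin 5 → Fin 3 → ℝ)) (hP : GP5 P)
    (h : ∀ x : Fin 3 → ℝ, ∃ (m : E) (t : Fin 3 → ℝ), (m ≠ 0 ∨ t ≠ 0) ∧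
      ∀ i, (x - P i) ⬝ᵥ (t - φ m i) = 0) (i : Fin 5) (d : Fin 3 → ℝ) :
    ∃ (m : E) (s : Fin 3 → ℝ), m ≠ 0 ∧ d ⬝ᵥ s = 0 ∧ ell P φ i m = 0 ∧
      ∀ j, (P i - P j) ⬝ᵥ (s + (φ m i - φ m j)) = 0 := by
  obtain ⟨m, t, hne, h1, h2⟩ := step1 P φ h i d
  obtain ⟨s, hs⟩ : ∃ s : Fin 3 → ℝ, s = t - φ m i := ⟨_, rfl⟩
  have h3 : ∀ j, (P i - P j) ⬝ᵥ (s + (φ m i - φ m j)) = 0 := by
    intro j
    have e : s + (φ m i - φ m j) = t - φ m j := by rw [hs]; abel
    rw [e]
    exact h2 j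
  refine ⟨m, s, ?_, ?_, ?_, h3⟩
  · intro hm
    have h4 : ∀ j, (P i - P j) ⬝ᵥ s = 0 := by
      intro j
      have h5 := h3 j
      rw [hm, map_zero, Pi.zero_apply, Pi.zero_apply, sub_zero, add_zero] at h5
      exact h5
    have h5 := span_zero hP i s h4
    rw [hs, hm, map_zero, Pi.zero_apply, sub_zero] at h5
    rcases hne with h6 | h6
    · exact h6 hm
    · exact h6 h5
  · rw [hs]
    exact h1
  · obtain ⟨g1, g2, -⟩ := hmu P
    have h4 : ∑ j, mu P j * ((P i - P j) ⬝ᵥ (s + (φ m i - φ m j))) = 0 :=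
      Finset.sum_eq_zero fun j _ => by rw [h3 j, mul_zero]
    simp only [dotProduct_add, mul_add, Finset.sum_add_distrib] at h4
    have h5 : ∑ j, mu P j * ((P i - P j) ⬝ᵥ s) = 0 := by
      have h6 : ∑ j, mu P j * ((P i - P j) ⬝ᵥ s) =
          (∑ j, mu P j) * (P i ⬝ᵥ s) - (∑ j, mu P j • P j) ⬝ᵥ s := by
        rw [Finset.sum_mul, sum_dotProduct, ← Finset.sum_sub_distrib]
        refine Finset.sum_congr rfl fun j _ => ?_
        rw [sub_dotProduct, smul_dotProduct, smul_eq_mul]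
        ring
      rw [h6, g1, g2, zero_mul, zero_dotProduct, sub_zero]
    rw [h5, zero_add] at h4
    rw [ell_apply]
    simp only [dotProduct_sub, sub_dotProduct, mul_sub, Finset.sum_sub_distrib] at h4 ⊢
    exact h4

end Pool.Agent.N423.DC.BU

namespace Pool.Agent.N423.DC

open Matrix Finset Pool.Agent.H283R2.DR Pool.Agent.H789R5 Pool.Agent.N423.DE

/-- Blow-up at a point. -/
theorem bu (h : S_MU) : S_BU := by
  intro E _ _ hE P φ hP hx i
  have : FiniteDimensional ℝ E := Module.finite_of_finrank_pos (by omega)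
  by_cases hL : ∀ m, BU.ell P φ i m = 0
  · left
    intro m
    exact hL m
  right
  push Not at hL
  obtain ⟨m₀, hm₀⟩ := hL
  have hne : BU.ell P φ i ≠ 0 := by
    intro h0
    rw [h0, LinearMap.zero_apply] at hm₀
    exact hm₀ rfl
  have hker : Module.finrank ℝ (LinearMap.ker (BU.ell P φ i)) = 1 := by
    have h1 := LinearMap.finrank_range_add_finrank_ker (BU.ell P φ i)
    have h2 : LinearMap.range (BU.ell P φ i) = ⊤ :=
      LinearMap.range_eq_top.2 (LinearMap.surjective hne)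
    rw [h2, finrank_top, Module.finrank_self, hE] at h1
    omega
  obtain ⟨m, s, hm, -, hm0, hms⟩ := BU.step2 h P φ hP hx i 0
  refine ⟨m, hm, ?_⟩
  obtain ⟨m', s', hm', hs', hm0', hms'⟩ := BU.step2 h P φ hP hx i s
  have hone : ∀ w ∈ LinearMap.ker (BU.ell P φ i), ∃ c : ℝ, c • m = w := by
    intro w hw
    have h1 := (finrank_eq_one_iff_of_nonzero' (K := ℝ)
      (⟨m, hm0⟩ : LinearMap.ker (BU.ell P φ i)) (by
        intro h2
        exact hm (congrArg Subtype.val h2))).1 hker ⟨w, hw⟩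
    obtain ⟨c, hc⟩ := h1
    exact ⟨c, congrArg Subtype.val hc⟩
  obtain ⟨c, hc⟩ := hone m' hm0'
  have hc0 : c ≠ 0 := by
    rintro rfl
    rw [zero_smul] at hc
    exact hm' hc.symm
  have hss : s' - c • s = 0 := by
    refine BU.span_zero hP i _ fun j => ?_
    have h1 := hms j
    have h2 := hms' j
    rw [← hc, map_smul, Pi.smul_apply, Pi.smul_apply, ← smul_sub, dotProduct_add,
      dotProduct_smul] at h2
    rw [dotProduct_add] at h1
    rw [dotProduct_sub, dotProduct_smul]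
    simp only [smul_eq_mul] at h2 ⊢
    linear_combination h2 - c * h1
  have hs0 : s = 0 := by
    have h1 : s' = c • s := sub_eq_zero.1 hss
    rw [h1, dotProduct_smul, smul_eq_mul] at hs'
    exact dotProduct_self_eq_zero.1 ((mul_eq_zero.1 hs').resolve_left hc0)
  intro j
  have h1 := hms j
  rw [hs0, zero_add] at h1
  exact h1

end Pool.Agent.N423.DC
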