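import Mathlib
import Pool.Agent.N423.DC.Stm

/-!
# Graphs with a dominating clique: a minimal counterexample is closed
-/

set_option autoImplicit false
set_option linter.unusedSectionVars false

namespace Pool.Agent.N423.DC

open Matrix Finset Pool.Agent.H283R2.DR Pool.Agent.H789R5 Pool.Agent.N423.DE

namespace CLO

/-! ### Matroids -/

section matroid

variable {α : Type} [Finite α] {M : Matroid α}

theorem rk_ne_top (X : Set α) : M.eRk X ≠ ⊤ :=
  (M.isRkFinite_set X).eRk_lt_top.ne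

/-- an independent extension: no element of `E` is spanned by the others -/
theorem notMem_closure {B E : Set α}
    (hind : M.eRk (B ∪ E) = M.eRk B + (E.ncard : ℕ∞)) {f : α} (hf : f ∈ E) :
    f ∉ M.closure ((B ∪ E) \ {f}) := by
  intro h
  have h1 : M.eRk (B ∪ E) ≤ M.eRk ((B ∪ E) \ {f}) := by
    have h3 : B ∪ E ⊆ insert f ((B ∪ E) \ {f}) := by
      intro a ha
      by_cases h : a = f
      · exact Or.inl h
      · exact Or.inr ⟨ha, h⟩
    refine (M.eRk_mono h3).trans ?_
    rw [← M.eRk_closure_eq (insert _ _), Matroid.closure_insert_eq_of_mem_closure h,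
      M.eRk_closure_eq]
  have h2 : M.eRk ((B ∪ E) \ {f}) ≤ M.eRk B + ((E \ {f}).ncard : ℕ∞) := by
    have h3 : (B ∪ E) \ {f} ⊆ B ∪ (E \ {f}) := by
      rintro a ⟨ha | ha, haf⟩
      · exact Or.inl ha
      · exact Or.inr ⟨ha, haf⟩
    refine (M.eRk_mono h3).trans ((M.eRk_union_le_eRk_add_encard _ _).trans ?_)
    rw [Set.Finite.cast_ncard_eq (Set.toFinite _)]
  have h3 : (E \ {f}).ncard + 1 = E.ncard := Set.ncard_sdiff_singleton_add_one hf (Set.toFinite _)
  have h4 := (hind ▸ h1).trans h2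
  rw [← h3, Nat.cast_add, ← add_assoc] at h4
  obtain ⟨n, hn⟩ := ENat.ne_top_iff_exists.1 (rk_ne_top (M := M) B)
  rw [← hn] at h4
  norm_cast at h4
  omega

/-- the exchange -/
theorem exists_exchange {B E : Set α} (hBE : ∀ a ∈ E, a ∉ B)
    (hind : M.eRk (B ∪ E) = M.eRk B + (E.ncard : ℕ∞)) {e : α}
    (he : e ∈ M.closure (B ∪ E)) (heB : e ∉ M.closure B) :
    ∃ f ∈ E, e ∉ M.closure ((B ∪ E) \ {f}) := by
  classical
  have hex : ∃ n : ℕ, ∃ F0 : Set α, F0 ⊆ E ∧ e ∈ M.closure (B ∪ F0) ∧ F0.ncard = n :=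
    ⟨E.ncard, E, subset_rfl, he, rfl⟩
  obtain ⟨F0, hF0, heF0, hn⟩ := Nat.find_spec hex
  have hmin := fun m (hm : m < Nat.find hex) => Nat.find_min hex hm
  have hne : F0.Nonempty := by
    rw [Set.nonempty_iff_ne_empty]
    rintro rfl
    rw [Set.union_empty] at heF0
    exact heB heF0
  obtain ⟨f, hf⟩ := hne
  refine ⟨f, hF0 hf, fun hcl => ?_⟩
  have h1 : e ∉ M.closure (B ∪ (F0 \ {f})) := by
    intro h
    have h3 : (F0 \ {f}).ncard + 1 = F0.ncard :=
      Set.ncard_sdiff_singleton_add_one hf (Set.toFinite _)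
    exact hmin (F0 \ {f}).ncard (by omega) ⟨F0 \ {f}, Set.sdiff_subset.trans hF0, h, rfl⟩
  have h2 : e ∈ M.closure (insert f (B ∪ (F0 \ {f}))) := by
    refine M.closure_subset_closure ?_ heF0
    rintro a (ha | ha)
    · exact Or.inr (Or.inl ha)
    · by_cases h : a = f
      · exact Or.inl h
      · exact Or.inr (Or.inr ⟨ha, h⟩)
  have h3 : f ∈ M.closure (insert e (B ∪ (F0 \ {f}))) := (M.closure_exchange ⟨h2, h1⟩).1
  have h4 : f ∈ M.closure (insert e ((B ∪ E) \ {f})) := by
    refine M.closure_subset_closure ?_ h3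
    refine Set.insert_subset_insert ?_
    rintro a (ha | ha)
    · exact ⟨Or.inl ha, fun h => hBE f (hF0 hf) ((Set.mem_singleton_iff.1 h) ▸ ha)⟩
    · exact ⟨Or.inr (hF0 ha.1), ha.2⟩
  rw [Matroid.closure_insert_eq_of_mem_closure hcl] at h4
  exact notMem_closure hind (hF0 hf) h4

/-- the exchanged extension is independent as well -/
theorem ind_exchange {B E : Set α} (hBE : ∀ a ∈ E, a ∉ B)
    (hind : M.eRk (B ∪ E) = M.eRk B + (E.ncard : ℕ∞)) {e f : α} (hE : B ∪ E ⊆ M.E)
    (heM : e ∈ M.E) (heE : e ∉ E)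
    (hf : f ∈ E) (he : e ∉ M.closure ((B ∪ E) \ {f})) :
    M.eRk (B ∪ insert e (E \ {f})) = M.eRk B + ((insert e (E \ {f})).ncard : ℕ∞) := by
  have h0 : B ∪ insert e (E \ {f}) = insert e ((B ∪ E) \ {f}) := by
    ext a
    constructor
    · rintro (ha | rfl | ⟨ha, haf⟩)
      · exact Or.inr ⟨Or.inl ha, fun h => hBE f hf ((Set.mem_singleton_iff.1 h) ▸ ha)⟩
      · exact Or.inl rfl
      · exact Or.inr ⟨Or.inr ha, haf⟩
    · rintro (rfl | ⟨ha | ha, haf⟩)
      · exact Or.inr (Or.inl rfl)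
      · exact Or.inl ha
      · exact Or.inr (Or.inr ⟨ha, haf⟩)
  have h1 : M.eRk (insert e ((B ∪ E) \ {f})) = M.eRk ((B ∪ E) \ {f}) + 1 :=
    M.eRk_insert_eq_add_one ⟨heM, he⟩
  have h2 : M.eRk (insert f ((B ∪ E) \ {f})) = M.eRk ((B ∪ E) \ {f}) + 1 :=
    M.eRk_insert_eq_add_one ⟨hE (Or.inr hf), notMem_closure hind hf⟩
  have h3 : insert f ((B ∪ E) \ {f}) = B ∪ E := by
    rw [Set.insert_sdiff_singleton, Set.insert_eq_of_mem (show f ∈ B ∪ E from Or.inr hf)]
  have h4 : (insert e (E \ {f})).ncard = E.ncard := by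
    rw [Set.ncard_insert_of_notMem (fun h => heE h.1) (Set.toFinite _)]
    exact Set.ncard_sdiff_singleton_add_one hf (Set.toFinite _)
  rw [h0, h1, ← h2, h3, hind, h4]

end matroid

/-! ### Rigidity -/

theorem mo_eq {V : Type} [Fintype V] {d : ℕ} {p p' : V → Fin d → ℝ} (hp : MG p) (hp' : MG p')
    (G : SimpleGraph V) : mo G p = mo G p' := le_antisymm (hp.min G p') (hp'.min G p)

end CLO

open CLO in
theorem clo (h1 : S_SPAN) (h2 : S_DEG) (h3 : S_CNT) : S_CLO := by
  classical
  intro V _ _ M hM R Z hub hH hZ F hF hMI hRI p hp x y hx hy hxy himp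
  by_contra hadj
  set B := (base R Z hub).edgeSet with hB
  obtain ⟨hc, hin, hdeg⟩ := h3 V M hM R Z hub hH F hF hMI (h2 V M hM R Z hub hH hZ F hF hMI hRI)
  have hBF : (base R Z hub ⊔ F).edgeSet = B ∪ F.edgeSet := SimpleGraph.edgeSet_sup _ _
  have hBE : ∀ a ∈ F.edgeSet, a ∉ B := by
    intro a
    induction a using Sym2.ind with
    | _ a b =>
      intro h h'
      exact (hF a b h).2.2 h'
  have hind : M.eRk (B ∪ F.edgeSet) = M.eRk B + (F.edgeSet.ncard : ℕ∞) := by
    rw [← hBF]; exact hMI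
  have hpairsB : B ⊆ pairs (R ∪ Z) := by
    intro a
    induction a using Sym2.ind with
    | _ a b =>
      intro h
      have h' : (base R Z hub).Adj a b := h
      refine ⟨by rw [Sym2.mk_isDiag_iff]; exact h'.ne, ?_⟩
      intro z hz
      rw [Sym2.mem_iff] at hz
      rw [Finset.mem_union]
      obtain ⟨_, ⟨ha, hb⟩ | ⟨ha, rfl⟩ | ⟨hb, rfl⟩⟩ := h'
      · rcases hz with rfl | rfl
        · exact Or.inl ha
        · exact Or.inl hb
      · rcases hz with rfl | rfl
        · exact Or.inr ha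
        · exact Or.inl (hH.2.2 a ha)
      · rcases hz with rfl | rfl
        · exact Or.inl (hH.2.2 b hb)
        · exact Or.inr hb
  have hpairsF : F.edgeSet ⊆ pairs (R ∪ Z) := by
    intro a
    induction a using Sym2.ind with
    | _ a b =>
      intro h
      have h' : F.Adj a b := h
      obtain ⟨ha, hb, _⟩ := hF a b h'
      refine ⟨by rw [Sym2.mk_isDiag_iff]; exact h'.ne, ?_⟩
      intro z hz
      rw [Sym2.mem_iff] at hz
      rw [Finset.mem_union]
      rcases hz with rfl | rfl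
      · exact ha
      · exact hb
  have hpe : s(x, y) ∈ pairs (R ∪ Z) := by
    refine ⟨by rw [Sym2.mk_isDiag_iff]; exact hxy, ?_⟩
    intro z hz
    rw [Sym2.mem_iff] at hz
    rw [Finset.mem_union]
    rcases hz with rfl | rfl
    · exact hx
    · exact hy
  have hEM : B ∪ F.edgeSet ⊆ M.E := by
    intro a ha
    rcases ha with ha | ha
    · exact hM.1 a (hpairsB ha).1
    · exact hM.1 a (hpairsF ha).1
  have heM : s(x, y) ∈ M.E := hM.1 _ hpe.1
  have hadjB : s(x, y) ∉ B := fun h => hadj (Or.inl h)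
  have hadjF : s(x, y) ∉ F.edgeSet := fun h => hadj (Or.inr h)
  obtain ⟨hs1, hs2⟩ := h1 V M hM R Z hub hH
  rw [← hB, ← hc, ← hind] at hs1 hs2
  -- `e` is spanned by `G`
  have hcl : s(x, y) ∈ M.closure (B ∪ F.edgeSet) := by
    by_contra hn
    have h4 := M.eRk_insert_eq_add_one ⟨heM, hn⟩
    have h5 : M.eRk (insert s(x, y) (B ∪ F.edgeSet)) ≤ M.eRk (pairs (R ∪ Z)) := by
      apply M.eRk_mono
      rintro a (rfl | ha | ha)
      · exact hpe
      · exact hpairsB ha
      · exact hpairsF ha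
    rw [h4] at h5
    have h6 := h5.trans hs1
    obtain ⟨n, hn⟩ := ENat.ne_top_iff_exists.1 (rk_ne_top (M := M) (B ∪ F.edgeSet))
    rw [← hn] at h6
    norm_cast at h6
    omega
  have hncl : s(x, y) ∉ M.closure B := by
    refine hs2 (M.eRk_mono ?_) _ hpe hadjB
    exact Set.union_subset hpairsB hpairsF
  obtain ⟨f, hf, hef⟩ := exists_exchange hBE hind hcl hncl
  have hI := ind_exchange hBE hind hEM heM hadjF hf hef
  -- the new graph
  set F1 : SimpleGraph V := SimpleGraph.fromEdgeSet (insert s(x, y) (F.edgeSet \ {f})) with hF1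
  have hE1 : F1.edgeSet = insert s(x, y) (F.edgeSet \ {f}) := by
    rw [hF1, SimpleGraph.edgeSet_fromEdgeSet]
    ext a
    constructor
    · rintro ⟨h, _⟩
      exact h
    · intro h
      refine ⟨h, ?_⟩
      rcases h with rfl | h
      · exact hpe.1
      · exact F.not_isDiag_of_mem_edgeSet h.1
  have hadj1 : ∀ a b, F1.Adj a b ↔ (s(a, b) = s(x, y) ∨ (F.Adj a b ∧ s(a, b) ≠ f)) := by
    intro a b
    rw [← SimpleGraph.mem_edgeSet, hE1]
    rfl
  have hcard1 : F1.edgeSet.ncard = F.edgeSet.ncard := by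
    rw [hE1, Set.ncard_insert_of_notMem (fun h => hadjF h.1) (Set.toFinite _)]
    exact Set.ncard_sdiff_singleton_add_one hf (Set.toFinite _)
  have hExt1 : Ext R Z hub F1 := by
    intro a b hab
    rw [hadj1] at hab
    rcases hab with hab | hab
    · rw [Sym2.eq_iff] at hab
      rcases hab with ⟨rfl, rfl⟩ | ⟨rfl, rfl⟩
      · exact ⟨hx, hy, hadjB⟩
      · exact ⟨hy, hx, fun h => hadjB h.symm⟩
    · exact hF a b hab.1
  have hMI1 : MInd M R Z hub F1 := by
    unfold MInd
    rw [SimpleGraph.edgeSet_sup, hE1]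
    exact hI
  have hRI1 : ¬ RInd R Z hub F1 := by
    intro hr
    apply hRI
    intro p' hp'
    rw [mo_eq hp' hp, mo_eq hp' hp]
    have h4 := hr p hp
    have h5 : mo (base R Z hub ⊔ F) p ≤ mo (base R Z hub ⊔ F1) p := by
      apply mo_le_of_imp
      intro a b hab
      rcases hab with hab | hab
      · exact imp_of_adj (Or.inl hab)
      · rw [hadj1] at hab
        rcases hab with hab | hab
        · rw [Sym2.eq_iff] at hab
          rcases hab with ⟨rfl, rfl⟩ | ⟨rfl, rfl⟩
          · exact himp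
          · exact himp.symm
        · exact imp_of_adj (Or.inr hab.1)
    have h6 := mo_le_add (G := base R Z hub) (G' := base R Z hub ⊔ F) p
    have h7 : ((base R Z hub ⊔ F).edgeSet \ (base R Z hub).edgeSet).ncard ≤ F.edgeSet.ncard := by
      apply Set.ncard_le_ncard _ (Set.toFinite _)
      rw [SimpleGraph.edgeSet_sup]
      rintro a ⟨ha | ha, hn⟩
      · exact absurd ha hn
      · exact ha
    omega
  obtain ⟨hc1, hin1, hdeg1⟩ := h3 V M hM R Z hub hH F1 hExt1 hMI1
    (h2 V M hM R Z hub hH hZ F1 hExt1 hMI1 hRI1)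
  have hxy1 : F1.Adj x y := by
    rw [hadj1]; exact Or.inl rfl
  have hxZ : x ∈ Z := hin1 x y hxy1
  have hyZ : y ∈ Z := hin1 y x hxy1.symm
  -- the ends of `f`
  have key : ∀ a b, F1.Adj a b → s(a, b) = s(x, y) → a ∈ Z → a ∈ f := by
    intro a b hab hs haZ
    by_contra hn
    have hnb : nb F1 a = insert b (nb F a) := by
      ext c
      rw [mem_nb, mem_insert, mem_nb, hadj1]
      constructor
      · rintro (h | h)
        · left
          rw [← hs, Sym2.congr_right] at h
          exact h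
        · exact Or.inr h.1
      · rintro (rfl | h)
        · exact Or.inl hs
        · refine Or.inr ⟨h, ?_⟩
          rintro rfl
          exact hn (by simp)
    have hb : b ∉ nb F a := by
      rw [mem_nb]
      intro h
      apply hadjF
      rw [← hs]
      exact h
    have h8 := hdeg1 a haZ
    have h9 := hdeg a haZ
    rw [hnb, card_insert_of_notMem hb] at h8
    omega
  have hxf : x ∈ f := key x y hxy1 rfl hxZ
  have hyf : y ∈ f := key y x hxy1.symm Sym2.eq_swap hyZ
  have hfe : f = s(x, y) := by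
    rw [← Sym2.mem_and_mem_iff hxy]
    exact ⟨hxf, hyf⟩
  exact hadjF (hfe ▸ hf)

end Pool.Agent.N423.DC
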