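import Mathlib
import Pool.Agent.N423.DC.Stm

/-!
# Project DC, part CNT (helper50): counting
-/

set_option autoImplicit false

namespace Pool.Agent.N423.DC

open Matrix Finset Pool.Agent.H283R2.DR Pool.Agent.H789R5 Pool.Agent.N423.DE

theorem cnt (h : S_SPAN) : S_CNT := by
  classical
  intro V _ _ M hM R Z hub hHb F hExt hInd hdeg
  have hsp := (h V M hM R Z hub hHb).1
  -- the bound for the number of edges
  have hsub : (base R Z hub ⊔ F).edgeSet ⊆ pairs (R ∪ Z) := by
    intro e he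
    induction e using Sym2.ind with
    | _ a b =>
      rw [SimpleGraph.mem_edgeSet, SimpleGraph.sup_adj] at he
      have hab : a ≠ b ∧ (a ∈ R ∨ a ∈ Z) ∧ (b ∈ R ∨ b ∈ Z) := by
        rcases he with h1 | h1
        · obtain ⟨h2, h3⟩ := h1
          refine ⟨h2, ?_⟩
          rcases h3 with ⟨h3, h4⟩ | ⟨h3, h4⟩ | ⟨h3, h4⟩
          · exact ⟨Or.inl h3, Or.inl h4⟩
          · exact ⟨Or.inr h3, Or.inl (h4 ▸ hHb.2.2 a h3)⟩
          · exact ⟨Or.inl (h4 ▸ hHb.2.2 b h3), Or.inr h3⟩
        · exact ⟨h1.ne, (hExt a b h1).1, (hExt a b h1).2.1⟩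
      refine ⟨fun hd => hab.1 (Sym2.mk_isDiag_iff.1 hd), ?_⟩
      intro x hx
      rw [Sym2.mem_iff] at hx
      rw [mem_union]
      rcases hx with rfl | rfl
      · exact hab.2.1
      · exact hab.2.2
  have h1 : M.eRk (base R Z hub).edgeSet + (F.edgeSet.ncard : ℕ∞) ≤
      M.eRk (base R Z hub).edgeSet + ((2 * Z.card : ℕ) : ℕ∞) := by
    rw [← hInd]
    exact (M.eRk_mono hsub).trans hsp
  have hfin : M.eRk (base R Z hub).edgeSet ≠ ⊤ := by
    have h2 := M.eRk_le_encard (base R Z hub).edgeSet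
    have h3 : (base R Z hub).edgeSet.encard ≠ ⊤ := Set.encard_ne_top_iff.2 (Set.toFinite _)
    exact ne_top_of_le_ne_top h3 h2
  have hF : F.edgeSet.ncard ≤ 2 * Z.card := by
    obtain ⟨k, hk⟩ := ENat.ne_top_iff_exists.1 hfin
    rw [← hk] at h1
    have h2 : k + F.edgeSet.ncard ≤ k + 2 * Z.card := by exact_mod_cast h1
    omega
  -- the sum of the degrees
  have hdsum : ∑ v, (nb F v).card = 2 * F.edgeSet.ncard := by
    have h2 := F.sum_degrees_eq_twice_card_edges
    have h3 : ∀ v, F.degree v = (nb F v).card := by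
      intro v
      rw [← SimpleGraph.card_neighborFinset_eq_degree]
      congr 1
      ext y
      rw [SimpleGraph.mem_neighborFinset, mem_nb]
    have h4 : F.edgeSet.ncard = F.edgeFinset.card := by
      rw [← SimpleGraph.coe_edgeFinset, Set.ncard_coe_finset]
    rw [h4, ← h2]
    exact Finset.sum_congr rfl fun v _ => (h3 v).symm
  have hsplit : ∑ v, (nb F v).card = ∑ v ∈ Z, (nb F v).card + ∑ v ∈ Zᶜ, (nb F v).card :=
    (Finset.sum_add_sum_compl Z _).symm
  have hZ4 : 4 * Z.card ≤ ∑ v ∈ Z, (nb F v).card := by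
    have := Finset.card_nsmul_le_sum Z (fun v => (nb F v).card) 4 hdeg
    rw [smul_eq_mul] at this
    omega
  have hcompl : ∑ v ∈ Zᶜ, (nb F v).card = 0 := by omega
  have hZeq : ∑ v ∈ Z, (nb F v).card = 4 * Z.card := by omega
  refine ⟨by omega, ?_, ?_⟩
  · intro x y hxy
    by_contra hx
    have h2 := (Finset.sum_eq_zero_iff.1 hcompl) x (mem_compl.2 hx)
    have h3 : y ∈ nb F x := mem_nb.2 hxy
    rw [card_eq_zero] at h2
    rw [h2] at h3
    exact absurd h3 (notMem_empty y)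
  · have h2 : ∑ _v ∈ Z, 4 = ∑ v ∈ Z, (nb F v).card := by
      rw [hZeq, sum_const, smul_eq_mul]; ring
    have h3 := (Finset.sum_eq_sum_iff_of_le hdeg).1 h2
    exact fun v hv => (h3 v hv).symm

end Pool.Agent.N423.DC
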