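import Mathlib
import Pool.Agent.N423.DC.Stm

/-!
# The core of a minimal counterexample (helper475)
-/

set_option autoImplicit false
set_option linter.unusedSectionVars false

namespace Pool.Agent.N423.DC

open Matrix Finset Pool.Agent.H283R2.DR Pool.Agent.H789R5 Pool.Agent.N423.DE

namespace COR

variable {V : Type} [Fintype V] [DecidableEq V]

theorem eRk_ne_top (M : Matroid (Sym2 V)) (X : Set (Sym2 V)) : M.eRk X ≠ ⊤ :=
  ne_top_of_le_ne_top (Set.Finite.encard_lt_top (Set.toFinite X)).ne (M.eRk_le_encard X)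

theorem rk_add (M : Matroid (Sym2 V)) {X Y W : Set (Sym2 V)} (h : Y ⊆ X ∪ W) :
    M.eRk Y ≤ M.eRk X + (W.ncard : ℕ∞) := by
  refine (M.eRk_mono h).trans ((M.eRk_union_le_eRk_add_encard _ _).trans ?_)
  rw [Set.Finite.cast_ncard_eq (Set.toFinite _)]

theorem ncard_diff_add {X Y : Set (Sym2 V)} (h : X ⊆ Y) : (Y \ X).ncard + X.ncard = Y.ncard :=
  Set.ncard_sdiff_add_ncard_of_subset h (Set.toFinite _)

theorem mind_sub {M : Matroid (Sym2 V)} {R Z : Finset V} {hub : V → V} {F F' : SimpleGraph V}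
    (hle : F' ≤ F) (h : MInd M R Z hub F) : MInd M R Z hub F' := by
  unfold MInd at h ⊢
  have hle' := SimpleGraph.edgeSet_subset_edgeSet.2 hle
  have e1 := rk_add M (X := (base R Z hub).edgeSet) (Y := (base R Z hub ⊔ F').edgeSet)
    (W := F'.edgeSet) (by rw [SimpleGraph.edgeSet_sup])
  have e2 := rk_add M (X := (base R Z hub ⊔ F').edgeSet) (Y := (base R Z hub ⊔ F).edgeSet)
    (W := F.edgeSet \ F'.edgeSet) (by
      intro e he
      rw [SimpleGraph.edgeSet_sup] at he
      rw [SimpleGraph.edgeSet_sup]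
      by_cases h' : e ∈ F'.edgeSet
      · exact Or.inl (Or.inr h')
      · rcases he with he | he
        · exact Or.inl (Or.inl he)
        · exact Or.inr ⟨he, h'⟩)
  have e3 := ncard_diff_add hle'
  rw [h] at e2
  obtain ⟨a, ha⟩ := ENat.ne_top_iff_exists.1 (eRk_ne_top M (base R Z hub).edgeSet)
  obtain ⟨b, hb⟩ := ENat.ne_top_iff_exists.1 (eRk_ne_top M (base R Z hub ⊔ F').edgeSet)
  rw [← ha, ← hb] at e1 e2
  rw [← ha, ← hb]
  norm_cast at e1 e2 ⊢
  omega

theorem no_circ {M : Matroid (Sym2 V)} (hM : K5C M) {R Z : Finset V} {hub : V → V}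
    {F : SimpleGraph V} (h : MInd M R Z hub F) {A : Finset V} (hA : A.card = 5)
    (hc : Cq (base R Z hub ⊔ F) A) {x y : V} (hx : x ∈ A) (hy : y ∈ A) (hF : F.Adj x y) : False := by
  set G := base R Z hub ⊔ F with hG
  have hcirc := hM.2 A hA
  have hpG : pairs A ⊆ G.edgeSet := by
    intro e he
    induction e using Sym2.ind with
    | _ a b =>
      obtain ⟨h1, h2⟩ := he
      rw [Sym2.mk_isDiag_iff] at h1
      exact hc a (h2 a (by simp)) b (h2 b (by simp)) h1
  have hxyA : s(x, y) ∈ pairs A := by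
    refine ⟨by rw [Sym2.mk_isDiag_iff]; exact hF.ne, ?_⟩
    intro z hz
    rw [Sym2.mem_iff] at hz
    rcases hz with rfl | rfl
    · exact hx
    · exact hy
  have h1 : M.eRk G.edgeSet ≤ M.eRk (G.edgeSet \ {s(x, y)}) := by
    have h2 : s(x, y) ∈ M.closure (G.edgeSet \ {s(x, y)}) :=
      M.closure_subset_closure (Set.sdiff_subset_sdiff_left hpG)
        (hcirc.mem_closure_sdiff_singleton_of_mem hxyA)
    have h3 : G.edgeSet ⊆ insert s(x, y) (G.edgeSet \ {s(x, y)}) := by
      intro e he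
      by_cases h : e = s(x, y)
      · exact Or.inl h
      · exact Or.inr ⟨he, h⟩
    refine (M.eRk_mono h3).trans ?_
    rw [← M.eRk_closure_eq (insert _ _), Matroid.closure_insert_eq_of_mem_closure h2,
      M.eRk_closure_eq]
  have h2 := rk_add M (X := (base R Z hub).edgeSet) (Y := G.edgeSet \ {s(x, y)})
    (W := F.edgeSet \ {s(x, y)}) (by
      rintro e ⟨he, hne⟩
      rw [hG, SimpleGraph.edgeSet_sup] at he
      rcases he with he | he
      · exact Or.inl he
      · exact Or.inr ⟨he, hne⟩)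
  have h3 : (F.edgeSet \ {s(x, y)}).ncard + 1 = F.edgeSet.ncard :=
    Set.ncard_sdiff_singleton_add_one (show s(x, y) ∈ F.edgeSet from hF) (Set.toFinite _)
  unfold MInd at h
  rw [← hG] at h
  have h4 := h1.trans h2
  rw [h] at h4
  obtain ⟨a, ha⟩ := ENat.ne_top_iff_exists.1 (eRk_ne_top M (base R Z hub).edgeSet)
  rw [← ha] at h4
  norm_cast at h4
  omega

end COR

open COR in
/-- the core of a minimal counterexample -/
theorem cor (h0 : S_PIN) (h1 : S_BAS) (h2 : S_DEG) (h3 : S_CNT) (h4 : S_CLO) : S_COR := by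
  intro V _ _ M hM R Z hub hHb hMin F hE hI hn hmin
  have hdeg := h2 V M hM R Z hub hHb hMin F hE hI hn
  obtain ⟨hc1, hc2, hc3⟩ := h3 V M hM R Z hub hHb F hE hI hdeg
  have hclo := h4 V M hM R Z hub hHb hMin F hE hI hn
  obtain ⟨hdis, hR3, hhub⟩ := id hHb
  set B0 := base R Z hub with hB0
  set G := B0 ⊔ F with hG
  have hFZ : ∀ x y, F.Adj x y → x ∈ Z ∧ y ∈ Z := fun x y h => ⟨hc2 x y h, hc2 y x h.symm⟩
  have hbase : ∀ v ∈ Z, ∀ x, B0.Adj v x → x = hub v := by
    intro v hv x h
    obtain ⟨_, ⟨h5, _⟩ | ⟨_, h5⟩ | ⟨h5, h6⟩⟩ := h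
    · exact absurd hv (hdis v h5)
    · exact h5
    · exact absurd hv (hdis v (h6 ▸ hhub x h5))
  have hsupp : ∀ x y, G.Adj x y → x ∈ R ∨ x ∈ Z := by
    rintro x y (h | h)
    · obtain ⟨_, ⟨h5, _⟩ | ⟨h5, _⟩ | ⟨h5, h6⟩⟩ := h
      · exact Or.inl h5
      · exact Or.inr h5
      · exact Or.inl (h6 ▸ hhub y h5)
    · exact Or.inr (hFZ x y h).1
  have hclique : Cq G R := fun a ha b hb hab => Or.inl ⟨hab, Or.inl ⟨ha, hb⟩⟩
  have hne : Z.Nonempty := by
    by_contra hZ
    rw [Finset.not_nonempty_iff_eq_empty] at hZ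
    apply hn
    intro p hp
    have e1 : F = ⊥ := by
      ext x y
      constructor
      · intro h
        have := (hFZ x y h).1
        rw [hZ] at this
        exact absurd this (Finset.notMem_empty x)
      · intro h
        exact absurd h (by simp)
    rw [e1]
    simp
  have hhub_adj : ∀ v ∈ Z, G.Adj v (hub v) := by
    intro v hv
    refine Or.inl ⟨fun h => hdis (hub v) (hhub v hv) (h ▸ hv), Or.inr (Or.inl ⟨hv, rfl⟩)⟩
  have hhub_uniq : ∀ v ∈ Z, ∀ r ∈ R, G.Adj v r → r = hub v := by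
    rintro v hv r hr (h | h)
    · exact hbase v hv r h
    · exact absurd (hFZ v r h).2 (hdis r hr)
  have hZZ : ∀ x ∈ Z, ∀ y ∈ Z, G.Adj x y → F.Adj x y := by
    rintro x hx y hy (h | h)
    · have := hbase x hx y h
      exact absurd hy (hdis y (this ▸ hhub x hx))
    · exact h
  -- an edge of F
  have hFne : 0 < F.edgeSet.ncard := by
    rw [hc1]
    have := hne.card_pos
    omega
  -- graphs without an edge of F
  have hFf : ∀ f ∈ F.edgeSet, ∀ p : V → Fin 3 → ℝ, MG p →
      Module.finrank ℝ (PM (B0 ⊔ F.deleteEdges {f}) Z ∅ p) = 1 := by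
    intro f hf p hp
    set F' := F.deleteEdges {f} with hF'
    have hle : F' ≤ F := F.deleteEdges_le _
    have hFe : F'.edgeSet = F.edgeSet \ {f} := F.edgeSet_deleteEdges _
    have hlt : F' < F := by
      refine lt_of_le_of_ne hle ?_
      intro h
      rw [← h, hFe] at hf
      exact hf.2 rfl
    have hE' : Ext R Z hub F' := fun x y h => hE x y (hle h)
    have hr := hmin F' hlt hE' (mind_sub hle hI) p hp
    have hcard : F'.edgeSet.ncard + 1 = F.edgeSet.ncard := by
      rw [hFe]
      exact Set.ncard_sdiff_singleton_add_one hf (Set.toFinite _)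
    have hle2 : B0 ⊔ F' ≤ G := sup_le_sup_left hle _
    have hpin := (h0 V (B0 ⊔ F') R Z hdis (fun x y h => hsupp x y (hle2 h)) hR3
      (fun a ha b hb hab => Or.inl ⟨hab, Or.inl ⟨ha, hb⟩⟩) p p hp (fun _ _ => rfl)).1
    have hbas := h1 V R Z hub hHb p hp
    rw [← hB0] at hbas hr
    omega
  have hpinG : ∀ p p' : V → Fin 3 → ℝ, MG p → (∀ r ∈ R, p' r = p r) →
      mo G p' + 3 * (R.card + Z.card) = 6 + 3 * Fintype.card V +
        Module.finrank ℝ (PM G Z ∅ p') ∧ ∀ x y, x ∈ R ∨ x ∈ Z → y ∈ R ∨ y ∈ Z →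
      (Imp G p' x y ↔ ∀ q ∈ PM G Z ∅ p', (p' x - p' y) ⬝ᵥ (q x - q y) = 0) :=
    fun p p' hp h => h0 V G R Z hdis hsupp hR3 hclique p p' hp h
  have hdimG : ∀ p : V → Fin 3 → ℝ, MG p → Module.finrank ℝ (PM G Z ∅ p) = 1 := by
    intro p hp
    unfold RInd at hn
    push Not at hn
    obtain ⟨p0, hp0, hne0⟩ := hn
    rw [← hB0, ← hG] at hne0
    obtain ⟨f, hf⟩ := Set.nonempty_of_ncard_ne_zero hFne.ne'
    have e1 := hFf f hf p hp
    set F' := F.deleteEdges {f} with hF'
    have hle : F' ≤ F := F.deleteEdges_le _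
    have hle2 : B0 ⊔ F' ≤ G := sup_le_sup_left hle _
    have e2 := (h0 V (B0 ⊔ F') R Z hdis (fun x y h => hsupp x y (hle2 h)) hR3
      (fun a ha b hb hab => Or.inl ⟨hab, Or.inl ⟨ha, hb⟩⟩) p p hp (fun _ _ => rfl)).1
    have e3 := (hpinG p p hp fun _ _ => rfl).1
    have e4 := mo_anti hle2 p
    have e5 := mo_le_add (G := B0) (G' := G) p0
    have e6 : (G.edgeSet \ B0.edgeSet).ncard ≤ F.edgeSet.ncard := by
      apply Set.ncard_le_ncard _ (Set.toFinite _)
      rintro e ⟨he, hne⟩
      rw [hG, SimpleGraph.edgeSet_sup] at he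
      exact he.resolve_left hne
    have e7 := hp.min G p0
    have e8 := hp0.min G p
    have e9 := hp.min B0 p0
    have e10 := hp0.min B0 p
    have hbas := h1 V R Z hub hHb p hp
    rw [← hB0] at hbas
    omega
  refine ⟨hdis, hsupp, hR3, hclique, hne, hhub, hhub_adj, hhub_uniq, ?_, ?_, ?_, ?_, hdimG, ?_, ?_⟩
  · -- degrees
    intro v hv
    have e1 : nb G v = insert (hub v) (nb F v) := by
      ext z
      rw [mem_insert, mem_nb, mem_nb]
      constructor
      · rintro (h | h)
        · exact Or.inl (hbase v hv z h)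
        · exact Or.inr h
      · rintro (h | h)
        · rw [h]
          exact hhub_adj v hv
        · exact Or.inr h
    have e2 : hub v ∉ nb F v := by
      rw [mem_nb]
      intro h
      exact hdis _ (hhub v hv) (hFZ _ _ h).2
    rw [e1, card_insert_of_notMem e2, hc3 v hv]
  · -- no complete graph with five vertices
    intro A hA hcA v hvA hvZ
    have e1 : ∃ x ∈ (A.erase v).erase (hub v), True := by
      have h5 : 2 < A.card := by omega
      have h6 : 0 < ((A.erase v).erase (hub v)).card := by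
        have h7 := pred_card_le_card_erase (s := A.erase v) (a := hub v)
        rw [card_erase_of_mem hvA] at h7
        omega
      obtain ⟨x, hx⟩ := card_pos.1 h6
      exact ⟨x, hx, trivial⟩
    obtain ⟨x, hx, -⟩ := e1
    rw [mem_erase, mem_erase] at hx
    obtain ⟨hx1, hx2, hx3⟩ := hx
    have h5 : G.Adj v x := hcA v hvA x hx3 hx2.symm
    have h6 : F.Adj v x := by
      rcases h5 with h | h
      · exact absurd (hbase v hvZ x h) hx1
      · exact h
    exact no_circ hM hI hA hcA hvA hx3 h6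
  · -- closed
    intro p hp x y hx hy hxy hq
    exact hclo p hp x y hx hy hxy (((hpinG p p hp fun _ _ => rfl).2 x y hx hy).2 hq)
  · -- closed without v
    intro p hp v hv x y hx hy hxv hyv hxy hq
    have hle : G.deleteIncidenceSet v ≤ G := G.deleteIncidenceSet_le v
    have hvR : v ∉ R := fun h => hdis v h hv
    have e1 := (h0 V (G.deleteIncidenceSet v) R (Z.erase v)
      (fun x hx h => hdis x hx (mem_of_mem_erase h)) (fun a b h => by
        rw [SimpleGraph.deleteIncidenceSet_adj] at h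
        rcases hsupp a b h.1 with h5 | h5
        · exact Or.inl h5
        · exact Or.inr (mem_erase.2 ⟨h.2.1, h5⟩)) hR3 (fun a ha b hb hab => by
        rw [SimpleGraph.deleteIncidenceSet_adj]
        exact ⟨hclique a ha b hb hab, fun h => hvR (h ▸ ha), fun h => hvR (h ▸ hb)⟩) p p hp
        (fun _ _ => rfl)).2 x y (hx.imp id fun h => mem_erase.2 ⟨hxv, h⟩)
        (hy.imp id fun h => mem_erase.2 ⟨hyv, h⟩)
    have e2 : Imp (G.deleteIncidenceSet v) p x y := by
      rw [e1]
      intro q hqm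
      apply hq
      rw [mem_PM] at hqm ⊢
      obtain ⟨h5, h6, h7⟩ := hqm
      have hqv : q v = 0 := h6 v (fun h => (mem_erase.1 h).1 rfl)
      refine ⟨fun a b hab ha hb => ?_, fun a ha => ?_, fun a ha => ?_⟩
      · rw [mem_singleton] at ha hb
        refine h5 a b ?_ (Finset.notMem_empty _) (Finset.notMem_empty _)
        rw [SimpleGraph.deleteIncidenceSet_adj]
        exact ⟨hab, ha, hb⟩
      · exact h6 a (fun h => ha (mem_of_mem_erase h))
      · rw [mem_singleton] at ha
        rw [ha]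
        exact hqv
    exact hclo p hp x y hx hy hxy (e2.mono hle)
  · -- dimensions of subgraphs
    rintro p hp G' hG' hc' ⟨x, hx, y, hy, hxy, hnxy⟩
    have hf : s(x, y) ∈ F.edgeSet := hZZ x hx y hy hxy
    have e1 := hFf s(x, y) hf p hp
    set F' := F.deleteEdges {s(x, y)} with hF'
    have hFe : F'.edgeSet = F.edgeSet \ {s(x, y)} := F.edgeSet_deleteEdges _
    have hle : F' ≤ F := F.deleteEdges_le _
    set B := B0 ⊔ F' with hB
    have hle2 : B ≤ G := sup_le_sup_left hle _
    have hfB0 : s(x, y) ∉ B0.edgeSet := by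
      intro h
      exact (hE x y hf).2.2 h
    have hBe : B.edgeSet = G.edgeSet \ {s(x, y)} := by
      rw [hB, hG, SimpleGraph.edgeSet_sup, SimpleGraph.edgeSet_sup, hFe]
      ext e
      simp only [Set.mem_union, Set.mem_sdiff, Set.mem_singleton_iff]
      constructor
      · rintro (h | ⟨h, h'⟩)
        · exact ⟨Or.inl h, fun h' => hfB0 (h' ▸ h)⟩
        · exact ⟨Or.inr h, h'⟩
      · rintro ⟨h | h, h'⟩
        · exact Or.inl h
        · exact Or.inr ⟨h, h'⟩
    have hG'e : G'.edgeSet ⊆ G.edgeSet := SimpleGraph.edgeSet_subset_edgeSet.2 hG'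
    have hG'B : G'.edgeSet ⊆ B.edgeSet := by
      rw [hBe]
      intro e he
      refine ⟨hG'e he, fun h => hnxy ?_⟩
      rw [Set.mem_singleton_iff] at h
      rw [h] at he
      exact he
    have e2 := (h0 V B R Z hdis (fun x y h => hsupp x y (hle2 h)) hR3
      (fun a ha b hb hab => Or.inl ⟨hab, Or.inl ⟨ha, hb⟩⟩) p p hp (fun _ _ => rfl)).1
    have e3 := (h0 V G' R Z hdis (fun x y h => hsupp x y (hG' h)) hR3 hc' p p hp
      (fun _ _ => rfl)).1
    have e4 := mo_le_add (G := G') (G' := B) p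
    have c1 := ncard_diff_add hG'e
    have c2 := ncard_diff_add hG'B
    have c3 : B.edgeSet.ncard + 1 = G.edgeSet.ncard := by
      rw [hBe]
      exact Set.ncard_sdiff_singleton_add_one (hG'e.trans (le_refl _) |> fun _ =>
        (show s(x, y) ∈ G.edgeSet from hxy)) (Set.toFinite _)
    -- the complete graph on R
    have e5 := h1 V R ∅ hub ⟨fun _ _ => Finset.notMem_empty _, hR3, fun v hv =>
      absurd hv (Finset.notMem_empty v)⟩ p hp
    set K := base R ∅ hub with hK
    have hKG' : K ≤ G' := by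
      rintro a b ⟨hab, ⟨ha, hb⟩ | ⟨ha, _⟩ | ⟨ha, _⟩⟩
      · exact hc' a ha b hb hab
      · exact absurd ha (Finset.notMem_empty _)
      · exact absurd ha (Finset.notMem_empty _)
    have e6 := mo_le_add (G := K) (G' := G') p
    have hKe : K.edgeSet ⊆ G'.edgeSet := SimpleGraph.edgeSet_subset_edgeSet.2 hKG'
    have c4 := ncard_diff_add hKe
    have c5 := ncard_diff_add (hKe.trans hG'e)
    have c6 : (G.edgeSet \ K.edgeSet).ncard ≤ F.edgeSet.ncard + Z.card := by
      have h5 : G.edgeSet \ K.edgeSet ⊆ F.edgeSet ∪ (Z.image fun v => s(v, hub v) : Finset (Sym2 V)) := by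
        intro e he
        induction e using Sym2.ind with
        | _ a b =>
          obtain ⟨h6, h7⟩ := he
          rw [SimpleGraph.mem_edgeSet] at h6 h7
          rcases h6 with h6 | h6
          · obtain ⟨hab, ⟨ha, hb⟩ | ⟨ha, hb⟩ | ⟨ha, hb⟩⟩ := h6
            · exact absurd ⟨hab, Or.inl ⟨ha, hb⟩⟩ h7
            · right
              rw [mem_coe, mem_image]
              exact ⟨a, ha, by rw [hb]⟩
            · right
              rw [mem_coe, mem_image]
              exact ⟨b, ha, by rw [hb, Sym2.eq_swap]⟩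
          · exact Or.inl h6
      refine (Set.ncard_le_ncard h5 (Set.toFinite _)).trans ((Set.ncard_union_le _ _).trans ?_)
      rw [Set.ncard_coe_finset]
      exact Nat.add_le_add_left card_image_le _
    have c7 : (∅ : Finset V).card = 0 := card_empty
    rw [c7] at e5
    omega
  · -- all placements
    intro p p' hp hpp'
    have e1 := (hpinG p p hp fun _ _ => rfl).1
    have e2 := (hpinG p p' hp hpp').1
    have e3 := hp.min G p'
    have e4 := hdimG p hp
    have e5 : 0 < Module.finrank ℝ (PM G Z ∅ p') := by omega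
    have e6 : PM G Z ∅ p' ≠ ⊥ := by
      intro h
      rw [h, finrank_bot] at e5
      exact lt_irrefl _ e5
    obtain ⟨q, hq, hq0⟩ := Submodule.exists_mem_ne_zero_of_ne_bot e6
    exact ⟨q, hq, hq0⟩

end Pool.Agent.N423.DC
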