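import Mathlib
import Pool.Agent.N423.DC.Stm

/-!
# Graphs with a dominating clique: the cut property

Author: helper697 (project DC of helper423).
-/

set_option autoImplicit false
set_option linter.unusedSectionVars false

namespace Pool.Agent.N423.DC

open Matrix Finset Pool.Agent.H283R2.DR Pool.Agent.H789R5 Pool.Agent.N423.DE

namespace CUT

theorem mu_cont {V : Type} (f : Fin 5 → V) (i : Fin 5) :
    Continuous (fun p : V → Fin 3 → ℝ => mu (fun j => p (f j)) i) := by
  unfold mu
  refine continuous_const.mul (Continuous.matrix_det ?_)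
  refine continuous_matrix fun a b => ?_
  simp only [Matrix.of_apply]
  refine Fin.lastCases ?_ (fun c => ?_) b
  · simp only [Fin.snoc_last]
    exact continuous_const
  · simp only [Fin.snoc_castSucc]
    fun_prop

theorem kap_cont {V : Type} (en : V → Fin 5 → V) (v w : V) :
    Continuous (fun p : V → Fin 3 → ℝ => kap en p v w) := by
  unfold kap
  refine continuous_finsetSum _ fun i _ => ?_
  by_cases h : en v i = w
  · simp only [h, if_true]
    exact mu_cont _ _
  · simp only [h, if_false]
    exact continuous_const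

variable {V : Type} [Fintype V] [DecidableEq V] {G : SimpleGraph V} {Z X : Finset V}
  {en : V → Fin 5 → V} {p : V → Fin 3 → ℝ}

theorem kap_iff (h3 : S_MU) (hen : Enum G Z en)
    (hX : X.card = 4)
    (hp : ∀ x : Fin 4 → V, Function.Injective x →
      (AffineIndependent ℝ (fun i => p (x i)) ↔ ¬ ∀ i, x i ∈ X))
    {a b : V} (ha : a ∈ Z) (hab : G.Adj a b) :
    kap en p a b ≠ 0 ↔ (nb G a).erase b ≠ X := by
  obtain ⟨hinj, hnb⟩ := hen a ha
  obtain ⟨i0, hi0⟩ := (hnb b).1 hab
  have e1 : kap en p a b = mu (fun j => p (en a j)) i0 := by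
    unfold kap
    rw [Finset.sum_eq_single i0]
    · rw [if_pos hi0]
    · intro i _ hi
      rw [if_neg]
      intro h
      exact hi (hinj (h.trans hi0.symm))
    · intro h
      exact absurd (Finset.mem_univ _) h
  set x : Fin 4 → V := fun c => en a (i0.succAbove c) with hx
  have hxinj : Function.Injective x := fun c d h => Fin.succAbove_right_injective (hinj h)
  have e2 : (nb G a).erase b = Finset.univ.image x := by
    ext u
    rw [Finset.mem_erase, mem_nb, Finset.mem_image]
    constructor
    · rintro ⟨h1, h2⟩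
      obtain ⟨i, hi⟩ := (hnb u).1 h2
      have h4 : i ≠ i0 := by
        intro h
        rw [h, hi0] at hi
        exact h1 hi.symm
      obtain ⟨c, hc⟩ := Fin.exists_succAbove_eq h4
      exact ⟨c, Finset.mem_univ _, by rw [hx]; simp only; rw [hc, hi]⟩
    · rintro ⟨c, -, hc⟩
      refine ⟨?_, (hnb u).2 ⟨_, hc⟩⟩
      intro h
      have h4 : en a (i0.succAbove c) = en a i0 := hc.trans (h.trans hi0.symm)
      exact Fin.succAbove_ne i0 c (hinj h4)
  have e3 : (Finset.univ.image x).card = 4 := by
    rw [Finset.card_image_of_injective _ hxinj, Finset.card_univ, Fintype.card_fin]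
  rw [e1, (h3 (fun j => p (en a j))).2.2 i0]
  have h5 := hp x hxinj
  refine h5.trans (not_congr ?_)
  rw [e2]
  constructor
  · intro h
    apply Finset.eq_of_subset_of_card_le
    · intro u hu
      obtain ⟨c, -, rfl⟩ := Finset.mem_image.1 hu
      exact h c
    · rw [e3, hX]
  · intro h i
    rw [← h]
    exact Finset.mem_image_of_mem _ (Finset.mem_univ _)

theorem step (h3 : S_MU) (hen : Enum G Z en) (hX : X.card = 4)
    (hp : ∀ x : Fin 4 → V, Function.Injective x →
      (AffineIndependent ℝ (fun i => p (x i)) ↔ ¬ ∀ i, x i ∈ X)) (v : V) {b : V}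
    (hb : Relation.ReflTransGen (HX G Z X).Adj v b) :
    ∃ A B : (V → Fin 3 → ℝ) → ℝ, Continuous A ∧ Continuous B ∧ A p ≠ 0 ∧
      ∀ (p' : V → Fin 3 → ℝ) (s : V → ℝ),
        (∀ a ∈ Z, ∀ b ∈ Z, s a * kap en p' a b = s b * kap en p' b a) →
        s b * B p' = s v * A p' := by
  induction hb with
  | refl => exact ⟨fun _ => 1, fun _ => 1, continuous_const, continuous_const, one_ne_zero,
      fun p' s _ => rfl⟩
  | @tail b c _ hbc ih =>
    obtain ⟨A, B, hA, hB, hA0, h⟩ := ih
    obtain ⟨hbZ, hcZ, hadj, h4, h5⟩ := hbc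
    refine ⟨fun q => A q * kap en q b c, fun q => B q * kap en q c b, hA.mul (kap_cont _ _ _),
      hB.mul (kap_cont _ _ _), mul_ne_zero hA0 ((kap_iff h3 hen hX hp hbZ hadj).2 h4), ?_⟩
    intro p' s hs
    have h6 := h p' s hs
    have h7 := hs b hbZ c hcZ
    calc s c * (B p' * kap en p' c b) = (s c * kap en p' c b) * B p' := by ring
      _ = (s b * kap en p' b c) * B p' := by rw [h7]
      _ = (s b * B p') * kap en p' b c := by ring
      _ = (s v * A p') * kap en p' b c := by rw [h6]
      _ = s v * (A p' * kap en p' b c) := by ring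

end CUT

theorem cut (h1 : S_MGG) (h2 : S_SP) (h3 : S_MU) : S_CUT := by
  intro V _ _ G R Z hub en hcore hen hstr v hv w hw hvw hne hreach
  set X := (nb G v).erase w with hX
  have hXc : X.card = 4 := by
    rw [hX, Finset.card_erase_of_mem (mem_nb.2 hvw), hcore.deg v hv]
  obtain ⟨ps, hps⟩ := h2 V X hXc
  obtain ⟨A, B, hA, hB, hA0, h⟩ := CUT.step h3 hen hXc hps v
    ((SimpleGraph.reachable_iff_reflTransGen v w).1 hreach)
  have k1 : kap en ps v w = 0 := by
    by_contra hk
    exact (CUT.kap_iff h3 hen hXc hps hv hvw).1 hk rfl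
  have k2 : kap en ps w v ≠ 0 := (CUT.kap_iff h3 hen hXc hps hw hvw.symm).2 (Ne.symm hne)
  -- the identity for most generic placements
  have key : ∀ p : V → Fin 3 → ℝ, MG p → kap en p v w * B p = kap en p w v * A p := by
    intro p hp
    obtain ⟨ω, hsym, -, -, hω⟩ := hstr p hp
    choose! s hs0 hs using hω
    have hrel : ∀ a ∈ Z, ∀ b ∈ Z, s a * kap en p a b = s b * kap en p b a := by
      intro a ha b hb
      rw [← hs a ha b, ← hs b hb a, hsym]
    have e1 := h p s hrel
    have e2 := hrel v hv w hw
    apply mul_left_cancel₀ (hs0 v hv)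
    calc s v * (kap en p v w * B p) = (s v * kap en p v w) * B p := by ring
      _ = (s w * kap en p w v) * B p := by rw [e2]
      _ = (s w * B p) * kap en p w v := by ring
      _ = (s v * A p) * kap en p w v := by rw [e1]
      _ = s v * (kap en p w v * A p) := by ring
  obtain ⟨p0, hp0⟩ := exists_mg V 3
  have hfin := h1 V p0 ps hp0
  let L : ℝ → (V → Fin 3 → ℝ) := fun t => p0 + t • (ps - p0)
  have hL : Continuous L := by fun_prop
  have hf : Continuous (fun t => kap en (L t) v w * B (L t)) :=
    ((CUT.kap_cont en v w).comp hL).mul (hB.comp hL)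
  have hg : Continuous (fun t => kap en (L t) w v * A (L t)) :=
    ((CUT.kap_cont en w v).comp hL).mul (hA.comp hL)
  have hdense : Dense ({s : ℝ | ¬ MG (p0 + s • (ps - p0))}ᶜ) :=
    Set.Countable.dense_compl ℝ (Set.Finite.countable hfin)
  have heq := Continuous.ext_on hdense hf hg (by
    intro t ht
    have ht' : MG (L t) := by
      by_contra hc
      exact ht hc
    exact key (L t) ht')
  have h5 := congrFun heq 1
  have h6 : L 1 = ps := by
    show p0 + (1 : ℝ) • (ps - p0) = ps
    rw [one_smul]
    abel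
  simp only [h6] at h5
  rw [k1, zero_mul] at h5
  exact mul_ne_zero k2 hA0 h5.symm

end Pool.Agent.N423.DC
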