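import Mathlib
import Pool.Agent.N423.DC.Stm

/-!
# The degrees in a minimal counterexample
-/

set_option autoImplicit false
set_option linter.unusedSectionVars false

namespace Pool.Agent.N423.DC.DEG

open Matrix Finset Pool.Agent.H283R2.DR Pool.Agent.H789R5 Pool.Agent.N423.DE Pool.Agent.N423.DC

/-! ### The rank as a natural number -/

section rank

variable {E : Type} [Finite E] (M : Matroid E)

/-- the rank as a natural number -/
noncomputable def rk (X : Set E) : ℕ := (M.eRk X).toNat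

theorem coe_rk (X : Set E) : (rk M X : ℕ∞) = M.eRk X := by
  apply ENat.natCast_toNat
  intro h
  have h1 := M.eRk_le_encard X
  rw [h, top_le_iff, Set.encard_eq_top_iff] at h1
  exact h1 (Set.toFinite X)

theorem rk_mono {X Y : Set E} (h : X ⊆ Y) : rk M X ≤ rk M Y := by
  have h1 := M.eRk_mono h
  rw [← coe_rk, ← coe_rk] at h1
  exact_mod_cast h1

theorem rk_sub (X Y : Set E) : rk M (X ∩ Y) + rk M (X ∪ Y) ≤ rk M X + rk M Y := by
  have h1 := M.eRk_inter_add_eRk_union_le X Y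
  rw [← coe_rk, ← coe_rk, ← coe_rk, ← coe_rk] at h1
  exact_mod_cast h1

theorem rk_union (X Y : Set E) : rk M (X ∪ Y) ≤ rk M X + Y.ncard := by
  have h1 := M.eRk_union_le_eRk_add_encard X Y
  rw [← coe_rk, ← coe_rk, ← (Set.toFinite Y).cast_ncard_eq] at h1
  exact_mod_cast h1

theorem rk_insert {X : Set E} {e : E} (he : e ∈ M.E) (h : e ∉ M.closure X) :
    rk M (insert e X) = rk M X + 1 := by
  have h1 := M.eRk_insert_eq_add_one (X := X) ⟨he, h⟩
  rw [← coe_rk, ← coe_rk] at h1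
  exact_mod_cast h1

theorem rk_insert_mem {X : Set E} {e : E} (h : e ∈ M.closure X) :
    rk M (insert e X) = rk M X := by
  unfold rk
  rw [← M.eRk_closure_eq (insert e X), Matroid.closure_insert_eq_of_mem_closure h,
    M.eRk_closure_eq]

theorem rk_rel {X Y X' Y' : Set E} (h : rk M (X ∪ Y) = rk M X + Y.ncard) (hX : X' ⊆ X)
    (hY : Y' ⊆ Y) : rk M (X' ∪ Y') = rk M X' + Y'.ncard := by
  have h1 : rk M (X ∪ Y) ≤ rk M (X ∪ Y') + (Y \ Y').ncard := by
    refine le_trans (rk_mono M ?_) (rk_union M (X ∪ Y') (Y \ Y'))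
    intro e he
    by_cases h : e ∈ Y'
    · exact Or.inl (Or.inr h)
    · rcases he with he | he
      · exact Or.inl (Or.inl he)
      · exact Or.inr ⟨he, h⟩
  have h2 : (Y \ Y').ncard + Y'.ncard = Y.ncard :=
    Set.ncard_sdiff_add_ncard_of_subset hY (Set.toFinite _)
  have h3 := rk_sub M X (X' ∪ Y')
  have h4 : rk M X' ≤ rk M (X ∩ (X' ∪ Y')) := rk_mono M (fun e he => ⟨hX he, Or.inl he⟩)
  have h5 : rk M (X ∪ Y') ≤ rk M (X ∪ (X' ∪ Y')) := rk_mono M (by
    intro e he
    rcases he with he | he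
    · exact Or.inl he
    · exact Or.inr (Or.inr he))
  have h6 := rk_union M X' Y'
  omega

end rank

variable {V : Type} [Fintype V] [DecidableEq V]

theorem mind_iff (M : Matroid (Sym2 V)) (R Z : Finset V) (hub : V → V) (F : SimpleGraph V) :
    MInd M R Z hub F ↔ rk M ((base R Z hub).edgeSet ∪ F.edgeSet) =
      rk M (base R Z hub).edgeSet + F.edgeSet.ncard := by
  unfold MInd
  rw [SimpleGraph.edgeSet_sup, ← coe_rk, ← coe_rk]
  exact_mod_cast Iff.rfl

/-! ### The base graph and the deletion of a vertex -/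

section del

variable {R Z : Finset V} {hub : V → V} (hb : Hb R Z hub) {v : V} (hv : v ∈ Z)

include hb hv

theorem hub_ne : v ≠ hub v := fun h => hb.1 _ (hb.2.2 v hv) (h ▸ hv)

theorem base_adj_v {y : V} : (base R Z hub).Adj v y ↔ y = hub v := by
  constructor
  · rintro ⟨_, ⟨h, _⟩ | ⟨_, h⟩ | ⟨h1, h2⟩⟩
    · exact absurd hv (hb.1 v h)
    · exact h
    · exact absurd hv (hb.1 v (h2 ▸ hb.2.2 y h1))
  · rintro rfl
    exact ⟨hub_ne hb hv, Or.inr (Or.inl ⟨hv, rfl⟩)⟩

theorem base_del : base R (Z.erase v) hub = (base R Z hub).deleteIncidenceSet v := by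
  ext x y
  rw [SimpleGraph.deleteIncidenceSet_adj]
  have hR : ∀ r ∈ R, r ≠ v := fun r hr h => hb.1 r hr (h ▸ hv)
  constructor
  · rintro ⟨hxy, ⟨h1, h2⟩ | ⟨h1, h2⟩ | ⟨h1, h2⟩⟩
    · exact ⟨⟨hxy, Or.inl ⟨h1, h2⟩⟩, hR x h1, hR y h2⟩
    · obtain ⟨h3, h4⟩ := mem_erase.1 h1
      exact ⟨⟨hxy, Or.inr (Or.inl ⟨h4, h2⟩)⟩, h3, h2 ▸ hR _ (hb.2.2 x h4)⟩
    · obtain ⟨h3, h4⟩ := mem_erase.1 h1
      exact ⟨⟨hxy, Or.inr (Or.inr ⟨h4, h2⟩)⟩, h2 ▸ hR _ (hb.2.2 y h4), h3⟩
  · rintro ⟨⟨hxy, ⟨h1, h2⟩ | ⟨h1, h2⟩ | ⟨h1, h2⟩⟩, h3, h4⟩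
    · exact ⟨hxy, Or.inl ⟨h1, h2⟩⟩
    · exact ⟨hxy, Or.inr (Or.inl ⟨mem_erase.2 ⟨h3, h1⟩, h2⟩)⟩
    · exact ⟨hxy, Or.inr (Or.inr ⟨mem_erase.2 ⟨h4, h1⟩, h2⟩)⟩

theorem nb_base : nb (base R Z hub) v = {hub v} := by
  ext y
  rw [mem_nb, base_adj_v hb hv, mem_singleton]

theorem hb_erase : Hb R (Z.erase v) hub :=
  ⟨fun x hx h => hb.1 x hx (mem_of_mem_erase h), hb.2.1,
    fun w hw => hb.2.2 w (mem_of_mem_erase hw)⟩

end del

theorem del_sup (B F : SimpleGraph V) (v : V) :
    (B ⊔ F).deleteIncidenceSet v = B.deleteIncidenceSet v ⊔ F.deleteIncidenceSet v := by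
  ext x y
  rw [SimpleGraph.deleteIncidenceSet_adj, SimpleGraph.sup_adj, SimpleGraph.sup_adj,
    SimpleGraph.deleteIncidenceSet_adj, SimpleGraph.deleteIncidenceSet_adj]
  tauto

theorem ext_del {R Z : Finset V} {hub : V → V} {F : SimpleGraph V} (hF : Ext R Z hub F) {v : V}
    (hb : Hb R Z hub) (hv : v ∈ Z) : Ext R (Z.erase v) hub (F.deleteIncidenceSet v) := by
  intro x y hxy
  rw [SimpleGraph.deleteIncidenceSet_adj] at hxy
  obtain ⟨h, hx, hy⟩ := hxy
  obtain ⟨h1, h2, h3⟩ := hF x y h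
  refine ⟨h1.imp id fun h => mem_erase.2 ⟨hx, h⟩, h2.imp id fun h => mem_erase.2 ⟨hy, h⟩, ?_⟩
  rw [base_del hb hv, SimpleGraph.deleteIncidenceSet_adj]
  exact fun h => h3 h.1

end Pool.Agent.N423.DC.DEG

namespace Pool.Agent.N423.DC

open Matrix Finset Pool.Agent.H283R2.DR Pool.Agent.H789R5 Pool.Agent.N423.DE
open DEG

theorem deg : S_DEG := by
  intro V _ _ M hK R Z hub hb hmin F hF hM hR v hv
  by_contra hlt
  push Not at hlt
  -- a placement
  obtain ⟨p, hp, hpne⟩ : ∃ p : V → Fin 3 → ℝ, MG p ∧ mo (base R Z hub) p ≠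
      mo (base R Z hub ⊔ F) p + F.edgeSet.ncard := by
    by_contra h
    push Not at h
    exact hR h
  have hdisj : Disjoint (base R Z hub).edgeSet F.edgeSet := by
    rw [Set.disjoint_left]
    intro e he1 he2
    induction e using Sym2.ind with
    | _ a b => exact (hF a b he2).2.2 he1
  have hup : mo (base R Z hub) p ≤ mo (base R Z hub ⊔ F) p + F.edgeSet.ncard := by
    refine (mo_le_add p).trans (Nat.add_le_add_left ?_ _)
    apply Set.ncard_le_ncard _ (Set.toFinite _)
    rw [SimpleGraph.edgeSet_sup]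
    rintro e ⟨he | he, h⟩
    · exact absurd he h
    · exact he
  -- the smaller instance
  have hss : Z.erase v ⊂ Z := erase_ssubset hv
  set B := base R Z hub with hB
  set B' := base R (Z.erase v) hub with hB'
  set F' := F.deleteIncidenceSet v with hF'
  have hBd : B' = B.deleteIncidenceSet v := base_del hb hv
  have hGd : (B ⊔ F).deleteIncidenceSet v = B' ⊔ F' := by rw [del_sup, hBd]
  have hE' : Ext R (Z.erase v) hub F' := ext_del hF hb hv
  have hBle : B' ≤ B := by rw [hBd]; exact B.deleteIncidenceSet_le v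
  have hFle : F' ≤ F := F.deleteIncidenceSet_le v
  have hMr := (mind_iff M R Z hub F).1 hM
  rw [← hB] at hMr
  have hMr' : rk M (B'.edgeSet ∪ F'.edgeSet) = rk M B'.edgeSet + F'.edgeSet.ncard :=
    rk_rel M hMr (SimpleGraph.edgeSet_subset_edgeSet.2 hBle)
      (SimpleGraph.edgeSet_subset_edgeSet.2 hFle)
  have hR' : RInd R (Z.erase v) hub F' :=
    hmin _ hss F' hE' ((mind_iff M R _ hub F').2 hMr')
  have hRp := hR' p hp
  rw [← hB'] at hRp
  have hcF := card_del F v
  rw [← hF'] at hcF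
  -- the hub
  have hBm : mo B p + 1 = mo B' p := by
    have h1 := ext0 hp B v {hub v} (by simp) (by
      intro z hz
      rw [mem_singleton] at hz
      subst hz
      exact (base_adj_v hb hv).2 rfl)
    have h2 := mo_del_le B p v
    rw [nb_base hb hv] at h2
    rw [card_singleton] at h1 h2
    rw [hBd]
    omega
  have hhub : hub v ∉ nb F v := by
    intro h
    exact (hF v (hub v) (mem_nb.1 h)).2.2 ((base_adj_v hb hv).2 rfl)
  have hnbG : nb (B ⊔ F) v = insert (hub v) (nb F v) := by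
    ext y
    rw [mem_nb, mem_insert, mem_nb, SimpleGraph.sup_adj, base_adj_v hb hv]
  have hNc : (nb (B ⊔ F) v).card = (nb F v).card + 1 := by
    rw [hnbG, card_insert_of_notMem hhub]
  -- enough motions lost
  have hkey : ¬ (mo (B ⊔ F) p + (nb (B ⊔ F) v).card ≤ mo (B' ⊔ F') p) := by
    intro h
    omega
  by_cases h2 : (nb F v).card ≤ 2
  · apply hkey
    rw [← hGd]
    exact ext0 hp (B ⊔ F) v _ (by omega) (fun z hz => mem_nb.1 hz)
  have h3 : (nb F v).card = 3 := by omega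
  -- all pairs are implied
  have himp : ∀ x ∈ nb (B ⊔ F) v, ∀ y ∈ nb (B ⊔ F) v, x ≠ y → Imp (B' ⊔ F') p x y := by
    intro x hx y hy hxy
    by_contra hni
    apply hkey
    rw [← hGd] at hni ⊢
    have := gain1 hp (mem_nb.1 hx) (mem_nb.1 hy) hxy (by omega) (by omega) hni
    omega
  have hmemN : ∀ x ∈ nb (B ⊔ F) v, (x ∈ R ∨ x ∈ Z.erase v) ∧ x ≠ v := by
    intro x hx
    have hxv : x ≠ v := (mem_nb.1 hx).ne'
    refine ⟨?_, hxv⟩
    rw [hnbG, mem_insert, mem_nb] at hx
    rcases hx with rfl | hx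
    · exact Or.inl (hb.2.2 v hv)
    · exact (hF v x hx).2.1.imp id fun h => mem_erase.2 ⟨hxv, h⟩
  -- all pairs are in the closure
  have hcl : ∀ x ∈ nb (B ⊔ F) v, ∀ y ∈ nb (B ⊔ F) v, x ≠ y →
      s(x, y) ∈ M.closure (B'.edgeSet ∪ F'.edgeSet) := by
    intro x hx y hy hxy
    have hxyE : s(x, y) ∈ M.E := hK.1 _ (by rwa [Sym2.mk_isDiag_iff])
    by_contra hnc
    have hnadj : ¬ (B' ⊔ F').Adj x y := by
      intro h
      apply hnc
      apply Matroid.mem_closure_of_mem' M _ hxyE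
      rw [← SimpleGraph.edgeSet_sup]
      exact h
    set F'' := F' ⊔ SimpleGraph.edge x y with hF''
    have hedge : (SimpleGraph.edge x y).edgeSet = {s(x, y)} := by
      rw [SimpleGraph.edgeSet_edge_of_ne hxy]
    have hE'' : Ext R (Z.erase v) hub F'' := by
      intro a b hab
      rw [hF'', SimpleGraph.sup_adj] at hab
      rcases hab with hab | hab
      · exact hE' a b hab
      · rw [SimpleGraph.edge_adj] at hab
        rcases hab.1 with ⟨rfl, rfl⟩ | ⟨rfl, rfl⟩
        · exact ⟨(hmemN _ hx).1, (hmemN _ hy).1, fun h => hnadj (Or.inl h)⟩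
        · exact ⟨(hmemN _ hy).1, (hmemN _ hx).1, fun h => hnadj (Or.inl h.symm)⟩
    have hes : B'.edgeSet ∪ F''.edgeSet = insert s(x, y) (B'.edgeSet ∪ F'.edgeSet) := by
      rw [hF'', SimpleGraph.edgeSet_sup, hedge]
      ext e
      simp only [Set.mem_union, Set.mem_singleton_iff, Set.mem_insert_iff]
      tauto
    have hcard : F''.edgeSet.ncard = F'.edgeSet.ncard + 1 := by
      have hnF : s(x, y) ∉ F'.edgeSet := fun h => hnadj (Or.inr h)
      rw [hF'', SimpleGraph.edgeSet_sup, hedge, Set.union_singleton,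
        Set.ncard_insert_of_notMem hnF (Set.toFinite _)]
    have hM'' : MInd M R (Z.erase v) hub F'' := by
      rw [mind_iff, ← hB', hes, rk_insert M hxyE hnc, hMr', hcard]
      ring
    have hR'' := hmin _ hss F'' hE'' hM'' p hp
    rw [← hB', hcard] at hR''
    have h5 : mo (B' ⊔ F') p ≤ mo (B' ⊔ F'') p := by
      apply mo_le_of_imp
      intro a b hab
      rw [SimpleGraph.sup_adj, hF'', SimpleGraph.sup_adj] at hab
      rcases hab with hab | hab | hab
      · exact imp_of_adj (Or.inl hab)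
      · exact imp_of_adj (Or.inr hab)
      · rw [SimpleGraph.edge_adj] at hab
        rcases hab.1 with ⟨rfl, rfl⟩ | ⟨rfl, rfl⟩
        · exact himp _ hx _ hy hxy
        · exact (himp _ hx _ hy hxy).symm
    omega
  -- the circuit
  obtain ⟨x, hx⟩ : (nb F v).Nonempty := by
    rw [← card_pos]; omega
  have hFx : F.Adj v x := mem_nb.1 hx
  have hvN : v ∉ nb (B ⊔ F) v := not_mem_nb _ v
  have hA : (insert v (nb (B ⊔ F) v)).card = 5 := by
    rw [card_insert_of_notMem hvN, hNc, h3]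
  have hcirc := hK.2 _ hA
  set Y := (B.edgeSet ∪ F.edgeSet) \ {s(v, x)} with hY
  have hG'Y : B'.edgeSet ∪ F'.edgeSet ⊆ Y := by
    intro e he
    refine ⟨?_, ?_⟩
    · rcases he with he | he
      · exact Or.inl (SimpleGraph.edgeSet_subset_edgeSet.2 hBle he)
      · exact Or.inr (SimpleGraph.edgeSet_subset_edgeSet.2 hFle he)
    · rintro rfl
      have h : (B' ⊔ F').Adj v x := by
        rw [SimpleGraph.sup_adj]
        exact he
      rw [← hGd] at h
      exact del_isolated _ v x h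
  have hstar : ∀ b ∈ nb (B ⊔ F) v, b ≠ x → s(v, b) ∈ M.closure Y := by
    intro b hb' hbx
    apply Matroid.mem_closure_of_mem' M _ (hK.1 _ (by
      rw [Sym2.mk_isDiag_iff]
      exact (mem_nb.1 hb').ne))
    refine ⟨?_, ?_⟩
    · rw [← SimpleGraph.edgeSet_sup]
      exact mem_nb.1 hb'
    · intro h
      rw [Set.mem_singleton_iff, Sym2.eq_iff] at h
      rcases h with h | h
      · exact hbx h.2
      · exact hbx (h.2.trans h.1)
  have hsubc : pairs (insert v (nb (B ⊔ F) v)) \ {s(v, x)} ⊆ M.closure Y := by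
    intro e he
    induction e using Sym2.ind with
    | _ a b =>
      obtain ⟨⟨h1, h2'⟩, h3'⟩ := he
      rw [Sym2.mk_isDiag_iff] at h1
      have ha := h2' a (by simp)
      have hb' := h2' b (by simp)
      rw [mem_insert] at ha hb'
      rw [Set.mem_singleton_iff] at h3'
      rcases ha with rfl | ha
      · rcases hb' with rfl | hb'
        · exact absurd rfl h1
        · exact hstar b hb' (fun h => h3' (by rw [h]))
      · rcases hb' with rfl | hb'
        · rw [Sym2.eq_swap]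
          exact hstar a ha (fun h => h3' (by rw [h, Sym2.eq_swap]))
        · exact M.closure_subset_closure hG'Y (hcl a ha b hb' h1)
  have hvx : s(v, x) ∈ pairs (insert v (nb (B ⊔ F) v)) := by
    refine ⟨?_, ?_⟩
    · rw [Sym2.mk_isDiag_iff]
      exact hFx.ne
    · intro z hz
      rw [Sym2.mem_iff] at hz
      rcases hz with rfl | rfl
      · exact mem_insert_self _ _
      · apply mem_insert_of_mem
        rw [hnbG]
        exact mem_insert_of_mem hx
  have hin : s(v, x) ∈ M.closure Y :=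
    Matroid.closure_subset_closure_of_subset_closure hsubc
      (hcirc.mem_closure_sdiff_singleton_of_mem hvx)
  have hrk1 := rk_insert_mem M hin
  have hins : insert s(v, x) Y = B.edgeSet ∪ F.edgeSet := by
    rw [hY, Set.insert_sdiff_singleton, Set.insert_eq_of_mem]
    exact Or.inr hFx
  have hYeq : Y ⊆ B.edgeSet ∪ (F.edgeSet \ {s(v, x)}) := by
    rintro e ⟨he | he, h⟩
    · exact Or.inl he
    · exact Or.inr ⟨he, h⟩
  have hrk2 := (rk_mono M hYeq).trans (rk_union M _ _)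
  have hcard2 : (F.edgeSet \ {s(v, x)}).ncard + 1 = F.edgeSet.ncard :=
    Set.ncard_sdiff_singleton_add_one hFx (Set.toFinite _)
  rw [hins, hMr] at hrk1
  omega

end Pool.Agent.N423.DC
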