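import Mathlib
import Pool.Agent.N423.DC.Stm

/-!
# Project DC: singular pencils of 2 × 2 matrices
-/

set_option autoImplicit false

namespace Pool.Agent.N423.DC

namespace DICH

open Matrix

abbrev V3 := Fin 3 → ℝ

lemma dself {p : V3} (h : p ⬝ᵥ p = 0) : p = 0 := dotProduct_self_eq_zero.1 h

/-- the product of two linear forms -/
lemma prod_zero {p q : V3} (h : ∀ y : V3, (y ⬝ᵥ p) * (y ⬝ᵥ q) = 0) : p = 0 ∨ q = 0 := by
  by_contra hcon
  push Not at hcon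
  have hp : p ⬝ᵥ p ≠ 0 := fun h0 => hcon.1 (dself h0)
  have hq : q ⬝ᵥ q ≠ 0 := fun h0 => hcon.2 (dself h0)
  have h1 : p ⬝ᵥ q = 0 := (mul_eq_zero.1 (h p)).resolve_left hp
  have h2 := h (p + q)
  rw [add_dotProduct, add_dotProduct, dotProduct_comm q p, h1, add_zero, zero_add] at h2
  exact (mul_ne_zero hp hq) h2

/-- the product of two linear forms on a plane -/
lemma prod_plane {a b c : V3} (ha : a ≠ 0)
    (h : ∀ y : V3, y ⬝ᵥ a = 0 → (y ⬝ᵥ b) * (y ⬝ᵥ c) = 0) :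
    (∃ t : ℝ, b = t • a) ∨ ∃ t : ℝ, c = t • a := by
  have haa : a ⬝ᵥ a ≠ 0 := fun h0 => ha (dself h0)
  obtain ⟨t, ht⟩ : ∃ t : ℝ, t = (b ⬝ᵥ a) / (a ⬝ᵥ a) := ⟨_, rfl⟩
  obtain ⟨s, hs⟩ : ∃ s : ℝ, s = (c ⬝ᵥ a) / (a ⬝ᵥ a) := ⟨_, rfl⟩
  obtain ⟨b0, hb0⟩ : ∃ b0 : V3, b0 = b - t • a := ⟨_, rfl⟩
  obtain ⟨c0, hc0⟩ : ∃ c0 : V3, c0 = c - s • a := ⟨_, rfl⟩
  have hba : b0 ⬝ᵥ a = 0 := by
    rw [hb0, sub_dotProduct, smul_dotProduct, smul_eq_mul, ht, div_mul_cancel₀ _ haa, sub_self]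
  have hca : c0 ⬝ᵥ a = 0 := by
    rw [hc0, sub_dotProduct, smul_dotProduct, smul_eq_mul, hs, div_mul_cancel₀ _ haa, sub_self]
  have h' : ∀ y : V3, y ⬝ᵥ a = 0 → (y ⬝ᵥ b0) * (y ⬝ᵥ c0) = 0 := by
    intro y hy
    rw [hb0, hc0, dotProduct_sub, dotProduct_sub, dotProduct_smul, dotProduct_smul, hy,
      smul_zero, smul_zero, sub_zero, sub_zero]
    exact h y hy
  by_contra hcon
  push Not at hcon
  have hb : b0 ⬝ᵥ b0 ≠ 0 := by
    intro h0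
    have h1 := dself h0
    rw [hb0] at h1
    exact hcon.1 t (sub_eq_zero.1 h1)
  have hc : c0 ⬝ᵥ c0 ≠ 0 := by
    intro h0
    have h1 := dself h0
    rw [hc0] at h1
    exact hcon.2 s (sub_eq_zero.1 h1)
  have h1 : b0 ⬝ᵥ c0 = 0 := (mul_eq_zero.1 (h' b0 hba)).resolve_left hb
  have h2 := h' (b0 + c0) (by rw [add_dotProduct, hba, hca, add_zero])
  rw [add_dotProduct, add_dotProduct, dotProduct_comm c0 b0, h1, add_zero, zero_add] at h2
  exact (mul_ne_zero hb hc) h2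

/-- unique factorization -/
lemma fac {a b c d : V3} (ha : a ≠ 0) (h : ∀ y : V3, (y ⬝ᵥ a) * (y ⬝ᵥ d) = (y ⬝ᵥ b) * (y ⬝ᵥ c)) :
    (∃ t : ℝ, b = t • a ∧ d = t • c) ∨ ∃ t : ℝ, c = t • a ∧ d = t • b := by
  have key : ∀ (b c : V3) (t : ℝ), (∀ y : V3, (y ⬝ᵥ a) * (y ⬝ᵥ d) = (y ⬝ᵥ b) * (y ⬝ᵥ c)) →
      b = t • a → d = t • c := by
    intro b c t h hb
    have h1 : a = 0 ∨ d - t • c = 0 := by
      apply prod_zero
      intro y
      have h2 := h y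
      rw [hb, dotProduct_smul, smul_eq_mul] at h2
      rw [dotProduct_sub, dotProduct_smul, smul_eq_mul]
      linear_combination h2
    exact sub_eq_zero.1 (h1.resolve_left ha)
  rcases prod_plane ha (b := b) (c := c) (fun y hy => by rw [← h, hy, zero_mul]) with
    ⟨t, ht⟩ | ⟨t, ht⟩
  · exact Or.inl ⟨t, ht, key b c t h ht⟩
  · exact Or.inr ⟨t, ht, key c b t (fun y => by rw [h, mul_comm]) ht⟩

end DICH

open Matrix DICH in
theorem dich : S_DICH := by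
  intro E _ _ hE z z' δ δ' hy hker hδ hδ'
  have : Module.Finite ℝ E := Module.finite_of_finrank_pos (by rw [hE]; norm_num)
  let e := Module.finBasisOfFinrankEq ℝ E hE
  have hrep : ∀ u : E, ∃ x w : ℝ, u = x • e 0 + w • e 1 := by
    intro u
    refine ⟨e.repr u 0, e.repr u 1, ?_⟩
    have h := e.sum_repr u
    rw [Fin.sum_univ_two] at h
    exact h.symm
  obtain ⟨a, ha⟩ : ∃ a, a = δ (e 0) := ⟨_, rfl⟩
  obtain ⟨b, hb⟩ : ∃ b, b = δ (e 1) := ⟨_, rfl⟩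
  obtain ⟨a', ha'⟩ : ∃ a', a' = δ' (e 0) := ⟨_, rfl⟩
  obtain ⟨b', hb'⟩ : ∃ b', b' = δ' (e 1) := ⟨_, rfl⟩
  have hδu : ∀ x w : ℝ, δ (x • e 0 + w • e 1) = x • a + w • b := by
    intro x w
    rw [map_add, map_smul, map_smul, ha, hb]
  have hδu' : ∀ x w : ℝ, δ' (x • e 0 + w • e 1) = x • a' + w • b' := by
    intro x w
    rw [map_add, map_smul, map_smul, ha', hb']
  -- no common kernel
  have hk : ∀ x w : ℝ, x • a + w • b = 0 → x • a' + w • b' = 0 → x = 0 ∧ w = 0 := by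
    intro x w h1 h2
    have h3 := hker (x • e 0 + w • e 1) (by rw [hδu, h1]) (by rw [hδu', h2])
    have hli := e.linearIndependent
    rw [Fintype.linearIndependent_iff] at hli
    have h4 := hli ![x, w] (by rw [Fin.sum_univ_two]; exact h3)
    exact ⟨h4 0, h4 1⟩
  have hab : ¬ (a = 0 ∧ b = 0) := by
    rintro ⟨h1, h2⟩
    apply hδ
    ext u : 1
    obtain ⟨x, w, rfl⟩ := hrep u
    rw [hδu, h1, h2, smul_zero, smul_zero, add_zero]
    rfl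
  have hab' : ¬ (a' = 0 ∧ b' = 0) := by
    rintro ⟨h1, h2⟩
    apply hδ'
    ext u : 1
    obtain ⟨x, w, rfl⟩ := hrep u
    rw [hδu', h1, h2, smul_zero, smul_zero, add_zero]
    rfl
  -- the determinant
  have hdet : ∀ y : V3, ((y - z) ⬝ᵥ a) * ((y - z') ⬝ᵥ b') = ((y - z) ⬝ᵥ b) * ((y - z') ⬝ᵥ a') := by
    intro y
    obtain ⟨u, hu0, hu1, hu2⟩ := hy y
    obtain ⟨x, w, rfl⟩ := hrep u
    rw [hδu, dotProduct_add, dotProduct_smul, dotProduct_smul, smul_eq_mul, smul_eq_mul] at hu1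
    rw [hδu', dotProduct_add, dotProduct_smul, dotProduct_smul, smul_eq_mul, smul_eq_mul] at hu2
    generalize (y - z) ⬝ᵥ a = A at *
    generalize (y - z) ⬝ᵥ b = B at *
    generalize (y - z') ⬝ᵥ a' = C at *
    generalize (y - z') ⬝ᵥ b' = D at *
    have h1 : (A * D - B * C) * x = 0 := by linear_combination D * hu1 - B * hu2
    have h2 : (A * D - B * C) * w = 0 := by linear_combination A * hu2 - C * hu1
    by_contra hne
    have hne' : A * D - B * C ≠ 0 := sub_ne_zero.2 hne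
    have hx : x = 0 := (mul_eq_zero.1 h1).resolve_left hne'
    have hw : w = 0 := (mul_eq_zero.1 h2).resolve_left hne'
    apply hu0
    rw [hx, hw, zero_smul, zero_smul, add_zero]
  have hs : ∀ (y : V3) (s : ℝ), (s * (y ⬝ᵥ a) - z ⬝ᵥ a) * (s * (y ⬝ᵥ b') - z' ⬝ᵥ b') =
      (s * (y ⬝ᵥ b) - z ⬝ᵥ b) * (s * (y ⬝ᵥ a') - z' ⬝ᵥ a') := by
    intro y s
    have h := hdet (s • y)
    rw [sub_dotProduct, sub_dotProduct, sub_dotProduct, sub_dotProduct, smul_dotProduct,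
      smul_dotProduct, smul_dotProduct, smul_dotProduct] at h
    simpa only [smul_eq_mul] using h
  have hQ : ∀ y : V3, (y ⬝ᵥ a) * (y ⬝ᵥ b') = (y ⬝ᵥ b) * (y ⬝ᵥ a') := by
    intro y
    linear_combination (1 / 2) * hs y 1 + (1 / 2) * hs y (-1) - hs y 0
  have hL : ∀ y : V3, (y ⬝ᵥ a) * (z' ⬝ᵥ b') + (z ⬝ᵥ a) * (y ⬝ᵥ b') =
      (y ⬝ᵥ b) * (z' ⬝ᵥ a') + (z ⬝ᵥ b) * (y ⬝ᵥ a') := by
    intro y
    linear_combination (1 / 2) * hs y (-1) - (1 / 2) * hs y 1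
  -- `a ≠ 0`
  have ha0 : a ≠ 0 := by
    intro h0
    have h1 : b = 0 ∨ a' = 0 := by
      apply prod_zero
      intro y
      rw [← hQ, h0, dotProduct_zero, zero_mul]
    rcases h1 with h1 | h1
    · exact hab ⟨h0, h1⟩
    · have := hk 1 0 (by rw [h0]; simp) (by rw [h1]; simp)
      exact one_ne_zero this.1
  rcases fac ha0 hQ with ⟨t, h1, h2⟩ | ⟨t, h1, h2⟩
  · exfalso
    have := hk (-t) 1 (by rw [h1]; simp) (by rw [h2]; simp)
    exact one_ne_zero this.2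
  · have ht : t ≠ 0 := by
      rintro rfl
      rw [zero_smul] at h1 h2
      exact hab' ⟨h1, h2⟩
    have hdd : ∀ u, δ' u = t • δ u := by
      intro u
      obtain ⟨x, w, rfl⟩ := hrep u
      rw [hδu, hδu', h1, h2, smul_add, smul_comm x t, smul_comm w t]
    have hv : ((z' ⬝ᵥ b) - (z ⬝ᵥ b)) • a + (-((z' ⬝ᵥ a) - (z ⬝ᵥ a))) • b = 0 := by
      apply dself
      have hz : ∀ y : V3, y ⬝ᵥ (((z' ⬝ᵥ b) - (z ⬝ᵥ b)) • a + (-((z' ⬝ᵥ a) - (z ⬝ᵥ a))) • b) = 0 := by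
        intro y
        have h3 := hL y
        rw [h1, h2] at h3
        simp only [dotProduct_add, dotProduct_smul, smul_eq_mul] at h3 ⊢
        have h4 : t * (((z' ⬝ᵥ b) - (z ⬝ᵥ b)) * (y ⬝ᵥ a) +
            (-((z' ⬝ᵥ a) - (z ⬝ᵥ a))) * (y ⬝ᵥ b)) = 0 := by linear_combination h3
        exact (mul_eq_zero.1 h4).resolve_left ht
      exact hz _
    have h3 := hk _ _ hv (by
      rw [h1, h2]
      have : t • (((z' ⬝ᵥ b) - (z ⬝ᵥ b)) • a + (-((z' ⬝ᵥ a) - (z ⬝ᵥ a))) • b) = 0 := by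
        rw [hv, smul_zero]
      rw [smul_add] at this
      rw [smul_comm _ t a, smul_comm _ t b]
      exact this)
    refine ⟨t, ht, fun u => ⟨hdd u, ?_⟩⟩
    obtain ⟨x, w, rfl⟩ := hrep u
    rw [hδu, dotProduct_add, dotProduct_smul, dotProduct_smul, sub_dotProduct, sub_dotProduct]
    have h4 : z ⬝ᵥ a - z' ⬝ᵥ a = 0 := by linarith [h3.2]
    have h5 : z ⬝ᵥ b - z' ⬝ᵥ b = 0 := by linarith [h3.1]
    rw [h4, h5, smul_zero, smul_zero, add_zero]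

end Pool.Agent.N423.DC
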