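import Mathlib
import Pool.Agent.N423.DC.Stm

/-!
# Dimension of the pinned motions without a clique (helper499)
-/

set_option autoImplicit false
set_option linter.unusedSectionVars false

namespace Pool.Agent.N423.DC

open Matrix Finset Pool.Agent.H283R2.DR Pool.Agent.H789R5 Pool.Agent.N423.DE

namespace DIM

variable {V : Type}

/-- the graph without the edges that touch `D` -/
def dl (G : SimpleGraph V) (D : Finset V) : SimpleGraph V where
  Adj x y := G.Adj x y ∧ x ∉ D ∧ y ∉ D
  symm := ⟨fun _ _ h => ⟨h.1.symm, h.2.2, h.2.1⟩⟩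
  loopless := ⟨fun _ h => h.1.ne rfl⟩

theorem dl_le (G : SimpleGraph V) (D : Finset V) : dl G D ≤ G := fun _ _ h => h.1

theorem dl_insert [DecidableEq V] (G : SimpleGraph V) (D : Finset V) (v : V) :
    dl G (insert v D) = (dl G D).deleteIncidenceSet v := by
  ext x y
  rw [SimpleGraph.deleteIncidenceSet_adj]
  show G.Adj x y ∧ x ∉ insert v D ∧ y ∉ insert v D ↔ (G.Adj x y ∧ x ∉ D ∧ y ∉ D) ∧ x ≠ v ∧ y ≠ v
  rw [mem_insert, mem_insert]
  tauto

variable [Fintype V]

theorem count [DecidableEq V] (G : SimpleGraph V) (D : Finset V) (h5 : ∀ v ∈ D, (nb G v).card = 5)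
    (hD : Cq G D) : G.edgeSet.ncard + D.card.choose 2 = (dl G D).edgeSet.ncard + 5 * D.card := by
  induction D using Finset.induction_on with
  | empty =>
    have h1 : dl G ∅ = G := by
      ext x y
      show G.Adj x y ∧ x ∉ (∅ : Finset V) ∧ y ∉ (∅ : Finset V) ↔ _
      simp
    rw [h1]
    simp
  | insert v D hv ih =>
    have h1 := ih (fun w hw => h5 w (mem_insert_of_mem hw)) (hD.subset (subset_insert v D))
    have h2 := card_del (dl G D) v
    rw [← dl_insert] at h2
    have h3 : nb (dl G D) v = nb G v \ D := by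
      ext z
      rw [mem_sdiff, mem_nb, mem_nb]
      show G.Adj v z ∧ v ∉ D ∧ z ∉ D ↔ G.Adj v z ∧ z ∉ D
      tauto
    have h4 : D ⊆ nb G v := by
      intro z hz
      rw [mem_nb]
      exact hD v (mem_insert_self v D) z (mem_insert_of_mem hz) (fun h => hv (by rw [h]; exact hz))
    have h6 : (nb (dl G D) v).card + D.card = 5 := by
      rw [h3, card_sdiff_add_card_eq_card h4, h5 v (mem_insert_self v D)]
    have h7 : (D.card + 1).choose 2 = D.card.choose 2 + D.card := by
      have h8 := Nat.choose_succ_succ' D.card 1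
      rw [Nat.choose_one_right] at h8
      exact h8.trans (add_comm _ _)
    rw [card_insert_of_notMem hv, h7]
    omega

/-- setting the velocities on `D` -/
noncomputable def eqv [DecidableEq V] (G : SimpleGraph V) (Z D : Finset V) (hDZ : D ⊆ Z)
    (p : V → Fin 3 → ℝ) :
    PM (dl G D) Z ∅ p ≃ₗ[ℝ] PM G Z D p × (D → Fin 3 → ℝ) where
  toFun q := (⟨fun x => if x ∈ D then 0 else q.1 x, by
    rw [mem_PM]
    obtain ⟨h1, h2, -⟩ := mem_PM.1 q.2
    refine ⟨fun x y hxy hx hy => ?_, fun x hx => ?_, fun x hx => ?_⟩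
    · rw [if_neg hx, if_neg hy]
      exact h1 x y ⟨hxy, hx, hy⟩ (notMem_empty _) (notMem_empty _)
    · by_cases hxD : x ∈ D
      · rw [if_pos hxD]
      · rw [if_neg hxD]
        exact h2 x hx
    · rw [if_pos hx]⟩, fun x => q.1 x)
  map_add' := by
    intro a b
    apply Prod.ext
    · apply Subtype.ext
      funext x
      show (if x ∈ D then 0 else (a.1 + b.1) x) = (if x ∈ D then 0 else a.1 x) +
        (if x ∈ D then 0 else b.1 x)
      by_cases hx : x ∈ D
      · rw [if_pos hx, if_pos hx, if_pos hx, add_zero]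
      · rw [if_neg hx, if_neg hx, if_neg hx]
        rfl
    · rfl
  map_smul' := by
    intro c a
    apply Prod.ext
    · apply Subtype.ext
      funext x
      show (if x ∈ D then 0 else (c • a.1) x) = c • (if x ∈ D then 0 else a.1 x)
      by_cases hx : x ∈ D
      · rw [if_pos hx, if_pos hx, smul_zero]
      · rw [if_neg hx, if_neg hx]
        rfl
    · rfl
  invFun m := ⟨fun x => if h : x ∈ D then m.2 ⟨x, h⟩ else m.1.1 x, by
    rw [mem_PM]
    obtain ⟨h1, h2, -⟩ := mem_PM.1 m.1.2
    refine ⟨fun x y hxy _ _ => ?_, fun x hx => ?_, fun x hx => absurd hx (notMem_empty _)⟩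
    · obtain ⟨k1, k2, k3⟩ := hxy
      rw [dif_neg k2, dif_neg k3]
      exact h1 x y k1 k2 k3
    · rw [dif_neg fun h => hx (hDZ h)]
      exact h2 x hx⟩
  left_inv := by
    intro q
    apply Subtype.ext
    funext x
    show (if h : x ∈ D then q.1 x else if x ∈ D then 0 else q.1 x) = q.1 x
    by_cases hx : x ∈ D
    · rw [dif_pos hx]
    · rw [dif_neg hx, if_neg hx]
  right_inv := by
    intro m
    apply Prod.ext
    · apply Subtype.ext
      funext x
      show (if x ∈ D then 0 else if h : x ∈ D then m.2 ⟨x, h⟩ else m.1.1 x) = m.1.1 x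
      by_cases hx : x ∈ D
      · rw [if_pos hx]
        exact ((mem_PM.1 m.1.2).2.2 x hx).symm
      · rw [if_neg hx, dif_neg hx]
    · funext x
      show (if h : (x : V) ∈ D then m.2 ⟨x, h⟩ else m.1.1 x) = m.2 x
      rw [dif_pos x.2]

end DIM

open DIM in
theorem dim : S_DIM := by
  intro V _ _ G R Z hub hC p hp D hDZ hDne hD
  obtain ⟨v, hv⟩ := hDne
  have hcq : Cq (dl G D) R := fun a ha b hb hab => ⟨hC.clique a ha b hb hab,
    fun h => hC.disj a ha (hDZ h), fun h => hC.disj b hb (hDZ h)⟩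
  have hex : ∃ x ∈ Z, ∃ y ∈ Z, G.Adj x y ∧ ¬ (dl G D).Adj x y := by
    refine ⟨v, hDZ hv, ?_⟩
    have h5 := hC.deg v (hDZ hv)
    have h1 : ¬ nb G v ⊆ {hub v} := by
      intro h
      have := card_le_card h
      rw [h5, card_singleton] at this
      omega
    rw [not_subset] at h1
    obtain ⟨y, hy, hy2⟩ := h1
    rw [mem_nb] at hy
    rw [mem_singleton] at hy2
    have hyZ : y ∈ Z := by
      rcases hC.supp y v hy.symm with h | h
      · exact absurd (hC.hub_uniq v (hDZ hv) y h hy) hy2
      · exact h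
    exact ⟨y, hyZ, hy, fun h => h.2.1 hv⟩
  have h1 := hC.dimS p hp (dl G D) (dl_le G D) hcq hex
  have h2 := count G D (fun w hw => hC.deg w (hDZ hw)) hD
  have h3 : (G.edgeSet \ (dl G D).edgeSet).ncard + (dl G D).edgeSet.ncard = G.edgeSet.ncard :=
    Set.ncard_sdiff_add_ncard_of_subset
      (SimpleGraph.edgeSet_subset_edgeSet.2 (dl_le G D)) (Set.toFinite _)
  have h4 := (eqv G Z D hDZ p).finrank_eq
  rw [Module.finrank_prod, Module.finrank_pi_fintype] at h4
  have h5 : ∑ _x : D, Module.finrank ℝ (Fin 3 → ℝ) = 3 * D.card := by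
    rw [sum_const, card_univ, Fintype.card_coe, Module.finrank_fin_fun, smul_eq_mul, mul_comm]
  rw [h5] at h4
  omega

end Pool.Agent.N423.DC
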