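import Mathlib
import Pool.Agent.N423.DC.Stm

/-!
# The other neighbours are not adjacent to `K` (helper55, project DC of helper423)
-/

set_option autoImplicit false
set_option linter.unusedSectionVars false

namespace Pool.Agent.N423.DC

open Matrix Finset Pool.Agent.H283R2.DR Pool.Agent.H789R5 Pool.Agent.N423.DE

namespace DJ

/-- the space of the pairs -/
abbrev WW (V : Type) : Type := ((Fin 3 → ℝ) × (Fin 3 → ℝ)) × (V → Fin 3 → ℝ)

/-- dot product with a fixed vector -/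
def dotL (a : Fin 3 → ℝ) : (Fin 3 → ℝ) →ₗ[ℝ] ℝ where
  toFun b := a ⬝ᵥ b
  map_add' b c := dotProduct_add a b c
  map_smul' c b := dotProduct_smul c a b

theorem dotL_apply (a b : Fin 3 → ℝ) : dotL a b = a ⬝ᵥ b := rfl

/-! ### Vectors orthogonal to two vectors -/

theorem orth_two {a b w : Fin 3 → ℝ} (hab : crossProduct a b ≠ 0) (h1 : a ⬝ᵥ w = 0)
    (h2 : b ⬝ᵥ w = 0) (h3 : crossProduct a b ⬝ᵥ w = 0) : w = 0 := by
  have e1 : crossProduct (crossProduct a b) w = 0 := by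
    rw [cross_cross_eq_smul_sub_smul, h1, h2, zero_smul, zero_smul, sub_zero]
  have e2 := cross_dot_cross (crossProduct a b) w (crossProduct a b) w
  rw [e1, h3, zero_dotProduct, zero_mul, sub_zero] at e2
  rcases mul_eq_zero.1 e2.symm with h | h
  · exact absurd (dotProduct_self_eq_zero.1 h) hab
  · exact dotProduct_self_eq_zero.1 h

/-- a linear map from a space of dimension two into the line orthogonal to two vectors is not
injective -/
theorem exists_ker {E : Type} [AddCommGroup E] [Module ℝ E] (hE : Module.finrank ℝ E = 2)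
    (δ : E →ₗ[ℝ] (Fin 3 → ℝ)) {a b : Fin 3 → ℝ} (hab : LinearIndependent ℝ ![a, b])
    (h1 : ∀ u, a ⬝ᵥ δ u = 0) (h2 : ∀ u, b ⬝ᵥ δ u = 0) : ∃ u, u ≠ 0 ∧ δ u = 0 := by
  have hfin : FiniteDimensional ℝ E := FiniteDimensional.of_finrank_pos (by omega)
  have hk : 0 < Module.finrank ℝ (LinearMap.ker ((dotL (crossProduct a b)).comp δ)) := by
    have e1 := LinearMap.finrank_range_add_finrank_ker ((dotL (crossProduct a b)).comp δ)
    have e2 : Module.finrank ℝ (LinearMap.range ((dotL (crossProduct a b)).comp δ)) ≤ 1 := by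
      refine (Submodule.finrank_le _).trans ?_
      rw [Module.finrank_self]
    omega
  have hne : LinearMap.ker ((dotL (crossProduct a b)).comp δ) ≠ ⊥ := by
    intro h
    rw [h, finrank_bot] at hk
    exact lt_irrefl _ hk
  obtain ⟨u, hu, hu0⟩ := Submodule.exists_mem_ne_zero_of_ne_bot hne
  refine ⟨u, hu0, ?_⟩
  rw [LinearMap.mem_ker, LinearMap.comp_apply, dotL_apply] at hu
  exact orth_two (crossProduct_ne_zero_iff_linearIndependent.2 hab) (h1 u) (h2 u) hu

variable {V : Type} [Fintype V] [DecidableEq V] {G : SimpleGraph V} {Z K KZ : Finset V}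
  {z z' : V → V}

theorem lin_ind {p : V → Fin 3 → ℝ} (hp : MG p) {a b c : V} (hab : a ≠ b) (hac : a ≠ c)
    (hbc : b ≠ c) : LinearIndependent ℝ ![p a - p b, p b - p c] := by
  rw [LinearIndependent.pair_iff]
  intro s t hst
  have hca : c ≠ a := hac.symm
  have hcb : c ≠ b := hbc.symm
  have hba : b ≠ a := hab.symm
  have hb : b ∉ ({c} : Finset V) := by simpa using hbc
  have ha : a ∉ ({b, c} : Finset V) := by simp [hab, hac]
  have key := pos_finset hp (S := {a, b, c}) (by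
    rw [card_insert_of_notMem ha, card_insert_of_notMem hb, card_singleton]; norm_num)
    (fun v => if v = a then s else if v = b then t - s else -t)
    (by
      rw [sum_insert ha, sum_insert hb, sum_singleton]
      simp only [if_true, if_neg hba, if_neg hca, if_neg hcb]
      ring)
    (by
      rw [sum_insert ha, sum_insert hb, sum_singleton]
      simp only [if_true, if_neg hba, if_neg hca, if_neg hcb]
      rw [← hst]
      funext i
      simp only [Pi.add_apply, Pi.smul_apply, Pi.sub_apply, smul_eq_mul]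
      ring)
  have k1 := key a (by simp)
  have k2 := key c (by simp)
  simp only [if_true] at k1
  simp only [if_neg hca, if_neg hcb] at k2
  exact ⟨k1, by linarith⟩

theorem swap (h : Cfg G Z K KZ z z') : Cfg G Z K KZ z' z where
  card := h.card
  clique := h.clique
  mem := h.mem
  ne := h.ne
  adj := fun x hx => by
    obtain ⟨h1, h2, h3, h4, h5⟩ := h.adj x hx
    exact ⟨h2, h1, h3.symm, h5, h4⟩
  nbx := fun x hx y hy => by
    rcases h.nbx x hx y hy with h1 | h1 | h1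
    · exact Or.inl h1
    · exact Or.inr (Or.inr h1)
    · exact Or.inr (Or.inl h1)

/-- the pairs which satisfy the constraints of all vertices but `x` -/
noncomputable def EE (G : SimpleGraph V) (Z K KZ : Finset V) (z z' : V → V) (p : V → Fin 3 → ℝ)
    (x : V) : Submodule ℝ (WW V) where
  carrier := {u | u ∈ UU G Z K KZ p ∧ ∀ y ∈ KZ, y ≠ x → cst p z z' y u}
  add_mem' := by
    rintro a b ⟨h1, h2⟩ ⟨h1', h2'⟩
    refine ⟨Submodule.add_mem _ h1 h1', fun y hy hyx => ⟨?_, ?_⟩⟩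
    · rw [map_add, dotProduct_add, (h2 y hy hyx).1, (h2' y hy hyx).1, add_zero]
    · rw [map_add, dotProduct_add, (h2 y hy hyx).2, (h2' y hy hyx).2, add_zero]
  zero_mem' := ⟨Submodule.zero_mem _, fun y hy hyx => ⟨by rw [map_zero, dotProduct_zero],
    by rw [map_zero, dotProduct_zero]⟩⟩
  smul_mem' := by
    rintro c a ⟨h1, h2⟩
    refine ⟨Submodule.smul_mem _ c h1, fun y hy hyx => ⟨?_, ?_⟩⟩
    · rw [map_smul, dotProduct_smul, (h2 y hy hyx).1, smul_zero]
    · rw [map_smul, dotProduct_smul, (h2 y hy hyx).2, smul_zero]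

theorem mem_EE {p : V → Fin 3 → ℝ} {x : V} {u : WW V} : u ∈ EE G Z K KZ z z' p x ↔
    u ∈ UU G Z K KZ p ∧ ∀ y ∈ KZ, y ≠ x → cst p z z' y u := Iff.rfl

theorem UU_le {p p' : V → Fin 3 → ℝ} (h : ∀ a, a ∉ KZ → p a = p' a) :
    UU G Z K KZ p ≤ UU G Z K KZ p' := by
  rintro u ⟨⟨h1, h2, h3⟩, h4⟩
  refine ⟨⟨fun a b hab ha hb => ?_, h2, h3⟩, fun r hr hr' => ?_⟩
  · rw [← h a ha, ← h b hb]; exact h1 a b hab ha hb
  · rw [← h r hr']; exact h4 r hr hr'

theorem dlt_congr {p p' : V → Fin 3 → ℝ} {y : V} (h : p y = p' y) : dlt p y = dlt p' y := by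
  refine LinearMap.ext fun u => ?_
  change u.2 y - fld u.1 (p y) = u.2 y - fld u.1 (p' y)
  rw [h]

theorem step1 {R : Finset V} {hub : V → V} (h2 : S_HH) (h3 : S_MGG) (hcore : Core G R Z hub)
    (hcfg : Cfg G Z K KZ z z') {p : V → Fin 3 → ℝ} (hp : MG p) {x : V} (hx : x ∈ KZ)
    (s : Fin 3 → ℝ) : ∃ u ∈ EE G Z K KZ z z' p x, u ≠ 0 ∧ (s - p (z x)) ⬝ᵥ dlt p (z x) u = 0 ∧
      (s - p (z' x)) ⬝ᵥ dlt p (z' x) u = 0 := by
  by_contra hcon
  push Not at hcon
  have hxK : x ∈ K := ((hcfg.mem x).1 hx).1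
  set E := EE G Z K KZ z z' p x with hE
  let f : E →ₗ[ℝ] ℝ × ℝ := LinearMap.prod
    ((dotL (s - p (z x))).comp ((dlt p (z x)).comp E.subtype))
    ((dotL (s - p (z' x))).comp ((dlt p (z' x)).comp E.subtype))
  let g : E →ₗ[ℝ] ℝ × ℝ := LinearMap.prod
    ((dotL (p x - s)).comp ((dlt p (z x)).comp E.subtype))
    ((dotL (p x - s)).comp ((dlt p (z' x)).comp E.subtype))
  have hf : Function.Injective f := by
    rw [injective_iff_map_eq_zero]
    intro u hu
    by_contra hu0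
    have h4 := Prod.ext_iff.1 hu
    exact hcon u.1 u.2 (fun h => hu0 (Subtype.ext h)) h4.1 h4.2
  have hfin1 := TA.inj_good f g hf
  have hfin2 := (h3 V p (Function.update p x s) hp).preimage (f := fun t : ℝ => 1 - t)
    (fun a _ b _ hab => by simpa using hab)
  obtain ⟨t, ht⟩ := (hfin1.union hfin2).infinite_compl.nonempty
  rw [Set.mem_compl_iff, Set.mem_union, not_or] at ht
  obtain ⟨ht1, ht2⟩ := ht
  have ht1' : Function.Injective (f + t • g) := by
    by_contra h; exact ht1 h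
  have ht2' : MG (p + (1 - t) • (Function.update p x s - p)) := by
    by_contra h; exact ht2 h
  set ps := p + (1 - t) • (Function.update p x s - p) with hps
  have hpsne : ∀ a, a ≠ x → ps a = p a := by
    intro a ha
    rw [hps, Pi.add_apply, Pi.smul_apply, Pi.sub_apply, Function.update_of_ne ha, sub_self,
      smul_zero, add_zero]
  have hpsx : ps x = s + t • (p x - s) := by
    rw [hps, Pi.add_apply, Pi.smul_apply, Pi.sub_apply, Function.update_self]
    funext i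
    simp only [Pi.add_apply, Pi.smul_apply, Pi.sub_apply, smul_eq_mul]
    ring
  obtain ⟨⟨u, hu, hu0, huc⟩, _⟩ := h2 V G R Z hub hcore K KZ z z' hcfg ps ht2'
  have hu' : u ∈ UU G Z K KZ p := by
    refine UU_le (fun a ha => hpsne a ?_) hu
    rintro rfl
    exact ha hx
  have hnz : ∀ w ∈ KZ, z w ≠ x ∧ z' w ≠ x := by
    intro w hw
    obtain ⟨_, _, _, h4, h5⟩ := hcfg.adj w hw
    exact ⟨fun h => h4 (h ▸ hxK), fun h => h5 (h ▸ hxK)⟩
  have huE : u ∈ E := by
    rw [hE, mem_EE]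
    refine ⟨hu', fun w hw hwx => ?_⟩
    have h4 := huc w hw
    obtain ⟨n1, n2⟩ := hnz w hw
    unfold cst at h4 ⊢
    rw [dlt_congr (hpsne _ n1), dlt_congr (hpsne _ n2), hpsne w hwx, hpsne _ n1, hpsne _ n2] at h4
    exact h4
  have hxc := huc x hx
  obtain ⟨n1, n2⟩ := hnz x hx
  unfold cst at hxc
  rw [dlt_congr (hpsne _ n1), dlt_congr (hpsne _ n2), hpsx, hpsne _ n1, hpsne _ n2] at hxc
  have hz0 : (f + t • g) ⟨u, huE⟩ = 0 := by
    refine Prod.ext ?_ ?_
    · change (s - p (z x)) ⬝ᵥ dlt p (z x) u + t * ((p x - s) ⬝ᵥ dlt p (z x) u) = 0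
      rw [← hxc.1, ← smul_eq_mul, ← smul_dotProduct, ← add_dotProduct]
      congr 1
      abel
    · change (s - p (z' x)) ⬝ᵥ dlt p (z' x) u + t * ((p x - s) ⬝ᵥ dlt p (z' x) u) = 0
      rw [← hxc.2, ← smul_eq_mul, ← smul_dotProduct, ← add_dotProduct]
      congr 1
      abel
  have h5 := (injective_iff_map_eq_zero _).1 ht1' _ hz0
  exact hu0 (congrArg Subtype.val h5)

theorem eq_zero_of_all {a w : Fin 3 → ℝ} (h : ∀ s : Fin 3 → ℝ, (s - a) ⬝ᵥ w = 0) : w = 0 := by
  have := h (a + w)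
  rw [add_sub_cancel_left] at this
  exact dotProduct_self_eq_zero.1 this

theorem fld_iso (T : (Fin 3 → ℝ) × (Fin 3 → ℝ)) (a b : Fin 3 → ℝ) :
    (a - b) ⬝ᵥ (fld T a - fld T b) = 0 := by
  have e : fld T a - fld T b = crossProduct T.1 (a - b) := by
    unfold fld
    rw [map_sub]
    abel
  rw [e, dot_cross_self]

/-- one half of the statement -/
theorem half (h1 : S_DICH) (h2 : S_HH) (h3 : S_MGG) {R : Finset V} {hub : V → V}
    (hcore : Core G R Z hub) (hcfg : Cfg G Z K KZ z z') {x : V} (hx : x ∈ KZ) {y : V} (hy : y ∈ K)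
    (hyx : y ≠ x) : ¬ G.Adj y (z x) := by
  intro hadj
  obtain ⟨p, hp⟩ := exists_mg V 3
  obtain ⟨hh1, hh2, hh3, hh4, hh5⟩ := h2 V G R Z hub hcore K KZ z z' hcfg p hp
  set E := EE G Z K KZ z z' p x with hE
  have hS1 : ∀ s : Fin 3 → ℝ, ∃ u ∈ E, u ≠ 0 ∧ (s - p (z x)) ⬝ᵥ dlt p (z x) u = 0 ∧
      (s - p (z' x)) ⬝ᵥ dlt p (z' x) u = 0 := fun s => step1 h2 h3 hcore hcfg hp hx s
  obtain ⟨u0, hu0, hu00, hu0c⟩ := hh1
  have hu0E : u0 ∈ E := ⟨hu0, fun w hw _ => hu0c w hw⟩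
  obtain ⟨hd1, hd2⟩ := hh4 u0 hu0 hu00 hu0c x hx
  have hsol : ∀ u ∈ E, (p x - p (z x)) ⬝ᵥ dlt p (z x) u = 0 →
      (p x - p (z' x)) ⬝ᵥ dlt p (z' x) u = 0 → ∀ w ∈ KZ, cst p z z' w u := by
    intro u hu e1 e2 w hw
    by_cases hwx : w = x
    · subst hwx; exact ⟨e1, e2⟩
    · exact hu.2 w hw hwx
  -- dimension two
  have hle : Module.finrank ℝ E ≤ 2 := by
    have h4 := hh3 x hx
    have h5 : Submodule.span ℝ {u | u ∈ UU G Z K KZ p ∧ ∀ y ∈ KZ, y ≠ x → cst p z z' y u} = E :=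
      Submodule.span_eq E
    rw [h5] at h4
    exact h4
  have hge : ¬ Module.finrank ℝ E ≤ 1 := by
    intro h4
    rw [finrank_le_one_iff] at h4
    obtain ⟨v, hv⟩ := h4
    obtain ⟨c0, hc0⟩ := hv ⟨u0, hu0E⟩
    have h5 : dlt p (z x) v.1 = 0 := by
      apply eq_zero_of_all (a := p (z x))
      intro s
      obtain ⟨u, hu, hune, hu1, _⟩ := hS1 s
      obtain ⟨c, hc⟩ := hv ⟨u, hu⟩
      have hcu : c • v.1 = u := congrArg Subtype.val hc
      have hc1 : c ≠ 0 := by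
        rintro rfl
        rw [zero_smul] at hcu
        exact hune hcu.symm
      rw [← hcu, map_smul, dotProduct_smul, smul_eq_mul] at hu1
      exact (mul_eq_zero.1 hu1).resolve_left hc1
    have hcu0 : c0 • v.1 = u0 := congrArg Subtype.val hc0
    apply hd1
    rw [← hcu0, map_smul, h5, smul_zero]
  have hdim : Module.finrank ℝ E = 2 := by omega
  -- the dichotomy
  let δ : E →ₗ[ℝ] (Fin 3 → ℝ) := (dlt p (z x)).comp E.subtype
  let δ' : E →ₗ[ℝ] (Fin 3 → ℝ) := (dlt p (z' x)).comp E.subtype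
  have hinj : ∀ u : E, δ u = 0 → δ' u = 0 → u = 0 := by
    intro u e1 e2
    by_contra hne
    have hne' : u.1 ≠ 0 := fun h => hne (Subtype.ext h)
    have e1' : dlt p (z x) u.1 = 0 := e1
    have e2' : dlt p (z' x) u.1 = 0 := e2
    have h4 := hsol u.1 u.2 (by rw [e1', dotProduct_zero]) (by rw [e2', dotProduct_zero])
    exact (hh4 u.1 u.2.1 hne' h4 x hx).1 e1'
  obtain ⟨ρ, hρ, hρ2⟩ := h1 E hdim (p (z x)) (p (z' x)) δ δ' (fun s => by
      obtain ⟨u, hu, hune, e1, e2⟩ := hS1 s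
      exact ⟨⟨u, hu⟩, fun h => hune (congrArg Subtype.val h), e1, e2⟩) hinj
    (fun h => hd1 (LinearMap.congr_fun h ⟨u0, hu0E⟩))
    (fun h => hd2 (LinearMap.congr_fun h ⟨u0, hu0E⟩))
  -- the claim
  obtain ⟨a1, a2, a3, a4, a5⟩ := hcfg.adj x hx
  have hclaim : ∀ u : E, (p y - p (z x)) ⬝ᵥ δ u = 0 := by
    intro u
    change (p y - p (z x)) ⬝ᵥ dlt p (z x) u.1 = 0
    by_cases hyZ : y ∈ KZ
    · rcases hcfg.nbx y hyZ (z x) hadj with h4 | h4 | h4
      · exact absurd h4 a4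
      · rw [h4]; exact (u.2.2 y hyZ hyx).1
      · rw [h4]; exact (u.2.2 y hyZ hyx).2
    · have hyZ2 : y ∉ Z := fun h => hyZ ((hcfg.mem y).2 ⟨hy, h⟩)
      have hzx : z x ∉ KZ := fun h => a4 ((hcfg.mem _).1 h).1
      obtain ⟨⟨b1, b2, b3⟩, b4⟩ := u.2.1
      have c1 := b1 y (z x) hadj hyZ hzx
      rw [b2 y hyZ2, zero_sub, dotProduct_neg, neg_eq_zero] at c1
      have c2 := fld_iso u.1.1 (p y) (p (z x))
      rw [b4 y hy hyZ, zero_sub, dotProduct_neg, neg_eq_zero] at c2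
      change (p y - p (z x)) ⬝ᵥ (u.1.2 (z x) - fld u.1.1 (p (z x))) = 0
      rw [dotProduct_sub, c1, c2, sub_zero]
  have hyzx : y ≠ z x := fun h => a4 (h ▸ hy)
  have hyzx' : y ≠ z' x := fun h => a5 (h ▸ hy)
  obtain ⟨u, hune, hu⟩ := exists_ker hdim δ (lin_ind hp hyzx hyzx' a3) hclaim
    (fun u => (hρ2 u).2)
  apply hune
  apply hinj u hu
  rw [(hρ2 u).1, hu, smul_zero]

end DJ

theorem dj (h1 : S_DICH) (h2 : S_HH) (h3 : S_MGG) : S_DJ := by
  intro V _ _ G R Z hub hcore K KZ z z' hcfg x hx y hy hyx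
  exact ⟨DJ.half h1 h2 h3 hcore hcfg hx hy hyx, DJ.half h1 h2 h3 hcore (DJ.swap hcfg) hx hy hyx⟩

end Pool.Agent.N423.DC
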