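import Mathlib
import Pool.Agent.N423.DC.Stm

/-!
Project DC, part FC: the final combinatorics.
-/

set_option autoImplicit false
set_option linter.unusedSectionVars false

namespace Pool.Agent.N423.DC

open Finset Pool.Agent.N423.DE

namespace FC

variable {V : Type} [Fintype V] [DecidableEq V] {G : SimpleGraph V} {Z : Finset V}

theorem hx_adj {X : Finset V} {v x : V} (hv : v ∈ Z) (hx : x ∈ Z) (hX : x ∈ X)
    (h : G.Adj v x) : (HX G Z X).Adj v x := by
  refine ⟨hv, hx, h, ?_, ?_⟩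
  · intro e
    rw [← e] at hX
    exact (Finset.notMem_erase x _) hX
  · intro e
    rw [← e] at hX
    exact not_mem_nb G x (Finset.mem_of_mem_erase hX)

theorem even_sum (f : V → V → ℕ) (hs : ∀ a b, f a b = f b a) (h0 : ∀ a, f a a = 0)
    (S : Finset V) : Even (∑ a ∈ S, ∑ b ∈ S, f a b) := by
  induction S using Finset.induction_on with
  | empty => simp
  | insert c S hc ih =>
    rw [Finset.sum_insert hc, Finset.sum_insert hc, h0, zero_add]
    have e : ∀ a ∈ S, ∑ b ∈ insert c S, f a b = f c a + ∑ b ∈ S, f a b := by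
      intro a _
      rw [Finset.sum_insert hc, hs a c]
    rw [Finset.sum_congr rfl e, Finset.sum_add_distrib, ← add_assoc]
    exact (Even.add ⟨_, rfl⟩ ih)

theorem card_in (h5 : ∀ v ∈ Z, (nb G v).card = 5) (h1 : ∀ v ∈ Z, (nb G v \ Z).card = 1) {v : V}
    (hv : v ∈ Z) : (nb G v ∩ Z).card = 4 := by
  have h := Finset.card_sdiff_add_card_inter (nb G v) Z
  rw [h5 v hv, h1 v hv] at h
  omega

/-- Claim A -/
theorem claimA (h5 : ∀ v ∈ Z, (nb G v).card = 5) (h1 : ∀ v ∈ Z, (nb G v \ Z).card = 1)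
    (hc : ∀ v ∈ Z, ∀ w ∈ Z, G.Adj v w → ¬ (HX G Z ((nb G v).erase w)).Reachable v w)
    {v0 w0 : V} (hv0 : v0 ∈ Z) (hw0 : w0 ∈ Z) (h0 : G.Adj v0 w0) :
    ∃ v1 ∈ Z, v1 ≠ v0 ∧ (nb G v0).erase w0 ⊆ nb G v1 := by
  classical
  set X := (nb G v0).erase w0 with hX
  have hXc : X.card = 4 := by
    rw [hX, Finset.card_erase_of_mem (mem_nb.2 h0), h5 v0 hv0]
  -- a common neighbour in `Z`
  obtain ⟨x1, hx1X, hx1Z⟩ : ∃ x1 ∈ X, x1 ∈ Z := by
    have h2 : 1 < (nb G v0 ∩ Z).card := by rw [card_in h5 h1 hv0]; norm_num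
    obtain ⟨x, hx, hxne⟩ := Finset.exists_mem_ne h2 w0
    rw [Finset.mem_inter] at hx
    exact ⟨x, Finset.mem_erase.2 ⟨hxne, hx.1⟩, hx.2⟩
  -- the neighbour outside `Z`
  obtain ⟨r0, hr0⟩ := Finset.card_eq_one.1 (h1 v0 hv0)
  have hr0m : r0 ∈ nb G v0 \ Z := by rw [hr0]; exact Finset.mem_singleton_self _
  rw [Finset.mem_sdiff] at hr0m
  have hr0X : r0 ∈ X := Finset.mem_erase.2 ⟨fun h => hr0m.2 (h ▸ hw0), hr0m.1⟩
  set S : Finset V := Z.filter fun a => (HX G Z X).Reachable v0 a with hS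
  set C : Finset V := Z.filter fun v => X ⊆ nb G v with hC
  have hv0C : v0 ∈ C := Finset.mem_filter.2 ⟨hv0, Finset.erase_subset _ _⟩
  have hreach : ∀ v ∈ C, (HX G Z X).Reachable v0 v := by
    intro v hv
    rw [hC, Finset.mem_filter] at hv
    have e1 : (HX G Z X).Adj v0 x1 :=
      hx_adj hv0 hx1Z hx1X (mem_nb.1 (Finset.mem_of_mem_erase hx1X))
    have e2 : (HX G Z X).Adj v x1 := hx_adj hv.1 hx1Z hx1X (mem_nb.1 (hv.2 hx1X))
    exact e1.reachable.trans e2.symm.reachable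
  have hCS : C ⊆ S := by
    intro v hv
    exact Finset.mem_filter.2 ⟨(Finset.mem_filter.1 hv).1, hreach v hv⟩
  -- the exceptional neighbour
  have hw : ∀ v ∈ C, ∃ w, w ∈ nb G v ∧ w ∈ Z ∧ w ∉ S ∧ (nb G v).erase w = X ∧ w ∉ X := by
    intro v hv
    have hv' := Finset.mem_filter.1 hv
    have h2 : (nb G v \ X).card = 1 := by
      rw [Finset.card_sdiff_of_subset hv'.2, h5 v hv'.1, hXc]
    obtain ⟨w, hw⟩ := Finset.card_eq_one.1 h2
    have hwm : w ∈ nb G v \ X := by rw [hw]; exact Finset.mem_singleton_self _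
    rw [Finset.mem_sdiff] at hwm
    have he : (nb G v).erase w = X := by
      ext y
      rw [Finset.mem_erase]
      constructor
      · rintro ⟨hy1, hy2⟩
        by_contra hy3
        have : y ∈ nb G v \ X := Finset.mem_sdiff.2 ⟨hy2, hy3⟩
        rw [hw, Finset.mem_singleton] at this
        exact hy1 this
      · intro hy
        exact ⟨fun h => hwm.2 (h ▸ hy), hv'.2 hy⟩
    have hwZ : w ∈ Z := by
      by_contra hwZ
      obtain ⟨r, hr⟩ := Finset.card_eq_one.1 (h1 v hv'.1)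
      have a1 : w ∈ nb G v \ Z := Finset.mem_sdiff.2 ⟨hwm.1, hwZ⟩
      have a2 : r0 ∈ nb G v \ Z := Finset.mem_sdiff.2 ⟨hv'.2 hr0X, hr0m.2⟩
      rw [hr, Finset.mem_singleton] at a1 a2
      exact hwm.2 (by rw [a1, ← a2]; exact hr0X)
    refine ⟨w, hwm.1, hwZ, ?_, he, hwm.2⟩
    intro hwS
    have h3 := hc v hv'.1 w hwZ (mem_nb.1 hwm.1)
    rw [he] at h3
    exact h3 ((hreach v hv).symm.trans (Finset.mem_filter.1 hwS).2)
  -- the parity argument
  let f : V → V → ℕ := fun a b => if G.Adj a b then 1 else 0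
  have hf0 : ∀ a, f a a = 0 := fun a => if_neg (G.irrefl)
  have hfs : ∀ a b, f a b = f b a := by
    intro a b
    simp only [f, G.adj_comm a b]
  have hSZ : S ⊆ Z := Finset.filter_subset _ _
  have hdeg : ∀ a ∈ S, ∑ b ∈ Z, f a b = 4 := by
    intro a ha
    rw [← card_in h5 h1 (hSZ ha)]
    simp only [f]
    rw [← Finset.card_filter]
    congr 1
    ext b
    rw [Finset.mem_filter, Finset.mem_inter, mem_nb]
    tauto
  -- edges from `S` to the rest
  have hout : ∀ a ∈ S, ∀ b ∈ Z \ S, G.Adj a b → (nb G a).erase b = X := by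
    intro a ha b hb hab
    rw [Finset.mem_sdiff] at hb
    have ha' := Finset.mem_filter.1 ha
    by_contra hne
    have hne2 : (nb G b).erase a ≠ X := by
      intro he
      have hbC : b ∈ C := Finset.mem_filter.2 ⟨hb.1, by rw [← he]; exact Finset.erase_subset _ _⟩
      exact hb.2 (hCS hbC)
    have hadj : (HX G Z X).Adj a b := ⟨ha'.1, hb.1, hab, hne, hne2⟩
    exact hb.2 (Finset.mem_filter.2 ⟨hb.1, ha'.2.trans hadj.reachable⟩)
  have hsec : ∀ a ∈ S, ∑ b ∈ Z \ S, f a b = if a ∈ C then 1 else 0 := by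
    intro a ha
    by_cases haC : a ∈ C
    · rw [if_pos haC]
      obtain ⟨w, hw1, hw2, hw3, hw4, hw5⟩ := hw a haC
      rw [Finset.sum_eq_single w]
      · exact if_pos (mem_nb.1 hw1)
      · intro b hb hbw
        apply if_neg
        intro hab
        have h2 := hout a ha b hb hab
        have h3 : w ∈ (nb G a).erase b := Finset.mem_erase.2 ⟨fun h => hbw h.symm, hw1⟩
        rw [h2] at h3
        exact hw5 h3
      · intro h
        exact absurd (Finset.mem_sdiff.2 ⟨hw2, hw3⟩) h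
    · rw [if_neg haC]
      apply Finset.sum_eq_zero
      intro b hb
      apply if_neg
      intro hab
      have h2 := hout a ha b hb hab
      apply haC
      exact Finset.mem_filter.2 ⟨hSZ ha, by rw [← h2]; exact Finset.erase_subset _ _⟩
  have htot : ∑ a ∈ S, ∑ b ∈ Z, f a b = 4 * S.card := by
    rw [Finset.sum_congr rfl hdeg, Finset.sum_const, smul_eq_mul, mul_comm]
  have hsplit : ∑ a ∈ S, ∑ b ∈ Z, f a b = C.card + ∑ a ∈ S, ∑ b ∈ S, f a b := by
    have h2 : ∀ a ∈ S, ∑ b ∈ Z, f a b = (if a ∈ C then 1 else 0) + ∑ b ∈ S, f a b := by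
      intro a ha
      rw [← Finset.sum_sdiff hSZ, hsec a ha]
    rw [Finset.sum_congr rfl h2, Finset.sum_add_distrib, ← Finset.card_filter]
    congr 2
    ext a
    rw [Finset.mem_filter]
    exact ⟨fun h => h.2, fun h => ⟨hCS h, h⟩⟩
  have hev := even_sum f hfs hf0 S
  have hCev : C.card % 2 = 0 := by
    rw [Nat.even_iff] at hev
    omega
  have hCpos : 0 < C.card := Finset.card_pos.2 ⟨v0, hv0C⟩
  obtain ⟨v1, hv1, hne⟩ := Finset.exists_mem_ne (s := C) (by omega) v0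
  have hv1' := Finset.mem_filter.1 hv1
  exact ⟨v1, hv1'.1, hne, hv1'.2⟩

/-- Claim B -/
theorem claimB (h5 : ∀ v ∈ Z, (nb G v).card = 5) (h1 : ∀ v ∈ Z, (nb G v \ Z).card = 1)
    (hc : ∀ v ∈ Z, ∀ w ∈ Z, G.Adj v w → ¬ (HX G Z ((nb G v).erase w)).Reachable v w)
    {v0 w1 w2 v : V} (hv0 : v0 ∈ Z) (hw1 : w1 ∈ Z) (hw2 : w2 ∈ Z) (h01 : G.Adj v0 w1)
    (h02 : G.Adj v0 w2) (h12 : w1 ≠ w2) (hv : v ∈ Z) (hne : v ≠ v0)
    (hsub : (nb G v0).erase w2 ⊆ nb G v) : nb G v = nb G v0 := by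
  obtain ⟨w3, hw3, hw31, hw32⟩ : ∃ w3 ∈ nb G v0 ∩ Z, w3 ≠ w1 ∧ w3 ≠ w2 := by
    by_contra hcon
    push Not at hcon
    have h2 : nb G v0 ∩ Z ⊆ {w1, w2} := by
      intro y hy
      rw [Finset.mem_insert, Finset.mem_singleton]
      by_cases h : y = w1
      · exact Or.inl h
      · exact Or.inr (hcon y hy h)
    have h3 := Finset.card_le_card h2
    rw [card_in h5 h1 hv0] at h3
    have h4 := Finset.card_le_two (a := w1) (b := w2)
    omega
  rw [Finset.mem_inter, mem_nb] at hw3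
  have hvw1 : G.Adj v w1 := mem_nb.1 (hsub (Finset.mem_erase.2 ⟨h12, mem_nb.2 h01⟩))
  have hvw3 : G.Adj v w3 := mem_nb.1 (hsub (Finset.mem_erase.2 ⟨hw32, mem_nb.2 hw3.1⟩))
  have hw3X : w3 ∈ (nb G v0).erase w1 := Finset.mem_erase.2 ⟨hw31, mem_nb.2 hw3.1⟩
  have e1 : (HX G Z ((nb G v0).erase w1)).Adj v0 w3 := hx_adj hv0 hw3.2 hw3X hw3.1
  have e2 : (HX G Z ((nb G v0).erase w1)).Adj v w3 := hx_adj hv hw3.2 hw3X hvw3
  have hr : (HX G Z ((nb G v0).erase w1)).Reachable v0 v :=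
    e1.reachable.trans e2.symm.reachable
  have hnot := hc v0 hv0 w1 hw1 h01
  by_contra hN
  apply hnot
  refine hr.trans (SimpleGraph.Adj.reachable ⟨hv, hw1, hvw1, ?_, ?_⟩)
  · intro he
    apply hN
    rw [← Finset.insert_erase (mem_nb.2 hvw1), he, Finset.insert_erase (mem_nb.2 h01)]
  · intro he
    have h2 : v0 ∈ (nb G w1).erase v := Finset.mem_erase.2 ⟨hne.symm, mem_nb.2 h01.symm⟩
    rw [he] at h2
    exact not_mem_nb G v0 (Finset.mem_of_mem_erase h2)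

/-- Claim C -/
theorem claimC (h5 : ∀ v ∈ Z, (nb G v).card = 5) (h1 : ∀ v ∈ Z, (nb G v \ Z).card = 1)
    (hc : ∀ v ∈ Z, ∀ w ∈ Z, G.Adj v w → ¬ (HX G Z ((nb G v).erase w)).Reachable v w)
    {v0 : V} (hv0 : v0 ∈ Z) : ∃ v1 ∈ Z, v1 ≠ v0 ∧ nb G v1 = nb G v0 := by
  have h4 := card_in h5 h1 hv0
  obtain ⟨w2, hw2⟩ : (nb G v0 ∩ Z).Nonempty := by
    rw [← Finset.card_pos, h4]; norm_num
  obtain ⟨w1, hw1, hne⟩ := Finset.exists_mem_ne (s := nb G v0 ∩ Z) (by rw [h4]; norm_num) w2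
  rw [Finset.mem_inter, mem_nb] at hw1 hw2
  obtain ⟨v1, hv1, hv1ne, hsub⟩ := claimA h5 h1 hc hv0 hw2.2 hw2.1
  exact ⟨v1, hv1, hv1ne, claimB h5 h1 hc hv0 hw1.2 hw2.2 hw1.1 hw2.1 hne hv1 hv1ne hsub⟩

end FC

open FC in
theorem fc : S_FC := by
  intro V _ _ G Z h5 h1 _ hc v0 hv0 w1 hw1 u hu h01 h1u
  by_cases huv : u = v0
  · rw [huv]
  by_contra hN
  obtain ⟨w', hw', hwne, hNw⟩ := claimC h5 h1 hc hw1
  have a1 : G.Adj v0 w' := by
    have : v0 ∈ nb G w' := by rw [hNw]; exact mem_nb.2 h01.symm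
    exact (mem_nb.1 this).symm
  have a2 : G.Adj u w' := by
    have : u ∈ nb G w' := by rw [hNw]; exact mem_nb.2 h1u
    exact (mem_nb.1 this).symm
  have hX : w' ∈ (nb G v0).erase w1 := Finset.mem_erase.2 ⟨hwne, mem_nb.2 a1⟩
  have e1 : (HX G Z ((nb G v0).erase w1)).Adj v0 w' := hx_adj hv0 hw' hX a1
  have e2 : (HX G Z ((nb G v0).erase w1)).Adj u w' := hx_adj hu hw' hX a2
  apply hc v0 hv0 w1 hw1 h01
  refine (e1.reachable.trans e2.symm.reachable).trans
    (SimpleGraph.Adj.reachable ⟨hu, hw1, h1u.symm, ?_, ?_⟩)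
  · intro he
    apply hN
    rw [← Finset.insert_erase (mem_nb.2 h1u.symm), he, Finset.insert_erase (mem_nb.2 h01)]
  · intro he
    have h2 : v0 ∈ (nb G w1).erase u := Finset.mem_erase.2 ⟨fun h => huv h.symm, mem_nb.2 h01.symm⟩
    rw [he] at h2
    exact not_mem_nb G v0 (Finset.mem_of_mem_erase h2)

end Pool.Agent.N423.DC
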