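import Mathlib
import Pool.Agent.N423.DC.Stm

/-!
# The final theorem

Co-authors: helper423 (statement and paper proof), helper768 (Lean proof).
-/

set_option autoImplicit false
set_option linter.unusedSectionVars false

namespace Pool.Agent.N423.DC.FIN

open Matrix Finset Pool.Agent.H283R2.DR Pool.Agent.H789R5 Pool.Agent.N423.DE

/-- a subset `D` of `Y \ X` which is independent over `X` and spans `Y` together with `X` -/
theorem ext_basis {α : Type} [Finite α] (M : Matroid α) {X Y : Set α} (hXY : X ⊆ Y) :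
    ∃ D : Set α, D ⊆ Y ∧ (∀ e ∈ D, e ∉ X) ∧ M.eRk (X ∪ D) = M.eRk X + (D.ncard : ℕ∞) ∧
      M.eRk Y = M.eRk X + (D.ncard : ℕ∞) := by
  obtain ⟨I, hI⟩ := M.exists_isBasis' X
  obtain ⟨J, hJ, hIJ⟩ := hI.indep.subset_isBasis'_of_subset (hI.subset.trans hXY)
  have hc : J.encard = I.encard + (J \ I).encard := by
    rw [← Set.encard_sdiff_add_encard_of_subset hIJ, add_comm]
  have hY : M.eRk Y = M.eRk X + ((J \ I).ncard : ℕ∞) := by
    rw [hI.eRk_eq_encard, hJ.eRk_eq_encard, Set.Finite.cast_ncard_eq (Set.toFinite _), hc]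
  refine ⟨J \ I, Set.sdiff_subset.trans hJ.subset, ?_, ?_, hY⟩
  · rintro e ⟨heJ, heI⟩ heX
    exact heI (hI.mem_of_insert_indep heX (hJ.indep.subset (Set.insert_subset heJ hIJ)))
  · apply le_antisymm
    · rw [← hY]
      exact M.eRk_mono (Set.union_subset hXY (Set.sdiff_subset.trans hJ.subset))
    · rw [← hY, hJ.eRk_eq_encard, ← hJ.indep.eRk_eq_encard]
      apply M.eRk_mono
      intro e he
      by_cases h : e ∈ I
      · exact Or.inl (hI.subset h)
      · exact Or.inr ⟨he, h⟩

/-- the rank of the base -/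
theorem eRk_base {V : Type} [Fintype V] [DecidableEq V] (M : Matroid (Sym2 V)) (R Z : Finset V)
    (hub : V → V) :
    M.eRk (base R Z hub).edgeSet ≤ M.eRk (pairs R) + (Z.card : ℕ∞) := by
  have h1 : (base R Z hub).edgeSet ⊆ pairs R ∪ ((Z.image fun v => s(v, hub v) : Finset (Sym2 V)) :
      Set (Sym2 V)) := by
    intro e he
    induction e using Sym2.ind with
    | _ a b =>
      obtain ⟨hne, h | h | h⟩ := (show (base R Z hub).Adj a b from he)
      · left
        refine ⟨by rw [Sym2.mk_isDiag_iff]; exact hne, ?_⟩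
        intro z hz
        rw [Sym2.mem_iff] at hz
        rcases hz with rfl | rfl
        · exact h.1
        · exact h.2
      · right
        rw [Finset.coe_image]
        exact ⟨a, h.1, by simp only [h.2]⟩
      · right
        rw [Finset.coe_image]
        refine ⟨b, h.1, ?_⟩
        simp only
        rw [h.2, Sym2.eq_swap]
  refine (M.eRk_mono h1).trans ((M.eRk_union_le_eRk_add_encard _ _).trans ?_)
  gcongr
  rw [Set.encard_coe_eq_coe_finsetCard]
  exact_mod_cast Finset.card_image_le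

end Pool.Agent.N423.DC.FIN

namespace Pool.Agent.N423.DC

open Matrix Finset Pool.Agent.H283R2.DR Pool.Agent.H789R5 Pool.Agent.N423.DE

theorem fin (h1 : S_BAS) (h2 : S_KR) : S_FIN := by
  intro V _ _ M hM hyp G R hR hclq hdom
  classical
  obtain ⟨p, hp⟩ := exists_mg V 3
  have hG := genRank_add hp G
  set G' := cl G p with hG'
  have hmo : mo G' p = mo G p := mo_cl G p
  have hle : G ≤ G' := le_cl G p
  -- hubs
  have hex : ∀ v, ∃ r, v ∉ R → r ∈ R ∧ G'.Adj v r := by
    intro v
    by_cases hv : v ∈ R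
    · exact ⟨v, fun h => absurd hv h⟩
    · obtain ⟨r, hr, hl⟩ := hdom v hv
      have hne : v ≠ r := fun h => hv (h ▸ hr)
      exact ⟨r, fun _ => ⟨hr, hne, imp_of_linked hp hne hl⟩⟩
  choose hub hhub using hex
  set Z : Finset V := univ \ R with hZ
  have hZm : ∀ v, v ∈ Z ↔ v ∉ R := by
    intro v
    rw [hZ, mem_sdiff]
    exact ⟨fun h => h.2, fun h => ⟨mem_univ _, h⟩⟩
  have hZc : R.card + Z.card = Fintype.card V := by
    rw [hZ, card_univ_sdiff]
    have := R.card_le_univ
    omega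
  have hHb : Hb R Z hub :=
    ⟨fun x hx hxZ => (hZm x).1 hxZ hx, hR, fun v hv => (hhub v ((hZm v).1 hv)).1⟩
  have hBle : base R Z hub ≤ G' := by
    rintro x y ⟨hne, ⟨hx, hy⟩ | ⟨hx, hy⟩ | ⟨hy, hx⟩⟩
    · exact ⟨hne, imp_of_linked hp hne (hclq x hx y hy hne)⟩
    · rw [hy]; exact (hhub x ((hZm x).1 hx)).2
    · rw [hx]; exact (hhub y ((hZm y).1 hy)).2.symm
  obtain ⟨D, hDY, hDX, hD1, hD2⟩ :=
    FIN.ext_basis M (SimpleGraph.edgeSet_subset_edgeSet.2 hBle)
  set F : SimpleGraph V := SimpleGraph.fromEdgeSet D with hF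
  have hFe : F.edgeSet = D := by
    rw [hF, SimpleGraph.edgeSet_fromEdgeSet]
    ext e
    constructor
    · exact fun h => h.1
    · exact fun h => ⟨h, fun hd => SimpleGraph.not_isDiag_of_mem_edgeSet G' (hDY h) hd⟩
  have hFle : F ≤ G' := by
    rw [← SimpleGraph.edgeSet_subset_edgeSet, hFe]
    exact hDY
  have hExt : Ext R Z hub F := by
    intro x y hxy
    refine ⟨?_, ?_, ?_⟩
    · by_cases h : x ∈ R
      · exact Or.inl h
      · exact Or.inr ((hZm x).2 h)
    · by_cases h : y ∈ R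
      · exact Or.inl h
      · exact Or.inr ((hZm y).2 h)
    · intro h
      have h3 : s(x, y) ∈ F.edgeSet := hxy
      rw [hFe] at h3
      exact hDX _ h3 h
  have hMI : MInd M R Z hub F := by
    unfold MInd
    rw [SimpleGraph.edgeSet_sup, hFe, hD1]
  have hRI := hyp R Z hub hHb F hExt hMI p hp
  have hanti : mo G' p ≤ mo (base R Z hub ⊔ F) p := mo_anti (sup_le hBle hFle) p
  have hbas := h1 V R Z hub hHb p hp
  have hkr := h2 V M hM R hR
  rw [hFe] at hRI
  -- the rank of the complete graph on `R`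
  obtain ⟨k, hk⟩ : ∃ k : ℕ, M.eRk (pairs R) = k := by
    have h3 : M.eRk (pairs R) ≠ ⊤ := by
      intro h
      rw [h, top_add] at hkr
      exact ENat.natCast_ne_top _ (top_le_iff.1 hkr)
    exact ⟨_, (ENat.natCast_toNat h3).symm⟩
  have hk2 : k + 6 ≤ 3 * R.card := by
    rw [hk] at hkr
    exact_mod_cast hkr
  have h4 : M.eRk G.edgeSet ≤ ((k + Z.card + D.ncard : ℕ) : ℕ∞) := by
    calc M.eRk G.edgeSet ≤ M.eRk G'.edgeSet :=
          M.eRk_mono (SimpleGraph.edgeSet_subset_edgeSet.2 hle)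
      _ = M.eRk (base R Z hub).edgeSet + (D.ncard : ℕ∞) := hD2
      _ ≤ (M.eRk (pairs R) + (Z.card : ℕ∞)) + (D.ncard : ℕ∞) := by
          gcongr
          exact FIN.eRk_base M R Z hub
      _ = ((k + Z.card + D.ncard : ℕ) : ℕ∞) := by
          rw [hk]; push_cast; rfl
  refine h4.trans ?_
  have h5 : k + Z.card + D.ncard ≤ genRank 3 G := by omega
  exact_mod_cast h5

end Pool.Agent.N423.DC
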