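import Mathlib
import Pool.Agent.N423.DC.Stm

/-!
# HH: the hypotheses of the counting lemma (helper27)
-/

set_option autoImplicit false
set_option linter.unusedSectionVars false

namespace Pool.Agent.N423.DC

open Matrix Finset Pool.Agent.H283R2.DR Pool.Agent.H789R5 Pool.Agent.N423.DE

namespace HH

variable {V : Type}

theorem fld_add (T T' : (Fin 3 → ℝ) × (Fin 3 → ℝ)) (y : Fin 3 → ℝ) :
    fld (T + T') y = fld T y + fld T' y := by
  simp only [fld, Prod.fst_add, Prod.snd_add, map_add, LinearMap.add_apply]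
  abel

theorem fld_smul (c : ℝ) (T : (Fin 3 → ℝ) × (Fin 3 → ℝ)) (y : Fin 3 → ℝ) :
    fld (c • T) y = c • fld T y := by
  simp only [fld, Prod.smul_fst, Prod.smul_snd, map_smul, LinearMap.smul_apply, smul_add]

theorem fld_zero (y : Fin 3 → ℝ) : fld 0 y = 0 := by
  simp [fld]

/-- `Phi` as a linear map -/
noncomputable def L (KZ : Finset V) (p : V → Fin 3 → ℝ) :
    (((Fin 3 → ℝ) × (Fin 3 → ℝ)) × (V → Fin 3 → ℝ)) →ₗ[ℝ] (V → Fin 3 → ℝ) where
  toFun u := Phi KZ p u.1 u.2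
  map_add' a b := by
    funext x
    simp only [Phi, Pi.add_apply, Prod.fst_add, Prod.snd_add]
    split_ifs
    · rw [fld_add]
    · rfl
  map_smul' c a := by
    funext x
    simp only [Phi, Pi.smul_apply, Prod.smul_fst, Prod.smul_snd, RingHom.id_apply]
    split_ifs
    · rw [fld_smul]
    · rfl

theorem L_apply (KZ : Finset V) (p : V → Fin 3 → ℝ)
    (u : ((Fin 3 → ℝ) × (Fin 3 → ℝ)) × (V → Fin 3 → ℝ)) : L KZ p u = Phi KZ p u.1 u.2 := rfl

/-- the triple product of affinely independent points -/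
theorem triple [Fintype V] [DecidableEq V] {p : V → Fin 3 → ℝ} (hp : MG p) {a b w w' : V}
    (hab : a ≠ b) (haw : a ≠ w) (haw' : a ≠ w') (hbw : b ≠ w) (hbw' : b ≠ w') (hww : w ≠ w') :
    (p a - p b) ⬝ᵥ (crossProduct (p w' - p w) (p a - p w)) ≠ 0 := by
  intro h0
  have h0' : Matrix.det (Matrix.of ![p a - p b, p w' - p w, p a - p w]) = 0 :=
    (triple_product_eq_det _ _ _).symm.trans h0
  obtain ⟨v, hv, hv0⟩ := Matrix.exists_vecMul_eq_zero_iff.2 h0'
  have h1 : v 0 • (p a - p b) + v 1 • (p w' - p w) + v 2 • (p a - p w) = 0 := by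
    funext i
    have := congrFun hv0 i
    simp only [Matrix.vecMul, dotProduct, Fin.sum_univ_three, Pi.zero_apply] at this
    simpa [Pi.add_apply, Pi.smul_apply, smul_eq_mul] using this
  have h2 := pos_finset hp (S := {a, b, w, w'}) (by
      refine (Finset.card_le_four).trans (by norm_num))
    (fun c => if c = a then v 0 + v 2 else if c = b then - v 0 else if c = w' then v 1
      else if c = w then - v 1 - v 2 else 0) ?_ ?_
  · have ha := h2 a (by simp)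
    have hb := h2 b (by simp)
    have hw := h2 w' (by simp)
    simp only [if_true] at ha
    rw [if_neg hab.symm, if_pos rfl] at hb
    rw [if_neg haw'.symm, if_neg hbw'.symm, if_pos rfl] at hw
    apply hv
    funext i
    fin_cases i
    · show v 0 = 0
      linarith
    · exact hw
    · show v 2 = 0
      linarith
  · rw [Finset.sum_insert, Finset.sum_insert, Finset.sum_insert, Finset.sum_singleton]
    · rw [if_pos rfl, if_neg hab.symm, if_pos rfl, if_neg haw.symm, if_neg hbw.symm, if_neg hww,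
        if_pos rfl, if_neg haw'.symm, if_neg hbw'.symm, if_pos rfl]
      ring
    · simp [hww]
    · simp [hbw, hbw']
    · simp [hab, haw, haw']
  · rw [Finset.sum_insert, Finset.sum_insert, Finset.sum_insert, Finset.sum_singleton]
    · rw [if_pos rfl, if_neg hab.symm, if_pos rfl, if_neg haw.symm, if_neg hbw.symm, if_neg hww,
        if_pos rfl, if_neg haw'.symm, if_neg hbw'.symm, if_pos rfl]
      rw [← h1]
      module
    · simp [hww]
    · simp [hbw, hbw']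
    · simp [hab, haw, haw']

variable [Fintype V] [DecidableEq V] {G : SimpleGraph V} {R Z K KZ : Finset V} {hub : V → V}
  {z z' : V → V} {p : V → Fin 3 → ℝ}

/-- the constraints -/
theorem cA (hc : Cfg G Z K KZ z z') (u : ((Fin 3 → ℝ) × (Fin 3 → ℝ)) × (V → Fin 3 → ℝ)) :
    (∀ x ∈ KZ, ∀ y, y ∉ K → G.Adj x y → (p x - p y) ⬝ᵥ dlt p y u = 0) ↔
      ∀ x ∈ KZ, cst p z z' x u := by
  constructor
  · intro h x hx
    obtain ⟨h1, h2, -, h3, h4⟩ := hc.adj x hx
    exact ⟨h x hx _ h3 h1, h x hx _ h4 h2⟩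
  · intro h x hx y hy hxy
    rcases hc.nbx x hx y hxy with h1 | rfl | rfl
    · exact absurd h1 hy
    · exact (h x hx).1
    · exact (h x hx).2

theorem K_supp (hC : Core G R Z hub) (hc : Cfg G Z K KZ z z') {y : V} (hy : y ∈ K) :
    y ∈ R ∨ y ∈ Z := by
  have h1 : 0 < (K.erase y).card := by
    rw [Finset.card_erase_of_mem hy, hc.card]
    norm_num
  obtain ⟨w, hw⟩ := Finset.card_pos.1 h1
  rw [Finset.mem_erase] at hw
  exact hC.supp y w (hc.clique y hy w hw.2 hw.1.symm)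

theorem par (h1 : S_PAR) (hc : Cfg G Z K KZ z z') (hp : MG p) :
    (∀ g, g ∈ PM G Z ∅ p ↔ ∃ u ∈ UU G Z K KZ p, g = L KZ p u ∧ ∀ x ∈ KZ, cst p z z' x u) ∧
    (∀ u ∈ UU G Z K KZ p, L KZ p u = 0 → u = 0) := by
  obtain ⟨h2, h3⟩ := h1 V G G Z K KZ p hp hc.card hc.clique hc.mem le_rfl (fun _ _ _ _ h => h)
  refine ⟨fun g => ?_, h3⟩
  rw [h2 g]
  constructor
  · rintro ⟨u, hu, hg, h4⟩
    exact ⟨u, hu, hg, (cA hc u).1 h4⟩
  · rintro ⟨u, hu, hg, h4⟩
    exact ⟨u, hu, hg, (cA hc u).2 h4⟩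

/-- members of `PM` are multiples of a nonzero one -/
theorem multi (hC : Core G R Z hub) (hp : MG p) {g q : V → Fin 3 → ℝ} (hg : g ∈ PM G Z ∅ p)
    (hg0 : g ≠ 0) (hq : q ∈ PM G Z ∅ p) : ∃ c : ℝ, q = c • g := by
  have h1 := hC.dimG p hp
  have h2 : (⟨g, hg⟩ : PM G Z ∅ p) ≠ 0 := by
    intro h
    exact hg0 (congrArg Subtype.val h)
  obtain ⟨c, hc⟩ := (finrank_eq_one_iff_of_nonzero' _ h2).1 h1 ⟨q, hq⟩
  exact ⟨c, (congrArg Subtype.val hc).symm⟩

/-- part 4 -/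
theorem part4 (h1 : S_PAR) (h2 : S_TRI) (hC : Core G R Z hub) (hc : Cfg G Z K KZ z z') (hp : MG p)
    {u : ((Fin 3 → ℝ) × (Fin 3 → ℝ)) × (V → Fin 3 → ℝ)} (hu : u ∈ UU G Z K KZ p) (hu0 : u ≠ 0)
    (hcs : ∀ x ∈ KZ, cst p z z' x u) {x y : V} (hx : x ∈ KZ) (hy : y ∉ K) (hxy : G.Adj x y) :
    dlt p y u ≠ 0 := by
  intro hd
  obtain ⟨h3, h4⟩ := par h1 hc hp
  have hgm : L KZ p u ∈ PM G Z ∅ p := (h3 _).2 ⟨u, hu, rfl, hcs⟩
  have hg0 : L KZ p u ≠ 0 := fun h => hu0 (h4 u hu h)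
  have hyKZ : y ∉ KZ := fun h => hy ((hc.mem y).1 h).1
  have hgy : L KZ p u y = fld u.1 (p y) := by
    rw [L_apply, Phi, if_neg hyKZ]
    exact sub_eq_zero.1 hd
  have hgw : ∀ w ∈ K, L KZ p u w = fld u.1 (p w) := by
    intro w hw
    rw [L_apply, Phi]
    split_ifs with hwz
    · rfl
    · rw [hu.2 w hw hwz]
      refine (mem_PM.1 hu.1).2.1 w fun hwZ => hwz ((hc.mem w).2 ⟨hw, hwZ⟩)
  have hyR : y ∈ R ∨ y ∈ Z := hC.supp y x hxy.symm
  have hadj : ∀ w ∈ K, G.Adj y w := by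
    intro w hw
    have hyw : y ≠ w := by
      rintro rfl
      exact hy hw
    refine hC.closed p hp y w hyR (K_supp hC hc hw) hyw fun q hq => ?_
    obtain ⟨c, rfl⟩ := multi hC hp hgm hg0 hq
    rw [Pi.smul_apply, Pi.smul_apply, ← smul_sub, dotProduct_smul, hgy, hgw w hw, h2.2.2,
      smul_zero]
  refine hC.noK5 (insert y K) ?_ ?_ x (Finset.mem_insert_of_mem ((hc.mem x).1 hx).1)
    ((hc.mem x).1 hx).2
  · rw [Finset.card_insert_of_notMem hy, hc.card]
  · intro a ha b hb hab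
    rcases Finset.mem_insert.1 ha with ha' | ha'
    · rcases Finset.mem_insert.1 hb with hb' | hb'
      · exact absurd (ha'.trans hb'.symm) hab
      · rw [ha']
        exact hadj b hb'
    · rcases Finset.mem_insert.1 hb with hb' | hb'
      · rw [hb']
        exact (hadj a ha').symm
      · exact hc.clique a ha' b hb' hab

/-- part 3 -/
theorem part3 (h1 : S_PAR) (hC : Core G R Z hub) (hc : Cfg G Z K KZ z z') (hp : MG p)
    {x : V} (hx : x ∈ KZ) : Module.finrank ℝ (Submodule.span ℝ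
    {u | u ∈ UU G Z K KZ p ∧ ∀ y ∈ KZ, y ≠ x → cst p z z' y u}) ≤ 2 := by
  obtain ⟨hxK, hxZ⟩ := (hc.mem x).1 hx
  obtain ⟨ha1, ha2, hne, hz1, hz2⟩ := hc.adj x hx
  obtain ⟨G', hG'⟩ : ∃ G' : SimpleGraph V, G' = G.deleteEdges {s(x, z x), s(x, z' x)} := ⟨_, rfl⟩
  have hadj : ∀ a b, G'.Adj a b ↔ G.Adj a b ∧ s(a, b) ≠ s(x, z x) ∧ s(a, b) ≠ s(x, z' x) := by
    intro a b
    rw [hG', SimpleGraph.deleteEdges_adj]
    simp only [Set.mem_insert_iff, Set.mem_singleton_iff, not_or]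
  have hle : G' ≤ G := fun a b h => ((hadj a b).1 h).1
  have hnot : ∀ a b v, (a = x → b = v → False) → (a = v → b = x → False) →
      s(a, b) ≠ s(x, v) := by
    intro a b v h2 h3 h4
    rcases Sym2.eq_iff.1 h4 with ⟨h5, h6⟩ | ⟨h5, h6⟩
    · exact h2 h5 h6
    · exact h3 h5 h6
  have hCK : Cq G' K := by
    intro a ha b hb hab
    refine (hadj a b).2 ⟨hc.clique a ha b hb hab, hnot _ _ _ ?_ ?_, hnot _ _ _ ?_ ?_⟩
    · intro _ h; exact hz1 (h ▸ hb)
    · intro h _; exact hz1 (h ▸ ha)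
    · intro _ h; exact hz2 (h ▸ hb)
    · intro h _; exact hz2 (h ▸ ha)
  have hxR : x ∉ R := fun h => hC.disj x h hxZ
  have hCR : Cq G' R := by
    intro a ha b hb hab
    refine (hadj a b).2 ⟨hC.clique a ha b hb hab, hnot _ _ _ ?_ ?_, hnot _ _ _ ?_ ?_⟩
    · intro h _; exact hxR (h ▸ ha)
    · intro _ h; exact hxR (h ▸ hb)
    · intro h _; exact hxR (h ▸ ha)
    · intro _ h; exact hxR (h ▸ hb)
  have hrest : ∀ a b, a ∉ KZ → b ∉ KZ → G.Adj a b → G'.Adj a b := by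
    intro a b ha hb hab
    refine (hadj a b).2 ⟨hab, hnot _ _ _ ?_ ?_, hnot _ _ _ ?_ ?_⟩
    · intro h _; exact ha (h ▸ hx)
    · intro _ h; exact hb (h ▸ hx)
    · intro h _; exact ha (h ▸ hx)
    · intro _ h; exact hb (h ▸ hx)
  have hex : ∃ a ∈ Z, ∃ b ∈ Z, G.Adj a b ∧ ¬ G'.Adj a b := by
    have e1 : ¬ G'.Adj x (z x) := fun h => ((hadj _ _).1 h).2.1 rfl
    have e2 : ¬ G'.Adj x (z' x) := fun h => ((hadj _ _).1 h).2.2 rfl
    rcases hC.supp _ _ ha1.symm with h2 | h2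
    · rcases hC.supp _ _ ha2.symm with h3 | h3
      · exfalso
        exact hne ((hC.hub_uniq x hxZ _ h2 ha1).trans (hC.hub_uniq x hxZ _ h3 ha2).symm)
      · exact ⟨x, hxZ, z' x, h3, ha2, e2⟩
    · exact ⟨x, hxZ, z x, h2, ha1, e1⟩
  have hdim : Module.finrank ℝ (PM G' Z ∅ p) ≤ 2 := by
    rw [hC.dimS p hp G' hle hCR hex]
    have h2 : G.edgeSet \ G'.edgeSet ⊆ {s(x, z x), s(x, z' x)} := by
      intro e he
      induction e using Sym2.ind with
      | _ a b =>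
        rw [Set.mem_sdiff, SimpleGraph.mem_edgeSet, SimpleGraph.mem_edgeSet, hadj] at he
        by_contra hno
        simp only [Set.mem_insert_iff, Set.mem_singleton_iff, not_or] at hno
        exact he.2 ⟨he.1, hno⟩
    refine (Set.ncard_le_ncard h2 (Set.toFinite _)).trans ?_
    exact (Set.ncard_insert_le _ _).trans (by rw [Set.ncard_singleton])
  obtain ⟨h3, h4⟩ := h1 V G G' Z K KZ p hp hc.card hCK hc.mem hle hrest
  obtain ⟨S, hS⟩ : ∃ S : Submodule ℝ (((Fin 3 → ℝ) × (Fin 3 → ℝ)) × (V → Fin 3 → ℝ)),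
    S = Submodule.span ℝ {u | u ∈ UU G Z K KZ p ∧ ∀ y ∈ KZ, y ≠ x → cst p z z' y u} := ⟨_, rfl⟩
  rw [← hS]
  have hSU : S ≤ UU G Z K KZ p := by
    rw [hS, Submodule.span_le]
    exact fun u hu => hu.1
  have hSL : ∀ u ∈ S, L KZ p u ∈ PM G' Z ∅ p := by
    have h5 : S ≤ (PM G' Z ∅ p).comap (L KZ p) := by
      rw [hS, Submodule.span_le]
      rintro u ⟨hu, hcu⟩
      show L KZ p u ∈ PM G' Z ∅ p
      rw [h3]
      refine ⟨u, hu, rfl, fun y hy w hw hyw => ?_⟩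
      obtain ⟨h6, h7, h8⟩ := (hadj y w).1 hyw
      by_cases hyx : y = x
      · subst hyx
        rcases hc.nbx y hy w h6 with h9 | rfl | rfl
        · exact absurd h9 hw
        · exact absurd rfl h7
        · exact absurd rfl h8
      · rcases hc.nbx y hy w h6 with h9 | rfl | rfl
        · exact absurd h9 hw
        · exact (hcu y hy hyx).1
        · exact (hcu y hy hyx).2
    exact fun u hu => h5 hu
  let f : S →ₗ[ℝ] PM G' Z ∅ p :=
    ((L KZ p).comp S.subtype).codRestrict (PM G' Z ∅ p) fun u => hSL u u.2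
  have hf : Function.Injective f := by
    rw [← LinearMap.ker_eq_bot, LinearMap.ker_eq_bot']
    intro u hu
    have h5 : L KZ p u = 0 := congrArg Subtype.val hu
    exact Subtype.ext (h4 u (hSU u.2) h5)
  exact (LinearMap.finrank_le_finrank_of_injective hf).trans hdim

/-- part 5 -/
theorem part5 (h2 : S_TRI) (hc : Cfg G Z K KZ z z') (hp : MG p)
    {x y : V} (hx : x ∈ KZ) (hy : y ∈ KZ) (hxy : x ≠ y) : ∃ u ∈ UU G Z K KZ p,
    (∀ w ∈ KZ, w ≠ x → w ≠ y → cst p z z' w u) ∧ (p (z x) - p (z' x)) ⬝ᵥ dlt p (z x) u ≠ 0 := by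
  obtain ⟨hxK, hxZ⟩ := (hc.mem x).1 hx
  obtain ⟨hyK, hyZ⟩ := (hc.mem y).1 hy
  obtain ⟨ha1, ha2, hne, hz1, hz2⟩ := hc.adj x hx
  have hcard : ((K.erase x).erase y).card = 2 := by
    rw [Finset.card_erase_of_mem (Finset.mem_erase.2 ⟨hxy.symm, hyK⟩),
      Finset.card_erase_of_mem hxK, hc.card]
  obtain ⟨w, w', hww, hK⟩ := Finset.card_eq_two.1 hcard
  have hwm : w ∈ K ∧ w' ∈ K := by
    have e1 : w ∈ (K.erase x).erase y := by rw [hK]; simp
    have e2 : w' ∈ (K.erase x).erase y := by rw [hK]; simp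
    exact ⟨Finset.mem_of_mem_erase (Finset.mem_of_mem_erase e1),
      Finset.mem_of_mem_erase (Finset.mem_of_mem_erase e2)⟩
  have hcase : ∀ v ∈ K, v ≠ x → v ≠ y → v = w ∨ v = w' := by
    intro v hv h3 h4
    have : v ∈ (K.erase x).erase y := Finset.mem_erase.2 ⟨h4, Finset.mem_erase.2 ⟨h3, hv⟩⟩
    rw [hK] at this
    simpa using this
  obtain ⟨T, hT⟩ : ∃ T : (Fin 3 → ℝ) × (Fin 3 → ℝ),
    T = (p w' - p w, - crossProduct (p w' - p w) (p w)) := ⟨_, rfl⟩
  have hTy : ∀ q : Fin 3 → ℝ, fld T q = crossProduct (p w' - p w) (q - p w) := by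
    intro q
    rw [hT]
    show crossProduct (p w' - p w) q + -(crossProduct (p w' - p w) (p w)) = _
    rw [(crossProduct (p w' - p w)).map_sub]
    exact (sub_eq_add_neg _ _).symm
  have hTw : fld T (p w) = 0 := by rw [hTy, sub_self, map_zero]
  have hTw' : fld T (p w') = 0 := by rw [hTy, cross_self]
  have hTv : ∀ v ∈ K, v ≠ x → v ≠ y → fld T (p v) = 0 := by
    intro v hv h3 h4
    rcases hcase v hv h3 h4 with rfl | rfl
    · exact hTw
    · exact hTw'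
  refine ⟨(T, 0), ⟨Submodule.zero_mem _, fun r hr hr' => hTv r hr ?_ ?_⟩, fun v hv h3 h4 => ?_, ?_⟩
  · rintro rfl
    exact hr' hx
  · rintro rfl
    exact hr' hy
  · have h5 : ∀ a, (p v - p a) ⬝ᵥ dlt p a (T, (0 : V → Fin 3 → ℝ)) = 0 := by
      intro a
      have h6 := h2.2.2 T (p v) (p a)
      rw [hTv v ((hc.mem v).1 hv).1 h3 h4] at h6
      exact h6
    exact ⟨h5 _, h5 _⟩
  · have h5 : dlt p (z x) (T, (0 : V → Fin 3 → ℝ)) =
        - crossProduct (p w' - p w) (p (z x) - p w) := by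
      rw [← hTy]
      show (0 : V → Fin 3 → ℝ) (z x) - fld T (p (z x)) = _
      rw [Pi.zero_apply, zero_sub]
    rw [h5, dotProduct_neg, neg_ne_zero]
    refine triple hp hne ?_ ?_ ?_ ?_ hww
    · rintro h; exact hz1 (h ▸ hwm.1)
    · rintro h; exact hz1 (h ▸ hwm.2)
    · rintro h; exact hz2 (h ▸ hwm.1)
    · rintro h; exact hz2 (h ▸ hwm.2)

end HH

open HH in
/-- **HH.** -/
theorem hh (h1 : S_PAR) (h2 : S_TRI) : S_HH := by
  intro V _ _ G R Z hub hC K KZ z z' hc p hp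
  obtain ⟨h3, h4⟩ := par h1 hc hp
  refine ⟨?_, ?_, fun x hx => part3 h1 hC hc hp hx, ?_, fun x hx y hy hxy => part5 h2 hc hp hx hy hxy⟩
  · obtain ⟨q, hq, hq0⟩ := hC.all p p hp (fun _ _ => rfl)
    obtain ⟨u, hu, hg, hcs⟩ := (h3 q).1 hq
    refine ⟨u, hu, ?_, hcs⟩
    rintro rfl
    exact hq0 (by rw [hg, map_zero])
  · intro u hu u' hu' hcs hcs' hu0
    have hg : L KZ p u ∈ PM G Z ∅ p := (h3 _).2 ⟨u, hu, rfl, hcs⟩
    have hg' : L KZ p u' ∈ PM G Z ∅ p := (h3 _).2 ⟨u', hu', rfl, hcs'⟩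
    have hg0 : L KZ p u ≠ 0 := fun h => hu0 (h4 u hu h)
    obtain ⟨c, hc'⟩ := multi hC hp hg hg0 hg'
    refine ⟨c, ?_⟩
    have h5 := h4 (u' - c • u) (Submodule.sub_mem _ hu' (Submodule.smul_mem _ c hu))
      (by rw [map_sub, map_smul, hc', sub_self])
    exact sub_eq_zero.1 h5
  · intro u hu hu0 hcs x hx
    obtain ⟨ha1, ha2, -, hz1, hz2⟩ := hc.adj x hx
    exact ⟨part4 h1 h2 hC hc hp hu hu0 hcs hx hz1 ha1, part4 h1 h2 hC hc hp hu hu0 hcs hx hz2 ha2⟩

end Pool.Agent.N423.DC
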