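import Mathlib
import Pool.Agent.N423.DC.Stm

/-!
# Project DC, part K3 (helper50): one hub vertex
-/

set_option autoImplicit false

namespace Pool.Agent.N423.DC

open Matrix Finset Pool.Agent.H283R2.DR Pool.Agent.H789R5 Pool.Agent.N423.DE

namespace K3

lemma parallel {w c : Fin 3 → ℝ} (hw : w ≠ 0) (h : crossProduct w c = 0) : ∃ t : ℝ, c = t • w := by
  rw [cross_apply] at h
  have h0 : w 1 * c 2 - w 2 * c 1 = 0 := by
    have := congrFun h 0
    simpa using this
  have h1 : w 2 * c 0 - w 0 * c 2 = 0 := by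
    have := congrFun h 1
    simpa using this
  have h2 : w 0 * c 1 - w 1 * c 0 = 0 := by
    have := congrFun h 2
    simpa using this
  by_cases a0 : w 0 = 0
  · by_cases a1 : w 1 = 0
    · have a2 : w 2 ≠ 0 := by
        intro a2
        apply hw
        funext i
        fin_cases i
        · exact a0
        · exact a1
        · exact a2
      refine ⟨c 2 / w 2, ?_⟩
      funext i
      rw [Pi.smul_apply, smul_eq_mul, div_mul_eq_mul_div, eq_div_iff a2]
      fin_cases i
      · show c 0 * w 2 = c 2 * w 0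
        linarith
      · show c 1 * w 2 = c 2 * w 1
        linarith
      · rfl
    · refine ⟨c 1 / w 1, ?_⟩
      funext i
      rw [Pi.smul_apply, smul_eq_mul, div_mul_eq_mul_div, eq_div_iff a1]
      fin_cases i
      · show c 0 * w 1 = c 1 * w 0
        linarith
      · rfl
      · show c 2 * w 1 = c 1 * w 2
        linarith
  · refine ⟨c 0 / w 0, ?_⟩
    funext i
    rw [Pi.smul_apply, smul_eq_mul, div_mul_eq_mul_div, eq_div_iff a0]
    fin_cases i
    · rfl
    · show c 1 * w 0 = c 0 * w 1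
      linarith
    · show c 2 * w 0 = c 0 * w 2
      linarith

/-- three different vertices are not collinear -/
lemma three {V : Type} [Fintype V] {p : V → Fin 3 → ℝ} (hp : MG p) {r a b : V} (hra : a ≠ r)
    (hrb : b ≠ r) (hab : a ≠ b) (ρ : ℝ) : (p b - p r) - ρ • (p a - p r) ≠ 0 := by
  classical
  intro h
  have hS : ({r, a, b} : Finset V).card ≤ 3 + 1 := (card_le_three).trans (by omega)
  have hr1 : r ∉ ({a, b} : Finset V) := by
    rw [mem_insert, mem_singleton]
    push Not
    exact ⟨hra.symm, hrb.symm⟩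
  have ha1 : a ∉ ({b} : Finset V) := by
    rw [mem_singleton]; exact hab
  have e1 : ∀ {M : Type} [AddCommMonoid M] (f : V → M),
      ∑ x ∈ ({r, a, b} : Finset V), f x = f r + (f a + f b) := by
    intro M _ f
    rw [sum_insert hr1, sum_insert ha1, sum_singleton]
  let w : V → ℝ := fun x => if x = b then 1 else if x = a then -ρ else ρ - 1
  have wb : w b = 1 := if_pos rfl
  have wa : w a = -ρ := by
    change (if a = b then (1 : ℝ) else if a = a then -ρ else ρ - 1) = -ρ
    rw [if_neg hab, if_pos rfl]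
  have wr : w r = ρ - 1 := by
    change (if r = b then (1 : ℝ) else if r = a then -ρ else ρ - 1) = ρ - 1
    rw [if_neg hrb.symm, if_neg hra.symm]
  have h3 := pos_finset hp hS w (by rw [e1 w, wb, wa, wr]; ring) (by
    rw [e1 (fun x => w x • p x), wb, wa, wr, ← h, one_smul, neg_smul, sub_smul, smul_sub,
      one_smul]
    abel) b (by simp)
  rw [wb] at h3
  exact one_ne_zero h3

end K3

open K3 in
theorem k3 (h1 : S_KAP) (h2 : S_DJ) (h3 : S_DIM) (h4 : S_J3) : S_K3 := by
  classical
  intro V _ _ G R Z hub hC K KZ z z' hcfg hcard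
  obtain ⟨p, hp, hJ⟩ := h4 V
  -- the hub vertex
  have hsub : KZ ⊆ K := fun x hx => ((hcfg.mem x).1 hx).1
  have hsubZ : KZ ⊆ Z := fun x hx => ((hcfg.mem x).1 hx).2
  have hr : (K \ KZ).card = 1 := by
    rw [card_sdiff_of_subset hsub, hcfg.card, hcard]
  obtain ⟨r, hr⟩ := card_eq_one.1 hr
  have hrK : r ∈ K ∧ r ∉ KZ := by
    have : r ∈ K \ KZ := by rw [hr]; exact mem_singleton_self r
    exact mem_sdiff.1 this
  -- the dimension of the pinned motions
  have hdim := h3 V G R Z hub hC p hp KZ hsubZ hcfg.ne (hcfg.clique.subset hsub)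
  rw [hcard] at hdim
  have hch : Nat.choose 3 2 = 3 := by decide
  rw [hch] at hdim
  have hdim3 : Module.finrank ℝ (PM G Z KZ p) = 3 := by omega
  obtain ⟨ρ, hρ, hfr⟩ := h1 V G R Z hub hC K KZ z z' hcfg p hp
  rw [hcard] at hfr
  -- the space
  let W : Submodule ℝ (((Fin 3 → ℝ) × (Fin 3 → ℝ)) × (V → Fin 3 → ℝ)) :=
    { carrier := {u | u ∈ UU G Z K KZ p ∧ ∀ x ∈ KZ, dlt p (z' x) u = ρ x • dlt p (z x) u ∧
        (p (z x) - p (z' x)) ⬝ᵥ dlt p (z x) u = 0}
      add_mem' := by
        rintro a b ⟨ha, ha'⟩ ⟨hb, hb'⟩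
        refine ⟨Submodule.add_mem _ ha hb, fun x hx => ⟨?_, ?_⟩⟩
        · rw [map_add, map_add, (ha' x hx).1, (hb' x hx).1, smul_add]
        · rw [map_add, dotProduct_add, (ha' x hx).2, (hb' x hx).2, add_zero]
      zero_mem' := ⟨Submodule.zero_mem _, fun x _ => by simp⟩
      smul_mem' := by
        rintro c a ⟨ha, ha'⟩
        refine ⟨Submodule.smul_mem _ c ha, fun x hx => ⟨?_, ?_⟩⟩
        · rw [map_smul, map_smul, (ha' x hx).1, smul_comm]
        · rw [map_smul, dotProduct_smul, (ha' x hx).2, smul_zero] }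
  have hW : Module.finrank ℝ W = 4 := by
    have : Submodule.span ℝ (W : Set (((Fin 3 → ℝ) × (Fin 3 → ℝ)) × (V → Fin 3 → ℝ))) = W :=
      Submodule.span_eq W
    rw [← this]
    exact hfr
  let π : W →ₗ[ℝ] PM G Z KZ p :=
    { toFun := fun u => ⟨u.1.2, u.2.1.1⟩
      map_add' := fun a b => rfl
      map_smul' := fun c a => rfl }
  have hker : LinearMap.ker π ≠ ⊥ := LinearMap.ker_ne_bot_of_finrank_lt (by omega)
  obtain ⟨u, hu, hu0⟩ := (Submodule.ne_bot_iff _).1 hker
  have hu2 : u.1.2 = 0 := congrArg Subtype.val (LinearMap.mem_ker.1 hu)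
  set T := u.1.1 with hT
  have hTr : fld T (p r) = 0 := u.2.1.2 r hrK.1 hrK.2
  set w := T.1 with hw
  have hT2 : T.2 = -(crossProduct w (p r)) := by
    have : crossProduct T.1 (p r) + T.2 = 0 := hTr
    rw [← hw] at this
    exact (neg_eq_of_add_eq_zero_right this).symm
  have hw0 : w ≠ 0 := by
    intro h
    apply hu0
    apply Subtype.ext
    apply Prod.ext
    · apply Prod.ext
      · exact h
      · change T.2 = 0
        rw [hT2, h]
        simp
    · exact hu2
  have hd : ∀ y, dlt p y u.1 = -(crossProduct w (p y - p r)) := by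
    intro y
    change u.1.2 y - (crossProduct T.1 (p y) + T.2) = _
    rw [hu2, hT2, ← hw, map_sub]
    simp only [Pi.zero_apply]
    abel
  -- the relation at a vertex
  have hrel : ∀ x ∈ KZ, ∃ α β : ℝ, β ≠ 0 ∧
      α • (p (z x) - p r) + β • (p (z' x) - p r) = w := by
    intro x hx
    obtain ⟨_, _, hzz, hzK, hz'K⟩ := hcfg.adj x hx
    have h5 := (u.2.2 x hx).1
    rw [hd, hd] at h5
    have h6 : crossProduct w ((p (z' x) - p r) - ρ x • (p (z x) - p r)) = 0 := by
      rw [map_sub, map_smul, ← neg_inj, neg_sub, neg_zero, sub_eq_zero]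
      rw [smul_neg] at h5
      exact (neg_inj.1 h5).symm
    obtain ⟨t, ht⟩ := parallel hw0 h6
    have hc0 := three hp (r := r) (a := z x) (b := z' x) (fun h => hzK (h ▸ hrK.1))
      (fun h => hz'K (h ▸ hrK.1)) hzz (ρ x)
    have ht0 : t ≠ 0 := by
      intro h
      rw [h, zero_smul] at ht
      exact hc0 ht
    refine ⟨-(ρ x / t), 1 / t, one_div_ne_zero ht0, ?_⟩
    have h7 : w = t⁻¹ • ((p (z' x) - p r) - ρ x • (p (z x) - p r)) := by
      rw [ht, smul_smul, inv_mul_cancel₀ ht0, one_smul]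
    rw [h7]
    module
  choose! α β hβ hαβ using hrel
  -- enumerate
  let e : Fin 3 ≃ KZ := (Fintype.equivFinOfCardEq (by rw [Fintype.card_coe, hcard])).symm
  have heK : ∀ i, (e i : V) ∈ KZ := fun i => (e i).2
  have hnr : ∀ i, z (e i) ≠ r ∧ z' (e i) ≠ r := by
    intro i
    obtain ⟨_, _, _, hzK, hz'K⟩ := hcfg.adj _ (heK i)
    exact ⟨fun h => hzK (h ▸ hrK.1), fun h => hz'K (h ▸ hrK.1)⟩
  have hinj : Function.Injective
      (Sum.elim (fun i => z (e i)) (fun i => z' (e i)) : Fin 3 ⊕ Fin 3 → V) := by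
    have key : ∀ i j, i ≠ j → z (e i) ≠ z (e j) ∧ z (e i) ≠ z' (e j) ∧ z' (e i) ≠ z (e j) ∧
        z' (e i) ≠ z' (e j) := by
      intro i j hij
      have hne : (e j : V) ≠ e i := fun h => hij (e.injective (Subtype.ext h)).symm
      have hdj := h2 V G R Z hub hC K KZ z z' hcfg (e i) (heK i) (e j) (hsub (heK j)) hne
      have hadj := hcfg.adj _ (heK j)
      refine ⟨fun h => hdj.1 ?_, fun h => hdj.1 ?_, fun h => hdj.2 ?_, fun h => hdj.2 ?_⟩
      · rw [h]; exact hadj.1
      · rw [h]; exact hadj.2.1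
      · rw [h]; exact hadj.1
      · rw [h]; exact hadj.2.1
    rintro (i | i) (j | j) h
    · by_contra hij
      exact (key i j (fun h' => hij (by rw [h']))).1 h
    · exfalso
      by_cases hij : i = j
      · subst hij
        exact (hcfg.adj _ (heK i)).2.2.1 h
      · exact (key i j hij).2.1 h
    · exfalso
      by_cases hij : i = j
      · subst hij
        exact (hcfg.adj _ (heK i)).2.2.1 h.symm
      · exact (key i j hij).2.2.1 h
    · by_contra hij
      exact (key i j (fun h' => hij (by rw [h']))).2.2.2 h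
  have hfin := hJ r (fun i => z (e i)) (fun i => z' (e i)) hinj hnr (fun i => α (e i))
    (fun i => β (e i)) (fun i j => by rw [hαβ _ (heK i), hαβ _ (heK j)])
  exact hβ _ (heK 0) (congrFun hfin.2 0)

end Pool.Agent.N423.DC
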