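import Mathlib
import Pool.Agent.N423.DC.Stm

/-!
# Application of the counting lemma (helper559)
-/

set_option autoImplicit false
set_option linter.unusedSectionVars false

namespace Pool.Agent.N423.DC.KAP

open Matrix Finset Pool.Agent.H283R2.DR Pool.Agent.H789R5 Pool.Agent.N423.DE Pool.Agent.N423.DC

variable {V : Type} [Fintype V] [DecidableEq V]

/-- the placement with new positions of the vertices in `KZ` -/
noncomputable def pq (KZ : Finset V) (p : V → Fin 3 → ℝ) (q : {x // x ∈ KZ} → Fin 3 → ℝ) :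
    V → Fin 3 → ℝ := fun x => if h : x ∈ KZ then q ⟨x, h⟩ else p x

theorem pq_in {KZ : Finset V} {p : V → Fin 3 → ℝ} {q : {x // x ∈ KZ} → Fin 3 → ℝ} {x : V}
    (h : x ∈ KZ) : pq KZ p q x = q ⟨x, h⟩ := dif_pos h

theorem pq_out {KZ : Finset V} {p : V → Fin 3 → ℝ} {q : {x // x ∈ KZ} → Fin 3 → ℝ} {x : V}
    (h : x ∉ KZ) : pq KZ p q x = p x := dif_neg h

theorem pq_self {KZ : Finset V} {p : V → Fin 3 → ℝ} : pq KZ p (fun x => p x) = p := by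
  funext x
  by_cases h : x ∈ KZ
  · rw [pq_in h]
  · rw [pq_out h]

theorem pq_line {KZ : Finset V} {p : V → Fin 3 → ℝ} (q0 q1 : {x // x ∈ KZ} → Fin 3 → ℝ) (s : ℝ) :
    pq KZ p (q0 + s • (q1 - q0)) = pq KZ p q0 + s • (pq KZ p q1 - pq KZ p q0) := by
  funext x
  by_cases h : x ∈ KZ
  · simp only [pq_in h, Pi.add_apply, Pi.smul_apply, Pi.sub_apply]
  · simp only [pq_out h, Pi.add_apply, Pi.smul_apply, Pi.sub_apply, sub_self, smul_zero, add_zero]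

theorem good {KZ : Finset V} {p : V → Fin 3 → ℝ} (h3 : S_MGG) :
    TA.Good (fun q : {x // x ∈ KZ} → Fin 3 → ℝ => MG (pq KZ p q)) := by
  intro q0 q1 h0
  have := h3 V (pq KZ p q0) (pq KZ p q1) h0
  simpa only [pq_line] using this

theorem UU_eq {G : SimpleGraph V} {Z K KZ : Finset V} {p : V → Fin 3 → ℝ}
    (q : {x // x ∈ KZ} → Fin 3 → ℝ) : UU G Z K KZ (pq KZ p q) = UU G Z K KZ p := by
  ext u
  have e1 : u ∈ UU G Z K KZ (pq KZ p q) ↔ u.2 ∈ PM G Z KZ (pq KZ p q) ∧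
    ∀ r ∈ K, r ∉ KZ → fld u.1 (pq KZ p q r) = 0 := Iff.rfl
  have e2 : u ∈ UU G Z K KZ p ↔ u.2 ∈ PM G Z KZ p ∧ ∀ r ∈ K, r ∉ KZ → fld u.1 (p r) = 0 := Iff.rfl
  rw [e1, e2, mem_PM, mem_PM]
  constructor
  · rintro ⟨⟨h1, h2⟩, h4⟩
    refine ⟨⟨fun x y hxy hx hy => ?_, h2⟩, fun r hr hr' => ?_⟩
    · have := h1 x y hxy hx hy
      rwa [pq_out hx, pq_out hy] at this
    · have := h4 r hr hr'
      rwa [pq_out hr'] at this
  · rintro ⟨⟨h1, h2⟩, h4⟩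
    refine ⟨⟨fun x y hxy hx hy => ?_, h2⟩, fun r hr hr' => ?_⟩
    · rw [pq_out hx, pq_out hy]
      exact h1 x y hxy hx hy
    · rw [pq_out hr']
      exact h4 r hr hr'

theorem dlt_eq {KZ : Finset V} {p : V → Fin 3 → ℝ} (q : {x // x ∈ KZ} → Fin 3 → ℝ) {y : V}
    (hy : y ∉ KZ) : dlt (pq KZ p q) y = dlt p y := by
  apply LinearMap.ext
  intro u
  change u.2 y - fld u.1 (pq KZ p q y) = u.2 y - fld u.1 (p y)
  rw [pq_out hy]

theorem span_eq {M : Type*} [AddCommGroup M] [Module ℝ M] (W : Submodule ℝ M) (S : Set M)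
    (S' : Set W) (h1 : ∀ u ∈ S, ∃ h : u ∈ W, (⟨u, h⟩ : W) ∈ S') (h2 : ∀ u ∈ S', (u : M) ∈ S) :
    Module.finrank ℝ (Submodule.span ℝ S) = Module.finrank ℝ (Submodule.span ℝ S') := by
  have e : S = W.subtype '' S' := by
    ext u
    constructor
    · intro hu
      obtain ⟨h, h'⟩ := h1 u hu
      exact ⟨⟨u, h⟩, h', rfl⟩
    · rintro ⟨v, hv, rfl⟩
      exact h2 v hv
  rw [e, ← Submodule.map_span, Submodule.finrank_map_subtype_eq]

theorem main (h1 : S_KL) (h2 : S_HH) (h3 : S_MGG) (G : SimpleGraph V) (R Z : Finset V)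
    (hub : V → V) (hC : Core G R Z hub) (K KZ : Finset V) (z z' : V → V)
    (hK : Cfg G Z K KZ z z') (p : V → Fin 3 → ℝ) (hp : MG p) :
    ∃ ρ : V → ℝ, (∀ x ∈ KZ, ρ x ≠ 0) ∧ Module.finrank ℝ (Submodule.span ℝ
    {u | u ∈ UU G Z K KZ p ∧ ∀ x ∈ KZ, dlt p (z' x) u = ρ x • dlt p (z x) u ∧
      (p (z x) - p (z' x)) ⬝ᵥ dlt p (z x) u = 0}) = KZ.card + 1 := by
  have hz : ∀ x ∈ KZ, z x ∉ KZ := fun x hx h =>
    (hK.adj x hx).2.2.2.1 ((hK.mem _).1 h).1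
  have hz' : ∀ x ∈ KZ, z' x ∉ KZ := fun x hx h =>
    (hK.adj x hx).2.2.2.2 ((hK.mem _).1 h).1
  set W := UU G Z K KZ p with hW
  set Pz : {x // x ∈ KZ} → Fin 3 → ℝ := fun x => p (z x) with hPz
  set Pz' : {x // x ∈ KZ} → Fin 3 → ℝ := fun x => p (z' x) with hPz'
  set δ : {x // x ∈ KZ} → (W →ₗ[ℝ] (Fin 3 → ℝ)) := fun x => (dlt p (z x)).comp W.subtype with hδ
  set δ' : {x // x ∈ KZ} → (W →ₗ[ℝ] (Fin 3 → ℝ)) := fun x => (dlt p (z' x)).comp W.subtype with hδ'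
  have hcc : ∀ (q : {x // x ∈ KZ} → Fin 3 → ℝ) (x : V) (hx : x ∈ KZ) (u : W),
      cst (pq KZ p q) z z' x u ↔ cc Pz Pz' δ δ' q ⟨x, hx⟩ u := by
    intro q x hx u
    unfold cst cc
    rw [dlt_eq q (hz x hx), dlt_eq q (hz' x hx), pq_in hx, pq_out (hz x hx), pq_out (hz' x hx)]
    exact Iff.rfl
  have hne : Nonempty {x // x ∈ KZ} := by
    obtain ⟨x, hx⟩ := hK.ne
    exact ⟨⟨x, hx⟩⟩
  have key := h1 {x // x ∈ KZ} W Pz Pz' δ δ' (fun q => MG (pq KZ p q)) hne (good h3)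
    ⟨fun x => p x, by rw [pq_self]; exact hp⟩ ?_ ?_ ?_ ?_ ?_
  · obtain ⟨ρ, hρ, hfin⟩ := key
    refine ⟨fun x => if h : x ∈ KZ then ρ ⟨x, h⟩ else 1, fun x hx => ?_, ?_⟩
    · simp only [dif_pos hx]
      exact hρ _
    · rw [Fintype.card_coe] at hfin
      rw [← hfin]
      refine span_eq W _ _ (fun u hu => ⟨hu.1, fun x => ?_⟩) (fun u hu => ⟨u.2, fun x hx => ?_⟩)
      · have h5 := hu.2 x.1 x.2
        simp only [dif_pos x.2] at h5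
        exact h5
      · simp only [dif_pos hx]
        exact hu ⟨x, hx⟩
  · intro q hq
    obtain ⟨⟨u, hu, hu0, hu1⟩, -⟩ := h2 V G R Z hub hC K KZ z z' hK (pq KZ p q) hq
    rw [UU_eq] at hu
    refine ⟨⟨u, hu⟩, fun h => hu0 (congrArg Subtype.val h), fun x => ?_⟩
    exact (hcc q x.1 x.2 ⟨u, hu⟩).1 (hu1 x.1 x.2)
  · intro q hq u u' hu hu' hu0
    obtain ⟨-, h5, -⟩ := h2 V G R Z hub hC K KZ z z' hK (pq KZ p q) hq
    rw [UU_eq] at h5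
    obtain ⟨c, hc⟩ := h5 u u.2 u' u'.2 (fun x hx => (hcc q x hx u).2 (hu _))
      (fun x hx => (hcc q x hx u').2 (hu' _)) (fun h => hu0 (Subtype.ext h))
    exact ⟨c, Subtype.ext hc⟩
  · intro q hq x
    obtain ⟨-, -, h5, -⟩ := h2 V G R Z hub hC K KZ z z' hK (pq KZ p q) hq
    rw [UU_eq] at h5
    have h6 := h5 x.1 x.2
    rw [← span_eq W {u | u ∈ UU G Z K KZ p ∧ ∀ y ∈ KZ, y ≠ x.1 → cst (pq KZ p q) z z' y u}
      {u : W | ∀ y, y ≠ x → cc Pz Pz' δ δ' q y u}]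
    · exact h6
    · intro u hu
      refine ⟨hu.1, fun y hy => ?_⟩
      exact (hcc q y.1 y.2 ⟨u, hu.1⟩).1 (hu.2 y.1 y.2 fun h => hy (Subtype.ext h))
    · intro u hu
      refine ⟨u.2, fun y hy hyx => ?_⟩
      exact (hcc q y hy u).2 (hu ⟨y, hy⟩ fun h => hyx (congrArg Subtype.val h))
  · intro q hq u hu0 hu x
    obtain ⟨-, -, -, h5, -⟩ := h2 V G R Z hub hC K KZ z z' hK (pq KZ p q) hq
    rw [UU_eq] at h5
    have h6 := h5 u u.2 (fun h => hu0 (Subtype.ext h)) (fun y hy => (hcc q y hy u).2 (hu _))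
      x.1 x.2
    rw [dlt_eq q (hz x.1 x.2), dlt_eq q (hz' x.1 x.2)] at h6
    exact h6
  · intro q hq x y hxy
    obtain ⟨-, -, -, -, h5⟩ := h2 V G R Z hub hC K KZ z z' hK (pq KZ p q) hq
    rw [UU_eq] at h5
    obtain ⟨u, hu, hu1, hu2⟩ := h5 x.1 x.2 y.1 y.2 (fun h => hxy (Subtype.ext h))
    rw [dlt_eq q (hz x.1 x.2), pq_out (hz x.1 x.2), pq_out (hz' x.1 x.2)] at hu2
    refine ⟨⟨u, hu⟩, fun w hwx hwy => ?_, hu2⟩
    exact (hcc q w.1 w.2 ⟨u, hu⟩).1 (hu1 w.1 w.2 (fun h => hwx (Subtype.ext h))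
      (fun h => hwy (Subtype.ext h)))

end Pool.Agent.N423.DC.KAP

namespace Pool.Agent.N423.DC

theorem kap' (h1 : S_KL) (h2 : S_HH) (h3 : S_MGG) : S_KAP := by
  intro V _ _ G R Z hub hC K KZ z z' hK p hp
  exact KAP.main h1 h2 h3 G R Z hub hC K KZ z z' hK p hp

end Pool.Agent.N423.DC
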