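import Mathlib
import Pool.Agent.N423.DC.Stm

/-!
# The abstract counting lemma (helper596)
-/

set_option autoImplicit false
set_option linter.unusedSectionVars false

namespace Pool.Agent.N423.DC

open Matrix Finset Pool.Agent.H283R2.DR Pool.Agent.H789R5 Pool.Agent.N423.DE

namespace KL

variable {ι U : Type} [Fintype ι] [DecidableEq ι] [AddCommGroup U] [Module ℝ U]

/-- the functional `u ↦ v · D u` -/
def fn (v : Fin 3 → ℝ) (D : U →ₗ[ℝ] (Fin 3 → ℝ)) : U →ₗ[ℝ] ℝ where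
  toFun u := v ⬝ᵥ D u
  map_add' a b := by rw [map_add, dotProduct_add]
  map_smul' c a := by rw [map_smul, dotProduct_smul, smul_eq_mul, RingHom.id_apply, smul_eq_mul]

lemma fn_apply (v : Fin 3 → ℝ) (D : U →ₗ[ℝ] (Fin 3 → ℝ)) (u : U) : fn v D u = v ⬝ᵥ D u := rfl

/-- the subspace given by the constraints of the indices in `S` -/
def W (z z' : ι → Fin 3 → ℝ) (δ δ' : ι → (U →ₗ[ℝ] (Fin 3 → ℝ))) (q : ι → Fin 3 → ℝ)
    (S : Set ι) : Submodule ℝ U where
  carrier := {u | ∀ y ∈ S, cc z z' δ δ' q y u}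
  add_mem' := by
    intro a b ha hb y hy
    obtain ⟨h1, h2⟩ := ha y hy
    obtain ⟨h3, h4⟩ := hb y hy
    refine ⟨?_, ?_⟩
    · rw [map_add, dotProduct_add, h1, h3, add_zero]
    · rw [map_add, dotProduct_add, h2, h4, add_zero]
  zero_mem' := by
    intro y _
    refine ⟨?_, ?_⟩
    · rw [map_zero, dotProduct_zero]
    · rw [map_zero, dotProduct_zero]
  smul_mem' := by
    intro c a ha y hy
    obtain ⟨h1, h2⟩ := ha y hy
    refine ⟨?_, ?_⟩
    · rw [map_smul, dotProduct_smul, h1, smul_zero]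
    · rw [map_smul, dotProduct_smul, h2, smul_zero]

variable {z z' : ι → Fin 3 → ℝ} {δ δ' : ι → (U →ₗ[ℝ] (Fin 3 → ℝ))}

lemma mem_W {q : ι → Fin 3 → ℝ} {S : Set ι} {u : U} :
    u ∈ W z z' δ δ' q S ↔ ∀ y ∈ S, cc z z' δ δ' q y u := Iff.rfl

lemma cc_congr {q q' : ι → Fin 3 → ℝ} {y : ι} (h : q y = q' y) (u : U) :
    cc z z' δ δ' q y u ↔ cc z z' δ δ' q' y u := by
  unfold cc
  rw [h]

lemma W_congr {q q' : ι → Fin 3 → ℝ} {S : Set ι} (h : ∀ y ∈ S, q y = q' y) :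
    W z z' δ δ' q S = W z z' δ δ' q' S := by
  ext u
  rw [mem_W, mem_W]
  exact forall₂_congr fun y hy => cc_congr (h y hy) u

/-- the hypotheses -/
structure Hyp (z z' : ι → Fin 3 → ℝ) (δ δ' : ι → (U →ₗ[ℝ] (Fin 3 → ℝ)))
    (g : (ι → Fin 3 → ℝ) → Prop) : Prop where
  good : TA.Good g
  h1 : ∀ q, g q → ∃ u, u ≠ 0 ∧ ∀ x, cc z z' δ δ' q x u
  h2 : ∀ q, g q → ∀ u u', (∀ x, cc z z' δ δ' q x u) → (∀ x, cc z z' δ δ' q x u') → u ≠ 0 →
    ∃ c : ℝ, u' = c • u
  h3 : ∀ q, g q → ∀ x, Module.finrank ℝ (W z z' δ δ' q {x}ᶜ) ≤ 2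
  h4 : ∀ q, g q → ∀ u, u ≠ 0 → (∀ x, cc z z' δ δ' q x u) → ∀ x, δ x u ≠ 0 ∧ δ' x u ≠ 0
  h5 : ∀ q, g q → ∀ x y, x ≠ y → ∃ u, (∀ w, w ≠ x → w ≠ y → cc z z' δ δ' q w u) ∧
    (z x - z' x) ⬝ᵥ δ x u ≠ 0

variable {g : (ι → Fin 3 → ℝ) → Prop}

lemma dot_self_ne {v : Fin 3 → ℝ} (h : v ≠ 0) : v ⬝ᵥ v ≠ 0 := by
  intro h0
  exact h (dotProduct_self_eq_zero.1 h0)

/-- a solution of the constraints of all indices except `x`, with vanishing `δ x u`, `δ' x u`,
vanishes -/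
lemma zero_of (H : Hyp z z' δ δ' g) {q : ι → Fin 3 → ℝ} (hq : g q) {x : ι} {u : U}
    (hu : u ∈ W z z' δ δ' q {x}ᶜ) (h1 : δ x u = 0) (h2 : δ' x u = 0) : u = 0 := by
  by_contra hne
  refine (H.h4 q hq u hne ?_ x).1 h1
  intro y
  by_cases hyx : y = x
  · subst hyx
    refine ⟨?_, ?_⟩
    · rw [h1, dotProduct_zero]
    · rw [h2, dotProduct_zero]
  · exact hu y hyx

variable [FiniteDimensional ℝ U]

/-- Step 1 -/
lemma step1 (H : Hyp z z' δ δ' g) {q : ι → Fin 3 → ℝ} (hq : g q) (x : ι) (y : Fin 3 → ℝ) :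
    ∃ u : W z z' δ δ' q {x}ᶜ, u ≠ 0 ∧ (y - z x) ⬝ᵥ δ x u = 0 ∧ (y - z' x) ⬝ᵥ δ' x u = 0 := by
  by_contra hcon
  push Not at hcon
  set X := W z z' δ δ' q {x}ᶜ with hX
  set F : X →ₗ[ℝ] ℝ × ℝ := ((fn (y - z x) (δ x)).prod (fn (y - z' x) (δ' x))).comp X.subtype with hF
  set Gm : X →ₗ[ℝ] ℝ × ℝ := ((fn (y - q x) (δ x)).prod (fn (y - q x) (δ' x))).comp X.subtype
    with hGm
  have hFapp : ∀ u : X, F u = ((y - z x) ⬝ᵥ δ x u, (y - z' x) ⬝ᵥ δ' x u) := fun u => rfl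
  have hGapp : ∀ u : X, Gm u = ((y - q x) ⬝ᵥ δ x u, (y - q x) ⬝ᵥ δ' x u) := fun u => rfl
  have hinj : Function.Injective F := by
    rw [injective_iff_map_eq_zero]
    intro u hu
    by_contra hne
    rw [hFapp, Prod.mk_eq_zero] at hu
    exact hcon u hne hu.1 hu.2
  have hf1 := TA.inj_good F Gm hinj
  set q1 : ι → Fin 3 → ℝ := Function.update q x y with hq1
  have hf2 := H.good q q1 hq
  have hf3 : {t : ℝ | ¬ g (q + (1 + t) • (q1 - q))}.Finite := by
    have : {t : ℝ | ¬ g (q + (1 + t) • (q1 - q))} =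
        (fun t : ℝ => 1 + t) ⁻¹' {s : ℝ | ¬ g (q + s • (q1 - q))} := rfl
    rw [this]
    exact hf2.preimage (add_right_injective (1 : ℝ)).injOn
  obtain ⟨t, ht⟩ := ((hf1.union hf3).infinite_compl (α := ℝ)).nonempty
  rw [Set.mem_compl_iff, Set.mem_union, not_or, Set.mem_ofPred_eq, Set.mem_ofPred_eq, not_not,
    not_not] at ht
  obtain ⟨ht1, ht2⟩ := ht
  obtain ⟨u, hu0, hu⟩ := H.h1 _ ht2
  have e1 : ∀ w, w ≠ x → (q + (1 + t) • (q1 - q)) w = q w := by
    intro w hw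
    rw [Pi.add_apply, Pi.smul_apply, Pi.sub_apply, hq1, Function.update_of_ne hw, sub_self,
      smul_zero, add_zero]
  have e2 : (q + (1 + t) • (q1 - q)) x = y + t • (y - q x) := by
    rw [Pi.add_apply, Pi.smul_apply, Pi.sub_apply, hq1, Function.update_self, add_smul, one_smul]
    abel
  have huX : u ∈ X := by
    intro w hw
    exact (cc_congr (e1 w hw) u).1 (hu w)
  have h3 : (F + t • Gm) ⟨u, huX⟩ = 0 := by
    obtain ⟨h4, h5⟩ := hu x
    rw [e2] at h4 h5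
    rw [LinearMap.add_apply, LinearMap.smul_apply, hFapp, hGapp, Prod.smul_mk, Prod.mk_add_mk,
      Prod.mk_eq_zero]
    refine ⟨?_, ?_⟩
    · rw [smul_eq_mul, ← smul_eq_mul, ← smul_dotProduct, ← add_dotProduct, ← h4]
      congr 1
      abel
    · rw [smul_eq_mul, ← smul_eq_mul, ← smul_dotProduct, ← add_dotProduct, ← h5]
      congr 1
      abel
  have h4 := ht1 (h3.trans (map_zero _).symm)
  apply hu0
  simpa using congrArg Subtype.val h4

/-- Step 2, dimension -/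
lemma step2_dim (H : Hyp z z' δ δ' g) {q : ι → Fin 3 → ℝ} (hq : g q) (x : ι) :
    Module.finrank ℝ (W z z' δ δ' q {x}ᶜ) = 2 := by
  refine le_antisymm (H.h3 q hq x) ?_
  by_contra hcon
  push Not at hcon
  obtain ⟨u0, hu0, hu⟩ := H.h1 q hq
  have hu0X : u0 ∈ W z z' δ δ' q {x}ᶜ := fun w _ => hu w
  have hle : Module.finrank ℝ (W z z' δ δ' q {x}ᶜ) ≤ 1 := by omega
  have hne := (H.h4 q hq u0 hu0 hu x).1
  obtain ⟨u, hune, h1, -⟩ := step1 H hq x (z x + δ x u0)
  have h2 : ∃ c : ℝ, (u : U) = c • u0 := by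
    have h3 := finrank_le_one_iff.1 hle
    obtain ⟨v, hv⟩ := h3
    obtain ⟨a, ha⟩ := hv ⟨u0, hu0X⟩
    obtain ⟨b, hb⟩ := hv u
    have ha' : a • (v : U) = u0 := congrArg Subtype.val ha
    have hb' : b • (v : U) = u := congrArg Subtype.val hb
    have ha0 : a ≠ 0 := by
      rintro rfl
      rw [zero_smul] at ha'
      exact hu0 ha'.symm
    refine ⟨b * a⁻¹, ?_⟩
    rw [← ha', ← hb', smul_smul, mul_assoc, inv_mul_cancel₀ ha0, mul_one]
  obtain ⟨c, hc⟩ := h2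
  have hc0 : c ≠ 0 := by
    rintro rfl
    rw [zero_smul] at hc
    exact hune (Subtype.ext hc)
  rw [hc, map_smul, dotProduct_smul, add_sub_cancel_left, smul_eq_mul] at h1
  rcases mul_eq_zero.1 h1 with h | h
  · exact hc0 h
  · exact dot_self_ne hne h

/-- Step 2 -/
lemma step2 (hD : S_DICH) (H : Hyp z z' δ δ' g) {q : ι → Fin 3 → ℝ} (hq : g q) (x : ι) :
    ∃ ρ : ℝ, ρ ≠ 0 ∧ ∀ u ∈ W z z' δ δ' q {x}ᶜ, δ' x u = ρ • δ x u ∧
      (z x - z' x) ⬝ᵥ δ x u = 0 := by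
  set X := W z z' δ δ' q {x}ᶜ with hX
  obtain ⟨u0, hu0, hu⟩ := H.h1 q hq
  have hu0X : u0 ∈ X := fun w _ => hu w
  obtain ⟨ρ, hρ, h⟩ := hD X (step2_dim H hq x) (z x) (z' x) ((δ x).comp X.subtype)
    ((δ' x).comp X.subtype) (fun y => step1 H hq x y)
    (fun u h1 h2 => Subtype.ext (zero_of H hq u.2 h1 h2))
    (fun h0 => (H.h4 q hq u0 hu0 hu x).1 (LinearMap.congr_fun h0 ⟨u0, hu0X⟩))
    (fun h0 => (H.h4 q hq u0 hu0 hu x).2 (LinearMap.congr_fun h0 ⟨u0, hu0X⟩))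
  exact ⟨ρ, hρ, fun u hu => h ⟨u, hu⟩⟩

/-- Step 3 -/
lemma step3 (H : Hyp z z' δ δ' g) {q q' : ι → Fin 3 → ℝ} (hq : g q)
    (hq' : g q') {y : ι} (hqq : ∀ w, w ≠ y → q' w = q w) (x : ι) {ρ ρ' : ℝ}
    (hρ : ∀ u ∈ W z z' δ δ' q {x}ᶜ, δ' x u = ρ • δ x u ∧ (z x - z' x) ⬝ᵥ δ x u = 0)
    (hρ' : ∀ u ∈ W z z' δ δ' q' {x}ᶜ, δ' x u = ρ' • δ x u ∧ (z x - z' x) ⬝ᵥ δ x u = 0) :
    ρ' = ρ := by
  by_cases hxy : y = x
  · subst hxy
    have e : W z z' δ δ' q' {y}ᶜ = W z z' δ δ' q {y}ᶜ := W_congr fun w hw => hqq w hw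
    obtain ⟨u0, hu0, hu⟩ := H.h1 q hq
    have hu0X : u0 ∈ W z z' δ δ' q {y}ᶜ := fun w _ => hu w
    have h1 := (hρ u0 hu0X).1
    have h2 := (hρ' u0 (by rw [e]; exact hu0X)).1
    rw [h1] at h2
    have h3 : (ρ - ρ') • δ y u0 = 0 := by rw [sub_smul, h2, sub_self]
    rcases smul_eq_zero.1 h3 with h | h
    · linarith
    · exact absurd h (H.h4 q hq u0 hu0 hu y).1
  · by_contra hne
    set A := W z z' δ δ' q {x}ᶜ with hA
    set B := W z z' δ δ' q' {x}ᶜ with hB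
    set T := W z z' δ δ' q {x, y}ᶜ with hT
    have hTT : W z z' δ δ' q' {x, y}ᶜ = T := W_congr fun w hw => hqq w (by
      intro h
      exact hw (by rw [h]; simp))
    have hAT : A ≤ T := by
      intro u hu w hw
      exact hu w (by
        intro h
        rw [Set.mem_singleton_iff] at h
        exact hw (by rw [h]; simp))
    have hBT : B ≤ T := by
      rw [← hTT]
      intro u hu w hw
      exact hu w (by
        intro h
        rw [Set.mem_singleton_iff] at h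
        exact hw (by rw [h]; simp))
    have hAB : A ⊓ B = ⊥ := by
      rw [eq_bot_iff]
      rintro u ⟨huA, huB⟩
      rw [Submodule.mem_bot]
      have h1 := (hρ u huA).1
      have h2 := (hρ' u huB).1
      have h3 : (ρ - ρ') • δ x u = 0 := by rw [sub_smul, ← h1, ← h2, sub_self]
      have h4 : δ x u = 0 := by
        rcases smul_eq_zero.1 h3 with h | h
        · exact absurd (by linarith) hne
        · exact h
      exact zero_of H hq huA h4 (by rw [h1, h4, smul_zero])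
    have hT4 : Module.finrank ℝ T ≤ 4 := by
      set P : T →ₗ[ℝ] ℝ × ℝ :=
        ((fn (q y - z y) (δ y)).prod (fn (q y - z' y) (δ' y))).comp T.subtype with hP
      have h1 := LinearMap.finrank_range_add_finrank_ker P
      have h2 : Module.finrank ℝ (LinearMap.range P) ≤ 2 := by
        refine (Submodule.finrank_le _).trans ?_
        rw [Module.finrank_prod, Module.finrank_self]
      have h3 : Module.finrank ℝ (LinearMap.ker P) ≤ 2 := by
        rw [← step2_dim H hq x, ← hA]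
        have hmem : ∀ u : LinearMap.ker P, (T.subtype.comp (LinearMap.ker P).subtype) u ∈ A := by
          rintro ⟨u, hu⟩ w hw
          change cc z z' δ δ' q w (u : U)
          by_cases hwy : w = y
          · rw [hwy]
            rw [LinearMap.mem_ker] at hu
            exact ⟨congrArg Prod.fst hu, congrArg Prod.snd hu⟩
          · exact u.2 w (by
              rw [Set.mem_compl_iff, Set.mem_insert_iff, Set.mem_singleton_iff, not_or]
              exact ⟨hw, hwy⟩)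
        refine LinearMap.finrank_le_finrank_of_injective (f := LinearMap.codRestrict A
          (T.subtype.comp (LinearMap.ker P).subtype) hmem) ?_
        intro u v huv
        have h4 := congrArg Subtype.val huv
        exact Subtype.ext (Subtype.ext h4)
      omega
    have hsup : A ⊔ B = T := by
      apply Submodule.eq_of_le_of_finrank_le (sup_le hAT hBT)
      have h1 := Submodule.finrank_sup_add_finrank_inf_eq A B
      rw [hAB, finrank_bot, step2_dim H hq x, step2_dim H hq' x] at h1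
      omega
    obtain ⟨u, hu1, hu2⟩ := H.h5 q hq x y (fun h => hxy h.symm)
    apply hu2
    have huT : u ∈ A ⊔ B := by
      rw [hsup]
      intro w hw
      rw [Set.mem_compl_iff, Set.mem_insert_iff, Set.mem_singleton_iff, not_or] at hw
      exact hu1 w hw.1 hw.2
    obtain ⟨a, ha, b, hb, rfl⟩ := Submodule.mem_sup.1 huT
    rw [map_add, dotProduct_add, (hρ a ha).2, (hρ' b hb).2, add_zero]

/-- the subspace of the conclusion -/
def UP (z z' : ι → Fin 3 → ℝ) (δ δ' : ι → (U →ₗ[ℝ] (Fin 3 → ℝ))) (ρ : ι → ℝ) :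
    Submodule ℝ U where
  carrier := {u | ∀ x, δ' x u = ρ x • δ x u ∧ (z x - z' x) ⬝ᵥ δ x u = 0}
  add_mem' := by
    intro a b ha hb x
    obtain ⟨h1, h2⟩ := ha x
    obtain ⟨h3, h4⟩ := hb x
    refine ⟨?_, ?_⟩
    · rw [map_add, map_add, h1, h3, smul_add]
    · rw [map_add, dotProduct_add, h2, h4, add_zero]
  zero_mem' := by
    intro x
    refine ⟨?_, ?_⟩
    · rw [map_zero, map_zero, smul_zero]
    · rw [map_zero, dotProduct_zero]
  smul_mem' := by
    intro c a ha x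
    obtain ⟨h1, h2⟩ := ha x
    refine ⟨?_, ?_⟩
    · rw [map_smul, map_smul, h1, smul_comm]
    · rw [map_smul, dotProduct_smul, h2, smul_zero]

/-- in `UP` both constraints are equivalent -/
lemma cc_iff {ρ : ι → ℝ} {u : U} (hu : u ∈ UP z z' δ δ' ρ) (q : ι → Fin 3 → ℝ) (x : ι) :
    cc z z' δ δ' q x u ↔ (q x - z x) ⬝ᵥ δ x u = 0 := by
  obtain ⟨h1, h2⟩ := hu x
  refine ⟨fun h => h.1, fun h => ⟨h, ?_⟩⟩
  have e : q x - z' x = (q x - z x) + (z x - z' x) := by abel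
  rw [h1, e, dotProduct_smul, add_dotProduct, h, h2, add_zero, smul_zero]

/-- Step 4 -/
lemma step4 (H : Hyp z z' δ δ' g) {q0 : ι → Fin 3 → ℝ} (hq0 : g q0) {ρ : ι → ℝ}
    (hsol : ∀ q, g q → (∃ y, ∀ w, w ≠ y → q w = q0 w) → ∀ u, (∀ x, cc z z' δ δ' q x u) →
      u ∈ UP z z' δ δ' ρ) (hne : Nonempty ι) :
    Module.finrank ℝ (UP z z' δ δ' ρ) = Fintype.card ι + 1 := by
  obtain ⟨y0⟩ := hne
  set f : UP z z' δ δ' ρ →ₗ[ℝ] (ι → ℝ) :=
    (LinearMap.pi fun x => fn (q0 x - z x) (δ x)).comp (UP z z' δ δ' ρ).subtype with hf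
  have hfapp : ∀ (u : UP z z' δ δ' ρ) (x : ι), f u x = (q0 x - z x) ⬝ᵥ δ x u := fun u x => rfl
  obtain ⟨u0, hu0, hu⟩ := H.h1 q0 hq0
  have hker : ∀ u : UP z z' δ δ' ρ, f u = 0 ↔ ∀ x, cc z z' δ δ' q0 x (u : U) := by
    intro u
    constructor
    · intro h x
      rw [cc_iff u.2, ← hfapp, h]
      rfl
    · intro h
      funext x
      rw [hfapp]
      exact (h x).1
  have hu0UP : u0 ∈ UP z z' δ δ' ρ := hsol q0 hq0 ⟨y0, fun _ _ => rfl⟩ u0 hu
  have hk1 : Module.finrank ℝ (LinearMap.ker f) = 1 := by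
    rw [finrank_eq_one_iff']
    refine ⟨⟨⟨u0, hu0UP⟩, LinearMap.mem_ker.2 ((hker _).2 hu)⟩, ?_, ?_⟩
    · intro h
      have h1 := congrArg Subtype.val h
      exact hu0 (congrArg Subtype.val h1)
    · rintro ⟨u, huk⟩
      obtain ⟨c, hc⟩ := H.h2 q0 hq0 u0 u hu ((hker u).1 (LinearMap.mem_ker.1 huk)) hu0
      exact ⟨c, Subtype.ext (Subtype.ext hc.symm)⟩
  have hsurj : LinearMap.range f = ⊤ := by
    have key : ∀ x : ι, ∃ u : UP z z' δ δ' ρ, f u x ≠ 0 ∧ ∀ y, y ≠ x → f u y = 0 := by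
      intro x
      by_contra hcon
      push Not at hcon
      have hall : ∀ u : UP z z' δ δ' ρ, (∀ y, y ≠ x → f u y = 0) → f u x = 0 := by
        intro u hu
        by_contra h
        obtain ⟨y, hy1, hy2⟩ := hcon u h
        exact hy2 (hu y hy1)
      set d := δ x u0 with hd
      have hd0 : d ≠ 0 := (H.h4 q0 hq0 u0 hu0 hu x).1
      set q1 : ι → Fin 3 → ℝ := Function.update q0 x (q0 x + d) with hq1
      have hfin := (H.good q0 q1 hq0).union (Set.finite_singleton (0 : ℝ))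
      obtain ⟨t, ht⟩ := (hfin.infinite_compl (α := ℝ)).nonempty
      rw [Set.mem_compl_iff, Set.mem_union, not_or, Set.mem_ofPred_eq, not_not,
        Set.mem_singleton_iff] at ht
      obtain ⟨ht1, ht2⟩ := ht
      have e1 : ∀ w, w ≠ x → (q0 + t • (q1 - q0)) w = q0 w := by
        intro w hw
        rw [Pi.add_apply, Pi.smul_apply, Pi.sub_apply, hq1, Function.update_of_ne hw, sub_self,
          smul_zero, add_zero]
      have e2 : (q0 + t • (q1 - q0)) x = q0 x + t • d := by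
        rw [Pi.add_apply, Pi.smul_apply, Pi.sub_apply, hq1, Function.update_self,
          add_sub_cancel_left]
      obtain ⟨u, hu1, hu2⟩ := H.h1 _ ht1
      have huUP := hsol _ ht1 ⟨x, e1⟩ u hu2
      have h3 : f ⟨u, huUP⟩ = 0 := by
        funext w
        by_cases hw : w = x
        · rw [hw]
          apply hall
          intro y hy
          rw [hfapp]
          exact ((cc_congr (e1 y hy) u).1 (hu2 y)).1
        · rw [hfapp]
          exact ((cc_congr (e1 w hw) u).1 (hu2 w)).1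
      obtain ⟨c, hc⟩ := H.h2 q0 hq0 u0 u hu ((hker ⟨u, huUP⟩).1 h3) hu0
      have hc0 : c ≠ 0 := by
        rintro rfl
        rw [zero_smul] at hc
        exact hu1 hc
      have h4 := (hu2 x).1
      rw [e2, hc, map_smul, dotProduct_smul, smul_eq_mul] at h4
      rcases mul_eq_zero.1 h4 with h | h
      · exact hc0 h
      · have e3 : q0 x + t • d - z x = (q0 x - z x) + t • d := by abel
        rw [e3, add_dotProduct, (hu x).1, zero_add, smul_dotProduct, smul_eq_mul] at h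
        rcases mul_eq_zero.1 h with h | h
        · exact ht2 h
        · exact dot_self_ne hd0 h
    rw [eq_top_iff]
    intro v _
    choose e he1 he2 using key
    refine ⟨∑ x, (v x / f (e x) x) • e x, ?_⟩
    rw [map_sum]
    funext y
    rw [Finset.sum_apply, Finset.sum_eq_single y]
    · rw [map_smul, Pi.smul_apply, smul_eq_mul, div_mul_cancel₀ _ (he1 y)]
    · intro x _ hxy
      rw [map_smul, Pi.smul_apply, he2 x y hxy.symm, smul_zero]
    · intro h
      exact absurd (Finset.mem_univ y) h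
  have h1 := LinearMap.finrank_range_add_finrank_ker f
  rw [hsurj, finrank_top, Module.finrank_fintype_fun_eq_card, hk1] at h1
  exact h1.symm

end KL

theorem kl (h : S_DICH) : S_KL := by
  intro ι _ _ U _ _ _ z z' δ δ' g hne hG ⟨q0, hq0⟩ h1 h2 h3 h4 h5
  have H : KL.Hyp z z' δ δ' g := by
    refine ⟨hG, h1, h2, ?_, h4, h5⟩
    intro q hq x
    have e : Submodule.span ℝ {u : U | ∀ y, y ≠ x → cc z z' δ δ' q y u} =
        KL.W z z' δ δ' q {x}ᶜ := Submodule.span_eq (KL.W z z' δ δ' q {x}ᶜ)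
    rw [← e]
    exact h3 q hq x
  choose! ρ hρ0 hρ using fun (q : ι → Fin 3 → ℝ) (hq : g q) (x : ι) => KL.step2 h H hq x
  refine ⟨ρ q0, fun x => hρ0 q0 hq0 x, ?_⟩
  have e : Submodule.span ℝ {u : U | ∀ x, δ' x u = ρ q0 x • δ x u ∧
      (z x - z' x) ⬝ᵥ δ x u = 0} = KL.UP z z' δ δ' (ρ q0) :=
    Submodule.span_eq (KL.UP z z' δ δ' (ρ q0))
  rw [e]
  apply KL.step4 H hq0 _ hne
  rintro q hq ⟨y, hy⟩ u hu x
  have h6 : ρ q x = ρ q0 x := KL.step3 H hq0 hq hy x (hρ q0 hq0 x) (hρ q hq x)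
  rw [← h6]
  exact hρ q hq x u (fun w _ => hu w)

end Pool.Agent.N423.DC
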