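import Mathlib
import Pool.Agent.N423.DC.Stm

/-!
# Rank bounds in a matroid in which the complete graphs with five vertices are circuits

`kr : S_KR` and `span' : S_SPAN` (co-author: helper433).
-/

set_option autoImplicit false
set_option linter.unusedSectionVars false

namespace Pool.Agent.N423.DC

open Matrix Finset Pool.Agent.H283R2.DR Pool.Agent.H789R5 Pool.Agent.N423.DE

namespace KR

variable {V : Type} [Fintype V] [DecidableEq V] {M : Matroid (Sym2 V)}

theorem mem_pairs {A : Finset V} {a b : V} : s(a, b) ∈ pairs A ↔ a ≠ b ∧ a ∈ A ∧ b ∈ A := by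
  unfold pairs
  simp only [Set.mem_setOf_eq, Sym2.mk_isDiag_iff, Sym2.mem_iff, forall_eq_or_imp, forall_eq, ne_eq]

/-- the edge between two points with three common completely joined neighbours is in the closure -/
theorem kc (hM : K5C M) {T : Finset V} (hT : T.card = 3) {x y : V} (hxy : x ≠ y) (hx : x ∉ T)
    (hy : y ∉ T) {S : Set (Sym2 V)} (h1 : pairs T ⊆ M.closure S)
    (h2 : ∀ t ∈ T, s(x, t) ∈ M.closure S) (h3 : ∀ t ∈ T, s(y, t) ∈ M.closure S) :
    s(x, y) ∈ M.closure S := by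
  have hA : (insert x (insert y T)).card = 5 := by
    rw [Finset.card_insert_of_notMem, Finset.card_insert_of_notMem hy, hT]
    rw [Finset.mem_insert]
    rintro (h | h)
    · exact hxy h
    · exact hx h
  have hmem : s(x, y) ∈ pairs (insert x (insert y T)) := by
    rw [mem_pairs]
    exact ⟨hxy, Finset.mem_insert_self _ _,
      Finset.mem_insert_of_mem (Finset.mem_insert_self _ _)⟩
  have h4 := (hM.2 _ hA).mem_closure_sdiff_singleton_of_mem hmem
  refine M.closure_subset_closure_of_subset_closure ?_ h4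
  intro e he
  induction e using Sym2.ind with
  | _ a b =>
    obtain ⟨he1, he2⟩ := he
    rw [mem_pairs] at he1
    obtain ⟨hab, ha, hb⟩ := he1
    rw [Set.mem_singleton_iff] at he2
    simp only [Finset.mem_insert] at ha hb
    rcases ha with ha | ha | ha <;> rcases hb with hb | hb | hb
    · exact absurd (ha.trans hb.symm) hab
    · exact absurd (by rw [ha, hb]) he2
    · rw [ha]; exact h2 b hb
    · exact absurd (by rw [ha, hb]; exact Sym2.eq_swap) he2
    · exact absurd (ha.trans hb.symm) hab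
    · rw [ha]; exact h3 b hb
    · rw [hb, Sym2.eq_swap]; exact h2 a ha
    · rw [hb, Sym2.eq_swap]; exact h3 a ha
    · exact h1 (mem_pairs.2 ⟨hab, ha, hb⟩)

/-- a point joined to three points of a complete graph in the closure -/
theorem grow (hM : K5C M) {A T : Finset V} (hTA : T ⊆ A) (hT : T.card = 3) {v : V} (hv : v ∉ A)
    {S : Set (Sym2 V)} (h1 : pairs A ⊆ M.closure S) (h2 : ∀ t ∈ T, s(v, t) ∈ M.closure S) :
    pairs (insert v A) ⊆ M.closure S := by
  have key : ∀ b ∈ A, s(v, b) ∈ M.closure S := by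
    intro b hb
    by_cases hbT : b ∈ T
    · exact h2 b hbT
    · have hvb : v ≠ b := fun h => hv (h ▸ hb)
      refine kc hM hT hvb (fun h => hv (hTA h)) hbT ?_ h2 ?_
      · intro e he
        exact h1 ⟨he.1, fun x hx => hTA (he.2 x hx)⟩
      · intro t ht
        exact h1 (mem_pairs.2 ⟨fun h => hbT (h ▸ ht), hb, hTA ht⟩)
  intro e he
  induction e using Sym2.ind with
  | _ a b =>
    rw [mem_pairs] at he
    obtain ⟨hab, ha, hb⟩ := he
    rw [Finset.mem_insert] at ha hb
    rcases ha with ha | ha <;> rcases hb with hb | hb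
    · exact absurd (ha.trans hb.symm) hab
    · rw [ha]; exact key b hb
    · rw [hb, Sym2.eq_swap]; exact key a ha
    · exact h1 (mem_pairs.2 ⟨hab, ha, hb⟩)

theorem bnd {W B : Set (Sym2 V)} {X : Finset (Sym2 V)} {k : ℕ} (hX : X.card ≤ k)
    (h : W ⊆ M.closure (B ∪ (X : Set (Sym2 V)))) : M.eRk W ≤ M.eRk B + (k : ℕ∞) := by
  calc M.eRk W ≤ M.eRk (M.closure (B ∪ (X : Set (Sym2 V)))) := M.eRk_mono h
    _ = M.eRk (B ∪ (X : Set (Sym2 V))) := M.eRk_closure_eq _
    _ ≤ M.eRk B + (X : Set (Sym2 V)).encard := M.eRk_union_le_eRk_add_encard _ _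
    _ ≤ M.eRk B + (k : ℕ∞) := by
      gcongr
      rw [Set.encard_coe_eq_coe_finsetCard]
      exact_mod_cast hX

theorem mem_cl (hM : K5C M) {S : Set (Sym2 V)} {a b : V} (hab : a ≠ b) (h : s(a, b) ∈ S) :
    s(a, b) ∈ M.closure S :=
  M.mem_closure_of_mem' h (hM.1 _ (by rw [Sym2.mk_isDiag_iff]; exact hab))

theorem kr_aux (hM : K5C M) : ∀ n : ℕ, ∀ A : Finset V, A.card = n + 3 →
    M.eRk (pairs A) + 6 ≤ ((3 * A.card : ℕ) : ℕ∞) := by
  intro n
  induction n with
  | zero =>
    intro A hA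
    have hA3 : A.card = 3 := hA
    obtain ⟨a, b, c, hab, hac, hbc, hAe⟩ := Finset.card_eq_three.1 hA3
    have h1 : pairs A ⊆ (({s(a, b), s(a, c), s(b, c)} : Finset (Sym2 V)) : Set (Sym2 V)) := by
      intro e he
      induction e using Sym2.ind with
      | _ x y =>
        rw [mem_pairs] at he
        obtain ⟨hxy, hx, hy⟩ := he
        rw [hAe] at hx hy
        simp only [Finset.mem_insert, Finset.mem_singleton] at hx hy
        simp only [Finset.coe_insert, Finset.coe_singleton, Set.mem_insert_iff,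
          Set.mem_singleton_iff, Sym2.eq_iff]
        rcases hx with hx | hx | hx <;> rcases hy with hy | hy | hy <;> subst hx <;> subst hy <;>
          simp_all
    have h2 : M.eRk (pairs A) ≤ 3 := by
      refine (M.eRk_mono h1).trans ((M.eRk_le_encard _).trans ?_)
      rw [Set.encard_coe_eq_coe_finsetCard]
      exact_mod_cast Finset.card_le_three
    rw [hA3]
    calc M.eRk (pairs A) + 6 ≤ 3 + 6 := by gcongr
      _ = ((3 * 3 : ℕ) : ℕ∞) := by norm_num
  | succ n ih =>
    intro A hA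
    obtain ⟨v, hv⟩ : A.Nonempty := by rw [← Finset.card_pos]; omega
    have hA' : (A.erase v).card = n + 3 := by rw [Finset.card_erase_of_mem hv, hA]; rfl
    obtain ⟨T, hTA, hT⟩ := Finset.exists_subset_card_eq (s := A.erase v) (n := 3) (by omega)
    have h1 : pairs (insert v (A.erase v)) ⊆ M.closure (pairs (A.erase v) ∪
        ((T.image (fun t => s(v, t)) : Finset (Sym2 V)) : Set (Sym2 V))) := by
      refine grow hM hTA hT (Finset.notMem_erase v A) ?_ ?_
      · intro e he
        exact M.mem_closure_of_mem' (Or.inl he) (hM.1 _ he.1)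
      · intro t ht
        refine mem_cl hM ?_ (Or.inr ?_)
        · rintro rfl
          exact Finset.notMem_erase v A (hTA ht)
        · rw [Finset.mem_coe]
          exact Finset.mem_image_of_mem _ ht
    rw [Finset.insert_erase hv] at h1
    have h2 := bnd (k := 3) (Finset.card_image_le.trans hT.le) h1
    have h3 := ih _ hA'
    calc M.eRk (pairs A) + 6 ≤ (M.eRk (pairs (A.erase v)) + ((3 : ℕ) : ℕ∞)) + 6 := by gcongr
      _ = (M.eRk (pairs (A.erase v)) + 6) + ((3 : ℕ) : ℕ∞) := by ring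
      _ ≤ ((3 * (A.erase v).card : ℕ) : ℕ∞) + ((3 : ℕ) : ℕ∞) := by gcongr
      _ = ((3 * A.card : ℕ) : ℕ∞) := by
        rw [hA', hA, ← Nat.cast_add]
        congr 1

/-- from `R` to `R ∪ Z` -/
theorem grow_all (hM : K5C M) {R : Finset V} {S : Set (Sym2 V)} (hR : pairs R ⊆ M.closure S) :
    ∀ Z : Finset V, (∀ x ∈ R, x ∉ Z) →
    (∀ v ∈ Z, ∃ T ⊆ R, T.card = 3 ∧ ∀ t ∈ T, s(v, t) ∈ M.closure S) →
    pairs (R ∪ Z) ⊆ M.closure S := by
  intro Z
  induction Z using Finset.induction_on with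
  | empty =>
    intro _ _
    rw [Finset.union_empty]
    exact hR
  | insert v Z hv ih =>
    intro hd h
    have h1 := ih (fun x hx hxZ => hd x hx (Finset.mem_insert_of_mem hxZ))
      (fun w hw => h w (Finset.mem_insert_of_mem hw))
    obtain ⟨T, hTR, hT, hTv⟩ := h v (Finset.mem_insert_self _ _)
    have e : R ∪ insert v Z = insert v (R ∪ Z) := by
      rw [Finset.union_insert]
    rw [e]
    refine grow hM (hTR.trans Finset.subset_union_left) hT ?_ h1 hTv
    rw [Finset.mem_union]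
    rintro (hvR | hvZ)
    · exact hd v hvR (Finset.mem_insert_self _ _)
    · exact hv hvZ

/-- two other hubs -/
theorem two (R Z : Finset V) (hub : V → V) (h : Hb R Z hub) : ∃ r1 r2 : V → V, ∀ v ∈ Z,
    r1 v ∈ R ∧ r2 v ∈ R ∧ r1 v ≠ hub v ∧ r2 v ≠ hub v ∧ r1 v ≠ r2 v := by
  have key : ∀ v : V, ∃ p : V × V, v ∈ Z → p.1 ∈ R ∧ p.2 ∈ R ∧ p.1 ≠ hub v ∧ p.2 ≠ hub v ∧
      p.1 ≠ p.2 := by
    intro v
    by_cases hv : v ∈ Z
    · have h1 : 1 < (R.erase (hub v)).card := by
        have := Finset.card_erase_of_mem (h.2.2 v hv)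
        have := h.2.1
        omega
      obtain ⟨a, ha, b, hb, hab⟩ := Finset.one_lt_card.1 h1
      rw [Finset.mem_erase] at ha hb
      exact ⟨(a, b), fun _ => ⟨ha.2, hb.2, ha.1, hb.1, hab⟩⟩
    · exact ⟨(v, v), fun h => absurd h hv⟩
  choose p hp using key
  exact ⟨fun v => (p v).1, fun v => (p v).2, hp⟩

theorem card3 {a b c : V} (h1 : a ≠ b) (h2 : a ≠ c) (h3 : b ≠ c) :
    ({a, b, c} : Finset V).card = 3 := by
  rw [Finset.card_eq_three]
  exact ⟨a, b, c, h1, h2, h3, rfl⟩

theorem base_R (hM : K5C M) {R Z : Finset V} {hub : V → V} {X : Set (Sym2 V)} :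
    pairs R ⊆ M.closure ((base R Z hub).edgeSet ∪ X) := by
  intro e he
  induction e using Sym2.ind with
  | _ a b =>
    rw [mem_pairs] at he
    refine mem_cl hM he.1 (Or.inl ?_)
    exact ⟨he.1, Or.inl he.2⟩

/-- the pairs from `Z` to `R` that are added -/
def XX (Z : Finset V) (r1 r2 : V → V) : Finset (Sym2 V) :=
  Z.biUnion fun v => {s(v, r1 v), s(v, r2 v)}

theorem card_XX (Z : Finset V) (r1 r2 : V → V) : (XX Z r1 r2).card ≤ 2 * Z.card := by
  rw [mul_comm]
  exact Finset.card_biUnion_le_card_mul _ _ _ fun v _ => Finset.card_le_two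

theorem span_sub (hM : K5C M) {R Z Z' : Finset V} {hub : V → V} (h : Hb R Z hub) (hZ' : Z' ⊆ Z)
    {r1 r2 : V → V} (hr : ∀ v ∈ Z,
      r1 v ∈ R ∧ r2 v ∈ R ∧ r1 v ≠ hub v ∧ r2 v ≠ hub v ∧ r1 v ≠ r2 v) {Y : Set (Sym2 V)}
    (hY : ((XX Z' r1 r2 : Finset (Sym2 V)) : Set (Sym2 V)) ⊆ Y) :
    pairs (R ∪ Z') ⊆ M.closure ((base R Z hub).edgeSet ∪ Y) := by
  refine grow_all hM (base_R hM) Z' (fun x hx hxZ => h.1 x hx (hZ' hxZ)) ?_
  intro v hv
  obtain ⟨ha, hb, hah, hbh, hab⟩ := hr v (hZ' hv)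
  have hne : ∀ r ∈ R, v ≠ r := fun r hrR hvr => h.1 r hrR (hvr ▸ hZ' hv)
  refine ⟨{hub v, r1 v, r2 v}, ?_, card3 hah.symm hbh.symm hab, ?_⟩
  · intro t ht
    simp only [Finset.mem_insert, Finset.mem_singleton] at ht
    rcases ht with rfl | rfl | rfl
    · exact h.2.2 v (hZ' hv)
    · exact ha
    · exact hb
  · intro t ht
    simp only [Finset.mem_insert, Finset.mem_singleton] at ht
    rcases ht with rfl | rfl | rfl
    · refine mem_cl hM (hne _ (h.2.2 v (hZ' hv))) (Or.inl ?_)
      exact ⟨hne _ (h.2.2 v (hZ' hv)), Or.inr (Or.inl ⟨hZ' hv, rfl⟩)⟩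
    · refine mem_cl hM (hne _ ha) (Or.inr (hY ?_))
      rw [Finset.mem_coe]
      exact Finset.mem_biUnion.2 ⟨v, hv, Finset.mem_insert_self _ _⟩
    · refine mem_cl hM (hne _ hb) (Or.inr (hY ?_))
      rw [Finset.mem_coe]
      exact Finset.mem_biUnion.2 ⟨v, hv, Finset.mem_insert_of_mem (Finset.mem_singleton_self _)⟩

/-- a dependent additional pair `v u` -/
theorem strict (hM : K5C M) {R Z : Finset V} {hub : V → V} (h : Hb R Z hub) {v u : V}
    (hv : v ∈ Z) (huv : v ≠ u) (hu : u ∈ R ∪ Z) (huh : u ≠ hub v)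
    (he : s(v, u) ∈ M.closure (base R Z hub).edgeSet) :
    M.eRk (pairs (R ∪ Z)) ≤ M.eRk (base R Z hub).edgeSet + ((2 * Z.card - 1 : ℕ) : ℕ∞) := by
  obtain ⟨r1, r2, hr⟩ := two R Z hub h
  obtain ⟨r, hrR, hrh, hru⟩ : ∃ r ∈ R, r ≠ hub v ∧ r ≠ u := by
    obtain ⟨ha, hb, hah, hbh, hab⟩ := hr v hv
    by_cases hau : r1 v = u
    · exact ⟨r2 v, hb, hbh, fun h => hab (hau.trans h.symm)⟩
    · exact ⟨r1 v, ha, hah, hau⟩
  have hvR : v ∉ R := fun hvR => h.1 v hvR hv
  have hne : ∀ r ∈ R, v ≠ r := fun r hrR hvr => hvR (hvr ▸ hrR)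
  have hZc : 0 < Z.card := Finset.card_pos.2 ⟨v, hv⟩
  refine bnd (X := insert s(v, r) (XX (Z.erase v) r1 r2)) ?_ ?_
  · have h1 := Finset.card_insert_le s(v, r) (XX (Z.erase v) r1 r2)
    have h2 := card_XX (Z.erase v) r1 r2
    rw [Finset.card_erase_of_mem hv] at h2
    omega
  · have h1 : pairs (R ∪ Z.erase v) ⊆ M.closure ((base R Z hub).edgeSet ∪
        ((insert s(v, r) (XX (Z.erase v) r1 r2) : Finset (Sym2 V)) : Set (Sym2 V))) := by
      refine span_sub hM h (Finset.erase_subset _ _) hr ?_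
      rw [Finset.coe_insert]
      exact Set.subset_insert _ _
    have e : R ∪ Z = insert v (R ∪ Z.erase v) := by
      rw [← Finset.union_insert, Finset.insert_erase hv]
    rw [e]
    have hTs : ({hub v, r, u} : Finset V) ⊆ R ∪ Z.erase v := by
      intro t ht
      simp only [Finset.mem_insert, Finset.mem_singleton] at ht
      rcases ht with rfl | rfl | rfl
      · exact Finset.mem_union_left _ (h.2.2 v hv)
      · exact Finset.mem_union_left _ hrR
      · rcases Finset.mem_union.1 hu with hu | hu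
        · exact Finset.mem_union_left _ hu
        · exact Finset.mem_union_right _ (Finset.mem_erase.2 ⟨huv.symm, hu⟩)
    refine grow hM hTs (card3 hrh.symm huh.symm hru) ?_ h1 ?_
    · rw [Finset.mem_union]
      rintro (h | h)
      · exact hvR h
      · exact Finset.notMem_erase v Z h
    · intro t ht
      simp only [Finset.mem_insert, Finset.mem_singleton] at ht
      rcases ht with rfl | rfl | rfl
      · refine mem_cl hM (hne _ (h.2.2 v hv)) (Or.inl ?_)
        exact ⟨hne _ (h.2.2 v hv), Or.inr (Or.inl ⟨hv, rfl⟩)⟩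
      · refine mem_cl hM (hne _ hrR) (Or.inr ?_)
        rw [Finset.mem_coe]
        exact Finset.mem_insert_self _ _
      · exact M.closure_subset_closure Set.subset_union_left he

end KR

open KR in
theorem kr : S_KR := by
  intro V _ _ M hM A hA
  exact kr_aux hM (A.card - 3) A (by omega)

open KR in
theorem span' : S_SPAN := by
  intro V _ _ M hM R Z hub h
  refine ⟨?_, ?_⟩
  · obtain ⟨r1, r2, hr⟩ := two R Z hub h
    exact bnd (X := XX Z r1 r2) (card_XX Z r1 r2)
      (span_sub hM h (Finset.Subset.refl _) hr (Set.Subset.refl _))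
  · intro hle e he heb hcl
    have hfin : M.eRk (base R Z hub).edgeSet ≠ ⊤ := by
      refine ne_top_of_le_ne_top ?_ (M.eRk_le_encard _)
      rw [Set.encard_ne_top_iff]
      exact Set.toFinite _
    have fin : ∀ v ∈ Z, ∀ u ∈ R ∪ Z, v ≠ u → u ≠ hub v →
        s(v, u) ∈ M.closure (base R Z hub).edgeSet → False := by
      intro v hv u hu hvu huh hc
      have h1 := hle.trans (strict hM h hv hvu hu huh hc)
      have h2 := (ENat.add_le_add_iff_left hfin).1 h1
      have h3 : 2 * Z.card ≤ 2 * Z.card - 1 := by exact_mod_cast h2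
      have h4 : 0 < Z.card := Finset.card_pos.2 ⟨v, hv⟩
      omega
    induction e using Sym2.ind with
    | _ a b =>
      rw [mem_pairs] at he
      obtain ⟨hab, ha, hb⟩ := he
      have heb' : ¬ ((a ∈ R ∧ b ∈ R) ∨ (a ∈ Z ∧ b = hub a) ∨ (b ∈ Z ∧ a = hub b)) :=
        fun h => heb ⟨hab, h⟩
      by_cases haZ : a ∈ Z
      · exact fin a haZ b hb hab (fun h => heb' (Or.inr (Or.inl ⟨haZ, h⟩))) hcl
      · by_cases hbZ : b ∈ Z
        · exact fin b hbZ a ha hab.symm (fun h => heb' (Or.inr (Or.inr ⟨hbZ, h⟩)))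
            (by rw [Sym2.eq_swap]; exact hcl)
        · refine heb' (Or.inl ⟨?_, ?_⟩)
          · exact (Finset.mem_union.1 ha).resolve_right haZ
          · exact (Finset.mem_union.1 hb).resolve_right hbZ

end Pool.Agent.N423.DC
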