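import Mathlib
import Pool.Agent.N423.DC.Stm

/-!
# Most generic placements are good, and one with `J3` exists (helper222)
-/

set_option autoImplicit false
set_option linter.unusedSectionVars false

namespace Pool.Agent.N423.DC

open Matrix Finset Pool.Agent.H283R2.DR Pool.Agent.H789R5 Pool.Agent.N423.DE

namespace MGG

open TA in
theorem mg_good (V : Type) [Fintype V] : Good (fun p : V → Fin 3 → ℝ => MG p) := by
  classical
  let ι : Type := SimpleGraph V ⊕ ((SimpleGraph V × Set V) ⊕ (Σ n : Fin (3 + 2), (Fin n → V)))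
  let P : ι → (V → Fin 3 → ℝ) → Prop := fun i p => match i with
      | Sum.inl G => ∀ p' : V → Fin 3 → ℝ, mo G p ≤ mo G p'
      | Sum.inr (Sum.inl a) => (∃ p' : V → Fin 3 → ℝ, RigidOn a.1 a.2 p') → RigidOn a.1 a.2 p
      | Sum.inr (Sum.inr a) => Function.Injective a.2 → AffineIndependent ℝ (fun i => p (a.2 i))
  have hMG : ∀ p : V → Fin 3 → ℝ, MG p ↔ ∀ i, P i p := by
    intro p
    constructor
    · intro hp
      rintro (G | ⟨H, U⟩ | ⟨n, x⟩)
      · exact hp.min G
      · rintro ⟨p', hp'⟩
        exact hp.rigid H U p' hp'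
      · intro hx
        exact hp.pos n x (by have := n.2; omega) hx
    · intro hp
      refine ⟨⟨?_, ?_⟩, ?_⟩
      · intro H U p' hp'
        exact hp (Sum.inr (Sum.inl (H, U))) ⟨p', hp'⟩
      · intro n x hn hx
        exact hp (Sum.inr (Sum.inr ⟨⟨n, by omega⟩, x⟩)) hx
      · intro G p'
        exact hp (Sum.inl G) p'
  have hG : ∀ i, Good (P i) := by
    rintro (G | ⟨H, U⟩ | ⟨n, x⟩)
    · exact min_good G
    · intro p0 p1 h0
      by_cases hex : ∃ p' : V → Fin 3 → ℝ, RigidOn H U p'
      · have h1 : InfRigid (H.induce U) (fun x : U => p0 x) :=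
          (rigidOn_iff_induce H U p0).1 (h0 hex)
        refine (infRigid_good (H.induce U) (fun x : U => p0 x) (fun x : U => p1 x) h1).subset ?_
        intro s hs
        rw [Set.mem_ofPred_eq] at hs ⊢
        intro hc
        apply hs
        intro _
        rw [rigidOn_iff_induce]
        exact hc
      · refine Set.finite_empty.subset ?_
        intro s hs
        exact absurd (fun h => absurd h hex) hs
    · intro p0 p1 h0
      by_cases hx : Function.Injective x
      · refine (affine_good x p0 p1 (h0 hx)).subset ?_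
        intro s hs
        rw [Set.mem_ofPred_eq] at hs ⊢
        intro hc
        apply hs
        intro _
        exact hc
      · refine Set.finite_empty.subset ?_
        intro s hs
        exact absurd (fun h => absurd h hx) hs
  intro p0 p1 h0
  have h0' := (hMG p0).1 h0
  have hfin : (⋃ i : ι, {s : ℝ | ¬ P i (p0 + s • (p1 - p0))}).Finite :=
    Set.finite_iUnion (fun i => hG i p0 p1 (h0' i))
  refine hfin.subset ?_
  intro s hs
  have hs' : ¬ MG (p0 + s • (p1 - p0)) := hs
  rw [hMG, not_forall] at hs'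
  exact Set.mem_iUnion.2 hs'

variable {V : Type}

/-- the linear map of the condition `J3` -/
noncomputable def LL (p : V → Fin 3 → ℝ) (r : V) (z z' : Fin 3 → V) :
    ((Fin 3 → ℝ) × (Fin 3 → ℝ)) →ₗ[ℝ] (Fin 3 → Fin 3 → Fin 3 → ℝ) where
  toFun x := fun i j => (x.1 i • (p (z i) - p r) + x.2 i • (p (z' i) - p r)) -
    (x.1 j • (p (z j) - p r) + x.2 j • (p (z' j) - p r))
  map_add' x y := by
    funext i j
    simp only [Prod.fst_add, Prod.snd_add, Pi.add_apply, add_smul]
    abel
  map_smul' c x := by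
    funext i j
    simp only [Prod.smul_fst, Prod.smul_snd, Pi.smul_apply, smul_eq_mul, RingHom.id_apply,
      mul_smul, smul_sub, smul_add]

theorem LL_apply (p : V → Fin 3 → ℝ) (r : V) (z z' : Fin 3 → V)
    (x : (Fin 3 → ℝ) × (Fin 3 → ℝ)) (i j : Fin 3) :
    LL p r z z' x i j = (x.1 i • (p (z i) - p r) + x.2 i • (p (z' i) - p r)) -
    (x.1 j • (p (z j) - p r) + x.2 j • (p (z' j) - p r)) := rfl

theorem LL_line (p0 p1 : V → Fin 3 → ℝ) (s : ℝ) (r : V) (z z' : Fin 3 → V) :
    LL (p0 + s • (p1 - p0)) r z z' = LL p0 r z z' + s • LL (p1 - p0) r z z' := by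
  refine LinearMap.ext fun x => ?_
  funext i j
  rw [LinearMap.add_apply, LinearMap.smul_apply, Pi.add_apply, Pi.add_apply, Pi.smul_apply,
    Pi.smul_apply, LL_apply, LL_apply, LL_apply]
  simp only [Pi.add_apply, Pi.smul_apply, Pi.sub_apply]
  module

/-- the condition for one configuration -/
def J3t (t : V × (Fin 3 → V) × (Fin 3 → V)) (p : V → Fin 3 → ℝ) : Prop :=
  Function.Injective (Sum.elim t.2.1 t.2.2) → (∀ i, t.2.1 i ≠ t.1 ∧ t.2.2 i ≠ t.1) →
    Function.Injective (LL p t.1 t.2.1 t.2.2)

theorem J3t_good (t : V × (Fin 3 → V) × (Fin 3 → V)) : TA.Good (J3t t) := by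
  intro p0 p1 h0
  by_cases h1 : Function.Injective (Sum.elim t.2.1 t.2.2)
  · by_cases h2 : ∀ i, t.2.1 i ≠ t.1 ∧ t.2.2 i ≠ t.1
    · refine (TA.inj_good _ (LL (p1 - p0) t.1 t.2.1 t.2.2) (h0 h1 h2)).subset ?_
      intro s hs
      rw [Set.mem_ofPred_eq] at hs ⊢
      intro hc
      apply hs
      intro _ _
      rw [LL_line]
      exact hc
    · refine Set.finite_empty.subset ?_
      intro s hs
      exact absurd (fun _ h => absurd h h2) hs
  · refine Set.finite_empty.subset ?_
    intro s hs
    exact absurd (fun h => absurd h h1) hs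

theorem J3t_sat (t : V × (Fin 3 → V) × (Fin 3 → V)) : ∃ p, J3t t p := by
  classical
  obtain ⟨r, z, z'⟩ := t
  refine ⟨fun x => ∑ i, ((if x = z i then Pi.single i 1 else 0) +
    (if x = z' i then Pi.single (i + 1) 1 else 0)), ?_⟩
  intro h1 h2
  simp only at h1 h2 ⊢
  set p : V → Fin 3 → ℝ := fun x => ∑ i, ((if x = z i then Pi.single i 1 else 0) +
    (if x = z' i then Pi.single (i + 1) 1 else 0)) with hp
  have hzz : ∀ i j, z i = z j ↔ i = j := by
    intro i j
    constructor
    · intro h
      have := @h1 (Sum.inl i) (Sum.inl j) h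
      exact Sum.inl.inj this
    · rintro rfl; rfl
  have hzz' : ∀ i j, z' i = z' j ↔ i = j := by
    intro i j
    constructor
    · intro h
      have := @h1 (Sum.inr i) (Sum.inr j) h
      exact Sum.inr.inj this
    · rintro rfl; rfl
  have hne : ∀ i j, z i ≠ z' j := by
    intro i j h
    have := @h1 (Sum.inl i) (Sum.inr j) h
    exact absurd this (by simp)
  have e1 : ∀ i, p (z i) = Pi.single i 1 := by
    intro i
    rw [hp]
    simp only [hzz, hne, if_false, add_zero]
    rw [Finset.sum_ite_eq Finset.univ i]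
    simp
  have e2 : ∀ i, p (z' i) = Pi.single (i + 1) 1 := by
    intro i
    rw [hp]
    simp only [hzz', (hne _ _).symm, if_false, zero_add]
    rw [Finset.sum_ite_eq Finset.univ i]
    simp
  have e3 : p r = 0 := by
    rw [hp]
    apply Finset.sum_eq_zero
    intro i _
    rw [if_neg (h2 i).1.symm, if_neg (h2 i).2.symm, add_zero]
  rw [injective_iff_map_eq_zero]
  rintro ⟨α, β⟩ hx
  have key : ∀ i j k, (α i • (Pi.single i 1 : Fin 3 → ℝ) + β i • (Pi.single (i + 1) 1 : Fin 3 → ℝ)) k =
      (α j • (Pi.single j 1 : Fin 3 → ℝ) + β j • (Pi.single (j + 1) 1 : Fin 3 → ℝ)) k := by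
    intro i j k
    have h := congrFun (congrFun (congrFun hx i) j) k
    rw [LL_apply] at h
    simp only [e1, e2, e3, sub_zero, Pi.zero_apply, Pi.sub_apply] at h
    exact sub_eq_zero.1 h
  have a1 := key 0 1 0
  have a2 := key 0 1 1
  have a3 := key 0 1 2
  have a4 := key 1 2 0
  have a5 := key 1 2 1
  have a6 := key 1 2 2
  simp at a1 a2 a3 a4 a5 a6
  have hα : α = 0 := by
    funext i
    fin_cases i <;> simp <;> linarith
  have hβ : β = 0 := by
    funext i
    fin_cases i <;> simp <;> linarith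
  rw [hα, hβ]
  rfl

end MGG

theorem mgg : S_MGG := fun V _ => MGG.mg_good V

theorem j3 : S_J3 := by
  classical
  intro V _
  obtain ⟨p, hp⟩ := TA.good_family (E := V → Fin 3 → ℝ)
    (ι := Option (V × (Fin 3 → V) × (Fin 3 → V)))
    (fun i p => match i with
      | none => MG p
      | some t => MGG.J3t t p)
    (by
      rintro (_ | t)
      · exact MGG.mg_good V
      · exact MGG.J3t_good t)
    (by
      rintro (_ | t)
      · exact exists_mg V 3
      · exact MGG.J3t_sat t)
  refine ⟨p, hp none, ?_⟩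
  intro r z z' h1 h2 α β h
  have hinj := hp (some (r, z, z')) h1 h2
  have h0 : MGG.LL p r z z' (α, β) = 0 := by
    funext i j
    rw [MGG.LL_apply]
    simp only [h i j, sub_self, Pi.zero_apply]
  have := (injective_iff_map_eq_zero _).1 hinj _ h0
  exact ⟨congrArg Prod.fst this, congrArg Prod.snd this⟩

end Pool.Agent.N423.DC
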