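import Mathlib
import Pool.Agent.N423.DC.Stm

/-!
# The affine dependency of five points
-/

set_option autoImplicit false

namespace Pool.Agent.N423.DC

namespace MU

/-- the rows `(P j, 1)` -/
noncomputable def row {n : ℕ} (P : Fin n → Fin 3 → ℝ) (j : Fin n) (c : Fin 4) : ℝ :=
  (Fin.snoc (P j) (1 : ℝ) : Fin 4 → ℝ) c

theorem row_last {n : ℕ} (P : Fin n → Fin 3 → ℝ) (j : Fin n) : row P j (Fin.last 3) = 1 := by
  simp only [row]
  exact Fin.snoc_last (α := fun _ => ℝ) (1 : ℝ) (P j)

theorem row_three {n : ℕ} (P : Fin n → Fin 3 → ℝ) (j : Fin n) : row P j 3 = 1 := row_last P j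

theorem row_castSucc {n : ℕ} (P : Fin n → Fin 3 → ℝ) (j : Fin n) (k : Fin 3) :
    row P j k.castSucc = P j k := by
  simp only [row]
  exact Fin.snoc_castSucc (α := fun _ => ℝ) (1 : ℝ) (P j) k

theorem mu_eq (P : Fin 5 → Fin 3 → ℝ) (i : Fin 5) :
    mu P i = (-1) ^ (i : ℕ) * (Matrix.of (row fun a : Fin 4 => P (i.succAbove a))).det := rfl

theorem col_sum (P : Fin 5 → Fin 3 → ℝ) (c : Fin 4) : ∑ i, mu P i * row P i c = 0 := by
  let B : Matrix (Fin 5) (Fin 5) ℝ := Matrix.of fun j => Fin.cons (row P j c) (row P j)
  have h0 : B.det = 0 := by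
    apply Matrix.det_zero_of_column_eq (i := 0) (j := c.succ) (Fin.succ_ne_zero c).symm
    intro k
    simp [B]
  rw [Matrix.det_succ_column_zero] at h0
  rw [← h0]
  apply Finset.sum_congr rfl
  intro i _
  have h1 : B.submatrix i.succAbove Fin.succ =
      Matrix.of (row fun a : Fin 4 => P (i.succAbove a)) := by
    ext a b
    simp [B, row]
  rw [h1, mu_eq]
  have h2 : B i 0 = row P i c := by simp [B]
  rw [h2]
  ring

theorem det_ne_zero_iff (Q : Fin 4 → Fin 3 → ℝ) :
    (Matrix.of (row Q)).det ≠ 0 ↔ AffineIndependent ℝ Q := by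
  have hv : ∀ v : Fin 4 → ℝ, Matrix.vecMul v (Matrix.of (row Q)) = 0 ↔
      (∑ a, v a = 0 ∧ ∑ a, v a • Q a = 0) := by
    intro v
    constructor
    · intro h
      constructor
      · have := congrFun h (Fin.last 3)
        simpa [Matrix.vecMul, dotProduct, row_three] using this
      · funext k
        have := congrFun h k.castSucc
        simpa [Matrix.vecMul, dotProduct, row_castSucc] using this
    · rintro ⟨h1, h2⟩
      funext c
      refine Fin.lastCases ?_ (fun k => ?_) c
      · simpa [Matrix.vecMul, dotProduct, row_three] using h1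
      · have := congrFun h2 k
        simpa [Matrix.vecMul, dotProduct, row_castSucc] using this
  rw [affineIndependent_iff]
  constructor
  · intro hdet s w hw1 hw2 e he
    classical
    by_contra hne
    apply hdet
    rw [← Matrix.exists_vecMul_eq_zero_iff]
    refine ⟨fun a => if a ∈ s then w a else 0, ?_, ?_⟩
    · intro h
      have := congrFun h e
      simp only [he, if_true, Pi.zero_apply] at this
      exact hne this
    · rw [hv]
      constructor
      · rw [Finset.sum_ite_mem, Finset.univ_inter]
        exact hw1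
      · have : ∀ a, (if a ∈ s then w a else 0) • Q a = if a ∈ s then w a • Q a else 0 := by
          intro a; split_ifs <;> simp
        simp_rw [this]
        rw [Finset.sum_ite_mem, Finset.univ_inter]
        exact hw2
  · intro h hdet
    rw [← Matrix.exists_vecMul_eq_zero_iff] at hdet
    obtain ⟨v, hv0, hv1⟩ := hdet
    obtain ⟨h1, h2⟩ := (hv v).1 hv1
    apply hv0
    funext e
    exact h Finset.univ v h1 h2 e (Finset.mem_univ e)

end MU

open MU in
theorem mu_spec : S_MU := by
  intro P
  refine ⟨?_, ?_, ?_⟩
  · have := col_sum P (Fin.last 3)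
    simpa [row_three] using this
  · funext k
    have := col_sum P k.castSucc
    simpa [row_castSucc] using this
  · intro i
    rw [← det_ne_zero_iff, mu_eq]
    have : ((-1 : ℝ)) ^ (i : ℕ) ≠ 0 := pow_ne_zero _ (by norm_num)
    constructor
    · intro h; exact right_ne_zero_of_mul h
    · intro h; exact mul_ne_zero this h

end Pool.Agent.N423.DC

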