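import Mathlib
import Pool.Agent.N423.DC.Stm

/-!
# Adjacent vertices of `Z` do not have the same other neighbours
-/

set_option autoImplicit false
set_option linter.unusedSectionVars false

namespace Pool.Agent.N423.DC

open Matrix Finset Pool.Agent.H283R2.DR Pool.Agent.H789R5 Pool.Agent.N423.DE

namespace MUT

variable {V : Type} [Fintype V] [DecidableEq V]

/-- barycentric coordinates -/
theorem exists_bary {p : V → Fin 3 → ℝ} (hp : MG p) {X : Finset V} (hX : X.card = 4) :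
    ∃ b : V → (Fin 3 → ℝ) → ℝ, (∀ x, Continuous (b x)) ∧ (∀ y, ∑ x ∈ X, b x y = 1) ∧
      (∀ y, ∑ x ∈ X, b x y • p x = y) := by
  let e : X ≃ Fin 4 := X.equivFinOfCardEq hX
  have h2 : AffineIndependent ℝ (fun i : Fin 4 => p (e.symm i : V)) :=
    hp.pos 4 (fun i => (e.symm i : V)) (by norm_num)
      (fun i j hij => e.symm.injective (Subtype.ext hij))
  have h3 : affineSpan ℝ (Set.range (fun i : Fin 4 => p (e.symm i : V))) = ⊤ :=
    (h2.affineSpan_eq_top_iff_card_eq_finrank_add_one).2 (by simp)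
  let B : AffineBasis (Fin 4) ℝ (Fin 3 → ℝ) := ⟨fun i => p (e.symm i : V), h2, h3⟩
  have hsum : ∀ {M : Type} [AddCommMonoid M] (f : Fin 4 → V → M),
      ∑ x ∈ X, (if h : x ∈ X then f (e ⟨x, h⟩) x else 0) = ∑ i : Fin 4, f i (e.symm i : V) := by
    intro M _ f
    rw [← Finset.sum_coe_sort X, ← Equiv.sum_comp e (fun i => f i (e.symm i : V))]
    refine Finset.sum_congr rfl fun x _ => ?_
    rw [dif_pos x.2, Equiv.symm_apply_apply]
  refine ⟨fun x y => if h : x ∈ X then B.coord (e ⟨x, h⟩) y else 0, fun x => ?_, fun y => ?_,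
    fun y => ?_⟩
  · by_cases hx : x ∈ X
    · have : (fun y => if h : x ∈ X then B.coord (e ⟨x, h⟩) y else 0) =
          fun y => B.coord (e ⟨x, hx⟩) y := by
        funext y; rw [dif_pos hx]
      show Continuous (fun y => if h : x ∈ X then B.coord (e ⟨x, h⟩) y else 0)
      rw [this]
      exact (B.coord (e ⟨x, hx⟩)).continuous_of_finiteDimensional
    · have : (fun y => if h : x ∈ X then B.coord (e ⟨x, h⟩) y else 0) = fun _ => (0 : ℝ) := by
        funext y; rw [dif_neg hx]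
      show Continuous (fun y => if h : x ∈ X then B.coord (e ⟨x, h⟩) y else 0)
      rw [this]
      exact continuous_const
  · rw [hsum (fun i _ => B.coord i y)]
    exact B.sum_coord_apply_eq_one y
  · have h4 : ∀ x ∈ X, (if h : x ∈ X then B.coord (e ⟨x, h⟩) y else 0) • p x =
        if h : x ∈ X then B.coord (e ⟨x, h⟩) y • p x else 0 := by
      intro x hx
      rw [dif_pos hx, dif_pos hx]
    rw [Finset.sum_congr rfl h4, hsum (fun i x => B.coord i y • p x)]
    exact B.linear_combination_coord_eq_self y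

theorem bary_uniq {p : V → Fin 3 → ℝ} (hp : MG p) {X : Finset V} (hX : X.card = 4)
    {b : V → (Fin 3 → ℝ) → ℝ} (hb1 : ∀ y, ∑ x ∈ X, b x y = 1)
    (hb2 : ∀ y, ∑ x ∈ X, b x y • p x = y) {w : V → ℝ} {s : ℝ} {y : Fin 3 → ℝ}
    (h1 : ∑ x ∈ X, w x = s) (h2 : ∑ x ∈ X, w x • p x = s • y) : ∀ x ∈ X, w x = s * b x y := by
  intro x hx
  have := pos_finset hp (S := X) (by omega) (fun x => w x - s * b x y)
    (by rw [Finset.sum_sub_distrib, h1, ← Finset.mul_sum, hb1, mul_one, sub_self])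
    (by
      have : ∀ x ∈ X, (w x - s * b x y) • p x = w x • p x - s • (b x y • p x) := by
        intro x _
        rw [sub_smul, mul_smul]
      rw [Finset.sum_congr rfl this, Finset.sum_sub_distrib, h2, ← Finset.smul_sum, hb2,
        sub_self]) x hx
  linarith

theorem bary_pt {p : V → Fin 3 → ℝ} (hp : MG p) {X : Finset V} (hX : X.card = 4)
    {b : V → (Fin 3 → ℝ) → ℝ} (hb1 : ∀ y, ∑ x ∈ X, b x y = 1)
    (hb2 : ∀ y, ∑ x ∈ X, b x y • p x = y) {x0 : V} (hx0 : x0 ∈ X) :
    ∀ x ∈ X, b x (p x0) = if x = x0 then 1 else 0 := by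
  intro x hx
  have := bary_uniq hp hX hb1 hb2 (w := fun x => if x = x0 then 1 else 0) (s := 1) (y := p x0)
    (by rw [Finset.sum_ite_eq' X x0 (fun _ => (1 : ℝ)), if_pos hx0])
    (by
      simp only [ite_smul, one_smul, zero_smul]
      rw [Finset.sum_ite_eq' X x0 p, if_pos hx0]) x hx
  simp only [one_mul] at this
  exact this.symm

theorem nb_sum {G : SimpleGraph V} {Z : Finset V} {en : V → Fin 5 → V} (hE : Enum G Z en)
    {p : V → Fin 3 → ℝ} {v : V} (hv : v ∈ Z) {M : Type} [AddCommGroup M] [Module ℝ M]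
    (f : V → M) :
    ∑ u ∈ nb G v, kap en p v u • f u = ∑ i, mu (fun j => p (en v j)) i • f (en v i) := by
  obtain ⟨hinj, hadj⟩ := hE v hv
  have h1 : nb G v = univ.image (en v) := by
    ext u
    rw [mem_nb, hadj]
    simp
  rw [h1, Finset.sum_image (fun i _ j _ h => hinj h)]
  refine Finset.sum_congr rfl fun i _ => ?_
  congr 1
  unfold kap
  rw [Finset.sum_eq_single i]
  · rw [if_pos rfl]
  · intro j _ hj
    rw [if_neg (fun h => hj (hinj h))]
  · intro h
    exact absurd (Finset.mem_univ i) h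

theorem kap_ne {G : SimpleGraph V} {Z : Finset V} {en : V → Fin 5 → V} (h2 : S_MU)
    (hE : Enum G Z en) {p : V → Fin 3 → ℝ} (hp : MG p) {v w : V} (hv : v ∈ Z)
    (hvw : G.Adj v w) : kap en p v w ≠ 0 := by
  obtain ⟨hinj, hadj⟩ := hE v hv
  obtain ⟨i, rfl⟩ := (hadj w).1 hvw
  have h3 : kap en p v (en v i) = mu (fun j => p (en v j)) i := by
    unfold kap
    rw [Finset.sum_eq_single i]
    · rw [if_pos rfl]
    · intro j _ hj
      rw [if_neg (fun h => hj (hinj h))]
    · intro h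
      exact absurd (Finset.mem_univ i) h
  rw [h3, (h2 _).2.2 i]
  exact hp.pos 4 (fun a => en v (i.succAbove a)) (by norm_num)
    (fun a a' h => Fin.succAbove_right_injective (hinj h))

theorem coef {G : SimpleGraph V} {Z : Finset V} {en : V → Fin 5 → V} (h2 : S_MU)
    (hE : Enum G Z en) {p : V → Fin 3 → ℝ} (hp : MG p) {v w : V} (hv : v ∈ Z)
    (hvw : G.Adj v w) {X : Finset V} (hXc : X.card = 4) (hX : (nb G v).erase w = X)
    {b : V → (Fin 3 → ℝ) → ℝ} (hb1 : ∀ y, ∑ x ∈ X, b x y = 1)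
    (hb2 : ∀ y, ∑ x ∈ X, b x y • p x = y) {s : ℝ} {ω : V → V → ℝ}
    (hω : ∀ u, ω v u = s * kap en p v u) : ∀ x ∈ X, ω v x = - ω v w * b x (p w) := by
  have hw : w ∈ nb G v := mem_nb.2 hvw
  have e1 : ∑ u ∈ nb G v, ω v u = 0 := by
    have := nb_sum (p := p) hE hv (fun _ => (1 : ℝ))
    simp only [smul_eq_mul, mul_one] at this
    rw [(h2 _).1] at this
    calc ∑ u ∈ nb G v, ω v u = s * ∑ u ∈ nb G v, kap en p v u := by
          rw [Finset.mul_sum]
          exact Finset.sum_congr rfl fun u _ => hω u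
      _ = 0 := by rw [this, mul_zero]
  have e2 : ∑ u ∈ nb G v, ω v u • p u = 0 := by
    have := nb_sum (p := p) hE hv p
    rw [(h2 _).2.1] at this
    calc ∑ u ∈ nb G v, ω v u • p u = s • ∑ u ∈ nb G v, kap en p v u • p u := by
          rw [Finset.smul_sum]
          exact Finset.sum_congr rfl fun u _ => by rw [hω u, mul_smul]
      _ = 0 := by rw [this, smul_zero]
  rw [← Finset.add_sum_erase _ _ hw, hX] at e1 e2
  exact bary_uniq hp hXc hb1 hb2 (by linarith) (by
    rw [neg_smul]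
    exact eq_neg_of_add_eq_zero_right e2)

theorem key (h2 : S_MU) {G : SimpleGraph V} {Z : Finset V} {en : V → Fin 5 → V}
    (hE : Enum G Z en) {p : V → Fin 3 → ℝ} (hp : MG p) (hS : Str G Z en p) {v w : V}
    (hv : v ∈ Z) (hw : w ∈ Z) (hvw : G.Adj v w) {X : Finset V} (hXc : X.card = 4)
    (hXv : (nb G v).erase w = X) (hXw : (nb G w).erase v = X)
    {b : V → (Fin 3 → ℝ) → ℝ} (hb1 : ∀ y, ∑ x ∈ X, b x y = 1)
    (hb2 : ∀ y, ∑ x ∈ X, b x y • p x = y) {m : V → Fin 3 → ℝ} (hm : m ∈ PM G Z {v, w} p) :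
    ∑ x ∈ X, (b x (p w) * ((p x - p v) ⬝ᵥ m x) + b x (p v) * ((p x - p w) ⬝ᵥ m x)) = 0 := by
  obtain ⟨ω, hs, ha, hq, hprop⟩ := hS
  obtain ⟨s, hs0, hsv⟩ := hprop v hv
  obtain ⟨s', -, hsw⟩ := hprop w hw
  obtain ⟨hm1, hm2, hm3⟩ := mem_PM.1 hm
  have mv : m v = 0 := hm3 v (by simp)
  have mw : m w = 0 := hm3 w (by simp)
  have c1 := coef h2 hE hp hv hvw hXc hXv hb1 hb2 hsv
  have c2 := coef h2 hE hp hw hvw.symm hXc hXw hb1 hb2 hsw
  have hne : ω v w ≠ 0 := by
    rw [hsv w]
    exact mul_ne_zero hs0 (kap_ne h2 hE hp hv hvw)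
  let T : V → V → ℝ := fun x y => ω x y * ((p x - p y) ⬝ᵥ (m x - m y))
  have hT : ∀ x y, T x y = T y x := by
    intro x y
    show ω x y * ((p x - p y) ⬝ᵥ (m x - m y)) = ω y x * ((p y - p x) ⬝ᵥ (m y - m x))
    rw [hs x y, ← neg_sub (p y) (p x), ← neg_sub (m y) (m x), neg_dotProduct_neg]
  have hT2 : ∀ x y, T x y = (if x ∈ ({v, w} : Finset V) then T x y else 0) +
      (if y ∈ ({v, w} : Finset V) then T x y else 0) := by
    intro x y
    by_cases hx : x ∈ ({v, w} : Finset V)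
    · by_cases hy : y ∈ ({v, w} : Finset V)
      · have : T x y = 0 := by
          show ω x y * ((p x - p y) ⬝ᵥ (m x - m y)) = 0
          rw [hm3 x hx, hm3 y hy, sub_zero, dotProduct_zero, mul_zero]
        rw [this]; simp
      · rw [if_pos hx, if_neg hy, add_zero]
    · by_cases hy : y ∈ ({v, w} : Finset V)
      · rw [if_neg hx, if_pos hy, zero_add]
      · rw [if_neg hx, if_neg hy, add_zero]
        show ω x y * ((p x - p y) ⬝ᵥ (m x - m y)) = 0
        by_cases h0 : ω x y = 0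
        · rw [h0, zero_mul]
        · rw [hm1 x y (ha x y h0) hx hy, mul_zero]
  have e0 : ∑ x, ∑ y, T x y = 0 := hq m hm2
  have e1 : ∑ x, ∑ y, T x y = 2 * ∑ x ∈ ({v, w} : Finset V), ∑ y, T x y := by
    have a1 : ∑ x, ∑ y, T x y = ∑ x, ∑ y, (if x ∈ ({v, w} : Finset V) then T x y else 0) +
        ∑ x, ∑ y, (if y ∈ ({v, w} : Finset V) then T x y else 0) := by
      rw [← Finset.sum_add_distrib]
      refine Finset.sum_congr rfl fun x _ => ?_
      rw [← Finset.sum_add_distrib]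
      exact Finset.sum_congr rfl fun y _ => hT2 x y
    have a2 : ∑ x, ∑ y, (if y ∈ ({v, w} : Finset V) then T x y else 0) =
        ∑ x, ∑ y, (if x ∈ ({v, w} : Finset V) then T x y else 0) := by
      rw [Finset.sum_comm]
      refine Finset.sum_congr rfl fun x _ => Finset.sum_congr rfl fun y _ => ?_
      rw [hT y x]
    have a3 : ∑ x, ∑ y, (if x ∈ ({v, w} : Finset V) then T x y else 0) =
        ∑ x ∈ ({v, w} : Finset V), ∑ y, T x y := by
      rw [← Finset.sum_subset (Finset.subset_univ ({v, w} : Finset V))]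
      · refine Finset.sum_congr rfl fun x hx => Finset.sum_congr rfl fun y _ => ?_
        rw [if_pos hx]
      · intro x _ hx
        refine Finset.sum_eq_zero fun y _ => ?_
        rw [if_neg hx]
    rw [a1, a2, a3]; ring
  have e2 : ∑ y, T v y = - ω v w * ∑ x ∈ X, b x (p w) * ((p x - p v) ⬝ᵥ m x) := by
    have b1 : ∑ y, T v y = ∑ y ∈ nb G v, T v y := by
      symm
      apply Finset.sum_subset (Finset.subset_univ _)
      intro y _ hy
      show ω v y * ((p v - p y) ⬝ᵥ (m v - m y)) = 0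
      have : ω v y = 0 := by
        by_contra h
        exact hy (mem_nb.2 (ha v y h))
      rw [this, zero_mul]
    have b2 : T v w = 0 := by
      show ω v w * ((p v - p w) ⬝ᵥ (m v - m w)) = 0
      rw [mv, mw, sub_zero, dotProduct_zero, mul_zero]
    rw [b1, ← Finset.add_sum_erase _ _ (mem_nb.2 hvw), b2, zero_add, hXv, Finset.mul_sum]
    refine Finset.sum_congr rfl fun x hx => ?_
    show ω v x * ((p v - p x) ⬝ᵥ (m v - m x)) = _
    rw [c1 x hx, mv, ← neg_sub (p x) (p v), zero_sub, neg_dotProduct_neg]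
    ring
  have e3 : ∑ y, T w y = - ω v w * ∑ x ∈ X, b x (p v) * ((p x - p w) ⬝ᵥ m x) := by
    have b1 : ∑ y, T w y = ∑ y ∈ nb G w, T w y := by
      symm
      apply Finset.sum_subset (Finset.subset_univ _)
      intro y _ hy
      show ω w y * ((p w - p y) ⬝ᵥ (m w - m y)) = 0
      have : ω w y = 0 := by
        by_contra h
        exact hy (mem_nb.2 (ha w y h))
      rw [this, zero_mul]
    have b2 : T w v = 0 := by
      show ω w v * ((p w - p v) ⬝ᵥ (m w - m v)) = 0
      rw [mv, mw, sub_zero, dotProduct_zero, mul_zero]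
    rw [b1, ← Finset.add_sum_erase _ _ (mem_nb.2 hvw.symm), b2, zero_add, hXw, Finset.mul_sum]
    refine Finset.sum_congr rfl fun x hx => ?_
    show ω w x * ((p w - p x) ⬝ᵥ (m w - m x)) = _
    rw [c2 x hx, mw, hs w v, ← neg_sub (p x) (p w), zero_sub, neg_dotProduct_neg]
    ring
  rw [e1, Finset.sum_pair hvw.ne, e2, e3] at e0
  rw [Finset.sum_add_distrib]
  have e4 : ω v w * (∑ x ∈ X, b x (p w) * ((p x - p v) ⬝ᵥ m x) +
      ∑ x ∈ X, b x (p v) * ((p x - p w) ⬝ᵥ m x)) = 0 := by linarith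
  exact (mul_eq_zero.1 e4).resolve_left hne

theorem line (h1 : S_MGG) (h2 : S_MU) {G : SimpleGraph V} {Z : Finset V} {en : V → Fin 5 → V}
    (hE : Enum G Z en) (hS : ∀ p, MG p → Str G Z en p) {p : V → Fin 3 → ℝ} (hp : MG p)
    {v w : V} (hv : v ∈ Z) (hw : w ∈ Z) (hvw : G.Adj v w) {X : Finset V} (hXc : X.card = 4)
    (hXv : (nb G v).erase w = X) (hXw : (nb G w).erase v = X)
    {m : V → Fin 3 → ℝ} (hm : m ∈ PM G Z {v, w} p) {x0 x1 : V} (hx0 : x0 ∈ X) (hx1 : x1 ∈ X) :
    (p x0 - p x1) ⬝ᵥ (m x0 - m x1) = 0 := by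
  obtain ⟨b, hbc, hb1, hb2⟩ := exists_bary hp hXc
  have hXne : ∀ x ∈ X, x ≠ v ∧ x ≠ w := by
    intro x hx
    rw [← hXv, Finset.mem_erase, mem_nb] at hx
    exact ⟨hx.2.ne', hx.1⟩
  let p1 : V → Fin 3 → ℝ := fun u => if u = v then p x0 else if u = w then p x1 else p u
  let pt : ℝ → V → Fin 3 → ℝ := fun t => p + t • (p1 - p)
  have hpt : ∀ t u, u ≠ v → u ≠ w → pt t u = p u := by
    intro t u hu hu'
    show p u + t • ((if u = v then p x0 else if u = w then p x1 else p u) - p u) = p u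
    rw [if_neg hu, if_neg hu', sub_self, smul_zero, add_zero]
  have hptv : ∀ t, pt t v = p v + t • (p x0 - p v) := by
    intro t
    show p v + t • ((if v = v then p x0 else if v = w then p x1 else p v) - p v) = _
    rw [if_pos rfl]
  have hptw : ∀ t, pt t w = p w + t • (p x1 - p w) := by
    intro t
    show p w + t • ((if w = v then p x0 else if w = w then p x1 else p w) - p w) = _
    rw [if_neg hvw.ne', if_pos rfl]
  let F : ℝ → ℝ := fun t => ∑ x ∈ X, (b x (p w + t • (p x1 - p w)) *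
    ((p x - (p v + t • (p x0 - p v))) ⬝ᵥ m x) + b x (p v + t • (p x0 - p v)) *
    ((p x - (p w + t • (p x1 - p w))) ⬝ᵥ m x))
  have hF : ∀ t, MG (pt t) → F t = 0 := by
    intro t ht
    have hm' : m ∈ PM G Z {v, w} (pt t) := by
      obtain ⟨a1, a2, a3⟩ := mem_PM.1 hm
      refine mem_PM.2 ⟨fun x y hxy hx hy => ?_, a2, a3⟩
      have hx' := hx
      have hy' := hy
      simp only [Finset.mem_insert, Finset.mem_singleton, not_or] at hx' hy'
      rw [hpt t x hx'.1 hx'.2, hpt t y hy'.1 hy'.2]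
      exact a1 x y hxy hx hy
    have := key h2 hE ht (hS _ ht) hv hw hvw hXc hXv hXw hb1 (fun y => by
      rw [← hb2 y]
      refine Finset.sum_congr rfl fun x hx => ?_
      rw [hpt t x (hXne x hx).1 (hXne x hx).2, hb2 y]) hm'
    rw [← this]
    refine Finset.sum_congr rfl fun x hx => ?_
    rw [hpt t x (hXne x hx).1 (hXne x hx).2, hptv, hptw]
  have hFc : Continuous F := by
    refine continuous_finsetSum _ fun x _ => ?_
    have c1 : Continuous fun t : ℝ => p w + t • (p x1 - p w) := by fun_prop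
    have c2 : Continuous fun t : ℝ => p v + t • (p x0 - p v) := by fun_prop
    refine Continuous.add (Continuous.mul ((hbc x).comp c1) ?_)
      (Continuous.mul ((hbc x).comp c2) ?_)
    · exact Continuous.dotProduct (continuous_const.sub c2) continuous_const
    · exact Continuous.dotProduct (continuous_const.sub c1) continuous_const
  have hfin : {s : ℝ | ¬ MG (pt s)}.Finite := h1 V p p1 hp
  have hdense : Dense ({s : ℝ | ¬ MG (pt s)}ᶜ) := hfin.countable.dense_compl ℝ
  have hF0 : F = fun _ => 0 := by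
    refine Continuous.ext_on hdense hFc continuous_const ?_
    intro s hs
    apply hF
    by_contra h
    exact hs h
  have hF1 : F 1 = 0 := by rw [hF0]
  have e1 : F 1 = ∑ x ∈ X, ((if x = x1 then 1 else 0) * ((p x - p x0) ⬝ᵥ m x) +
      (if x = x0 then 1 else 0) * ((p x - p x1) ⬝ᵥ m x)) := by
    refine Finset.sum_congr rfl fun x hx => ?_
    have a1 : p w + (1 : ℝ) • (p x1 - p w) = p x1 := by rw [one_smul]; abel
    have a2 : p v + (1 : ℝ) • (p x0 - p v) = p x0 := by rw [one_smul]; abel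
    rw [a1, a2, bary_pt hp hXc hb1 hb2 hx1 x hx, bary_pt hp hXc hb1 hb2 hx0 x hx]
  have e2 : F 1 = (p x1 - p x0) ⬝ᵥ m x1 + (p x0 - p x1) ⬝ᵥ m x0 := by
    rw [e1, Finset.sum_add_distrib]
    simp only [ite_mul, one_mul, zero_mul]
    rw [Finset.sum_ite_eq' X x1, Finset.sum_ite_eq' X x0, if_pos hx1, if_pos hx0]
  rw [dotProduct_sub]
  have e3 : (p x1 - p x0) ⬝ᵥ m x1 = - ((p x0 - p x1) ⬝ᵥ m x1) := by
    rw [← neg_sub (p x0) (p x1), neg_dotProduct]
  linarith

end MUT

theorem no_mutual (h1 : S_MGG) (h2 : S_MU) : S_MUT := by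
  intro V _ _ G R Z hub en hC hE hS v hv w hw hvw hX
  have hwv : w ∈ nb G v := mem_nb.2 hvw
  have hXc : ((nb G v).erase w).card = 4 := by
    rw [Finset.card_erase_of_mem hwv, hC.deg v hv]
  obtain ⟨p, hp⟩ := exists_mg V 3
  have hmem : ∀ x ∈ (nb G v).erase w, G.Adj v x ∧ G.Adj w x ∧ x ≠ v ∧ x ≠ w := by
    intro x hx
    have hx2 := hx
    rw [hX, Finset.mem_erase, mem_nb] at hx2
    rw [Finset.mem_erase, mem_nb] at hx
    exact ⟨hx.2, hx2.2, hx2.1, hx.1⟩
  have hpair : ∀ q ∈ PM G Z ∅ p, ∀ x0 ∈ (nb G v).erase w, ∀ x1 ∈ (nb G v).erase w,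
      (p x0 - p x1) ⬝ᵥ (q x0 - q x1) = 0 := by
    intro q hq x0 hx0 x1 hx1
    obtain ⟨a1, a2, -⟩ := mem_PM.1 hq
    let m : V → Fin 3 → ℝ := fun u => if u = v ∨ u = w then 0 else q u
    have hmq : ∀ u, u ≠ v → u ≠ w → m u = q u := by
      intro u hu hu'
      show (if u = v ∨ u = w then 0 else q u) = q u
      rw [if_neg (by tauto)]
    have hm : m ∈ PM G Z {v, w} p := by
      refine mem_PM.2 ⟨fun x y hxy hx hy => ?_, fun x hx => ?_, fun x hx => ?_⟩
      · simp only [Finset.mem_insert, Finset.mem_singleton, not_or] at hx hy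
        rw [hmq x hx.1 hx.2, hmq y hy.1 hy.2]
        exact a1 x y hxy (by simp) (by simp)
      · show (if x = v ∨ x = w then 0 else q x) = 0
        rw [a2 x hx, ite_self]
      · simp only [Finset.mem_insert, Finset.mem_singleton] at hx
        show (if x = v ∨ x = w then 0 else q x) = 0
        rw [if_pos hx]
    have := MUT.line h1 h2 hE hS hp hv hw hvw hXc rfl hX.symm hm hx0 hx1
    rwa [hmq x0 (hmem x0 hx0).2.2.1 (hmem x0 hx0).2.2.2,
      hmq x1 (hmem x1 hx1).2.2.1 (hmem x1 hx1).2.2.2] at this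
  have hRZ : ∀ x ∈ (nb G v).erase w, x ∈ R ∨ x ∈ Z := fun x hx =>
    hC.supp x v (hmem x hx).1.symm
  have hadj : ∀ x0 ∈ (nb G v).erase w, ∀ x1 ∈ (nb G v).erase w, x0 ≠ x1 → G.Adj x0 x1 :=
    fun x0 hx0 x1 hx1 hne => hC.closed p hp x0 x1 (hRZ x0 hx0) (hRZ x1 hx1) hne
      (fun q hq => hpair q hq x0 hx0 x1 hx1)
  have hvX : v ∉ (nb G v).erase w := fun h => (hmem v h).2.2.1 rfl
  refine hC.noK5 (insert v ((nb G v).erase w)) (by rw [Finset.card_insert_of_notMem hvX, hXc])
    ?_ v (Finset.mem_insert_self _ _) hv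
  intro a ha c hc hac
  rw [Finset.mem_insert] at ha hc
  rcases ha with rfl | ha
  · rcases hc with rfl | hc
    · exact absurd rfl hac
    · exact (hmem c hc).1
  · rcases hc with rfl | hc
    · exact (hmem a ha).1.symm
    · exact hadj a ha c hc hac

end Pool.Agent.N423.DC
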