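import Mathlib
import Pool.Agent.N423.DC.Stm

/-!
# Project DC, part NK (helper50): no complete graph with four vertices touches `Z`
-/

set_option autoImplicit false

namespace Pool.Agent.N423.DC

open Matrix Finset Pool.Agent.H283R2.DR Pool.Agent.H789R5 Pool.Agent.N423.DE

theorem nk (h1 : S_K3) (h2 : S_K4) : S_NK := by
  classical
  intro V _ _ G R Z hub hC A hA4 hAc v hvA hvZ
  set KZ := A.filter (fun x => x ∈ Z) with hKZ
  have hmem : ∀ x, x ∈ KZ ↔ x ∈ A ∧ x ∈ Z := fun x => by rw [hKZ, mem_filter]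
  have hvK : v ∈ KZ := (hmem v).2 ⟨hvA, hvZ⟩
  -- the other elements are the hub of `v`
  have hout : ∀ y ∈ A, y ∉ Z → y = hub v := by
    intro y hy hyZ
    have hne : v ≠ y := fun h => hyZ (h ▸ hvZ)
    have hadj : G.Adj v y := hAc v hvA y hy hne
    have hyR : y ∈ R := (hC.supp y v hadj.symm).resolve_right hyZ
    exact hC.hub_uniq v hvZ y hyR hadj
  have hc1 : (A.filter (fun x => ¬ x ∈ Z)).card ≤ 1 := by
    rw [card_le_one]
    intro a ha b hb
    rw [mem_filter] at ha hb
    rw [hout a ha.1 ha.2, hout b hb.1 hb.2]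
  have hc2 := card_filter_add_card_filter_not (s := A) (fun x => x ∈ Z)
  have hle : KZ.card ≤ A.card := card_le_card (filter_subset _ _)
  -- the two other neighbours
  have hnb : ∀ x ∈ KZ, ∃ a b, a ≠ b ∧ nb G x \ A = {a, b} := by
    intro x hx
    have hxA := ((hmem x).1 hx).1
    have hxZ := ((hmem x).1 hx).2
    have h3 : nb G x ∩ A = A.erase x := by
      ext y
      rw [mem_inter, mem_nb, mem_erase]
      constructor
      · rintro ⟨h4, h5⟩
        exact ⟨h4.ne.symm, h5⟩
      · rintro ⟨h4, h5⟩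
        exact ⟨hAc x hxA y h5 (Ne.symm h4), h5⟩
    have h4 := card_sdiff_add_card_inter (nb G x) A
    rw [h3, card_erase_of_mem hxA, hA4, hC.deg x hxZ] at h4
    exact card_eq_two.1 (by omega)
  choose! z z' hz using hnb
  have hcfg : Cfg G Z A KZ z z' := by
    refine ⟨hA4, hAc, hmem, ⟨v, hvK⟩, ?_, ?_⟩
    · intro x hx
      obtain ⟨h3, h4⟩ := hz x hx
      have h5 : z x ∈ nb G x \ A := by rw [h4]; simp
      have h6 : z' x ∈ nb G x \ A := by rw [h4]; simp
      rw [mem_sdiff, mem_nb] at h5 h6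
      exact ⟨h5.1, h6.1, h3, h5.2, h6.2⟩
    · intro x hx y hxy
      by_cases hy : y ∈ A
      · exact Or.inl hy
      · right
        have h5 : y ∈ nb G x \ A := by rw [mem_sdiff, mem_nb]; exact ⟨hxy, hy⟩
        rw [(hz x hx).2] at h5
        simpa using h5
  have h3 := h1 V G R Z hub hC A KZ z z' hcfg
  have h4 := h2 V G R Z hub hC A KZ z z' hcfg
  rw [← hKZ] at hc2
  omega

end Pool.Agent.N423.DC
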