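import Mathlib
import Pool.Agent.N423.DC.Stm

/-!
Project DC (subtask 5338, helper368): pinned motions of a graph that contains a complete graph with four vertices.
-/

set_option autoImplicit false

namespace Pool.Agent.N423.DC

open Matrix Finset Pool.Agent.H283R2.DR Pool.Agent.H789R5 Pool.Agent.N423.DE

namespace PAR

theorem eq_zero_of_orth {V : Type} [Fintype V] {p : V → Fin 3 → ℝ} (hp : MG p) {v : V} {T : Finset V} (hvT : v ∉ T)
    (hT : T.card = 3) {w : Fin 3 → ℝ} (h : ∀ z ∈ T, (p v - p z) ⬝ᵥ w = 0) : w = 0 := by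
  have hl := lin_of_pos hp hvT hT.le
  obtain ⟨z₀, hz₀⟩ := Finset.card_pos.1 (by omega : 0 < T.card)
  have : Nonempty T := ⟨⟨z₀, hz₀⟩⟩
  have hs : Submodule.span ℝ (Set.range fun z : T => p v - p z) = ⊤ :=
    hl.span_eq_top_of_card_eq_finrank (by simp [hT])
  have h1 : ∀ u : Fin 3 → ℝ, u ⬝ᵥ w = 0 := by
    intro u
    have hu : u ∈ Submodule.span ℝ (Set.range fun z : T => p v - p z) := by rw [hs]; trivial
    induction hu using Submodule.span_induction with
    | mem x hx =>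
      obtain ⟨z, rfl⟩ := hx
      exact h z z.2
    | zero => exact zero_dotProduct w
    | add x y _ _ hx hy => rw [add_dotProduct, hx, hy, add_zero]
    | smul a x _ hx => rw [smul_dotProduct, hx, smul_zero]
  exact dotProduct_self_eq_zero.1 (h1 w)

theorem enum3 {V : Type} [DecidableEq V] {K : Finset V} (hK : K.card = 4) : ∃ (d : V) (x : Fin 3 → V), d ∈ K ∧
    Function.Injective x ∧ (∀ i, x i ∈ K) ∧ (K.erase d).card = 3 ∧ ∀ z ∈ K.erase d, ∃ i, x i = z := by
  obtain ⟨d, hd⟩ := Finset.card_pos.1 (by omega : 0 < K.card)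
  have hT3 : (K.erase d).card = 3 := by rw [Finset.card_erase_of_mem hd, hK]
  obtain ⟨e⟩ : Nonempty ((K.erase d : Finset V) ≃ Fin 3) := ⟨(K.erase d).equivFinOfCardEq hT3⟩
  refine ⟨d, fun i => (e.symm i : V), hd, fun i j hij => e.symm.injective (Subtype.ext hij), fun i =>
    Finset.mem_of_mem_erase (e.symm i).2, hT3, fun z hz => ⟨e ⟨z, hz⟩, ?_⟩⟩
  show ((e.symm (e ⟨z, hz⟩) : (K.erase d : Finset V)) : V) = z
  rw [Equiv.symm_apply_apply]

/-- a velocity field which preserves all pairs of `K` is an infinitesimal isometry on `K` -/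
theorem ex_T (h : S_TRI) {V : Type} [Fintype V] [DecidableEq V] {p : V → Fin 3 → ℝ} (hp : MG p) {K : Finset V}
    (hK : K.card = 4) (g : V → Fin 3 → ℝ) (hg : ∀ a ∈ K, ∀ b ∈ K, (p a - p b) ⬝ᵥ (g a - g b) = 0) :
    ∃ T, ∀ x ∈ K, fld T (p x) = g x := by
  obtain ⟨d, x, hd, hx, hxK, hT3, hsur⟩ := enum3 hK
  obtain ⟨S, hS⟩ := h.1 (fun i => p (x i)) (hp.pos 3 x (by norm_num) hx) (fun i => g (x i))
    (fun i j => hg _ (hxK i) _ (hxK j))
  refine ⟨S, fun y hy => ?_⟩
  by_cases hyd : y = d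
  · subst hyd
    have h0 : g y - fld S (p y) = 0 := by
      refine eq_zero_of_orth hp (T := K.erase y) (Finset.notMem_erase _ _) hT3 ?_
      intro z hz
      obtain ⟨i, rfl⟩ := hsur z hz
      have h1 := hg y hy (x i) (hxK i)
      have h2 := h.2.2 S (p y) (p (x i))
      rw [hS i] at h2
      have e : g y - fld S (p y) = (g y - g (x i)) - (fld S (p y) - g (x i)) := by abel
      rw [e, dotProduct_sub, h1, h2, sub_zero]
    exact (sub_eq_zero.1 h0).symm
  · obtain ⟨i, rfl⟩ := hsur y (Finset.mem_erase.2 ⟨hyd, hy⟩)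
    exact hS i

theorem T_zero (h : S_TRI) {V : Type} [Fintype V] [DecidableEq V] {p : V → Fin 3 → ℝ} (hp : MG p) {K : Finset V}
    (hK : K.card = 4) {T : (Fin 3 → ℝ) × (Fin 3 → ℝ)} (h0 : ∀ x ∈ K, fld T (p x) = 0) : T = 0 := by
  obtain ⟨d, x, hd, hx, hxK, hT3, hsur⟩ := enum3 hK
  exact h.2.1 (fun i => p (x i)) (hp.pos 3 x (by norm_num) hx) T (fun i => h0 _ (hxK i))

theorem Phi_mem {V : Type} {KZ : Finset V} {p : V → Fin 3 → ℝ} {T : (Fin 3 → ℝ) × (Fin 3 → ℝ)} {m : V → Fin 3 → ℝ}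
    {x : V} (hx : x ∈ KZ) : Phi KZ p T m x = fld T (p x) := by
  unfold Phi
  rw [if_pos hx]

theorem Phi_not {V : Type} {KZ : Finset V} {p : V → Fin 3 → ℝ} {T : (Fin 3 → ℝ) × (Fin 3 → ℝ)} {m : V → Fin 3 → ℝ}
    {x : V} (hx : x ∉ KZ) : Phi KZ p T m x = m x := by
  unfold Phi
  rw [if_neg hx]

theorem flip {a b c d : Fin 3 → ℝ} (h : (a - b) ⬝ᵥ (c - d) = 0) : (b - a) ⬝ᵥ (d - c) = 0 := by
  rw [← neg_sub a, ← neg_sub c, neg_dotProduct_neg]
  exact h

end PAR

open PAR in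
theorem par (h : S_TRI) : S_PAR := by
  intro V _ _ G G' Z K KZ p hp hK hcl hKZ hG hG'
  have hKZK : ∀ x ∈ KZ, x ∈ K := fun x hx => ((hKZ x).1 hx).1
  have hnZ : ∀ x ∈ K, x ∉ KZ → x ∉ Z := fun x hx hx' hz => hx' ((hKZ x).2 ⟨hx, hz⟩)
  refine ⟨fun g => ⟨?_, ?_⟩, ?_⟩
  · rintro ⟨hg1, hg2, -⟩
    obtain ⟨T, hT⟩ := ex_T h hp hK g (fun a ha b hb => by
      by_cases hab : a = b
      · subst hab
        rw [sub_self, zero_dotProduct]
      · exact hg1 a b (hcl a ha b hb hab) (by simp) (by simp))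
    have hgm : ∀ x, (x ∈ KZ ∧ (fun x => if x ∈ KZ then (0 : Fin 3 → ℝ) else g x) x = 0) ∨
        (x ∉ KZ ∧ (fun x => if x ∈ KZ then (0 : Fin 3 → ℝ) else g x) x = g x) := by
      intro x
      by_cases hx : x ∈ KZ
      · exact Or.inl ⟨hx, if_pos hx⟩
      · exact Or.inr ⟨hx, if_neg hx⟩
    generalize (fun x => if x ∈ KZ then (0 : Fin 3 → ℝ) else g x) = m at hgm
    have hm0 : ∀ x ∈ KZ, m x = 0 := by
      intro x hx
      rcases hgm x with h1 | h1
      · exact h1.2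
      · exact absurd hx h1.1
    have hm1 : ∀ x, x ∉ KZ → m x = g x := by
      intro x hx
      rcases hgm x with h1 | h1
      · exact absurd h1.1 hx
      · exact h1.2
    refine ⟨(T, m), ⟨⟨?_, ?_, hm0⟩, ?_⟩, ?_, ?_⟩
    · intro x y hxy hx hy
      show (p x - p y) ⬝ᵥ (m x - m y) = 0
      rw [hm1 x hx, hm1 y hy]
      exact hg1 x y (hG' x y hx hy hxy) (by simp) (by simp)
    · intro x hx
      have hx' : x ∉ KZ := fun h' => hx ((hKZ x).1 h').2
      show m x = 0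
      rw [hm1 x hx', hg2 x hx]
    · intro r hr hr'
      show fld T (p r) = 0
      rw [hT r hr, hg2 r (hnZ r hr hr')]
    · funext x
      by_cases hx : x ∈ KZ
      · rw [Phi_mem hx]
        exact (hT x (hKZK x hx)).symm
      · rw [Phi_not hx]
        exact (hm1 x hx).symm
    · intro x hx y hy hxy
      have hy' : y ∉ KZ := fun h' => hy (hKZK y h')
      show (p x - p y) ⬝ᵥ (m y - fld T (p y)) = 0
      have h1 := hg1 x y hxy (by simp) (by simp)
      have h2 := h.2.2 T (p x) (p y)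
      rw [hT x (hKZK x hx)] at h2
      have e : m y - fld T (p y) = (g x - fld T (p y)) - (g x - g y) := by
        rw [hm1 y hy']
        abel
      rw [e, dotProduct_sub, h1, h2, sub_zero]
  · rintro ⟨⟨T, m⟩, ⟨⟨hm1, hm2, hm3⟩, hT⟩, rfl, hc⟩
    have hm1' : ∀ x y, G.Adj x y → x ∉ KZ → y ∉ KZ → (p x - p y) ⬝ᵥ (m x - m y) = 0 := hm1
    have hm2' : ∀ x, x ∉ Z → m x = 0 := hm2
    have hT' : ∀ r ∈ K, r ∉ KZ → fld T (p r) = 0 := hT
    have hc' : ∀ x ∈ KZ, ∀ y, y ∉ K → G'.Adj x y → (p x - p y) ⬝ᵥ (m y - fld T (p y)) = 0 := hc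
    show Phi KZ p T m ∈ PM G' Z ∅ p
    have key : ∀ x y, G'.Adj x y → x ∈ KZ → y ∉ KZ → (p x - p y) ⬝ᵥ (Phi KZ p T m x - Phi KZ p T m y) = 0 := by
      intro x y hxy hx hy
      rw [Phi_mem hx, Phi_not hy]
      have h2 := h.2.2 T (p x) (p y)
      by_cases hyK : y ∈ K
      · rw [hm2' y (hnZ y hyK hy), ← hT' y hyK hy]
        exact h2
      · have h3 := hc' x hx y hyK hxy
        have e : fld T (p x) - m y = (fld T (p x) - fld T (p y)) - (m y - fld T (p y)) := by abel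
        rw [e, dotProduct_sub, h2, h3, sub_zero]
    refine ⟨?_, ?_, ?_⟩
    · intro x y hxy _ _
      by_cases hx : x ∈ KZ
      · by_cases hy : y ∈ KZ
        · rw [Phi_mem hx, Phi_mem hy]
          exact h.2.2 T (p x) (p y)
        · exact key x y hxy hx hy
      · by_cases hy : y ∈ KZ
        · exact flip (key y x hxy.symm hy hx)
        · rw [Phi_not hx, Phi_not hy]
          exact hm1' x y (hG hxy) hx hy
    · intro x hx
      have hx' : x ∉ KZ := fun h' => hx ((hKZ x).1 h').2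
      rw [Phi_not hx']
      exact hm2' x hx
    · intro x hx
      exact absurd hx (Finset.notMem_empty x)
  · rintro ⟨T, m⟩ ⟨⟨hm1, hm2, hm3⟩, hT⟩ h0
    have h0' : ∀ x, Phi KZ p T m x = 0 := fun x => congrFun h0 x
    have hT0 : T = 0 := T_zero h hp hK (fun x hx => by
      by_cases hx' : x ∈ KZ
      · rw [← h0' x, Phi_mem hx']
      · exact hT x hx hx')
    have hm0 : m = 0 := by
      funext x
      by_cases hx' : x ∈ KZ
      · exact hm3 x hx'
      · rw [← Phi_not (p := p) (T := T) (m := m) hx', h0' x]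
        rfl
    rw [hT0, hm0]
    rfl

end Pool.Agent.N423.DC
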