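import Mathlib
import Pool.Agent.N423.DC.Stm

/-!
# Project DC (helper423), part PIN (helper232): motions and pinned motions
-/

set_option autoImplicit false
set_option linter.unusedSectionVars false

namespace Pool.Agent.N423.DC

open Matrix Finset Pool.Agent.H283R2.DR Pool.Agent.H789R5 Pool.Agent.N423.DE

namespace PIN

theorem fld_add (T T' : (Fin 3 → ℝ) × (Fin 3 → ℝ)) (y : Fin 3 → ℝ) :
    fld (T + T') y = fld T y + fld T' y := by
  simp only [fld, Prod.fst_add, Prod.snd_add, map_add, LinearMap.add_apply]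
  abel

theorem fld_smul (c : ℝ) (T : (Fin 3 → ℝ) × (Fin 3 → ℝ)) (y : Fin 3 → ℝ) :
    fld (c • T) y = c • fld T y := by
  simp only [fld, Prod.smul_fst, Prod.smul_snd, map_smul, LinearMap.smul_apply, smul_add]

theorem fld_zero (y : Fin 3 → ℝ) : fld 0 y = 0 := by
  simp [fld]

/-- a vector orthogonal to three independent vectors -/
theorem perp {P : Fin 4 → Fin 3 → ℝ} (hP : AffineIndependent ℝ P) {z : Fin 3 → ℝ}
    (hz : ∀ i, (P i - P 0) ⬝ᵥ z = 0) : z = 0 := by
  rw [affineIndependent_iff_linearIndependent_vsub ℝ P 0] at hP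
  have h1 := hP.span_eq_top_of_card_eq_finrank' (by simp)
  have h3 : ∀ y ∈ Submodule.span ℝ (Set.range fun i : {x : Fin 4 // x ≠ 0} => P i -ᵥ P 0),
      y ⬝ᵥ z = 0 := by
    intro y hy
    induction hy using Submodule.span_induction with
    | mem y h =>
      obtain ⟨i, rfl⟩ := h
      exact hz i
    | zero => exact zero_dotProduct _
    | add x y _ _ hx hy => rw [add_dotProduct, hx, hy, add_zero]
    | smul c x _ hx => rw [smul_dotProduct, hx, smul_zero]
  rw [h1] at h3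
  exact dotProduct_self_eq_zero.1 (h3 z trivial)

section
variable {V : Type} [Fintype V] {G : SimpleGraph V} {R Z : Finset V} {p p' : V → Fin 3 → ℝ}

/-- existence of the infinitesimal isometry of the clique -/
theorem exists_T (h : S_TRI) (hR3 : 3 ≤ R.card) (hR : Cq G R) (hp : MG p)
    (hpp : ∀ r ∈ R, p' r = p r) {q : V → Fin 3 → ℝ} (hq : IsMotion G p' q) :
    ∃ T, ∀ r ∈ R, q r = fld T (p' r) := by
  obtain ⟨a, ha, b, hb, c, hc, hab, hac, hbc⟩ := Finset.two_lt_card.1 (show 2 < R.card by omega)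
  have hinj : Function.Injective ![a, b, c] := by
    intro i j hij
    fin_cases i <;> fin_cases j <;> simp_all
  have haff := hp.pos 3 ![a, b, c] (by norm_num) hinj
  have hm : ∀ i, ![a, b, c] i ∈ R := by
    intro i
    fin_cases i <;> simpa
  obtain ⟨T, hT⟩ := h.1 (fun i => p (![a, b, c] i)) haff (fun i => q (![a, b, c] i)) (by
    intro i j
    by_cases hij : i = j
    · rw [hij, sub_self, zero_dotProduct]
    · have h1 := hq _ _ (hR _ (hm i) _ (hm j) (fun h => hij (hinj h)))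
      rw [hpp _ (hm i), hpp _ (hm j)] at h1
      exact h1)
  refine ⟨T, fun r hr => ?_⟩
  by_cases hrr : ∃ i, ![a, b, c] i = r
  · obtain ⟨i, rfl⟩ := hrr
    rw [hpp _ (hm i)]
    exact (hT i).symm
  · push Not at hrr
    have hinj4 : Function.Injective (Fin.cons r ![a, b, c] : Fin 4 → V) := by
      rw [Fin.cons_injective_iff]
      refine ⟨?_, hinj⟩
      rintro ⟨i, hi⟩
      exact hrr i hi
    have haff4 := hp.pos 4 (Fin.cons r ![a, b, c] : Fin 4 → V) (by norm_num) hinj4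
    have hz : q r - fld T (p' r) = 0 := by
      refine perp haff4 fun i => ?_
      refine Fin.cases ?_ (fun i => ?_) i
      · simp
      · have h1 := hq _ _ (hR _ (hm i) _ hr (hrr i))
        have h2 := h.2.2 T (p' (![a, b, c] i)) (p' r)
        have h3 : fld T (p' (![a, b, c] i)) = q (![a, b, c] i) := by
          rw [hpp _ (hm i)]
          exact hT i
        rw [h3] at h2
        have e : (p (![a, b, c] i) - p r) = (p' (![a, b, c] i) - p' r) := by
          rw [hpp _ (hm i), hpp _ hr]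
        show (p (![a, b, c] i) - p r) ⬝ᵥ (q r - fld T (p' r)) = 0
        rw [e]
        have e2 : q r - fld T (p' r) = (q (![a, b, c] i) - fld T (p' r)) -
            (q (![a, b, c] i) - q r) := by abel
        rw [e2, dotProduct_sub, h1, h2, sub_zero]
    exact sub_eq_zero.1 hz

theorem T_zero (h : S_TRI) (hR3 : 3 ≤ R.card) (hp : MG p) (hpp : ∀ r ∈ R, p' r = p r)
    {T : (Fin 3 → ℝ) × (Fin 3 → ℝ)} (hT : ∀ r ∈ R, fld T (p' r) = 0) : T = 0 := by
  obtain ⟨a, ha, b, hb, c, hc, hab, hac, hbc⟩ := Finset.two_lt_card.1 (show 2 < R.card by omega)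
  have hinj : Function.Injective ![a, b, c] := by
    intro i j hij
    fin_cases i <;> fin_cases j <;> simp_all
  have haff := hp.pos 3 ![a, b, c] (by norm_num) hinj
  have hm : ∀ i, ![a, b, c] i ∈ R := by
    intro i
    fin_cases i <;> simpa
  refine h.2.1 (fun i => p (![a, b, c] i)) haff T fun i => ?_
  show fld T (p (![a, b, c] i)) = 0
  rw [← hpp _ (hm i)]
  exact hT _ (hm i)

/-- decomposition of the motions -/
theorem decomp (h : S_TRI) (hdis : ∀ x ∈ R, x ∉ Z) (hE : ∀ x y, G.Adj x y → x ∈ R ∨ x ∈ Z)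
    (hR3 : 3 ≤ R.card) (hR : Cq G R) (hp : MG p) (hpp : ∀ r ∈ R, p' r = p r)
    {q : V → Fin 3 → ℝ} (hq : IsMotion G p' q) :
    ∃ T, ∃ m ∈ PM G Z ∅ p', ∀ x, x ∈ R ∨ x ∈ Z → q x = fld T (p' x) + m x := by
  classical
  obtain ⟨T, hT⟩ := exists_T h hR3 hR hp hpp hq
  have hm : ∀ x, x ∈ R ∨ x ∈ Z →
      (if x ∈ Z then q x - fld T (p' x) else 0) = q x - fld T (p' x) := by
    intro x hx
    by_cases hz : x ∈ Z
    · rw [if_pos hz]
    · rw [if_neg hz, hT x (hx.resolve_right hz), sub_self]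
  refine ⟨T, fun x => if x ∈ Z then q x - fld T (p' x) else 0, ?_, fun x hx => ?_⟩
  · rw [mem_PM]
    refine ⟨fun x y hxy _ _ => ?_, fun x hx => if_neg hx, fun x hx => absurd hx (notMem_empty x)⟩
    show (p' x - p' y) ⬝ᵥ ((if x ∈ Z then q x - fld T (p' x) else 0) -
      (if y ∈ Z then q y - fld T (p' y) else 0)) = 0
    rw [hm x (hE x y hxy), hm y (hE y x hxy.symm)]
    have e : (q x - fld T (p' x)) - (q y - fld T (p' y)) =
        (q x - q y) - (fld T (p' x) - fld T (p' y)) := by abel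
    rw [e, dotProduct_sub, hq x y hxy, h.2.2, sub_zero]
  · show q x = fld T (p' x) + (if x ∈ Z then q x - fld T (p' x) else 0)
    rw [hm x hx, add_sub_cancel]

open Classical in
/-- the parametrization of the motions -/
noncomputable def Psi (G : SimpleGraph V) (R Z : Finset V) (p' : V → Fin 3 → ℝ) :
    (((Fin 3 → ℝ) × (Fin 3 → ℝ)) × PM G Z ∅ p') × ({x // ¬ (x ∈ R ∨ x ∈ Z)} → Fin 3 → ℝ)
      →ₗ[ℝ] (V → Fin 3 → ℝ) where
  toFun u x := if hx : x ∈ R ∨ x ∈ Z then fld u.1.1 (p' x) + u.1.2.1 x else u.2 ⟨x, hx⟩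
  map_add' u v := by
    funext x
    simp only [Pi.add_apply]
    split_ifs with hx
    · simp only [Prod.fst_add, Prod.snd_add, Submodule.coe_add, Pi.add_apply, fld_add]
      abel
    · rfl
  map_smul' c u := by
    funext x
    simp only [Pi.smul_apply, RingHom.id_apply]
    split_ifs with hx
    · simp only [Prod.smul_fst, Prod.smul_snd, Submodule.coe_smul, Pi.smul_apply, fld_smul,
        smul_add]
    · rfl

theorem Psi_pos (u : (((Fin 3 → ℝ) × (Fin 3 → ℝ)) × PM G Z ∅ p') ×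
    ({x // ¬ (x ∈ R ∨ x ∈ Z)} → Fin 3 → ℝ)) {x : V} (hx : x ∈ R ∨ x ∈ Z) :
    Psi G R Z p' u x = fld u.1.1 (p' x) + u.1.2.1 x := dif_pos hx

theorem Psi_neg (u : (((Fin 3 → ℝ) × (Fin 3 → ℝ)) × PM G Z ∅ p') ×
    ({x // ¬ (x ∈ R ∨ x ∈ Z)} → Fin 3 → ℝ)) {x : V} (hx : ¬ (x ∈ R ∨ x ∈ Z)) :
    Psi G R Z p' u x = u.2 ⟨x, hx⟩ := dif_neg hx

theorem Psi_range (h : S_TRI) (hdis : ∀ x ∈ R, x ∉ Z)
    (hE : ∀ x y, G.Adj x y → x ∈ R ∨ x ∈ Z) (hR3 : 3 ≤ R.card) (hR : Cq G R) (hp : MG p)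
    (hpp : ∀ r ∈ R, p' r = p r) : LinearMap.range (Psi G R Z p') = Mot G p' := by
  ext q
  rw [LinearMap.mem_range, mem_mot]
  constructor
  · rintro ⟨u, rfl⟩ x y hxy
    rw [Psi_pos u (hE x y hxy), Psi_pos u (hE y x hxy.symm)]
    have e : (fld u.1.1 (p' x) + u.1.2.1 x) - (fld u.1.1 (p' y) + u.1.2.1 y) =
        (fld u.1.1 (p' x) - fld u.1.1 (p' y)) + (u.1.2.1 x - u.1.2.1 y) := by abel
    rw [e, dotProduct_add, h.2.2, (mem_PM.1 u.1.2.2).1 x y hxy (notMem_empty x) (notMem_empty y),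
      add_zero]
  · intro hq
    obtain ⟨T, m, hm, hqm⟩ := decomp h hdis hE hR3 hR hp hpp hq
    refine ⟨((T, ⟨m, hm⟩), fun x => q x.1), ?_⟩
    funext x
    by_cases hx : x ∈ R ∨ x ∈ Z
    · rw [Psi_pos _ hx]
      exact (hqm x hx).symm
    · rw [Psi_neg _ hx]

theorem Psi_inj (h : S_TRI) (hdis : ∀ x ∈ R, x ∉ Z) (hR3 : 3 ≤ R.card) (hp : MG p)
    (hpp : ∀ r ∈ R, p' r = p r) : Function.Injective (Psi G R Z p') := by
  rw [← LinearMap.ker_eq_bot, LinearMap.ker_eq_bot']
  rintro ⟨⟨T, m⟩, o⟩ hu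
  have hx1 : ∀ x, x ∈ R ∨ x ∈ Z → fld T (p' x) + m.1 x = 0 := by
    intro x hx
    have h1 := congrFun hu x
    rw [Psi_pos _ hx] at h1
    exact h1
  have hT : T = 0 := T_zero h hR3 hp hpp fun r hr => by
    have h1 := hx1 r (Or.inl hr)
    rwa [(mem_PM.1 m.2).2.1 r (hdis r hr), add_zero] at h1
  subst hT
  have hm : m = 0 := by
    apply Subtype.ext
    funext x
    by_cases hx : x ∈ Z
    · have h1 := hx1 x (Or.inr hx)
      rwa [fld_zero, zero_add] at h1
    · exact (mem_PM.1 m.2).2.1 x hx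
  have ho : o = 0 := by
    funext x
    have h1 := congrFun hu x.1
    rw [Psi_neg _ x.2] at h1
    exact h1
  rw [hm, ho]
  rfl

end

end PIN

open PIN

theorem pin (h : S_TRI) : S_PIN := by
  classical
  intro V _ G R Z hdis hE hR3 hR p p' hp hpp
  refine ⟨?_, fun x y hx hy => ⟨fun hI q hq => ?_, fun hP q hq => ?_⟩⟩
  · have h1 := LinearMap.finrank_range_of_inj (Psi_inj (G := G) h hdis hR3 hp hpp)
    rw [Psi_range h hdis hE hR3 hR hp hpp] at h1
    have h2 : mo G p' = Module.finrank ℝ ((((Fin 3 → ℝ) × (Fin 3 → ℝ)) × PM G Z ∅ p') ×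
        ({x // ¬ (x ∈ R ∨ x ∈ Z)} → Fin 3 → ℝ)) := h1
    rw [Module.finrank_prod, Module.finrank_prod, Module.finrank_prod,
      Module.finrank_fintype_fun_eq_card, Fintype.card_fin, Module.finrank_pi_fintype] at h2
    simp only [Module.finrank_fintype_fun_eq_card, Fintype.card_fin, Finset.sum_const,
      Finset.card_univ, smul_eq_mul] at h2
    have h3 : Fintype.card {x // ¬ (x ∈ R ∨ x ∈ Z)} = ((R ∪ Z)ᶜ).card :=
      Fintype.card_of_subtype _ fun x => by rw [mem_compl, mem_union]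
    have h4 : (R ∪ Z).card = R.card + Z.card :=
      card_union_of_disjoint (Finset.disjoint_left.2 hdis)
    have h5 := (R ∪ Z).card_le_univ
    rw [card_compl] at h3
    omega
  · have hM : IsMotion G p' q := fun u v huv =>
      (mem_PM.1 hq).1 u v huv (notMem_empty u) (notMem_empty v)
    exact hI q hM
  · obtain ⟨T, m, hm, hqm⟩ := decomp h hdis hE hR3 hR hp hpp hq
    rw [hqm x hx, hqm y hy]
    have e : (fld T (p' x) + m x) - (fld T (p' y) + m y) =
        (fld T (p' x) - fld T (p' y)) + (m x - m y) := by abel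
    rw [e, dotProduct_add, h.2.2, hP m hm, add_zero]

end Pool.Agent.N423.DC
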