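import Mathlib
import Pool.Agent.N423.DC.Stm
import Pool.Agent.Helper236.Lin

/-!
# The generic rigidity matroid as a matroid in which all complete graphs with five vertices are
circuits
-/

set_option autoImplicit false
set_option linter.unusedSectionVars false

namespace Pool.Agent.N423.DC.RMx

open Matrix Finset Pool.Agent.H283R2.DR Pool.Agent.H789R5 Pool.Agent.N423.DE
open Pool.Agent.Helper236 (linMatroid linMatroid_indep linMatroid_rep finrank_span_of_linearIndepOn)

variable {V : Type} [Fintype V]

/-- all pairs of different vertices -/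
def nd (V : Type) : Set (Sym2 V) := {e | ¬ e.IsDiag}

/-- the rigidity matroid at the placement `p` -/
noncomputable def RM (p : V → Fin 3 → ℝ) : Matroid (Sym2 V) :=
  linMatroid ℝ (efs p) (nd V) (Set.toFinite _)

theorem mot_eq (G : SimpleGraph V) (p : V → Fin 3 → ℝ) :
    (Submodule.span ℝ (efs p '' G.edgeSet)).dualCoannihilator = Mot G p := by
  ext q
  rw [Submodule.mem_dualCoannihilator, mem_mot]
  constructor
  · intro h u v huv
    exact h (efs p s(u, v)) (Submodule.subset_span ⟨s(u, v), huv, rfl⟩)
  · intro h f hf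
    induction hf using Submodule.span_induction with
    | mem x hx =>
      obtain ⟨e, he, rfl⟩ := hx
      induction e using Sym2.ind with
      | _ u v => exact h u v he
    | zero => simp
    | add x y _ _ hx hy => rw [LinearMap.add_apply, hx, hy, add_zero]
    | smul c x _ hx => rw [LinearMap.smul_apply, hx, smul_zero]

theorem eRk_eq (p : V → Fin 3 → ℝ) {X : Set (Sym2 V)} (hX : X ⊆ nd V) :
    (RM p).eRk X = (Module.finrank ℝ (Submodule.span ℝ (efs p '' X)) : ℕ∞) := by
  obtain ⟨I, hI⟩ := (RM p).exists_isBasis X hX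
  have hIi : LinearIndepOn ℝ (efs p) I := ((linMatroid_indep (efs p) (nd V) (Set.toFinite _) I).1
    hI.indep).2
  have hspan : Submodule.span ℝ (efs p '' I) = Submodule.span ℝ (efs p '' X) := by
    apply le_antisymm (Submodule.span_mono (Set.image_mono hI.subset))
    rw [Submodule.span_le]
    rintro _ ⟨x, hx, rfl⟩
    by_contra hnot
    have hins : (RM p).Indep (insert x I) :=
      ⟨Set.insert_subset (hX hx) (hI.subset.trans hX), hIi.insert hnot⟩
    have := hI.mem_of_insert_indep hx hins
    exact hnot (Submodule.subset_span (Set.mem_image_of_mem _ this))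
  rw [hI.eRk_eq_encard, ← hspan, finrank_span_of_linearIndepOn hIi (Set.toFinite _),
    Set.Finite.cast_ncard_eq (Set.toFinite _)]

theorem edge_nd (G : SimpleGraph V) : G.edgeSet ⊆ nd V := fun _ he => G.not_isDiag_of_mem_edgeSet he

theorem eRk_graph {p : V → Fin 3 → ℝ} (hp : MG p) (G : SimpleGraph V) :
    (RM p).eRk G.edgeSet = (genRank 3 G : ℕ∞) := by
  rw [eRk_eq p (edge_nd G)]
  have h1 := Subspace.finrank_add_finrank_dualCoannihilator_eq
    (Submodule.span ℝ (efs p '' G.edgeSet))
  rw [mot_eq, finrank_all] at h1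
  change _ + mo G p = _ at h1
  have h2 := genRank_add hp G
  have h3 : Module.finrank ℝ (Submodule.span ℝ (efs p '' G.edgeSet)) + mo G p =
    3 * Fintype.card V := h1
  congr 1
  exact Nat.add_right_cancel (h3.trans h2.symm)

/-- the complete graph on `A` -/
def kg (A : Finset V) : SimpleGraph V where
  Adj x y := x ≠ y ∧ x ∈ A ∧ y ∈ A
  symm := ⟨fun _ _ h => ⟨h.1.symm, h.2.2, h.2.1⟩⟩
  loopless := ⟨fun _ h => h.1 rfl⟩

omit [Fintype V] in
theorem kg_edge (A : Finset V) : (kg A).edgeSet = pairs A := by
  ext e
  induction e using Sym2.ind with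
  | _ x y =>
    rw [SimpleGraph.mem_edgeSet]
    constructor
    · rintro ⟨h1, h2, h3⟩
      refine ⟨by rw [Sym2.mk_isDiag_iff]; exact h1, fun z hz => ?_⟩
      rw [Sym2.mem_iff] at hz
      rcases hz with rfl | rfl
      · exact h2
      · exact h3
    · rintro ⟨h1, h2⟩
      rw [Sym2.mk_isDiag_iff] at h1
      exact ⟨h1, h2 x (by simp), h2 y (by simp)⟩

theorem card_pairs (A : Finset V) (hA : A.card = 5) : (pairs A).ncard = 10 := by
  classical
  have h : pairs A = ((A.sym2.filter fun e => ¬ e.IsDiag : Finset (Sym2 V)) : Set (Sym2 V)) := by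
    ext e
    rw [mem_coe, mem_filter, mem_sym2_iff]
    exact and_comm
  rw [h, Set.ncard_coe_finset]
  have h1 : (A.sym2.filter fun e => e.IsDiag).card = A.card := by
    rw [show (A.sym2.filter fun e => e.IsDiag) = A.image Sym2.diag from ?_]
    · exact card_image_of_injective _ Sym2.diag_injective
    · ext e
      rw [mem_filter, mem_image]
      constructor
      · rintro ⟨h1, h2⟩
        induction e using Sym2.ind with
        | _ x y =>
          rw [Sym2.mk_isDiag_iff] at h2
          subst h2
          exact ⟨x, by simpa using h1, rfl⟩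
      · rintro ⟨x, hx, rfl⟩
        exact ⟨by simpa [Sym2.diag] using hx, by simp [Sym2.diag]⟩
  have h2 := A.card_sym2
  have h3 := card_filter_add_card_filter_not (s := A.sym2) (fun e => e.IsDiag)
  rw [hA] at h1 h2
  have h4 : Nat.choose (5 + 1) 2 = 15 := rfl
  omega

theorem rm_circuit (hPIN : S_PIN) {p : V → Fin 3 → ℝ} (hp : MG p) (A : Finset V)
    (hA : A.card = 5) : (RM p).IsCircuit (pairs A) := by
  classical
  have hnd : pairs A ⊆ nd V := fun e he => he.1
  have h1 : mo (kg A) p + 9 = 3 * Fintype.card V := by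
    have h := (hPIN V (kg A) A ∅ (fun x _ => by simp) (fun x y h => Or.inl h.2.1) (by omega)
      (fun a ha b hb hab => ⟨hab, ha, hb⟩) p p hp (fun _ _ => rfl)).1
    have h0 : Module.finrank ℝ (PM (kg A) ∅ ∅ p) = 0 := by
      have : PM (kg A) ∅ ∅ p = ⊥ := by
        rw [eq_bot_iff]
        intro q hq
        rw [Submodule.mem_bot]
        funext x
        exact hq.2.1 x (by simp)
      rw [this, finrank_bot]
    rw [h0, hA, card_empty] at h
    omega
  have hr : ∀ e ∈ pairs A, (RM p).eRk (pairs A \ {e}) = 9 := by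
    intro e he
    have h2 : pairs A \ {e} = ((kg A).deleteEdges {e}).edgeSet := by
      rw [SimpleGraph.edgeSet_deleteEdges, kg_edge]
    rw [h2, eRk_graph hp]
    have h3 := genRank_add hp ((kg A).deleteEdges {e})
    have h4 : mo ((kg A).deleteEdges {e}) p ≤ mo (kg A) p := by
      apply mo_le_of_imp
      intro x y hxy
      by_cases hxe : s(x, y) = e
      · intro q hq
        refine circuit hp ((kg A).deleteEdges {e}) A (by omega) hxy.2.1 hxy.2.2 ?_ hq
        intro a ha b hb hab h5 h6
        rw [SimpleGraph.deleteEdges_adj]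
        refine ⟨⟨hab, ha, hb⟩, ?_⟩
        rw [Set.mem_singleton_iff, ← hxe, Sym2.eq_iff]
        rintro (h | h)
        · exact h5 h
        · exact h6 h
      · refine imp_of_adj ?_
        rw [SimpleGraph.deleteEdges_adj]
        exact ⟨hxy, hxe⟩
    have h5 : mo (kg A) p ≤ mo ((kg A).deleteEdges {e}) p :=
      mo_anti (SimpleGraph.deleteEdges_le _) p
    have : genRank 3 ((kg A).deleteEdges {e}) = 9 := by omega
    rw [this]
    rfl
  rw [Matroid.isCircuit_iff_dep_forall_sdiff_singleton_indep]
  have hcard := card_pairs A hA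
  constructor
  · rw [← Matroid.not_indep_iff (hnd : pairs A ⊆ (RM p).E)]
    intro hi
    have h2 := hi.eRk_eq_encard
    rw [← kg_edge, eRk_graph hp, kg_edge, ← Set.Finite.cast_ncard_eq (Set.toFinite _), hcard] at h2
    have h3 := genRank_add hp (kg A)
    have h4 : genRank 3 (kg A) = 10 := by exact_mod_cast h2
    omega
  · intro e he
    have h2 := hr e he
    obtain ⟨I, hI⟩ := (RM p).exists_isBasis (pairs A \ {e}) (Set.sdiff_subset.trans hnd)
    have h3 := hI.eRk_eq_encard
    rw [h2, ← Set.Finite.cast_ncard_eq (Set.toFinite _)] at h3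
    have h4 : I.ncard = 9 := by exact_mod_cast h3.symm
    have h5 : (pairs A \ {e}).ncard = 9 := by
      have := Set.ncard_sdiff_singleton_add_one he (Set.toFinite _)
      omega
    have h6 : I = pairs A \ {e} :=
      Set.eq_of_subset_of_ncard_le hI.subset (by omega) (Set.toFinite _)
    rw [← h6]
    exact hI.indep

end Pool.Agent.N423.DC.RMx
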