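import Mathlib
import Pool.Agent.N423.DC.Stm

/-!
# The last case: a rotation
-/

set_option autoImplicit false
set_option linter.unusedSectionVars false

namespace Pool.Agent.N423.DC

open Matrix Finset Pool.Agent.H283R2.DR Pool.Agent.H789R5 Pool.Agent.N423.DE

namespace ROT

/-- the infinitesimal rotation about the axis `a` through the point `o` -/
noncomputable def rt (a o : Fin 3 → ℝ) : (Fin 3 → ℝ) × (Fin 3 → ℝ) := (a, -(crossProduct a o))

theorem fld_rt (a o : Fin 3 → ℝ) (y : Fin 3 → ℝ) :
    fld (rt a o) y = crossProduct a (y - o) := by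
  simp only [fld, rt, map_sub]
  abel

open Classical in
/-- velocities given by `T` on the vertices with property `S` -/
noncomputable def QT {V : Type} (S : V → Prop) (p : V → Fin 3 → ℝ)
    (T : (Fin 3 → ℝ) × (Fin 3 → ℝ)) : V → Fin 3 → ℝ :=
  fun x => if S x then fld T (p x) else 0

theorem QT_mem (h : S_TRI) {V : Type} {G : SimpleGraph V} {Z : Finset V} (S : V → Prop)
    (p : V → Fin 3 → ℝ) (T : (Fin 3 → ℝ) × (Fin 3 → ℝ)) (hS : ∀ x, S x → x ∈ Z)
    (hb : ∀ x y, G.Adj x y → S x → ¬ S y → fld T (p y) = 0) : QT S p T ∈ PM G Z ∅ p := by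
  rw [mem_PM]
  refine ⟨fun x y hxy _ _ => ?_, fun x hx => ?_, fun x hx => by simp at hx⟩
  · by_cases h1 : S x
    · by_cases h2 : S y
      · simp only [QT, if_pos h1, if_pos h2]
        exact h.2.2 T _ _
      · have e := h.2.2 T (p x) (p y)
        rw [hb x y hxy h1 h2] at e
        simp only [QT, if_pos h1, if_neg h2]
        exact e
    · by_cases h2 : S y
      · have e := h.2.2 T (p x) (p y)
        rw [hb y x hxy.symm h2 h1] at e
        simp only [QT, if_neg h1, if_pos h2]
        exact e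
      · simp only [QT, if_neg h1, if_neg h2]
        simp
  · have : ¬ S x := fun h' => hx (hS x h')
    simp only [QT, if_neg this]

theorem aff3 {V : Type} [Fintype V] {p : V → Fin 3 → ℝ} (hp : MG p) {x y z : V} (hxy : x ≠ y)
    (hxz : x ≠ z) (hyz : y ≠ z) : AffineIndependent ℝ (![p x, p y, p z]) := by
  have hinj : Function.Injective (![x, y, z] : Fin 3 → V) := by
    intro i j hij
    fin_cases i <;> fin_cases j <;> simp_all
  have e := hp.pos 3 ![x, y, z] (by omega) hinj
  have e' : (fun i => p ((![x, y, z] : Fin 3 → V) i)) = ![p x, p y, p z] := by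
    funext i
    fin_cases i <;> rfl
  rw [← e']
  exact e

end ROT

theorem rot (h : S_TRI) : S_ROT := by
  intro V _ _ G R Z hub hc hC
  obtain ⟨v0, hv0⟩ := hc.ne
  -- the neighbour `w0`
  obtain ⟨w0, hw0, hvw⟩ : ∃ w0 ∈ Z, G.Adj v0 w0 := by
    by_contra hno
    push Not at hno
    have hsub : nb G v0 ⊆ {hub v0} := by
      intro y hy
      rw [mem_nb] at hy
      rw [Finset.mem_singleton]
      rcases hc.supp y v0 hy.symm with hy' | hy'
      · exact hc.hub_uniq v0 hv0 y hy' hy
      · exact absurd hy (hno y hy')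
    have := Finset.card_le_card hsub
    rw [hc.deg v0 hv0, Finset.card_singleton] at this
    omega
  set r0 := hub v0 with hr0
  set r1 := hub w0 with hr1
  have hr0R : r0 ∈ R := hc.hub_mem v0 hv0
  have hr1R : r1 ∈ R := hc.hub_mem w0 hw0
  let S : V → Prop := fun x => x ∈ Z ∧ (G.Adj w0 x ∨ G.Adj v0 x)
  have hSv : S v0 := ⟨hv0, Or.inl hvw.symm⟩
  have hSw : S w0 := ⟨hw0, Or.inr hvw⟩
  have hSR : ∀ x, S x → x ∉ R := fun x hx hx' => hc.disj x hx' hx.1
  have hbd : ∀ x y, G.Adj x y → S x → ¬ S y → y = r0 ∨ y = r1 := by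
    intro x y hxy hx hy
    rcases hx.2 with hx2 | hx2
    · have e := hC v0 hv0 w0 hw0 x hx.1 hvw hx2
      have hy1 : G.Adj v0 y := by
        have : y ∈ nb G x := mem_nb.2 hxy
        rw [e] at this
        exact mem_nb.1 this
      rcases hc.supp y x hxy.symm with hy' | hy'
      · exact Or.inl (hc.hub_uniq v0 hv0 y hy' hy1)
      · exact absurd (show S y from ⟨hy', Or.inr hy1⟩) hy
    · have e := hC w0 hw0 v0 hv0 x hx.1 hvw.symm hx2
      have hy1 : G.Adj w0 y := by
        have : y ∈ nb G x := mem_nb.2 hxy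
        rw [e] at this
        exact mem_nb.1 this
      rcases hc.supp y x hxy.symm with hy' | hy'
      · exact Or.inr (hc.hub_uniq w0 hw0 y hy' hy1)
      · exact absurd (show S y from ⟨hy', Or.inl hy1⟩) hy
  obtain ⟨p, hp⟩ := exists_mg V 3
  have hmem : ∀ T, fld T (p r0) = 0 → fld T (p r1) = 0 → ROT.QT S p T ∈ PM G Z ∅ p := by
    intro T h0 h1
    refine ROT.QT_mem h S p T (fun x hx => hx.1) (fun x y hxy hx hy => ?_)
    rcases hbd x y hxy hx hy with e | e
    · rw [e]; exact h0
    · rw [e]; exact h1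
  have hdim := hc.dimG p hp
  have hr0v : r0 ≠ v0 := fun e => hSR v0 hSv (e ▸ hr0R)
  have hr0w : r0 ≠ w0 := fun e => hSR w0 hSw (e ▸ hr0R)
  have hr1v : r1 ≠ v0 := fun e => hSR v0 hSv (e ▸ hr1R)
  -- every member is a multiple of a non-zero member
  have hmul : ∀ q ∈ PM G Z ∅ p, q ≠ 0 → ∀ q' ∈ PM G Z ∅ p, ∃ c : ℝ, q' = c • q := by
    intro q hq hq0 q' hq'
    have h1 := (finrank_eq_one_iff_of_nonzero' (⟨q, hq⟩ : PM G Z ∅ p)
      (fun e => hq0 (congrArg Subtype.val e))).1 hdim ⟨q', hq'⟩
    obtain ⟨c, hcc⟩ := h1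
    exact ⟨c, (congrArg Subtype.val hcc).symm⟩
  by_cases hrr : r0 = r1
  · -- two rotations
    let T1 := ROT.rt (![1, 0, 0]) (p r0)
    let T2 := ROT.rt (![0, 1, 0]) (p r0)
    have f1 : fld T1 (p r0) = 0 := by
      rw [ROT.fld_rt, sub_self, map_zero]
    have f2 : fld T2 (p r0) = 0 := by
      rw [ROT.fld_rt, sub_self, map_zero]
    have m1 := hmem T1 f1 (by rw [← hrr]; exact f1)
    have m2 := hmem T2 f2 (by rw [← hrr]; exact f2)
    have haff := ROT.aff3 hp hr0v hr0w hvw.ne
    have hz : ∀ T, fld T (p r0) = 0 → fld T (p v0) = 0 → fld T (p w0) = 0 → T = 0 := by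
      intro T h0 h1 h2
      refine h.2.1 _ haff T (fun i => ?_)
      fin_cases i
      · exact h0
      · exact h1
      · exact h2
    have n1 : ROT.QT S p T1 ≠ 0 := by
      intro e
      have e1 : fld T1 (p v0) = 0 := by
        have := congrFun e v0
        simpa only [ROT.QT, if_pos hSv, Pi.zero_apply] using this
      have e2 : fld T1 (p w0) = 0 := by
        have := congrFun e w0
        simpa only [ROT.QT, if_pos hSw, Pi.zero_apply] using this
      have e3 := congrArg Prod.fst (hz T1 f1 e1 e2)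
      have e4 := congrFun e3 0
      simp [T1, ROT.rt] at e4
    obtain ⟨c, hcq⟩ := hmul _ m1 n1 _ m2
    have hlin : ∀ y, fld (T2 - c • T1) y = fld T2 y - c • fld T1 y := by
      intro y
      simp only [fld, Prod.fst_sub, Prod.snd_sub, Prod.smul_fst, Prod.smul_snd, map_sub, map_smul,
        LinearMap.sub_apply, LinearMap.smul_apply, smul_add]
      abel
    have e1 : fld (T2 - c • T1) (p v0) = 0 := by
      have := congrFun hcq v0
      simp only [ROT.QT, if_pos hSv, Pi.smul_apply] at this
      rw [hlin, this, sub_self]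
    have e2 : fld (T2 - c • T1) (p w0) = 0 := by
      have := congrFun hcq w0
      simp only [ROT.QT, if_pos hSw, Pi.smul_apply] at this
      rw [hlin, this, sub_self]
    have e0 : fld (T2 - c • T1) (p r0) = 0 := by
      rw [hlin, f1, f2, smul_zero, sub_self]
    have e3 := congrArg Prod.fst (hz _ e0 e1 e2)
    have e4 := congrFun e3 1
    simp [T1, T2, ROT.rt] at e4
  · let T := ROT.rt (p r1 - p r0) (p r0)
    have f0 : fld T (p r0) = 0 := by
      rw [ROT.fld_rt, sub_self, map_zero]
    have f1 : fld T (p r1) = 0 := by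
      rw [ROT.fld_rt]
      exact cross_self _
    have m := hmem T f0 f1
    have haff := ROT.aff3 hp hrr hr0v hr1v
    have n : ROT.QT S p T ≠ 0 := by
      intro e
      have e1 : fld T (p v0) = 0 := by
        have := congrFun e v0
        simpa only [ROT.QT, if_pos hSv, Pi.zero_apply] using this
      have e2 : T = 0 := by
        refine h.2.1 _ haff T (fun i => ?_)
        fin_cases i
        · exact f0
        · exact f1
        · exact e1
      have e3 : p r1 - p r0 = 0 := congrArg Prod.fst e2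
      have e4 := haff.injective (show (![p r0, p r1, p v0] : Fin 3 → Fin 3 → ℝ) 0 =
        (![p r0, p r1, p v0] : Fin 3 → Fin 3 → ℝ) 1 from (sub_eq_zero.1 e3).symm)
      exact absurd e4 (by decide)
    have hadj : G.Adj v0 r1 := by
      refine hc.closed p hp v0 r1 (Or.inr hv0) (Or.inl hr1R) hr1v.symm (fun q hq => ?_)
      obtain ⟨c, rfl⟩ := hmul _ m n q hq
      have hS1 : ¬ S r1 := fun h' => hSR r1 h' hr1R
      have e := h.2.2 T (p v0) (p r1)
      rw [f1] at e
      simp only [Pi.smul_apply, ROT.QT, if_pos hSv, if_neg hS1]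
      rw [← smul_sub, dotProduct_smul, e, smul_zero]
    exact hrr (hc.hub_uniq v0 hv0 r1 hr1R hadj).symm

end Pool.Agent.N423.DC
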