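import Mathlib
import Pool.Agent.N423.DC.Stm

set_option autoImplicit false

/-! # DC/SP (helper401): a placement in which `X` is the only set of four coplanar points -/

namespace Pool.Agent.N423.DC

namespace SP

open Finset Pool.Agent.H283R2.DR Pool.Agent.H283R2.DR.TA

variable {V : Type} [DecidableEq V]

/-- the point `x4` is moved to the centre of the points in `T` -/
noncomputable def Ph (x4 : V) (T : Finset V) (p : V → Fin 3 → ℝ) : V → Fin 3 → ℝ :=
  Function.update p x4 ((1 / 3 : ℝ) • ∑ t ∈ T, p t)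

theorem Ph_self (x4 : V) (T : Finset V) (p : V → Fin 3 → ℝ) :
    Ph x4 T p x4 = (1 / 3 : ℝ) • ∑ t ∈ T, p t := by
  unfold Ph
  rw [Function.update_self]

theorem Ph_ne {x4 : V} (T : Finset V) (p : V → Fin 3 → ℝ) {v : V} (h : v ≠ x4) :
    Ph x4 T p v = p v := by
  unfold Ph
  rw [Function.update_of_ne h]

theorem Ph_line (x4 : V) (T : Finset V) (p0 p1 : V → Fin 3 → ℝ) (s : ℝ) :
    Ph x4 T (p0 + s • (p1 - p0)) = Ph x4 T p0 + s • (Ph x4 T p1 - Ph x4 T p0) := by
  funext v
  by_cases h : v = x4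
  · subst h
    simp only [Ph_self, Pi.add_apply, Pi.smul_apply, Pi.sub_apply, Finset.sum_add_distrib,
      ← Finset.smul_sum, Finset.sum_sub_distrib, smul_add, smul_sub]
    rw [smul_comm s, smul_comm s]
  · simp only [Pi.add_apply, Pi.smul_apply, Pi.sub_apply, Ph_ne T _ h]

theorem good (x4 : V) (T : Finset V) (x : Fin 4 → V) :
    Good (fun p : V → Fin 3 → ℝ => AffineIndependent ℝ (fun i => Ph x4 T p (x i))) := by
  intro p0 p1 h0
  have h1 := affine_good x (Ph x4 T p0) (Ph x4 T p1) h0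
  simp only [Ph_line]
  exact h1

theorem sat {x4 : V} {T : Finset V} (hx4 : x4 ∉ T) (x : Fin 4 → V) (hx : Function.Injective x)
    (h : (∃ i, x i = x4) → ∃ a ∈ T, ∀ i, x i ≠ a) :
    ∃ p : V → Fin 3 → ℝ, AffineIndependent ℝ (fun i => Ph x4 T p (x i)) := by
  obtain ⟨p', hp'⟩ := affine_sat (d := 3) (n := 4) le_rfl x hx
  by_cases h4 : ∃ i, x i = x4
  · obtain ⟨a, haT, ha⟩ := h h4
    have hax4 : x4 ≠ a := fun h => hx4 (h ▸ haT)
    refine ⟨Function.update p' a ((3 : ℝ) • p' x4 - ∑ t ∈ T \ {a}, p' t), ?_⟩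
    have key : ∀ v, v ≠ a → Ph x4 T (Function.update p' a
        ((3 : ℝ) • p' x4 - ∑ t ∈ T \ {a}, p' t)) v = p' v := by
      intro v hv
      by_cases hv4 : v = x4
      · rw [hv4, Ph_self, Finset.sum_update_of_mem haT, sub_add_cancel, smul_smul]
        norm_num
      · rw [Ph_ne T _ hv4, Function.update_of_ne hv]
    have e : (fun i => Ph x4 T (Function.update p' a
        ((3 : ℝ) • p' x4 - ∑ t ∈ T \ {a}, p' t)) (x i)) = fun i => p' (x i) :=
      funext fun i => key (x i) (ha i)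
    rw [e]
    exact hp'
  · refine ⟨p', ?_⟩
    have e : (fun i => Ph x4 T p' (x i)) = fun i => p' (x i) :=
      funext fun i => Ph_ne T p' fun hh => h4 ⟨i, hh⟩
    rw [e]
    exact hp'

theorem dep {x4 : V} {T : Finset V} (hx4 : x4 ∉ T) (hT : T.card = 3) (p : V → Fin 3 → ℝ)
    (x : Fin 4 → V) (hx : Function.Injective x) (hX : ∀ i, x i ∈ insert x4 T) :
    ¬ AffineIndependent ℝ (fun i => Ph x4 T p (x i)) := by
  intro hind
  rw [affineIndependent_iff] at hind
  have himg : (Finset.univ : Finset (Fin 4)).image x = insert x4 T := by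
    apply Finset.eq_of_subset_of_card_le
    · intro v hv
      obtain ⟨i, -, rfl⟩ := Finset.mem_image.1 hv
      exact hX i
    · rw [Finset.card_image_of_injective _ hx, Finset.card_insert_of_notMem hx4, hT]
      simp
  have hneT : ∀ t ∈ T, t ≠ x4 := fun t ht h => hx4 (h ▸ ht)
  let w : V → ℝ := fun v => if v = x4 then -3 else 1
  have hw4 : w x4 = -3 := if_pos rfl
  have hwT : ∀ t ∈ T, w t = 1 := fun t ht => if_neg (hneT t ht)
  have hsum : ∀ f : V → Fin 3 → ℝ, ∑ i, f (x i) = f x4 + ∑ t ∈ T, f t := by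
    intro f
    rw [← Finset.sum_insert hx4, ← himg, Finset.sum_image fun i _ j _ h => hx h]
  have hsum' : ∀ f : V → ℝ, ∑ i, f (x i) = f x4 + ∑ t ∈ T, f t := by
    intro f
    rw [← Finset.sum_insert hx4, ← himg, Finset.sum_image fun i _ j _ h => hx h]
  have h1 : ∑ i, w (x i) = 0 := by
    rw [hsum' w, hw4, Finset.sum_congr rfl hwT, Finset.sum_const, hT]
    norm_num
  have h2 : ∑ i, w (x i) • Ph x4 T p (x i) = 0 := by
    rw [hsum fun v => w v • Ph x4 T p v, hw4, Ph_self]
    have h3 : ∑ t ∈ T, w t • Ph x4 T p t = ∑ t ∈ T, p t := by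
      refine Finset.sum_congr rfl fun t ht => ?_
      rw [hwT t ht, one_smul, Ph_ne T p (hneT t ht)]
    rw [h3, smul_smul]
    norm_num
  have h4 := hind Finset.univ (fun i => w (x i)) h1 h2 0 (Finset.mem_univ _)
  have h5 : w (x 0) ≠ 0 := by
    show (if x 0 = x4 then (-3 : ℝ) else 1) ≠ 0
    split_ifs <;> norm_num
  exact h5 h4

end SP

open SP Pool.Agent.H283R2.DR.TA in
theorem sp : S_SP := by
  classical
  intro V _ _ X hX
  have hne : X.Nonempty := by
    rw [← Finset.card_pos, hX]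
    norm_num
  obtain ⟨x4, hx4⟩ := hne
  set T := X.erase x4 with hT
  have hx4T : x4 ∉ T := Finset.notMem_erase x4 X
  have hTX : insert x4 T = X := Finset.insert_erase hx4
  have hTc : T.card = 3 := by
    rw [hT, Finset.card_erase_of_mem hx4, hX]
  obtain ⟨p, hp⟩ := good_family (E := V → Fin 3 → ℝ)
    (ι := {x : Fin 4 → V // Function.Injective x ∧ ¬ ∀ i, x i ∈ X})
    (fun x p => AffineIndependent ℝ (fun i => Ph x4 T p (x.1 i)))
    (fun x => good x4 T x.1) (by
      rintro ⟨x, hx, hxX⟩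
      refine sat hx4T x hx fun h4 => ?_
      by_contra hc
      push Not at hc
      apply hxX
      have h1 : X ⊆ (Finset.univ : Finset (Fin 4)).image x := by
        intro v hv
        rw [← hTX, Finset.mem_insert] at hv
        rcases hv with rfl | hv
        · obtain ⟨i, hi⟩ := h4
          exact Finset.mem_image.2 ⟨i, Finset.mem_univ _, hi⟩
        · obtain ⟨i, hi⟩ := hc v hv
          exact Finset.mem_image.2 ⟨i, Finset.mem_univ _, hi⟩
      have h2 := Finset.eq_of_subset_of_card_le h1 (by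
        rw [Finset.card_image_of_injective _ hx, hX]
        simp)
      intro i
      rw [h2]
      exact Finset.mem_image.2 ⟨i, Finset.mem_univ _, rfl⟩)
  refine ⟨Ph x4 T p, fun x hx => ⟨fun h hall => ?_, fun h => hp ⟨x, hx, h⟩⟩⟩
  exact dep hx4T hTc p x hx (fun i => by rw [hTX]; exact hall i) h

end Pool.Agent.N423.DC
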