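import Mathlib
import Pool.Agent.N423.DC.Stm

/-!
# Graphs with a dominating clique: the stress (helper221 for helper423)
-/

set_option autoImplicit false
set_option linter.unusedSectionVars false

namespace Pool.Agent.N423.DC

open Matrix Finset Pool.Agent.H283R2.DR Pool.Agent.H789R5 Pool.Agent.N423.DE

namespace STR

/-! ### Linear algebra -/

theorem exists_ann {W κ : Type} [AddCommGroup W] [Module ℝ W] [FiniteDimensional ℝ W]
    [DecidableEq κ] (E : Submodule ℝ W) (ψ : κ → W →ₗ[ℝ] ℝ) (S : Finset κ)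
    (hd : Module.finrank ℝ E = S.card) (hn : ∃ q ∈ E, q ≠ 0 ∧ ∀ e ∈ S, ψ e q = 0) :
    ∃ c : κ → ℝ, (∃ e ∈ S, c e ≠ 0) ∧ (∀ e, e ∉ S → c e = 0) ∧
      ∀ q ∈ E, ∑ e ∈ S, c e * ψ e q = 0 := by
  let Ψ : E →ₗ[ℝ] (S → ℝ) := LinearMap.pi fun t => (ψ t).comp E.subtype
  have hns : ¬ Function.Surjective Ψ := by
    intro hs
    have hi : Function.Injective Ψ := by
      refine (LinearMap.injective_iff_surjective_of_finrank_eq_finrank ?_).2 hs
      rw [hd, Module.finrank_fintype_fun_eq_card, Fintype.card_coe]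
    obtain ⟨q, hqE, hq0, hq⟩ := hn
    have h1 : Ψ ⟨q, hqE⟩ = Ψ 0 := by
      rw [map_zero]
      funext t
      exact hq t t.2
    exact hq0 (congrArg Subtype.val (hi h1))
  have hlt : LinearMap.range Ψ < ⊤ := by
    rw [lt_top_iff_ne_top]
    intro h
    exact hns (LinearMap.range_eq_top.1 h)
  obtain ⟨g, hg0, hg⟩ := Submodule.exists_le_ker_of_lt_top _ hlt
  refine ⟨fun e => if h : e ∈ S then g (Pi.single ⟨e, h⟩ 1) else 0, ?_, ?_, ?_⟩
  · by_contra hcon
    push Not at hcon
    apply hg0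
    refine LinearMap.pi_ext' fun t => LinearMap.ext fun x => ?_
    have h1 := hcon t t.2
    rw [dif_pos t.2] at h1
    rw [LinearMap.comp_apply, LinearMap.single_apply, LinearMap.zero_comp, LinearMap.zero_apply]
    have h2 : (Pi.single t x : S → ℝ) = x • Pi.single t (1 : ℝ) := by
      rw [← Pi.single_smul, smul_eq_mul, mul_one]
    rw [h2, map_smul, h1, smul_zero]
  · intro e he
    exact dif_neg he
  · intro q hq
    have h1 : g (Ψ ⟨q, hq⟩) = 0 := hg ⟨_, rfl⟩
    rw [LinearMap.pi_apply_eq_sum_univ g] at h1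
    refine Eq.trans ?_ h1
    rw [← Finset.sum_coe_sort]
    refine Finset.sum_congr rfl fun t _ => ?_
    have h2 : (if h : (t : κ) ∈ S then g (Pi.single ⟨(t : κ), h⟩ 1) else 0) =
        g fun j => if t = j then 1 else 0 := by
      rw [dif_pos t.2]
      congr 1
      funext j
      by_cases h : t = j
      · subst h; simp
      · rw [if_neg h, Pi.single_eq_of_ne (Ne.symm h)]
    rw [smul_eq_mul, mul_comm, ← h2]
    rfl

theorem ann_zero {W κ : Type} [AddCommGroup W] [Module ℝ W] [FiniteDimensional ℝ W]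
    [DecidableEq κ] (E K : Submodule ℝ W) (ψ : κ → W →ₗ[ℝ] ℝ) (S : Finset κ)
    (hK : ∀ q ∈ E, (∀ e ∈ S, ψ e q = 0) → q ∈ K)
    (hd : Module.finrank ℝ K + S.card ≤ Module.finrank ℝ E) (c : κ → ℝ)
    (hc : ∀ q ∈ E, ∑ e ∈ S, c e * ψ e q = 0) : ∀ e ∈ S, c e = 0 := by
  let Ψ : E →ₗ[ℝ] (S → ℝ) := LinearMap.pi fun t => (ψ t).comp E.subtype
  have h1 := LinearMap.finrank_range_add_finrank_ker Ψ
  have h3 : Module.finrank ℝ (LinearMap.ker Ψ) ≤ Module.finrank ℝ K := by
    rw [← Submodule.finrank_map_subtype_eq E (LinearMap.ker Ψ)]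
    apply Submodule.finrank_mono
    rintro _ ⟨q, hq, rfl⟩
    refine hK _ q.2 fun e he => ?_
    exact congrFun (LinearMap.mem_ker.1 hq) ⟨e, he⟩
  have h4 : LinearMap.range Ψ = ⊤ := by
    apply Submodule.eq_top_of_finrank_eq
    apply le_antisymm (Submodule.finrank_le _)
    rw [Module.finrank_fintype_fun_eq_card, Fintype.card_coe]
    omega
  intro e he
  obtain ⟨q, hq⟩ := LinearMap.range_eq_top.1 h4 (Pi.single ⟨e, he⟩ 1)
  have h5 := hc q q.2
  rw [Finset.sum_eq_single e] at h5
  · have h6 : ψ e q = 1 := by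
      have := congrFun hq ⟨e, he⟩
      rw [Pi.single_eq_same] at this
      exact this
    rwa [h6, mul_one] at h5
  · intro e' he' hne
    have h6 : ψ e' q = 0 := by
      have := congrFun hq ⟨e', he'⟩
      rw [Pi.single_eq_of_ne (fun h => hne (congrArg Subtype.val h))] at this
      exact this
    rw [h6, mul_zero]
  · intro h
    exact absurd he h

theorem prin {X : Type} [AddCommGroup X] [Module ℝ X] [FiniteDimensional ℝ X]
    (N : Submodule ℝ X) (h : Module.finrank ℝ N ≤ 1) :
    ∃ n : X, ∀ w ∈ N, ∃ c : ℝ, c • n = w := by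
  obtain ⟨n, hn⟩ := finrank_le_one_iff.1 h
  refine ⟨n, fun w hw => ?_⟩
  obtain ⟨c, hc⟩ := hn ⟨w, hw⟩
  exact ⟨c, congrArg Subtype.val hc⟩

theorem two_ann {W : Type} [AddCommGroup W] [Module ℝ W] [FiniteDimensional ℝ W]
    (B : W →ₗ[ℝ] (Fin 5 → ℝ)) (hB : 4 ≤ Module.finrank ℝ (LinearMap.range B))
    (a b : Fin 5 → ℝ) (ha : ∀ w, ∑ i, a i * B w i = 0) (hb : ∀ w, ∑ i, b i * B w i = 0)
    (hb0 : ∃ i, b i ≠ 0) : ∃ s : ℝ, ∀ i, a i = s * b i := by
  let f : (Fin 5 → ℝ) → Module.Dual ℝ (Fin 5 → ℝ) := fun a =>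
    { toFun := fun x => ∑ i, a i * x i
      map_add' := fun x y => by simp [mul_add, Finset.sum_add_distrib]
      map_smul' := fun c x => by
        simp only [Pi.smul_apply, smul_eq_mul, RingHom.id_apply, Finset.mul_sum]
        exact Finset.sum_congr rfl fun i _ => by ring }
  have hf : ∀ a x, f a x = ∑ i, a i * x i := fun _ _ => rfl
  have h1 := Subspace.finrank_add_finrank_dualAnnihilator_eq (LinearMap.range B)
  rw [Module.finrank_fintype_fun_eq_card, Fintype.card_fin] at h1
  have h2 : Module.finrank ℝ (LinearMap.range B).dualAnnihilator ≤ 1 := by omega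
  obtain ⟨n, hn⟩ := prin (X := Module.Dual ℝ (Fin 5 → ℝ)) _ h2
  have hmem : ∀ a : Fin 5 → ℝ, (∀ w, ∑ i, a i * B w i = 0) →
      f a ∈ (LinearMap.range B).dualAnnihilator := by
    intro a ha
    rw [Submodule.mem_dualAnnihilator]
    rintro _ ⟨w, rfl⟩
    exact ha w
  obtain ⟨x, hx⟩ := hn (f a) (hmem a ha)
  obtain ⟨y, hy⟩ := hn (f b) (hmem b hb)
  have hval : ∀ (a : Fin 5 → ℝ) i, f a (Pi.single i 1) = a i := by
    intro a i
    rw [hf, Finset.sum_eq_single i]
    · rw [Pi.single_eq_same, mul_one]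
    · intro j _ hj
      rw [Pi.single_eq_of_ne hj, mul_zero]
    · intro h; exact absurd (Finset.mem_univ i) h
  have hx' : ∀ i, x * n (Pi.single i 1) = a i := by
    intro i
    rw [← hval a i]
    exact LinearMap.congr_fun hx (Pi.single i 1)
  have hy' : ∀ i, y * n (Pi.single i 1) = b i := by
    intro i
    rw [← hval b i]
    exact LinearMap.congr_fun hy (Pi.single i 1)
  have hy0 : y ≠ 0 := by
    rintro rfl
    obtain ⟨i, hi⟩ := hb0
    exact hi (by rw [← hy' i, zero_mul])
  refine ⟨x / y, fun i => ?_⟩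
  rw [← hx', ← hy']
  field_simp

/-! ### Bookkeeping -/

variable {V : Type} [Fintype V] [DecidableEq V]

theorem finrank_supp (A : Finset V) (M : Submodule ℝ (V → Fin 3 → ℝ))
    (hM : ∀ q, q ∈ M ↔ ∀ x, x ∉ A → q x = 0) : Module.finrank ℝ M = 3 * A.card := by
  let f : M →ₗ[ℝ] (A → Fin 3 → ℝ) := LinearMap.pi fun a => (LinearMap.proj (a : V)).comp M.subtype
  have hf : ∀ q a, f q a = q.1 a := fun _ _ => rfl
  have hb : Function.Bijective f := by
    constructor
    · intro q q' h
      apply Subtype.ext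
      funext x
      by_cases hx : x ∈ A
      · exact congrFun h ⟨x, hx⟩
      · rw [(hM _).1 q.2 x hx, (hM _).1 q'.2 x hx]
    · intro g
      refine ⟨⟨fun x => if h : x ∈ A then g ⟨x, h⟩ else 0, (hM _).2 fun x hx => dif_neg hx⟩, ?_⟩
      funext a
      rw [hf]
      exact dif_pos a.2
  rw [(LinearEquiv.ofBijective f hb).finrank_eq, finrank_all, Fintype.card_coe]

theorem sum_pairs (f : Sym2 V → ℝ) (hf : ∀ a, f s(a, a) = 0) :
    ∑ x, ∑ y, f s(x, y) = 2 * ∑ e, f e := by
  rw [← Finset.sum_product', ← Finset.sum_fiberwise (univ ×ˢ univ) (fun a : V × V => s(a.1, a.2)),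
    Finset.mul_sum]
  refine Finset.sum_congr rfl fun e _ => ?_
  rw [Finset.sum_congr rfl (g := fun _ => f e) (fun a ha => by rw [(Finset.mem_filter.1 ha).2]),
    Finset.sum_const, nsmul_eq_mul]
  induction e using Sym2.ind with
  | _ a b =>
    by_cases h : a = b
    · subst h
      rw [hf, mul_zero, mul_zero]
    · congr 1
      have h1 : ((univ ×ˢ univ : Finset (V × V)).filter fun i => s(i.1, i.2) = s(a, b)) =
          {(a, b), (b, a)} := by
        ext ⟨x, y⟩
        simp only [Finset.mem_filter, Finset.mem_product, Finset.mem_univ, true_and,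
          Finset.mem_insert, Finset.mem_singleton, Prod.mk.injEq, Sym2.eq_iff]
      rw [h1, Finset.card_pair (fun hh => h (Prod.ext_iff.1 hh).1)]
      norm_num

end STR

open STR

theorem str (h1 : S_DIM) (h2 : S_MU) : S_STR := by
  classical
  intro V _ _ G R Z hub en hc he hT p hp
  -- the edges that touch Z
  set S : Finset (Sym2 V) := Finset.univ.filter fun e => e ∈ G.edgeSet ∧ ∃ z ∈ Z, z ∈ e with hS
  have mS : ∀ x y, s(x, y) ∈ S ↔ G.Adj x y ∧ (x ∈ Z ∨ y ∈ Z) := by
    intro x y
    rw [hS, Finset.mem_filter, SimpleGraph.mem_edgeSet]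
    constructor
    · rintro ⟨_, h, z, hz, hz'⟩
      refine ⟨h, ?_⟩
      rcases Sym2.mem_iff.1 hz' with rfl | rfl
      · exact Or.inl hz
      · exact Or.inr hz
    · rintro ⟨h, hx | hy⟩
      · exact ⟨Finset.mem_univ _, h, x, hx, Sym2.mem_mk_left x y⟩
      · exact ⟨Finset.mem_univ _, h, y, hy, Sym2.mem_mk_right x y⟩
  -- an edge in Z
  have hRZ : ∀ x, x ∈ R → x ∉ Z := hc.disj
  have hexe : ∃ x ∈ Z, ∃ y ∈ Z, G.Adj x y := by
    obtain ⟨v, hv⟩ := hc.ne
    have h5 := hc.deg v hv
    have h3 : 1 < (nb G v).card := by omega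
    obtain ⟨a, ha, b, hb, hab⟩ := Finset.one_lt_card.1 h3
    rw [mem_nb] at ha hb
    rcases hc.supp a v ha.symm with ha' | ha'
    · rcases hc.supp b v hb.symm with hb' | hb'
      · exact absurd ((hc.hub_uniq v hv a ha' ha).trans (hc.hub_uniq v hv b hb' hb).symm) hab
      · exact ⟨v, hv, b, hb', hb⟩
    · exact ⟨v, hv, a, ha', ha⟩
  -- the number of the edges
  have cS : S.card = 3 * Z.card := by
    set G' : SimpleGraph V :=
      { Adj := fun x y => G.Adj x y ∧ x ∈ R ∧ y ∈ R
        symm := ⟨fun _ _ h => ⟨h.1.symm, h.2.2, h.2.1⟩⟩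
        loopless := ⟨fun _ h => h.1.ne rfl⟩ } with hG'
    have e1 := hc.dimS p hp G' (fun x y h => h.1)
      (fun a ha b hb hab => ⟨hc.clique a ha b hb hab, ha, hb⟩) (by
        obtain ⟨x, hx, y, hy, hxy⟩ := hexe
        exact ⟨x, hx, y, hy, hxy, fun h => hRZ x h.2.1 hx⟩)
    rw [finrank_supp Z (PM G' Z ∅ p) (fun q => ⟨fun h => h.2.1, fun h =>
      ⟨fun x y hxy _ _ => by
        rw [h x (hRZ x hxy.2.1), h y (hRZ y hxy.2.2), sub_zero, dotProduct_zero], h,
        fun x hx => absurd hx (Finset.notMem_empty x)⟩⟩)] at e1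
    rw [e1]
    have e2 : G.edgeSet \ G'.edgeSet = (S : Set (Sym2 V)) := by
      ext e
      induction e using Sym2.ind with
      | _ x y =>
        rw [Set.mem_sdiff, SimpleGraph.mem_edgeSet, SimpleGraph.mem_edgeSet, Finset.mem_coe, mS]
        constructor
        · rintro ⟨h, h'⟩
          refine ⟨h, ?_⟩
          by_contra hcon
          push Not at hcon
          exact h' ⟨h, (hc.supp x y h).resolve_right hcon.1,
            (hc.supp y x h.symm).resolve_right hcon.2⟩
        · rintro ⟨h, h'⟩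
          refine ⟨h, fun hh => ?_⟩
          rcases h' with h' | h'
          · exact hRZ x hh.2.1 h'
          · exact hRZ y hh.2.2 h'
    rw [e2, Set.ncard_coe_finset]
  -- functions supported on Z
  have fE : ∀ D : Finset V, Module.finrank ℝ (PM (⊥ : SimpleGraph V) Z D p) =
      3 * (Z \ D).card := by
    intro D
    refine finrank_supp (Z \ D) _ fun q => ?_
    rw [mem_PM]
    constructor
    · rintro ⟨_, h, h'⟩ x hx
      by_cases hxD : x ∈ D
      · exact h' x hxD
      · exact h x fun hxZ => hx (Finset.mem_sdiff.2 ⟨hxZ, hxD⟩)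
    · intro h
      refine ⟨fun x y hxy => absurd hxy (by simp), fun x hx => h x fun hh =>
        hx (Finset.mem_sdiff.1 hh).1, fun x hx => h x fun hh => (Finset.mem_sdiff.1 hh).2 hx⟩
  have memE : ∀ (D : Finset V) (q : V → Fin 3 → ℝ), q ∈ PM (⊥ : SimpleGraph V) Z D p ↔
      (∀ x, x ∉ Z → q x = 0) ∧ ∀ x ∈ D, q x = 0 := fun D q =>
    ⟨fun h => h.2, fun h => ⟨fun x y hxy => absurd hxy (by simp), h⟩⟩
  -- the stress
  obtain ⟨c, ⟨e0, he0, hce0⟩, hc0, hc1⟩ := exists_ann (PM (⊥ : SimpleGraph V) Z ∅ p) (efs p) S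
    (by rw [fE, Finset.sdiff_empty, cS]) (by
      have h3 := hc.dimG p hp
      have h4 : PM G Z ∅ p ≠ ⊥ := by
        intro h
        rw [h, finrank_bot] at h3
        exact absurd h3 (by norm_num)
      obtain ⟨q, hq, hq0⟩ := Submodule.exists_mem_ne_zero_of_ne_bot h4
      refine ⟨q, (memE _ _).2 hq.2, hq0, ?_⟩
      intro e he
      induction e using Sym2.ind with
      | _ x y =>
        exact hq.1 x y ((mS x y).1 he).1 (Finset.notMem_empty _) (Finset.notMem_empty _))
  refine ⟨fun x y => c s(x, y), fun x y => congrArg c Sym2.eq_swap, ?_, ?_, ?_⟩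
  · intro x y hxy
    by_contra hcon
    exact hxy (hc0 _ fun h => hcon ((mS x y).1 h).1)
  · intro q hq
    have e1 := sum_pairs (fun e => c e * efs p e q) (fun a => by
      have : efs p s(a, a) q = (p a - p a) ⬝ᵥ (q a - q a) := rfl
      rw [this, sub_self, zero_dotProduct, mul_zero])
    have e2 : ∑ e, c e * efs p e q = ∑ e ∈ S, c e * efs p e q := by
      symm
      apply Finset.sum_subset (Finset.subset_univ S)
      intro e _ he
      rw [hc0 e he, zero_mul]
    rw [e2, hc1 q ((memE _ _).2 ⟨hq, fun x hx => absurd hx (Finset.notMem_empty x)⟩),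
      mul_zero] at e1
    exact e1
  -- the vertex condition
  intro v hv
  obtain ⟨hinj, hen⟩ := he v hv
  have hadj : ∀ i, G.Adj v (en v i) := fun i => (hen _).2 ⟨i, rfl⟩
  have hvne : ∀ i, en v i ≠ v := fun i h => (hadj i).ne h.symm
  have hinj2 : Function.Injective fun i => s(v, en v i) := by
    intro i j hij
    exact hinj (Sym2.congr_right.1 hij)
  have hfil : S.filter (fun e => v ∈ e) = Finset.univ.image fun i => s(v, en v i) := by
    ext e
    rw [Finset.mem_filter, Finset.mem_image]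
    constructor
    · rintro ⟨h, h'⟩
      obtain ⟨w, rfl⟩ := h'
      obtain ⟨i, rfl⟩ := (hen w).1 ((mS v w).1 h).1
      exact ⟨i, Finset.mem_univ _, rfl⟩
    · rintro ⟨i, _, rfl⟩
      exact ⟨(mS _ _).2 ⟨hadj i, Or.inl hv⟩, Sym2.mem_mk_left _ _⟩
  have hfc : (S.filter (fun e => v ∈ e)).card = 5 := by
    rw [hfil, Finset.card_image_of_injective _ hinj2, Finset.card_univ, Fintype.card_fin]
  have hsplit : ∀ q : V → Fin 3 → ℝ, ∑ e ∈ S, c e * efs p e q =
      (∑ i, c s(v, en v i) * ((p v - p (en v i)) ⬝ᵥ (q v - q (en v i)))) +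
        ∑ e ∈ S.filter (fun e => ¬ v ∈ e), c e * efs p e q := by
    intro q
    rw [← Finset.sum_filter_add_sum_filter_not S (fun e => v ∈ e), hfil,
      Finset.sum_image fun i _ j _ hij => hinj2 hij]
    rfl
  have f2 : Module.finrank ℝ (PM G Z {v} p) = 2 := by
    have h3 := h1 V G R Z hub hc p hp {v} (Finset.singleton_subset_iff.2 hv)
      (Finset.singleton_nonempty v) (fun a ha b hb hab => absurd
        ((Finset.mem_singleton.1 ha).trans (Finset.mem_singleton.1 hb).symm) hab)
    rw [Finset.card_singleton] at h3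
    simpa using h3
  -- the linear map B
  let B : (PM G Z {v} p × (Fin 3 → ℝ)) →ₗ[ℝ] (Fin 5 → ℝ) :=
    { toFun := fun w i => (p v - p (en v i)) ⬝ᵥ (w.2 - w.1.1 (en v i))
      map_add' := fun w w' => by
        funext i
        simp only [Prod.snd_add, Prod.fst_add, Submodule.coe_add, Pi.add_apply]
        rw [← dotProduct_add]
        congr 1
        abel
      map_smul' := fun a w => by
        funext i
        simp only [Prod.smul_snd, Prod.smul_fst, Submodule.coe_smul, Pi.smul_apply,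
          RingHom.id_apply]
        rw [← smul_sub, dotProduct_smul] }
  have hBv : ∀ w i, B w i = (p v - p (en v i)) ⬝ᵥ (w.2 - w.1.1 (en v i)) := fun _ _ => rfl
  -- the extension of a pair
  let ex : (PM G Z {v} p × (Fin 3 → ℝ)) →ₗ[ℝ] (V → Fin 3 → ℝ) :=
    (PM G Z {v} p).subtype.comp (LinearMap.fst ℝ _ _) +
      (LinearMap.single ℝ (fun _ : V => Fin 3 → ℝ) v).comp (LinearMap.snd ℝ _ _)
  have exv : ∀ w, ex w v = w.2 := by
    intro w
    have h3 : w.1.1 v = 0 := w.1.2.2.2 v (Finset.mem_singleton_self v)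
    change w.1.1 v + (Pi.single v w.2 : V → Fin 3 → ℝ) v = w.2
    rw [h3, Pi.single_eq_same, zero_add]
  have exn : ∀ w x, x ≠ v → ex w x = w.1.1 x := by
    intro w x hx
    change w.1.1 x + (Pi.single v w.2 : V → Fin 3 → ℝ) x = w.1.1 x
    rw [Pi.single_eq_of_ne hx, add_zero]
  have exi : ∀ w, ex w = 0 → w = 0 := by
    intro w hw
    have h3 : w.2 = 0 := by rw [← exv w, hw]; rfl
    have h4 : w.1 = 0 := by
      apply Subtype.ext
      funext x
      by_cases hx : x = v
      · rw [hx, w.1.2.2.2 v (Finset.mem_singleton_self v)]; rfl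
      · rw [← exn w x hx, hw]; rfl
    exact Prod.ext h4 h3
  have exZ : ∀ w x, x ∉ Z → ex w x = 0 := by
    intro w x hx
    have hxv : x ≠ v := fun h => hx (h ▸ hv)
    rw [exn w x hxv]
    exact w.1.2.2.1 x hx
  -- the kernel of B
  have hkB : Module.finrank ℝ (LinearMap.ker B) ≤ 1 := by
    rw [← hc.dimG p hp]
    let g : LinearMap.ker B →ₗ[ℝ] PM G Z ∅ p :=
      LinearMap.codRestrict _ (ex.comp (LinearMap.ker B).subtype) (by
        rintro ⟨w, hw⟩
        have hw' : ∀ i, (p v - p (en v i)) ⬝ᵥ (w.2 - w.1.1 (en v i)) = 0 := fun i =>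
          congrFun (LinearMap.mem_ker.1 hw) i
        change ex w ∈ PM G Z ∅ p
        refine ⟨fun x y hxy _ _ => ?_, exZ w, fun x hx => absurd hx (Finset.notMem_empty x)⟩
        by_cases hx : x = v
        · subst hx
          obtain ⟨i, rfl⟩ := (hen y).1 hxy
          rw [exv, exn w _ (hvne i)]
          exact hw' i
        · by_cases hy : y = v
          · subst hy
            obtain ⟨i, rfl⟩ := (hen x).1 hxy.symm
            rw [exv, exn w _ (hvne i), ← neg_sub (p y), ← neg_sub w.2, neg_dotProduct_neg]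
            exact hw' i
          · rw [exn w x hx, exn w y hy]
            exact w.1.2.1 x y hxy (fun h => hx (Finset.mem_singleton.1 h))
              (fun h => hy (Finset.mem_singleton.1 h)))
    refine LinearMap.finrank_le_finrank_of_injective (f := g) ?_
    intro w w' hw
    apply Subtype.ext
    have h3 : ex w.1 = ex w'.1 := congrArg Subtype.val hw
    have h4 := exi (w.1 - w'.1) (by rw [map_sub, h3, sub_self])
    exact sub_eq_zero.1 h4
  have hrB : 4 ≤ Module.finrank ℝ (LinearMap.range B) := by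
    have h3 := LinearMap.finrank_range_add_finrank_ker B
    rw [Module.finrank_prod, f2, Module.finrank_fintype_fun_eq_card, Fintype.card_fin] at h3
    omega
  -- both annihilate
  have hωB : ∀ w, ∑ i, c s(v, en v i) * B w i = 0 := by
    intro w
    have h3 := hc1 (ex w) ((memE _ _).2 ⟨exZ w, fun x hx => absurd hx (Finset.notMem_empty x)⟩)
    rw [hsplit (ex w)] at h3
    have h4 : ∑ e ∈ S.filter (fun e => ¬ v ∈ e), c e * efs p e (ex w) = 0 := by
      refine Finset.sum_eq_zero fun e he => ?_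
      induction e using Sym2.ind with
      | _ x y =>
        rw [Finset.mem_filter, mS, Sym2.mem_iff] at he
        obtain ⟨⟨hxy, _⟩, hn⟩ := he
        push Not at hn
        have h5 : efs p s(x, y) (ex w) = (p x - p y) ⬝ᵥ (ex w x - ex w y) := rfl
        rw [h5, exn w x hn.1.symm, exn w y hn.2.symm, w.1.2.1 x y hxy
          (fun h => hn.1 (Finset.mem_singleton.1 h).symm)
          (fun h => hn.2 (Finset.mem_singleton.1 h).symm), mul_zero]
    rw [h4, add_zero] at h3
    rw [← h3]
    refine Finset.sum_congr rfl fun i _ => ?_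
    rw [hBv, exv, exn w _ (hvne i)]
  set μ : Fin 5 → ℝ := mu (fun j => p (en v j)) with hμ
  obtain ⟨m0, m1, m2⟩ := h2 (fun j => p (en v j))
  have hμB : ∀ w, ∑ i, μ i * B w i = 0 := by
    intro w
    obtain ⟨t0, t1⟩ := hT p hp v hv w.1.1 w.1.2
    have e1 : ∀ i, μ i * B w i = μ i * (p v ⬝ᵥ w.2) - p v ⬝ᵥ (μ i • w.1.1 (en v i)) -
        (μ i • p (en v i)) ⬝ᵥ w.2 + μ i * (p (en v i) ⬝ᵥ w.1.1 (en v i)) := by
      intro i
      rw [hBv, sub_dotProduct, dotProduct_sub, dotProduct_sub, smul_dotProduct, dotProduct_smul]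
      simp only [smul_eq_mul]
      ring
    rw [Finset.sum_congr rfl fun i _ => e1 i, Finset.sum_add_distrib, Finset.sum_sub_distrib,
      Finset.sum_sub_distrib, ← Finset.sum_mul, ← dotProduct_sum, ← sum_dotProduct, m0, m1, t0,
      t1]
    simp
  have hμ0 : ∃ i, μ i ≠ 0 := by
    refine ⟨0, (m2 0).2 ?_⟩
    have h3 := hp.pos 4 (fun a : Fin 4 => en v ((0 : Fin 5).succAbove a)) (by norm_num)
      (hinj.comp Fin.succAbove_right_injective)
    exact h3
  obtain ⟨s, hs⟩ := two_ann B hrB (fun i => c s(v, en v i)) μ hωB hμB hμ0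
  -- s is not zero
  have hs0 : s ≠ 0 := by
    rintro rfl
    have hz : ∀ i, c s(v, en v i) = 0 := fun i => by rw [hs i, zero_mul]
    have h3 := ann_zero (PM (⊥ : SimpleGraph V) Z {v} p) (PM G Z {v} p) (efs p)
      (S.filter (fun e => ¬ v ∈ e)) ?_ ?_ c ?_
    · apply hce0
      by_cases h : v ∈ e0
      · have h4 : e0 ∈ S.filter (fun e => v ∈ e) := Finset.mem_filter.2 ⟨he0, h⟩
        rw [hfil, Finset.mem_image] at h4
        obtain ⟨i, _, rfl⟩ := h4
        exact hz i
      · exact h3 e0 (Finset.mem_filter.2 ⟨he0, h⟩)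
    · intro q hq hq'
      rw [memE] at hq
      refine ⟨fun x y hxy hx hy => ?_, hq⟩
      by_cases h : x ∈ Z ∨ y ∈ Z
      · refine hq' s(x, y) (Finset.mem_filter.2 ⟨(mS x y).2 ⟨hxy, h⟩, ?_⟩)
        rw [Sym2.mem_iff]
        rintro (rfl | rfl)
        · exact hx (Finset.mem_singleton_self _)
        · exact hy (Finset.mem_singleton_self _)
      · push Not at h
        rw [hq.1 x h.1, hq.1 y h.2, sub_zero, dotProduct_zero]
    · rw [f2, fE]
      have h4 := Finset.card_filter_add_card_filter_not (s := S) (fun e => v ∈ e)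
      rw [hfc, cS] at h4
      have h5 : (Z \ {v}).card + 1 = Z.card := by
        rw [Finset.sdiff_singleton_eq_erase]
        exact Finset.card_erase_add_one hv
      omega
    · intro q hq
      rw [memE] at hq
      have h4 := hc1 q ((memE _ _).2 ⟨hq.1, fun x hx => absurd hx (Finset.notMem_empty x)⟩)
      rw [hsplit q, Finset.sum_eq_zero (fun i _ => by rw [hz i, zero_mul]), zero_add] at h4
      exact h4
  refine ⟨s, hs0, fun w => ?_⟩
  by_cases hw : G.Adj v w
  · obtain ⟨i, rfl⟩ := (hen w).1 hw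
    have h3 : kap en p v (en v i) = μ i := by
      unfold kap
      rw [Finset.sum_eq_single i]
      · rw [if_pos rfl]
      · intro j _ hj
        rw [if_neg (fun h => hj (hinj h))]
      · intro h; exact absurd (Finset.mem_univ i) h
    rw [h3]
    exact hs i
  · have h3 : kap en p v w = 0 := by
      unfold kap
      refine Finset.sum_eq_zero fun j _ => if_neg fun h => hw ?_
      rw [← h]
      exact hadj j
    rw [h3, mul_zero]
    exact hc0 _ fun h => hw ((mS v w).1 h).1

end Pool.Agent.N423.DC
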