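import Mathlib
import Pool.Agent.N423.DC.Stm

/-!
# From the algebra of five points and the blow-up to type A

Author: helper51.
-/

set_option autoImplicit false
set_option linter.unusedSectionVars false

namespace Pool.Agent.N423.DC

open Matrix Finset Pool.Agent.H283R2.DR Pool.Agent.H789R5 Pool.Agent.N423.DE

namespace TA

/-- the rigidity functional of a pair of points -/
def lf {E : Type} [AddCommGroup E] [Module ℝ E] (P : Fin 5 → Fin 3 → ℝ)
    (φ : E →ₗ[ℝ] (Fin 5 → Fin 3 → ℝ)) (i j : Fin 5) : E →ₗ[ℝ] ℝ where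
  toFun m := (P i - P j) ⬝ᵥ (φ m i - φ m j)
  map_add' a b := by
    rw [map_add, Pi.add_apply, Pi.add_apply, ← dotProduct_add]
    congr 1
    abel
  map_smul' c a := by
    rw [map_smul, Pi.smul_apply, Pi.smul_apply, ← smul_sub, dotProduct_smul, RingHom.id_apply]

theorem lf_apply {E : Type} [AddCommGroup E] [Module ℝ E] (P : Fin 5 → Fin 3 → ℝ)
    (φ : E →ₗ[ℝ] (Fin 5 → Fin 3 → ℝ)) (i j : Fin 5) (m : E) :
    lf P φ i j m = (P i - P j) ⬝ᵥ (φ m i - φ m j) := rfl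

theorem lf_symm {E : Type} [AddCommGroup E] [Module ℝ E] (P : Fin 5 → Fin 3 → ℝ)
    (φ : E →ₗ[ℝ] (Fin 5 → Fin 3 → ℝ)) (i j : Fin 5) : lf P φ i j = lf P φ j i := by
  ext m
  rw [lf_apply, lf_apply, ← neg_sub (P j) (P i), ← neg_sub (φ m j) (φ m i), neg_dotProduct_neg]

/-- the row sums of the weighted rigidity functionals -/
theorem row_sum (μ : Fin 5 → ℝ) (P v : Fin 5 → Fin 3 → ℝ) (h0 : ∑ i, μ i = 0)
    (h1 : ∑ i, μ i • P i = 0) (i : Fin 5) :
    ∑ j, μ j * ((P i - P j) ⬝ᵥ (v i - v j)) =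
      ∑ j, μ j * (P j ⬝ᵥ v j) - P i ⬝ᵥ (∑ j, μ j • v j) := by
  have e : ∀ j, μ j * ((P i - P j) ⬝ᵥ (v i - v j)) =
      μ j * (P i ⬝ᵥ v i) - μ j * (P i ⬝ᵥ v j) - (μ j • P j) ⬝ᵥ v i + μ j * (P j ⬝ᵥ v j) := by
    intro j
    rw [sub_dotProduct, dotProduct_sub, dotProduct_sub, smul_dotProduct, smul_eq_mul]
    ring
  have e1 : P i ⬝ᵥ (∑ j, μ j • v j) = ∑ j, μ j * (P i ⬝ᵥ v j) := by
    rw [dotProduct_sum]
    exact Finset.sum_congr rfl fun j _ => by rw [dotProduct_smul, smul_eq_mul]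
  rw [Finset.sum_congr rfl fun j _ => e j, Finset.sum_add_distrib, Finset.sum_sub_distrib,
    Finset.sum_sub_distrib, ← Finset.sum_mul, h0, ← sum_dotProduct, h1, e1, zero_dotProduct]
  ring

theorem tot_sum (μ : Fin 5 → ℝ) (P v : Fin 5 → Fin 3 → ℝ) (h0 : ∑ i, μ i = 0)
    (h1 : ∑ i, μ i • P i = 0) :
    ∑ i, ∑ j, μ i * μ j * ((P i - P j) ⬝ᵥ (v i - v j)) = 0 := by
  have e : ∀ i, ∑ j, μ i * μ j * ((P i - P j) ⬝ᵥ (v i - v j)) =
      μ i * ∑ j, μ j * (P j ⬝ᵥ v j) - (μ i • P i) ⬝ᵥ (∑ j, μ j • v j) := by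
    intro i
    have := row_sum μ P v h0 h1 i
    calc ∑ j, μ i * μ j * ((P i - P j) ⬝ᵥ (v i - v j))
        = μ i * ∑ j, μ j * ((P i - P j) ⬝ᵥ (v i - v j)) := by
          rw [Finset.mul_sum]
          exact Finset.sum_congr rfl fun j _ => by ring
      _ = _ := by rw [this, smul_dotProduct, smul_eq_mul]; ring
  rw [Finset.sum_congr rfl fun i _ => e i, Finset.sum_sub_distrib, ← Finset.sum_mul, h0,
    ← sum_dotProduct, h1, zero_dotProduct]
  ring

/-- four affinely independent points are in no plane -/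
theorem eq_zero_of_plane (Q : Fin 4 → Fin 3 → ℝ) (h : AffineIndependent ℝ Q) (a : Fin 3 → ℝ)
    (b : ℝ) (hb : ∀ i, Q i ⬝ᵥ a = b) : a = 0 := by
  have hl := (affineIndependent_iff_linearIndependent_vsub ℝ Q 0).1 h
  have hc : Fintype.card {x : Fin 4 // x ≠ 0} = Module.finrank ℝ (Fin 3 → ℝ) := by
    rw [Module.finrank_fin_fun, Fintype.card_subtype_compl, Fintype.card_fin]
    simp
  have hs := hl.span_eq_top_of_card_eq_finrank' hc
  have hle : (⊤ : Submodule ℝ (Fin 3 → ℝ)) ≤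
      { carrier := {x | x ⬝ᵥ a = 0}
        add_mem' := by
          intro x y hx hy
          rw [Set.mem_setOf_eq, add_dotProduct, hx, hy, add_zero]
        zero_mem' := zero_dotProduct a
        smul_mem' := by
          intro c x hx
          rw [Set.mem_setOf_eq, smul_dotProduct, hx, smul_zero] } := by
    rw [← hs, Submodule.span_le]
    rintro x ⟨i, rfl⟩
    show (Q i -ᵥ Q 0) ⬝ᵥ a = 0
    rw [vsub_eq_sub, sub_dotProduct, hb, hb, sub_self]
  have := hle (Submodule.mem_top (x := a))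
  exact dotProduct_self_eq_zero.1 this

end TA

theorem ta (h1 : S_ALG) (h2 : S_BU) (h3 : S_MU) : S_TA := by
  intro E _ _ hE P φ hP hx hinj hno
  obtain ⟨m0, m1, m2⟩ := h3 P
  have key : ∀ i m, ∑ j, mu P j * TA.lf P φ i j m = 0 := by
    refine h1 E hE (mu P) (TA.lf P φ) (fun i => (m2 i).2 (hP i)) (TA.lf_symm P φ) ?_ ?_ ?_ ?_ ?_
    · intro i
      ext m
      rw [TA.lf_apply, sub_self, zero_dotProduct, LinearMap.zero_apply]
    · intro m
      exact TA.tot_sum (mu P) P (φ m) m0 m1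
    · exact h2 E hE P φ hP hx
    · exact hinj
    · rintro i j k hij hjk hik ⟨e1, e2, e3⟩
      refine hno i j k hij hjk hik fun m => ⟨?_, ?_, ?_⟩
      · rw [← TA.lf_apply, e1, LinearMap.zero_apply]
      · rw [← TA.lf_apply, e2, LinearMap.zero_apply]
      · rw [← TA.lf_apply, e3, LinearMap.zero_apply]
  intro m
  have hp : ∀ i, P i ⬝ᵥ (∑ j, mu P j • φ m j) = ∑ j, mu P j * (P j ⬝ᵥ φ m j) := by
    intro i
    have e := key i m
    simp only [TA.lf_apply] at e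
    rw [TA.row_sum (mu P) P (φ m) m0 m1 i] at e
    linarith
  have ha : ∑ j, mu P j • φ m j = 0 :=
    TA.eq_zero_of_plane _ (hP 0) _ _ fun a => hp _
  refine ⟨ha, ?_⟩
  rw [← hp 0, ha, dotProduct_zero]

end Pool.Agent.N423.DC
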