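import Mathlib
import Pool.Agent.N423.DC.Stm

/-!
# Graphs with a dominating clique: type A in the core
-/

set_option autoImplicit false
set_option linter.unusedSectionVars false

namespace Pool.Agent.N423.DC

open Matrix Finset Pool.Agent.H283R2.DR Pool.Agent.H789R5 Pool.Agent.N423.DE

namespace TAG

variable {V : Type} [Fintype V] [DecidableEq V] {G : SimpleGraph V} {R Z : Finset V} {hub : V → V}
  {en : V → Fin 5 → V} {p : V → Fin 3 → ℝ} {v : V}

/-- replacing the velocity of `v` by zero -/
theorem upd_zero (hv : v ∈ Z) {x : Fin 3 → ℝ} {q : V → Fin 3 → ℝ}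
    (hq : q ∈ PM G Z ∅ (Function.update p v x)) :
    Function.update q v 0 ∈ PM G Z {v} p := by
  obtain ⟨h1, h2, _⟩ := hq
  refine ⟨fun a b hab ha hb => ?_, fun a ha => ?_, fun a ha => ?_⟩
  · rw [mem_singleton] at ha hb
    have h := h1 a b hab (notMem_empty _) (notMem_empty _)
    rw [Function.update_of_ne ha, Function.update_of_ne hb] at h
    rw [Function.update_of_ne ha, Function.update_of_ne hb]
    exact h
  · have hav : a ≠ v := fun h => ha (h ▸ hv)
    rw [Function.update_of_ne hav]
    exact h2 a ha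
  · rw [mem_singleton] at ha
    rw [ha, Function.update_self]

/-- a velocity with prescribed products with three linearly independent vectors -/
theorem exists_vel {w : Fin 3 → Fin 3 → ℝ} (hw : LinearIndependent ℝ w) (c : Fin 3 → ℝ) :
    ∃ t : Fin 3 → ℝ, ∀ i, w i ⬝ᵥ t = c i := by
  set A : Matrix (Fin 3) (Fin 3) ℝ := Matrix.of w with hA
  have h1 : LinearIndependent ℝ A.row := hw
  rw [Matrix.linearIndependent_rows_iff_isUnit] at h1
  refine ⟨A⁻¹ *ᵥ c, fun i => ?_⟩
  have h2 : A *ᵥ (A⁻¹ *ᵥ c) = c := by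
    rw [Matrix.mulVec_mulVec, Matrix.mul_nonsing_inv A ((Matrix.isUnit_iff_isUnit_det A).1 h1),
      Matrix.one_mulVec]
  exact congrFun h2 i

theorem lin3 (hp : MG p) {u : Fin 3 → V} (hu : Function.Injective u) (huv : ∀ i, u i ≠ v) :
    LinearIndependent ℝ (fun i : Fin 3 => p v - p (u i)) := by
  have h1 := lin_of_pos (p := p) hp (v := v) (T := univ.image u) (by
    rw [mem_image]
    rintro ⟨i, _, h⟩
    exact huv i h) (card_image_le.trans (by simp))
  exact h1.comp (fun i => ⟨u i, mem_image_of_mem u (mem_univ i)⟩)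
    (fun i j hij => hu (congrArg Subtype.val hij))

/-- the auxiliary graph -/
def aux (v : V) (N T : Finset V) : SimpleGraph V where
  Adj a b := a ≠ b ∧ ((a ∈ N ∧ b ∈ N) ∨ (a = v ∧ b ∈ T) ∨ (b = v ∧ a ∈ T))
  symm := ⟨fun _ _ h => ⟨h.1.symm, by tauto⟩⟩
  loopless := ⟨fun _ h => h.1 rfl⟩

/-- a pinned motion which moves the neighbours of `v` like an infinitesimal isometry extends to
`v` -/
theorem extend (hC : Core G R Z hub) (hE : Enum G Z en) (hp : MG p) (hv : v ∈ Z)
    {m : V → Fin 3 → ℝ} (hm : m ∈ PM G Z {v} p)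
    (h : ∀ i j, (p (en v i) - p (en v j)) ⬝ᵥ (m (en v i) - m (en v j)) = 0) :
    ∃ t : Fin 3 → ℝ, Function.update m v t ∈ PM G Z ∅ p := by
  obtain ⟨hinj, hadj⟩ := hE v hv
  have hnv : ∀ i, en v i ≠ v := by
    intro i hi
    have := (hadj (en v i)).2 ⟨i, rfl⟩
    rw [hi] at this
    exact this.ne rfl
  set u : Fin 3 → V := fun i => en v (Fin.castLE (by norm_num) i) with hu
  have huinj : Function.Injective u := fun i j hij => by
    have := hinj hij
    exact Fin.castLE_injective _ this
  have huv : ∀ i, u i ≠ v := fun i => hnv _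
  obtain ⟨t, ht⟩ := exists_vel (lin3 hp huinj huv) (fun i => (p v - p (u i)) ⬝ᵥ m (u i))
  refine ⟨t, ?_⟩
  set T : Finset V := univ.image u with hT
  set N : Finset V := univ.image (en v) with hN
  have hTN : T ⊆ N := by
    intro a ha
    rw [hT, mem_image] at ha
    obtain ⟨i, _, rfl⟩ := ha
    exact mem_image_of_mem _ (mem_univ _)
  have hvN : v ∉ N := by
    intro hvN
    rw [hN, mem_image] at hvN
    obtain ⟨i, _, hi⟩ := hvN
    exact hnv i hi
  have hTcard : 3 ≤ T.card := by
    rw [hT, card_image_of_injective _ huinj]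
    simp
  have hqT : ∀ a ∈ T, (p v - p a) ⬝ᵥ (t - m a) = 0 := by
    intro a ha
    rw [hT, mem_image] at ha
    obtain ⟨i, _, rfl⟩ := ha
    rw [dotProduct_sub, ht i, sub_self]
  have hNN : ∀ a ∈ N, ∀ b ∈ N, (p a - p b) ⬝ᵥ (m a - m b) = 0 := by
    intro a ha b hb
    rw [hN, mem_image] at ha hb
    obtain ⟨i, _, rfl⟩ := ha
    obtain ⟨j, _, rfl⟩ := hb
    exact h i j
  have hmot : IsMotion (aux v N T) p (Function.update m v t) := by
    rintro a b ⟨hab, h1 | ⟨rfl, h1⟩ | ⟨rfl, h1⟩⟩
    · have ha : a ≠ v := fun e => hvN (e ▸ h1.1)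
      have hb : b ≠ v := fun e => hvN (e ▸ h1.2)
      rw [Function.update_of_ne ha, Function.update_of_ne hb]
      exact hNN a h1.1 b h1.2
    · rw [Function.update_self, Function.update_of_ne hab.symm]
      exact hqT b h1
    · rw [Function.update_self, Function.update_of_ne hab]
      have h2 := hqT a h1
      rw [← neg_sub (p b) (p a), ← neg_sub t (m a), neg_dotProduct_neg]
      exact h2
  have hall : ∀ a ∈ N, (p v - p a) ⬝ᵥ (t - m a) = 0 := by
    intro a ha
    by_cases haT : a ∈ T
    · exact hqT a haT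
    · have hva : v ≠ a := fun e => hvN (e ▸ ha)
      have h1 := imp_common hp (G := aux v N T) (T := T) hTcard
        (fun x hx y hy hxy => ⟨hxy, Or.inl ⟨hTN hx, hTN hy⟩⟩) hva
        (fun x hx => ⟨fun e => hvN (e ▸ hTN hx), Or.inr (Or.inl ⟨rfl, hx⟩)⟩)
        (fun x hx => ⟨fun e => haT (e ▸ hx), Or.inl ⟨ha, hTN hx⟩⟩) _ hmot
      rw [Function.update_self, Function.update_of_ne hva.symm] at h1
      exact h1
  obtain ⟨g1, g2, _⟩ := hm
  refine ⟨fun a b hab _ _ => ?_, fun a ha => ?_, fun a ha => absurd ha (notMem_empty _)⟩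
  · by_cases ha : a = v
    · subst ha
      have hb : b ≠ a := hab.ne.symm
      rw [Function.update_self, Function.update_of_ne hb]
      apply hall
      obtain ⟨i, hi⟩ := (hadj b).1 hab
      rw [hN, ← hi]
      exact mem_image_of_mem _ (mem_univ _)
    · by_cases hb : b = v
      · subst hb
        rw [Function.update_self, Function.update_of_ne ha]
        have haN : a ∈ N := by
          obtain ⟨i, hi⟩ := (hadj a).1 hab.symm
          rw [hN, ← hi]
          exact mem_image_of_mem _ (mem_univ _)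
        have h2 := hall a haN
        rw [← neg_sub (p b) (p a), ← neg_sub t (m a), neg_dotProduct_neg]
        exact h2
      · rw [Function.update_of_ne ha, Function.update_of_ne hb]
        exact g1 a b hab (by rw [mem_singleton]; exact ha) (by rw [mem_singleton]; exact hb)
  · have hav : a ≠ v := fun e => ha (e ▸ hv)
    rw [Function.update_of_ne hav]
    exact g2 a ha

/-- the neighbours of `v` do not move like an infinitesimal isometry -/
theorem no_rigid (hC : Core G R Z hub) (hE : Enum G Z en) (hp : MG p) (hv : v ∈ Z)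
    {m : V → Fin 3 → ℝ} (hm : m ∈ PM G Z {v} p)
    (h : ∀ i j, (p (en v i) - p (en v j)) ⬝ᵥ (m (en v i) - m (en v j)) = 0) : m = 0 := by
  by_contra hne
  obtain ⟨t, ht⟩ := extend hC hE hp hv hm h
  obtain ⟨hinj, hadj⟩ := hE v hv
  have hnv : ∀ i, en v i ≠ v := by
    intro i hi
    have := (hadj (en v i)).2 ⟨i, rfl⟩
    rw [hi] at this
    exact this.ne rfl
  have hmv : m v = 0 := hm.2.2 v (mem_singleton_self v)
  have hq : Function.update m v t ≠ 0 := by
    intro h0
    apply hne
    funext y
    by_cases hy : y = v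
    · rw [hy, hmv]
      rfl
    · have := congrFun h0 y
      rwa [Function.update_of_ne hy] at this
  have hdim := hC.dimG p hp
  have hmul : ∀ q' ∈ PM G Z ∅ p, ∃ c : ℝ, q' = c • Function.update m v t := by
    intro q' hq'
    have h1 := (finrank_eq_one_iff_of_nonzero' (K := ℝ)
      (⟨Function.update m v t, ht⟩ : PM G Z ∅ p) (by
        intro h0
        exact hq (congrArg Subtype.val h0))).1 hdim ⟨q', hq'⟩
    obtain ⟨c, hc⟩ := h1
    exact ⟨c, (congrArg Subtype.val hc).symm⟩
  have hsup : ∀ x ∈ nb G v, x ∈ R ∨ x ∈ Z := fun x hx => hC.supp x v (mem_nb.1 hx).symm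
  have hcq : Cq G (nb G v) := by
    intro x hx y hy hxy
    apply hC.closed p hp x y (hsup x hx) (hsup y hy) hxy
    intro q' hq'
    obtain ⟨c, rfl⟩ := hmul q' hq'
    obtain ⟨i, rfl⟩ := (hadj x).1 (mem_nb.1 hx)
    obtain ⟨j, rfl⟩ := (hadj y).1 (mem_nb.1 hy)
    rw [Pi.smul_apply, Pi.smul_apply, ← smul_sub, dotProduct_smul,
      Function.update_of_ne (hnv i), Function.update_of_ne (hnv j), h i j, smul_zero]
  have hno := hC.noK5 (nb G v) (hC.deg v hv) hcq
  have hR : ∀ i, en v i = hub v := by
    intro i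
    have hi : en v i ∈ nb G v := mem_nb.2 ((hadj _).2 ⟨i, rfl⟩)
    rcases hsup _ hi with h1 | h1
    · exact hC.hub_uniq v hv _ h1 (mem_nb.1 hi)
    · exact absurd h1 (hno _ hi)
  have h01 := hinj ((hR 0).trans (hR 1).symm)
  exact absurd h01 (by decide)

/-- no three neighbours of `v` are pairwise rigid -/
theorem no_triangle (hC : Core G R Z hub) (hE : Enum G Z en) (hK : NoK4 G Z) (hp : MG p)
    (hv : v ∈ Z) {i j k : Fin 5} (hij : i ≠ j) (hjk : j ≠ k) (hik : i ≠ k)
    (h : ∀ m ∈ PM G Z {v} p, (p (en v i) - p (en v j)) ⬝ᵥ (m (en v i) - m (en v j)) = 0 ∧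
      (p (en v j) - p (en v k)) ⬝ᵥ (m (en v j) - m (en v k)) = 0 ∧
      (p (en v i) - p (en v k)) ⬝ᵥ (m (en v i) - m (en v k)) = 0) : False := by
  obtain ⟨hinj, hadj⟩ := hE v hv
  have hnv : ∀ i, en v i ≠ v := by
    intro i hi
    have := (hadj (en v i)).2 ⟨i, rfl⟩
    rw [hi] at this
    exact this.ne rfl
  have hav : ∀ i, G.Adj v (en v i) := fun i => (hadj _).2 ⟨i, rfl⟩
  have hsup : ∀ i, en v i ∈ R ∨ en v i ∈ Z := fun i => hC.supp _ v (hav i).symm
  have a1 : G.Adj (en v i) (en v j) := hC.closed1 p hp v hv _ _ (hsup i) (hsup j) (hnv i) (hnv j)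
    (fun e => hij (hinj e)) fun q hq => (h q hq).1
  have a2 : G.Adj (en v j) (en v k) := hC.closed1 p hp v hv _ _ (hsup j) (hsup k) (hnv j) (hnv k)
    (fun e => hjk (hinj e)) fun q hq => (h q hq).2.1
  have a3 : G.Adj (en v i) (en v k) := hC.closed1 p hp v hv _ _ (hsup i) (hsup k) (hnv i) (hnv k)
    (fun e => hik (hinj e)) fun q hq => (h q hq).2.2
  refine hK {v, en v i, en v j, en v k} ?_ ?_ v (mem_insert_self _ _) hv
  · rw [card_insert_of_notMem, card_insert_of_notMem, card_insert_of_notMem, card_singleton]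
    · rw [mem_singleton]
      exact a2.ne
    · rw [mem_insert, mem_singleton]
      rintro (e | e)
      · exact a1.ne e
      · exact a3.ne e
    · rw [mem_insert, mem_insert, mem_singleton]
      rintro (e | e | e)
      · exact hnv i e.symm
      · exact hnv j e.symm
      · exact hnv k e.symm
  · intro a ha b hb hab
    rw [mem_insert, mem_insert, mem_insert, mem_singleton] at ha hb
    rcases ha with rfl | rfl | rfl | rfl <;> rcases hb with rfl | rfl | rfl | rfl
    · exact absurd rfl hab
    · exact hav i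
    · exact hav j
    · exact hav k
    · exact (hav i).symm
    · exact absurd rfl hab
    · exact a1
    · exact a3
    · exact (hav j).symm
    · exact a1.symm
    · exact absurd rfl hab
    · exact a2
    · exact (hav k).symm
    · exact a3.symm
    · exact a2.symm
    · exact absurd rfl hab

/-- the velocities of the neighbours of `v` -/
def phi (G : SimpleGraph V) (Z : Finset V) (en : V → Fin 5 → V) (p : V → Fin 3 → ℝ) (v : V) :
    PM G Z {v} p →ₗ[ℝ] (Fin 5 → Fin 3 → ℝ) where
  toFun m i := m.1 (en v i)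
  map_add' _ _ := rfl
  map_smul' _ _ := rfl

end TAG

open TAG in
theorem tag (h1 : S_TA) (h2 : S_DIM) : S_TAG := by
  intro V _ _ G R Z hub en hC hE hK p hp v hv m hm
  obtain ⟨hinj, hadj⟩ := hE v hv
  have hnv : ∀ i, en v i ≠ v := by
    intro i hi
    have := (hadj (en v i)).2 ⟨i, rfl⟩
    rw [hi] at this
    exact this.ne rfl
  have hdim : Module.finrank ℝ (PM G Z {v} p) = 2 := by
    have h := h2 V G R Z hub hC p hp {v} (singleton_subset_iff.2 hv) (singleton_nonempty v) (by
      intro a ha b hb hab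
      rw [mem_singleton] at ha hb
      exact absurd (ha.trans hb.symm) hab)
    rw [card_singleton] at h
    simpa using h
  have hGP : GP5 (fun i => p (en v i)) := fun i =>
    hp.pos 4 (fun a => en v (i.succAbove a)) (by norm_num)
      (fun a b hab => Fin.succAbove_right_injective (hinj hab))
  have key := h1 (PM G Z {v} p) hdim (fun i => p (en v i)) (phi G Z en p v) hGP ?_ ?_ ?_ ⟨m, hm⟩
  · exact key
  · intro x
    obtain ⟨q, hq, hq0⟩ := hC.all p (Function.update p v x) hp (fun r hr => by
      have : r ≠ v := fun e => hC.disj r hr (e ▸ hv)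
      rw [Function.update_of_ne this])
    refine ⟨⟨Function.update q v 0, upd_zero hv hq⟩, q v, ?_, fun i => ?_⟩
    · by_contra hcon
      push Not at hcon
      obtain ⟨e1, e2⟩ := hcon
      apply hq0
      funext y
      by_cases hy : y = v
      · rw [hy]
        exact e2
      · have := congrFun (congrArg Subtype.val e1) y
        simp only [Function.update_of_ne hy] at this
        exact this
    · have h := hq.1 v (en v i) ((hadj _).2 ⟨i, rfl⟩) (notMem_empty _) (notMem_empty _)
      rw [Function.update_self, Function.update_of_ne (hnv i)] at h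
      change (x - p (en v i)) ⬝ᵥ (q v - Function.update q v 0 (en v i)) = 0
      rw [Function.update_of_ne (hnv i)]
      exact h
  · rintro ⟨m', hm'⟩ h
    exact Subtype.ext (no_rigid hC hE hp hv hm' h)
  · intro i j k hij hjk hik h
    exact no_triangle hC hE hK hp hv hij hjk hik fun m' hm' => h ⟨m', hm'⟩

end Pool.Agent.N423.DC
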