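import Mathlib
import Pool.Agent.N423.DC.Stm

/-!
# DC/TRI, DC/BAS: infinitesimal isometries of a triangle, motions of the base graph (helper519)
-/

set_option autoImplicit false
set_option linter.unusedSectionVars false

namespace Pool.Agent.N423.DC

open Matrix Finset Pool.Agent.H283R2.DR Pool.Agent.H789R5 Pool.Agent.N423.DE

namespace TRI

/-- dot product in coordinates -/
lemma dot3 (a b : Fin 3 → ℝ) : a ⬝ᵥ b = a 0 * b 0 + a 1 * b 1 + a 2 * b 2 := by
  simp [dotProduct, Fin.sum_univ_three]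

lemma c0 (a b : Fin 3 → ℝ) : crossProduct a b 0 = a 1 * b 2 - a 2 * b 1 := by
  simp [cross_apply]

lemma c1 (a b : Fin 3 → ℝ) : crossProduct a b 1 = a 2 * b 0 - a 0 * b 2 := by
  simp [cross_apply]

lemma c2 (a b : Fin 3 → ℝ) : crossProduct a b 2 = a 0 * b 1 - a 1 * b 0 := by
  simp [cross_apply]

lemma ext3 {a b : Fin 3 → ℝ} (h0 : a 0 = b 0) (h1 : a 1 = b 1) (h2 : a 2 = b 2) : a = b := by
  funext i
  fin_cases i
  · exact h0
  · exact h1
  · exact h2

/-- the normal vector of a triangle -/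
lemma n_ne {a : Fin 3 → Fin 3 → ℝ} (ha : AffineIndependent ℝ a) :
    crossProduct (a 1 - a 0) (a 2 - a 0) ≠ 0 := by
  rw [crossProduct_ne_zero_iff_linearIndependent, LinearIndependent.pair_iff]
  intro s t h
  rw [affineIndependent_iff] at ha
  have := ha Finset.univ ![-s - t, s, t] (by
    rw [Fin.sum_univ_three]
    simp only [Matrix.cons_val_zero, Matrix.cons_val_one, Matrix.cons_val]
    ring) (by
    rw [Fin.sum_univ_three]
    simp only [Matrix.cons_val_zero, Matrix.cons_val_one, Matrix.cons_val]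
    rw [← h]
    module)
  have h1 := this 1 (Finset.mem_univ _)
  have h2 := this 2 (Finset.mem_univ _)
  simp only [Matrix.cons_val_one, Matrix.cons_val] at h1 h2
  exact ⟨h1, h2⟩

lemma nn_ne {n : Fin 3 → ℝ} (hn : n ≠ 0) : n ⬝ᵥ n ≠ 0 := by
  intro h
  exact hn (dotProduct_self_eq_zero.1 h)

/-- expansion in the basis `e₁`, `e₂`, `e₁ × e₂` -/
lemma expand (w e f : Fin 3 → ℝ) :
    (crossProduct e f ⬝ᵥ crossProduct e f) • w =
      (crossProduct w f ⬝ᵥ crossProduct e f) • e - (crossProduct w e ⬝ᵥ crossProduct e f) • f +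
      (crossProduct w e ⬝ᵥ f) • crossProduct e f := by
  apply ext3 <;> simp only [dot3, c0, c1, c2, Pi.add_apply, Pi.sub_apply, Pi.smul_apply,
    smul_eq_mul] <;> ring

/-- expansion in the dual basis -/
lemma dual (v e f : Fin 3 → ℝ) :
    (crossProduct e f ⬝ᵥ crossProduct e f) • v =
      (v ⬝ᵥ e) • crossProduct f (crossProduct e f) + (v ⬝ᵥ f) • crossProduct (crossProduct e f) e +
      (v ⬝ᵥ crossProduct e f) • crossProduct e f := by
  apply ext3 <;> simp only [dot3, c0, c1, c2, Pi.add_apply, Pi.smul_apply,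
    smul_eq_mul] <;> ring

lemma key1 (A B C : ℝ) (e f : Fin 3 → ℝ) :
    crossProduct (A • e - B • f + C • crossProduct e f) e =
      B • crossProduct e f + C • crossProduct (crossProduct e f) e := by
  apply ext3 <;> simp only [c0, c1, c2, Pi.add_apply, Pi.sub_apply, Pi.smul_apply,
    smul_eq_mul] <;> ring

lemma key2 (A B C : ℝ) (e f : Fin 3 → ℝ) :
    crossProduct (A • e - B • f + C • crossProduct e f) f =
      A • crossProduct e f - C • crossProduct f (crossProduct e f) := by
  apply ext3 <;> simp only [c0, c1, c2, Pi.add_apply, Pi.sub_apply, Pi.smul_apply,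
    smul_eq_mul] <;> ring

end TRI

open TRI in
/-- **TRI** -/
theorem tri : S_TRI := by
  refine ⟨?_, ?_, ?_⟩
  · intro a ha v hv
    have hn := n_ne ha
    have hnn := nn_ne hn
    set e := a 1 - a 0 with he
    set f := a 2 - a 0 with hf
    set n := crossProduct e f with hndef
    set g := v 1 - v 0 with hg
    set h := v 2 - v 0 with hh
    have h1 : e ⬝ᵥ g = 0 := hv 1 0
    have h2 : f ⬝ᵥ h = 0 := hv 2 0
    have h3 : e ⬝ᵥ h + f ⬝ᵥ g = 0 := by
      have h12 := hv 1 2
      have e1 : a 1 - a 2 = e - f := by rw [he, hf]; abel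
      have e2 : v 1 - v 2 = g - h := by rw [hg, hh]; abel
      rw [e1, e2, sub_dotProduct, dotProduct_sub e g h, dotProduct_sub f g h, h1, h2] at h12
      linarith
    set w : Fin 3 → ℝ := (n ⬝ᵥ n)⁻¹ • ((h ⬝ᵥ n) • e - (g ⬝ᵥ n) • f + (g ⬝ᵥ f) • n) with hw
    have hwe : crossProduct w e = g := by
      have k : crossProduct ((h ⬝ᵥ n) • e - (g ⬝ᵥ n) • f + (g ⬝ᵥ f) • n) e = (n ⬝ᵥ n) • g := by
        have d := dual g e f
        rw [← hndef, dotProduct_comm g e, h1, zero_smul, zero_add] at d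
        rw [d, hndef, key1, add_comm]
      rw [hw, map_smul, LinearMap.smul_apply, k, smul_smul, inv_mul_cancel₀ hnn, one_smul]
    have hwf : crossProduct w f = h := by
      have k : crossProduct ((h ⬝ᵥ n) • e - (g ⬝ᵥ n) • f + (g ⬝ᵥ f) • n) f = (n ⬝ᵥ n) • h := by
        have d := dual h e f
        have h4 : h ⬝ᵥ e = - (g ⬝ᵥ f) := by
          rw [dotProduct_comm h e, dotProduct_comm g f]
          linarith
        rw [← hndef, dotProduct_comm h f, h2, zero_smul, add_zero, h4, neg_smul] at d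
        rw [d, hndef, key2]
        abel
      rw [hw, map_smul, LinearMap.smul_apply, k, smul_smul, inv_mul_cancel₀ hnn, one_smul]
    refine ⟨(w, v 0 - crossProduct w (a 0)), fun i => ?_⟩
    simp only [fld]
    have k1 : crossProduct w (a 1) = g + crossProduct w (a 0) := by
      rw [← hwe, he, map_sub]; abel
    have k2 : crossProduct w (a 2) = h + crossProduct w (a 0) := by
      rw [← hwf, hf, map_sub]; abel
    fin_cases i
    · simp
    · simp only [Fin.mk_one]
      rw [k1, hg]; abel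
    · simp only [Fin.reduceFinMk]
      rw [k2, hh]; abel
  · intro a ha T hT
    have hn := n_ne ha
    have hnn := nn_ne hn
    have h1 : crossProduct T.1 (a 1 - a 0) = 0 := by
      have e0 := hT 0
      have e1 := hT 1
      simp only [fld] at e0 e1
      rw [map_sub, ← sub_eq_zero.2 (e1.trans e0.symm)]
      abel
    have h2 : crossProduct T.1 (a 2 - a 0) = 0 := by
      have e0 := hT 0
      have e1 := hT 2
      simp only [fld] at e0 e1
      rw [map_sub, ← sub_eq_zero.2 (e1.trans e0.symm)]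
      abel
    have h3 := expand T.1 (a 1 - a 0) (a 2 - a 0)
    rw [h1, h2] at h3
    simp only [zero_dotProduct, zero_smul, sub_zero, add_zero] at h3
    have h4 : T.1 = 0 := by
      rcases smul_eq_zero.1 h3 with h | h
      · exact absurd h hnn
      · exact h
    have h5 := hT 0
    simp only [fld] at h5
    rw [h4] at h5
    simp only [map_zero, LinearMap.zero_apply, zero_add] at h5
    exact Prod.ext h4 h5
  · intro T a b
    simp only [fld, dot3, c0, c1, c2, Pi.add_apply, Pi.sub_apply]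
    ring

namespace TRI

/-- the functional of an edge -/
noncomputable def phi (u : Fin 3 → ℝ) : Module.Dual ℝ (Fin 3 → ℝ) where
  toFun q := u ⬝ᵥ q
  map_add' a b := dotProduct_add u a b
  map_smul' c a := by simp [dotProduct_smul]

lemma phi_apply (u q : Fin 3 → ℝ) : phi u q = u ⬝ᵥ q := rfl

lemma finrank_phi {u : Fin 3 → ℝ} (hu : u ≠ 0) : Module.finrank ℝ (LinearMap.ker (phi u)) = 2 := by
  have h : phi u ≠ 0 := by
    intro h
    have := congrArg (fun l => l u) h
    simp only [phi_apply, LinearMap.zero_apply] at this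
    exact hu (dotProduct_self_eq_zero.1 this)
  have h2 := Module.Dual.finrank_ker_add_one_of_ne_zero h
  rw [Module.finrank_fintype_fun_eq_card, Fintype.card_fin] at h2
  omega

open Classical in
/-- pinned motions of the base graph -/
noncomputable def eqv {V : Type} (R Z : Finset V) (hub : V → V) (hh : Hb R Z hub)
    (p : V → Fin 3 → ℝ) : PM (base R Z hub) Z ∅ p ≃ₗ[ℝ]
      ((v : Z) → LinearMap.ker (phi (p v - p (hub v)))) where
  toFun q v := ⟨q.1 v, by
    have hne : (v : V) ≠ hub v := fun h => hh.1 _ (h ▸ hh.2.2 v v.2) v.2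
    have h1 := (mem_PM.1 q.2).1 v (hub v) ⟨hne, Or.inr (Or.inl ⟨v.2, rfl⟩)⟩ (by simp) (by simp)
    rw [(mem_PM.1 q.2).2.1 (hub v) (hh.1 _ (hh.2.2 v v.2)), sub_zero] at h1
    exact h1⟩
  map_add' a b := rfl
  map_smul' c a := rfl
  invFun g := ⟨fun x => if h : x ∈ Z then (g ⟨x, h⟩ : Fin 3 → ℝ) else 0, by
    rw [mem_PM]
    refine ⟨?_, ?_, by simp⟩
    · have key : ∀ x, x ∈ Z → ((p x - p (hub x)) ⬝ᵥ
          ((if h : x ∈ Z then (g ⟨x, h⟩ : Fin 3 → ℝ) else 0) -
            (if h : hub x ∈ Z then (g ⟨hub x, h⟩ : Fin 3 → ℝ) else 0)) = 0) := by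
        intro x hx
        rw [dif_pos hx, dif_neg (hh.1 _ (hh.2.2 x hx)), sub_zero]
        exact (g ⟨x, hx⟩).2
      rintro x y ⟨-, ⟨hx, hy⟩ | ⟨hx, hy⟩ | ⟨hx, hy⟩⟩ - -
      · simp only [dif_neg (hh.1 x hx), dif_neg (hh.1 y hy), sub_zero, dotProduct_zero]
      · subst hy
        exact key x hx
      · subst hy
        have := key y hx
        rw [← neg_sub (p y), ← neg_sub _ (if h : hub y ∈ Z then (g ⟨hub y, h⟩ : Fin 3 → ℝ) else 0),
          neg_dotProduct_neg]
        exact this
    · intro x hx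
      rw [dif_neg hx]⟩
  left_inv q := by
    apply Subtype.ext
    funext x
    by_cases h : x ∈ Z
    · simp only [dif_pos h]
    · simp only [dif_neg h]
      exact ((mem_PM.1 q.2).2.1 x h).symm
  right_inv g := by
    funext v
    apply Subtype.ext
    simp

end TRI

open TRI in
/-- **BAS** -/
theorem bas (h : S_PIN) : S_BAS := by
  intro V _ R Z hub hh p hp
  have h1 := (h V (base R Z hub) R Z hh.1 ?_ hh.2.1 ?_ p p hp fun _ _ => rfl).1
  · have h2 : Module.finrank ℝ (PM (base R Z hub) Z ∅ p) = 2 * Z.card := by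
      rw [(eqv R Z hub hh p).finrank_eq, Module.finrank_pi_fintype]
      rw [Finset.sum_congr rfl (g := fun _ => 2)]
      · simp [mul_comm]
      · intro v _
        apply finrank_phi
        rw [sub_ne_zero]
        exact p_ne hp (by norm_num) fun h => hh.1 _ (h ▸ hh.2.2 v v.2) v.2
    rw [h2] at h1
    omega
  · rintro x y ⟨-, ⟨hx, -⟩ | ⟨hx, -⟩ | ⟨hx, hy⟩⟩
    · exact Or.inl hx
    · exact Or.inr hx
    · exact Or.inl (hy ▸ hh.2.2 y hx)
  · exact fun a ha b hb hab => ⟨hab, Or.inl ⟨ha, hb⟩⟩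

end Pool.Agent.N423.DC
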