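import Mathlib
import Pool.Agent.N423.DC.Asm
import Pool.Agent.N423.DC.RM
import Pool.Agent.N423.DC.ALG
import Pool.Agent.N423.DC.BU
import Pool.Agent.N423.DC.CLO
import Pool.Agent.N423.DC.CNT
import Pool.Agent.N423.DC.COR
import Pool.Agent.N423.DC.CUT
import Pool.Agent.N423.DC.DEG
import Pool.Agent.N423.DC.DICH
import Pool.Agent.N423.DC.DIM
import Pool.Agent.N423.DC.DJ
import Pool.Agent.N423.DC.FC
import Pool.Agent.N423.DC.FIN
import Pool.Agent.N423.DC.HH
import Pool.Agent.N423.DC.K3
import Pool.Agent.N423.DC.K4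
import Pool.Agent.N423.DC.KAP
import Pool.Agent.N423.DC.KL
import Pool.Agent.N423.DC.KR
import Pool.Agent.N423.DC.MGG
import Pool.Agent.N423.DC.MU
import Pool.Agent.N423.DC.MUT
import Pool.Agent.N423.DC.NK
import Pool.Agent.N423.DC.PAR
import Pool.Agent.N423.DC.PIN
import Pool.Agent.N423.DC.ROT
import Pool.Agent.N423.DC.SP
import Pool.Agent.N423.DC.STR
import Pool.Agent.N423.DC.TA
import Pool.Agent.N423.DC.TAG
import Pool.Agent.N423.DC.TRI

/-!
# Graphs with a dominating rigid subgraph: everything together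
-/

set_option autoImplicit false
set_option linter.unusedSectionVars false

namespace Pool.Agent.N423.DC

open Matrix Finset Pool.Agent.H283R2.DR Pool.Agent.H789R5 Pool.Agent.N423.DE

theorem t_pin : S_PIN := pin tri
theorem t_bas : S_BAS := bas t_pin
theorem t_span : S_SPAN := span'
theorem t_cnt : S_CNT := cnt t_span
theorem t_clo : S_CLO := clo t_span deg t_cnt
theorem t_cor : S_COR := cor t_pin t_bas deg t_cnt t_clo
theorem t_fin : S_FIN := fin t_bas kr
theorem t_par : S_PAR := par tri
theorem t_hh : S_HH := hh t_par tri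
theorem t_dj : S_DJ := dj dich t_hh mgg
theorem t_kap : S_KAP := kap' (kl dich) t_hh mgg
theorem t_k3 : S_K3 := k3 t_kap t_dj dim j3
theorem t_k4 : S_K4 := k4 t_kap t_dj dim
theorem t_nk : S_NK := nk t_k3 t_k4
theorem t_ta : S_TA := ta alg (bu mu_spec) mu_spec
theorem t_tag : S_TAG := tag t_ta dim
theorem t_str : S_STR := str dim mu_spec
theorem t_mut : S_MUT := no_mutual mgg mu_spec
theorem t_cut : S_CUT := cut mgg sp mu_spec
theorem t_rot : S_ROT := rot tri

theorem t_core (V : Type) [Fintype V] [DecidableEq V] (G : SimpleGraph V)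
    (R Z : Finset V) (hub : V → V) (h : Core G R Z hub) : False :=
  core_false t_nk t_tag t_str t_mut t_cut fc t_rot h

/-- no matroid in which all complete graphs with five vertices are circuits has a larger rank -/
theorem le_genRank {V : Type} [Fintype V] (M : Matroid (Sym2 V))
    (hM : ∀ A : Finset V, A.card = 5 → M.IsCircuit (pairs A))
    (G : SimpleGraph V) (R : Finset V) (hR : 3 ≤ R.card)
    (hlink : ∀ a ∈ R, ∀ b ∈ R, a ≠ b → Linked 3 G a b)
    (hdom : ∀ v, v ∉ R → ∃ r ∈ R, Linked 3 G v r) : M.eRk G.edgeSet ≤ genRank 3 G := by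
  classical
  exact main_le' t_core t_cor t_fin M hM G R hR hlink hdom

/-- the generic rigidity matroid is such a matroid -/
theorem exists_rm (V : Type) [Fintype V] : ∃ M : Matroid (Sym2 V),
    (∀ A : Finset V, A.card = 5 → M.IsCircuit (pairs A)) ∧
    ∀ G : SimpleGraph V, M.eRk G.edgeSet = (genRank 3 G : ℕ∞) := by
  obtain ⟨p, hp⟩ := exists_mg V 3
  exact ⟨RMx.RM p, fun A hA => RMx.rm_circuit t_pin hp A hA, fun G => RMx.eRk_graph hp G⟩

end Pool.Agent.N423.DC
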