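import Mathlib
import Pool.Agent.N423.DC.All

/-!
# The rank formula for graphs with a dominating rigid subgraph: statements of the parts
-/

set_option autoImplicit false
set_option linter.unusedSectionVars false

namespace Pool.Agent.N423.DT

open Matrix Finset Pool.Agent.H283R2.DR Pool.Agent.H789R5 Pool.Agent.N423.DE Pool.Agent.N423.DC

/-- `R` is a clique with at least three vertices, all edges are inside of `R ∪ Z`, and each vertex
of `Z` has a neighbour in `R`. -/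
structure Dom {V : Type} (G : SimpleGraph V) (R Z : Finset V) : Prop where
  disj : ∀ x ∈ R, x ∉ Z
  card3 : 3 ≤ R.card
  clique : Cq G R
  supp : ∀ x y, G.Adj x y → x ∈ R ∨ x ∈ Z
  dom : ∀ v ∈ Z, ∃ r ∈ R, G.Adj v r

/-- `G` without the pair `x, y` -/
def del {V : Type} (G : SimpleGraph V) (x y : V) : SimpleGraph V := G.deleteEdges {s(x, y)}

/-- implied pairs do not depend on the generic placement -/
def S_IMG : Prop := ∀ (V : Type) [Fintype V] (G : SimpleGraph V) (p p' : V → Fin 3 → ℝ),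
  MG p → MG p' → ∀ x y, Imp G p x y → Imp G p' x y

/-! ### Implied edges are in complete graphs with five vertices -/

/-- a vertex of degree at most four in a dependent subgraph of a closed graph -/
def S_LOW : Prop := ∀ (V : Type) [Fintype V] [DecidableEq V] (G W : SimpleGraph V)
  (p : V → Fin 3 → ℝ), MG p → Closed G p → W ≤ G → ∀ v, (nb W v).card ≤ 4 →
  ∀ x y, W.Adj x y → Imp (del W x y) p x y →
  (∃ A : Finset V, A.card = 5 ∧ Cq G A ∧ x ∈ A ∧ y ∈ A) ∨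
  (x ≠ v ∧ y ≠ v ∧ Imp (del (G.deleteIncidenceSet v) x y) p x y)

/-- the sum of the degrees -/
def S_DSM : Prop := ∀ (V : Type) [Fintype V] [DecidableEq V] (W : SimpleGraph V) (R Z : Finset V),
  Dom W R Z → ∑ v ∈ Z, ((nb W v).card + (nb W v ∩ R).card) =
    2 * (W.edgeSet \ (DE.cmp R).edgeSet).ncard

/-- a minimal dependent set -/
def S_MIN : Prop := ∀ (V : Type) [Fintype V] [DecidableEq V] (G : SimpleGraph V) (R Z : Finset V)
  (p : V → Fin 3 → ℝ), MG p → Dom G R Z → ∀ x y, G.Adj x y → Imp (del G x y) p x y →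
  ∃ W ≤ G, Dom W R Z ∧ W.Adj x y ∧ Imp (del W x y) p x y ∧
    mo W p + (W.edgeSet \ (DE.cmp R).edgeSet).ncard ≤ mo (DE.cmp R) p + 1 ∧
    ∀ a ∈ Z, ∀ b ∈ Z, W.Adj a b → s(a, b) ≠ s(x, y) →
      ¬ Imp (del (del W x y) a b) p a b ∧ mo (del W a b) p ≤ mo W p

/-- exchange of an edge -/
def S_EXC : Prop := ∀ (V : Type) [Fintype V] [DecidableEq V] (W : SimpleGraph V) (R Z : Finset V)
  (p : V → Fin 3 → ℝ), MG p → Dom W R Z →
  (∀ v ∈ Z, ∀ r ∈ R, ∀ r' ∈ R, W.Adj v r → W.Adj v r' → r = r') →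
  ∀ x y, W.Adj x y → Imp (del W x y) p x y →
  ∀ a ∈ Z, ∀ b, a ≠ b → ¬ W.Adj a b → Imp W p a b →
  ∃ c ∈ Z, ∃ d ∈ Z, W.Adj c d ∧ s(c, d) ≠ s(x, y) ∧
    Imp (del (del W c d ⊔ SimpleGraph.edge a b) x y) p x y

/-- a minimal dependent set with the right degrees is a core -/
def S_TCR : Prop := ∀ (V : Type) [Fintype V] [DecidableEq V] (W : SimpleGraph V) (R Z : Finset V)
  (hub : V → V), Dom W R Z → Z.Nonempty → (∀ v ∈ Z, hub v ∈ R ∧ W.Adj v (hub v)) →
  (∀ v ∈ Z, ∀ r ∈ R, W.Adj v r → r = hub v) → (∀ v ∈ Z, (nb W v).card = 5) →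
  (∀ A : Finset V, A.card = 5 → Cq W A → ∀ v ∈ A, v ∉ Z) →
  (∀ p : V → Fin 3 → ℝ, MG p → ∀ x y, x ∈ R ∨ x ∈ Z → y ∈ R ∨ y ∈ Z → x ≠ y →
    Imp W p x y → W.Adj x y) →
  (W.edgeSet \ (DE.cmp R).edgeSet).ncard = 3 * Z.card →
  (∀ p : V → Fin 3 → ℝ, MG p → mo W p + 3 * (R.card + Z.card) = 7 + 3 * Fintype.card V) →
  (∀ p : V → Fin 3 → ℝ, MG p → ∀ a ∈ Z, ∀ b ∈ Z, W.Adj a b → mo (del W a b) p ≤ mo W p) →
  Core W R Z hub

/-- each edge of a closed graph that is implied by the other edges is in a complete graph with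
five vertices -/
def S_K5T : Prop := ∀ (V : Type) [Fintype V] [DecidableEq V] (G : SimpleGraph V) (R Z : Finset V)
  (p : V → Fin 3 → ℝ), MG p → Closed G p → Dom G R Z → ∀ x y, G.Adj x y →
  Imp (del G x y) p x y → ∃ A : Finset V, A.card = 5 ∧ Cq G A ∧ x ∈ A ∧ y ∈ A

/-! ### Vertices with small gain -/

/-- two infinitesimal isometries with parallel velocities -/
def S_X2 : Prop := ∀ T T' : (Fin 3 → ℝ) × (Fin 3 → ℝ),
  (∀ x, crossProduct (fld T x) (fld T' x) = 0) → T ≠ 0 → ∃ c : ℝ, T' = c • T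

/-- a vertex with small gain in two cliques -/
def S_TWO : Prop := ∀ (V : Type) [Fintype V] [DecidableEq V] (G : SimpleGraph V)
  (p : V → Fin 3 → ℝ), MG p → Closed G p → ∀ (v : V) (S T : Finset V), 5 ≤ S.card → 5 ≤ T.card →
  Cq G S → Cq G T → v ∈ S → v ∈ T → mo (G.deleteIncidenceSet v) p ≤ mo G p + 4 →
  ∀ a ∈ S, ∀ b ∈ T, a ≠ b → G.Adj a b

/-- the neighbours of a vertex with gain at most four -/
def S_GN4 : Prop := ∀ (V : Type) [Fintype V] [DecidableEq V] (G : SimpleGraph V)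
  (p : V → Fin 3 → ℝ), MG p → Closed G p → ∀ v, 5 ≤ (nb G v).card →
  mo (G.deleteIncidenceSet v) p ≤ mo G p + 4 →
  (∀ y, G.Adj v y → Imp (del G v y) p v y → ∃ A : Finset V, A.card = 5 ∧ Cq G A ∧ v ∈ A ∧ y ∈ A) →
  ∃ y ∈ nb G v, Cq G ((nb G v).erase y)

/-- there is a vertex with gain at most four -/
def S_VTX : Prop := ∀ (V : Type) [Fintype V] [DecidableEq V] (G : SimpleGraph V) (R Z : Finset V)
  (p : V → Fin 3 → ℝ), MG p → Closed G p → Dom G R Z →
  (∃ a b, (a ∈ R ∨ a ∈ Z) ∧ (b ∈ R ∨ b ∈ Z) ∧ a ≠ b ∧ ¬ G.Adj a b) →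
  ∃ v ∈ Z, mo (G.deleteIncidenceSet v) p ≤ mo G p + 4

/-- the nullity of a closed graph is the length of a proper sequence of cliques -/
def S_SEQ : Prop := ∀ (V : Type) [Fintype V] [DecidableEq V] (G : SimpleGraph V) (R Z : Finset V)
  (p : V → Fin 3 → ℝ), MG p → Closed G p → Dom G R Z → HasSeq G p

end Pool.Agent.N423.DT
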