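import Mathlib
import Pool.Agent.N423.DC.StmT

/-!
# Exchange of an edge
-/

set_option autoImplicit false
set_option linter.unusedSectionVars false

namespace Pool.Agent.N423.DT

open Matrix Finset Pool.Agent.H283R2.DR Pool.Agent.H789R5 Pool.Agent.N423.DE

namespace TEXC

/-- motions without an implied edge -/
theorem mot_del {V : Type} {W : SimpleGraph V} {p : V → Fin 3 → ℝ} {x y : V}
    (h : Imp (del W x y) p x y) {q : V → Fin 3 → ℝ} (hq : IsMotion (del W x y) p q) :
    IsMotion W p q := by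
  intro u w huw
  by_cases he : s(u, w) = s(x, y)
  · rw [Sym2.eq_iff] at he
    rcases he with ⟨rfl, rfl⟩ | ⟨rfl, rfl⟩
    · exact h q hq
    · exact h.symm q hq
  · exact hq u w (by
      unfold del
      rw [SimpleGraph.deleteEdges_adj]
      exact ⟨huw, by simpa using he⟩)

theorem del_adj {V : Type} {G : SimpleGraph V} {x y u w : V} :
    (del G x y).Adj u w ↔ G.Adj u w ∧ s(u, w) ≠ s(x, y) := by
  unfold del
  rw [SimpleGraph.deleteEdges_adj, Set.mem_singleton_iff]

/-- the edges which are not inside of `Z` -/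
def bd {V : Type} (G : SimpleGraph V) (Z : Finset V) : SimpleGraph V where
  Adj u w := G.Adj u w ∧ ¬ (u ∈ Z ∧ w ∈ Z)
  symm := ⟨fun _ _ h => ⟨h.1.symm, fun h' => h.2 ⟨h'.2, h'.1⟩⟩⟩
  loopless := ⟨fun _ h => h.1.ne rfl⟩

theorem card_edge {V : Type} [Fintype V] (Y : SimpleGraph V) (c d : V) :
    (Y.edgeSet \ (del Y c d).edgeSet).ncard ≤ 1 := by
  have h : Y.edgeSet \ (del Y c d).edgeSet ⊆ {s(c, d)} := by
    intro e he
    induction e using Sym2.ind with
    | _ u w =>
      rw [Set.mem_sdiff, SimpleGraph.mem_edgeSet, SimpleGraph.mem_edgeSet, del_adj] at he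
      rw [Set.mem_singleton_iff]
      by_contra hne
      exact he.2 ⟨he.1, hne⟩
  exact (Set.ncard_le_ncard h (Set.toFinite _)).trans (by rw [Set.ncard_singleton])

/-- exchange of an edge -/
theorem main {V : Type} [Fintype V] [DecidableEq V] (W : SimpleGraph V) (R Z : Finset V)
    (p : V → Fin 3 → ℝ) (hp : MG p) (hD : Dom W R Z)
    (hu : ∀ v ∈ Z, ∀ r ∈ R, ∀ r' ∈ R, W.Adj v r → W.Adj v r' → r = r')
    (x y : V) (hxy : W.Adj x y) (hi : Imp (del W x y) p x y)
    (a : V) (ha : a ∈ Z) (b : V) (hab : a ≠ b) (hnab : ¬ W.Adj a b) (hI : Imp W p a b) :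
    ∃ c ∈ Z, ∃ d ∈ Z, W.Adj c d ∧ s(c, d) ≠ s(x, y) ∧
      Imp (del (del W c d ⊔ SimpleGraph.edge a b) x y) p x y := by
  classical
  set W' := del W x y with hW'
  have hI' : Imp W' p a b := fun q hq => hI q (mot_del hi hq)
  set B' := bd W' Z with hB'
  have hBW : B' ≤ W' := fun u w h => h.1
  have hWW : W' ≤ W := fun u w h => (del_adj.1 h).1
  -- the claim
  have hclaim : ¬ Imp B' p a b := by
    intro hB
    have hn : (nb B' a).card ≤ 1 := by
      rw [card_le_one]
      have hk : ∀ w ∈ nb B' a, w ∈ R ∧ W.Adj a w := by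
        intro w hw
        have hw' := mem_nb.1 hw
        have h1 : W.Adj a w := hWW (hBW hw')
        refine ⟨?_, h1⟩
        rcases hD.supp w a h1.symm with h2 | h2
        · exact h2
        · exact absurd ⟨ha, h2⟩ hw'.2
      intro w hw w' hw'
      exact hu a ha w (hk w hw).1 w' (hk w' hw').1 (hk w hw).2 (hk w' hw').2
    have hbn : b ∉ nb B' a := fun h => hnab (hWW (hBW (mem_nb.1 h)))
    set C := B' ⊔ SimpleGraph.edge a b with hC
    have hab' : C.Adj a b := Or.inr (by rw [SimpleGraph.edge_adj]; exact ⟨Or.inl ⟨rfl, rfl⟩, hab⟩)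
    have h1 := ext0 hp C a (insert b (nb B' a)) (by
      rw [card_insert_of_notMem hbn]; omega) (by
      intro z hz
      rw [mem_insert] at hz
      rcases hz with rfl | hz
      · exact hab'
      · exact Or.inl (mem_nb.1 hz))
    rw [card_insert_of_notMem hbn] at h1
    have h2 : mo (C.deleteIncidenceSet a) p ≤ mo (B'.deleteIncidenceSet a) p :=
      mo_anti (del_mono le_sup_left a) p
    have h3 := mo_del_le B' p a
    have h4 : mo B' p ≤ mo C p := by
      apply mo_le_of_imp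
      intro u w huw
      rcases huw with huw | huw
      · exact imp_of_adj huw
      · rw [SimpleGraph.edge_adj] at huw
        rcases huw.1 with ⟨rfl, rfl⟩ | ⟨rfl, rfl⟩
        · exact hB
        · exact hB.symm
    omega
  -- a minimal graph which implies the pair
  obtain ⟨Y, hY, hmin⟩ := Set.Finite.exists_minimal
    (s := {Y : SimpleGraph V | B' ≤ Y ∧ Y ≤ W' ∧ Imp Y p a b})
    (Set.toFinite _) ⟨W', hBW, le_refl _, hI'⟩
  obtain ⟨hY1, hY2, hY3⟩ := hY
  have hne : ∃ c d, Y.Adj c d ∧ ¬ B'.Adj c d := by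
    by_contra hcon
    push Not at hcon
    exact hclaim (hY3.mono (fun u w huw => hcon u w huw))
  obtain ⟨c, d, hcd, hcdB⟩ := hne
  have hcdW' : W'.Adj c d := hY2 hcd
  have hcdZ : c ∈ Z ∧ d ∈ Z := by
    by_contra h
    exact hcdB ⟨hcdW', h⟩
  have hcdW : W.Adj c d := hWW hcdW'
  have hcdne : s(c, d) ≠ s(x, y) := (del_adj.1 hcdW').2
  refine ⟨c, hcdZ.1, d, hcdZ.2, hcdW, hcdne, ?_⟩
  -- minimality
  have hdelY : del Y c d ≤ Y := fun u w h => (del_adj.1 h).1
  have hnimp : ¬ Imp (del Y c d) p a b := by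
    intro h
    have h1 : Y ≤ del Y c d := by
      refine hmin ⟨?_, hdelY.trans hY2, h⟩ hdelY
      intro u w huw
      rw [del_adj]
      refine ⟨hY1 huw, fun he => hcdB ?_⟩
      rw [Sym2.eq_iff] at he
      rcases he with ⟨rfl, rfl⟩ | ⟨rfl, rfl⟩
      · exact huw
      · exact huw.symm
    exact (del_adj.1 (h1 hcd)).2 rfl
  set Y1 := del Y c d ⊔ SimpleGraph.edge a b with hY1def
  set Y2 := Y ⊔ SimpleGraph.edge a b with hY2def
  have e1 : mo Y1 p < mo (del Y c d) p := mo_lt_of_not_imp hab hnimp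
  have e2 : mo (del Y c d) p ≤ mo Y p + 1 :=
    (mo_le_add (G := del Y c d) (G' := Y) p).trans (Nat.add_le_add_left (card_edge Y c d) _)
  have e3 : mo Y p ≤ mo Y2 p := by
    apply mo_le_of_imp
    intro u w huw
    rcases huw with huw | huw
    · exact imp_of_adj huw
    · rw [SimpleGraph.edge_adj] at huw
      rcases huw.1 with ⟨rfl, rfl⟩ | ⟨rfl, rfl⟩
      · exact hY3
      · exact hY3.symm
  have hY12 : Y1 ≤ Y2 := sup_le_sup_right hdelY _
  have e4 : Imp Y1 p c d := imp_of_mo_le hY12 (by omega) (Or.inl hcd)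
  -- the graph `H`
  set H := del (del W c d ⊔ SimpleGraph.edge a b) x y with hH
  have hYH : Y1 ≤ H := by
    intro u w huw
    rw [del_adj]
    rcases huw with huw | huw
    · rw [del_adj] at huw
      have h1 := del_adj.1 (hY2 huw.1)
      exact ⟨Or.inl (del_adj.2 ⟨h1.1, huw.2⟩), h1.2⟩
    · refine ⟨Or.inr huw, fun he => ?_⟩
      rw [SimpleGraph.edge_adj] at huw
      apply hnab
      rw [Sym2.eq_iff] at he
      rcases huw.1 with ⟨rfl, rfl⟩ | ⟨rfl, rfl⟩ <;> rcases he with ⟨rfl, rfl⟩ | ⟨rfl, rfl⟩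
      · exact hxy
      · exact hxy.symm
      · exact hxy.symm
      · exact hxy
  have e5 : Imp H p c d := e4.mono hYH
  intro q hq
  apply hi q
  intro u w huw
  have h1 := del_adj.1 huw
  by_cases he : s(u, w) = s(c, d)
  · rw [Sym2.eq_iff] at he
    rcases he with ⟨rfl, rfl⟩ | ⟨rfl, rfl⟩
    · exact e5 q hq
    · exact e5.symm q hq
  · exact hq u w (del_adj.2 ⟨Or.inl (del_adj.2 ⟨h1.1, he⟩), h1.2⟩)

end TEXC

theorem texc : S_EXC := by
  intro V _ _ W R Z p hp hD hu x y hxy hi a ha b hab hnab hI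
  exact TEXC.main W R Z p hp hD hu x y hxy hi a ha b hab hnab hI

end Pool.Agent.N423.DT
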