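import Mathlib
import Pool.Agent.N423.DC.StmT

/-!
# Implied edges of closed graphs are in complete graphs with five vertices: the assembly
-/

set_option autoImplicit false
set_option linter.unusedSectionVars false

namespace Pool.Agent.N423.DT

open Matrix Finset Pool.Agent.H283R2.DR Pool.Agent.H789R5 Pool.Agent.N423.DE Pool.Agent.N423.DC

variable {V : Type} [Fintype V] [DecidableEq V]

theorem mo_eq (G : SimpleGraph V) {p p' : V → Fin 3 → ℝ} (hp : MG p) (hp' : MG p') :
    mo G p = mo G p' := le_antisymm (hp.min G p') (hp'.min G p)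

omit [Fintype V] [DecidableEq V] in
theorem del_le (G : SimpleGraph V) (x y : V) : del G x y ≤ G := G.deleteEdges_le _

omit [Fintype V] [DecidableEq V] in
theorem del_adj {G : SimpleGraph V} {x y a b : V} :
    (del G x y).Adj a b ↔ G.Adj a b ∧ s(a, b) ≠ s(x, y) := by
  unfold del
  rw [SimpleGraph.deleteEdges_adj, Set.mem_singleton_iff]

theorem mo_cmpR {R : Finset V} (hR : 3 ≤ R.card) {p : V → Fin 3 → ℝ} (hp : MG p) :
    mo (DE.cmp R) p + 3 * R.card = 6 + 3 * Fintype.card V := by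
  have h := t_bas V R ∅ id ⟨fun _ _ => Finset.notMem_empty _, hR, fun v hv =>
    absurd hv (Finset.notMem_empty v)⟩ p hp
  have e : base R ∅ id = DE.cmp R := by
    ext a b
    constructor
    · rintro ⟨hab, ⟨ha, hb⟩ | ⟨ha, _⟩ | ⟨ha, _⟩⟩
      · exact ⟨hab, ha, hb⟩
      · exact absurd ha (Finset.notMem_empty _)
      · exact absurd ha (Finset.notMem_empty _)
    · rintro ⟨hab, ha, hb⟩
      exact ⟨hab, Or.inl ⟨ha, hb⟩⟩
  rw [e, card_empty] at h
  omega

theorem Dom.delV {G : SimpleGraph V} {R Z : Finset V} (h : Dom G R Z) {v : V} (hv : v ∈ Z) :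
    Dom (G.deleteIncidenceSet v) R (Z.erase v) where
  disj := fun x hx hxZ => h.disj x hx (mem_of_mem_erase hxZ)
  card3 := h.card3
  clique := by
    intro a ha b hb hab
    rw [SimpleGraph.deleteIncidenceSet_adj]
    exact ⟨h.clique a ha b hb hab, fun e => h.disj a ha (e ▸ hv), fun e => h.disj b hb (e ▸ hv)⟩
  supp := by
    intro a b hab
    rw [SimpleGraph.deleteIncidenceSet_adj] at hab
    exact (h.supp a b hab.1).imp id fun h' => mem_erase.2 ⟨hab.2.1, h'⟩
  dom := by
    intro w hw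
    obtain ⟨r, hr, hwr⟩ := h.dom w (mem_of_mem_erase hw)
    refine ⟨r, hr, ?_⟩
    rw [SimpleGraph.deleteIncidenceSet_adj]
    exact ⟨hwr, (mem_erase.1 hw).1, fun e => h.disj r hr (e ▸ hv)⟩

/-- the count in the case of large degrees -/
theorem count {W : SimpleGraph V} {R Z : Finset V} (h3 : S_DSM) (hD : Dom W R Z)
    (hdeg : ∀ v ∈ Z, 5 ≤ (nb W v).card)
    (hup : (W.edgeSet \ (DE.cmp R).edgeSet).ncard ≤ 3 * Z.card) :
    (W.edgeSet \ (DE.cmp R).edgeSet).ncard = 3 * Z.card ∧ (∀ v ∈ Z, (nb W v).card = 5) ∧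
    ∀ v ∈ Z, (nb W v ∩ R).card = 1 := by
  have h1 := h3 V W R Z hD
  have h2 : ∀ v ∈ Z, 6 ≤ (nb W v).card + (nb W v ∩ R).card := by
    intro v hv
    obtain ⟨r, hr, hvr⟩ := hD.dom v hv
    have : 0 < (nb W v ∩ R).card := card_pos.2 ⟨r, mem_inter.2 ⟨mem_nb.2 hvr, hr⟩⟩
    have := hdeg v hv
    omega
  have h4 : ∑ _v ∈ Z, 6 ≤ ∑ v ∈ Z, ((nb W v).card + (nb W v ∩ R).card) := sum_le_sum h2
  rw [sum_const, smul_eq_mul] at h4
  have h5 : ∑ _v ∈ Z, 6 = ∑ v ∈ Z, ((nb W v).card + (nb W v ∩ R).card) := by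
    rw [sum_const, smul_eq_mul]
    omega
  have h6 := (Finset.sum_eq_sum_iff_of_le h2).1 h5
  have h7 : ∀ v ∈ Z, (nb W v).card = 5 ∧ (nb W v ∩ R).card = 1 := by
    intro v hv
    have e1 := h6 v hv
    have e2 := hdeg v hv
    obtain ⟨r, hr, hvr⟩ := hD.dom v hv
    have : 0 < (nb W v ∩ R).card := card_pos.2 ⟨r, mem_inter.2 ⟨mem_nb.2 hvr, hr⟩⟩
    omega
  refine ⟨by omega, fun v hv => (h7 v hv).1, fun v hv => (h7 v hv).2⟩

theorem uniq_of_card {W : SimpleGraph V} {R : Finset V} {v : V} (h : (nb W v ∩ R).card = 1)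
    {r r' : V} (hr : r ∈ R) (hr' : r' ∈ R) (h1 : W.Adj v r) (h2 : W.Adj v r') : r = r' := by
  obtain ⟨s, hs⟩ := card_eq_one.1 h
  have e1 : r ∈ nb W v ∩ R := mem_inter.2 ⟨mem_nb.2 h1, hr⟩
  have e2 : r' ∈ nb W v ∩ R := mem_inter.2 ⟨mem_nb.2 h2, hr'⟩
  rw [hs, mem_singleton] at e1 e2
  rw [e1, e2]

theorem tk5 (h1 : S_IMG) (h2 : S_LOW) (h3 : S_DSM) (h4 : S_MIN) (h5 : S_EXC) (h6 : S_TCR) :
    S_K5T := by
  intro V _ _ G R Z
  induction hn : Z.card using Nat.strong_induction_on generalizing G Z with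
  | _ n ih =>
  subst hn
  intro p hp hG hD x y hxy himp
  by_contra hno
  have hxyne : x ≠ y := hxy.ne
  -- small degrees
  have claimC : ∀ W ≤ G, W.Adj x y → Imp (del W x y) p x y → ∀ v ∈ Z, 5 ≤ (nb W v).card := by
    intro W hW hWxy hWi v hv
    by_contra hc
    push Not at hc
    rcases h2 V G W p hp hG hW v (by omega) x y hWxy hWi with h | ⟨h7, h8, h9⟩
    · exact hno h
    · have hlt : (Z.erase v).card < Z.card := card_erase_lt_of_mem hv
      obtain ⟨A, hA1, hA2, hA3, hA4⟩ := ih _ hlt (G.deleteIncidenceSet v) (Z.erase v) rfl p hp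
        (closed_del hp (by norm_num) hG v) (hD.delV hv) x y (by
          rw [SimpleGraph.deleteIncidenceSet_adj]
          exact ⟨hxy, h7, h8⟩) h9
      exact hno ⟨A, hA1, hA2.mono (G.deleteIncidenceSet_le v), hA3, hA4⟩
  have hxU : x ∈ R ∪ Z := mem_union.2 (hD.supp x y hxy)
  have hyU : y ∈ R ∪ Z := mem_union.2 (hD.supp y x hxy.symm)
  have hUc : (R ∪ Z).card = R.card + Z.card := card_union_of_disjoint (by
    rw [disjoint_left]
    exact fun a ha hb => hD.disj a ha hb)
  -- not complete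
  have hnc : ∃ a ∈ R ∪ Z, ∃ b ∈ R ∪ Z, a ≠ b ∧ ¬ G.Adj a b := by
    by_contra hc
    push Not at hc
    by_cases h5c : 5 ≤ (R ∪ Z).card
    · obtain ⟨A, hA1, hA2, hA3⟩ := exists_subsuperset_card_eq (n := 5)
        (show ({x, y} : Finset V) ⊆ R ∪ Z by
          intro z hz
          rw [mem_insert, mem_singleton] at hz
          rcases hz with rfl | rfl
          · exact hxU
          · exact hyU) (by rw [card_pair hxyne]; omega) h5c
      exact hno ⟨A, hA3, fun a ha b hb hab => hc a (hA2 ha) b (hA2 hb) hab, hA1 (by simp),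
        hA1 (by simp)⟩
    · have hle : (nb G x).card ≤ 4 := by
        have h7 : nb G x ⊆ (R ∪ Z).erase x := by
          intro z hz
          rw [mem_nb] at hz
          exact mem_erase.2 ⟨hz.ne', mem_union.2 (hD.supp z x hz.symm)⟩
        have h8 := card_le_card h7
        have h9 := card_erase_lt_of_mem hxU
        omega
      rcases h2 V G G p hp hG le_rfl x hle x y hxy himp with h | ⟨h7, _⟩
      · exact hno h
      · exact h7 rfl
  -- Z is not empty
  have hZne : Z.Nonempty := by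
    rw [nonempty_iff_ne_empty]
    rintro rfl
    obtain ⟨a, ha, b, hb, hab, hn⟩ := hnc
    rw [union_empty] at ha hb
    exact hn (hD.clique a ha b hb hab)
  obtain ⟨W, hWG, hWD, hWxy, hWi, hWc, hWin⟩ := h4 V G R Z p hp hD x y hxy himp
  have hRc := mo_cmpR hD.card3 hp
  have hc3 := hD.card3
  have hmoG := mo_not_cmp hp hG (U := R ∪ Z) (by omega) (fun a b h => mem_union.2 (hD.supp a b h)) hnc
  have hmoGW := mo_anti hWG p
  have hdegW := claimC W hWG hWxy hWi
  have hup : (W.edgeSet \ (DE.cmp R).edgeSet).ncard ≤ 3 * Z.card := by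
    rw [hUc] at hmoG
    omega
  obtain ⟨hcW, hd5, hd1⟩ := count h3 hWD hdegW hup
  have huniq : ∀ v ∈ Z, ∀ r ∈ R, ∀ r' ∈ R, W.Adj v r → W.Adj v r' → r = r' :=
    fun v hv r hr r' hr' => uniq_of_card (hd1 v hv) hr hr'
  choose! hub hhub using hWD.dom
  have hmoW : mo W p + 3 * (R.card + Z.card) = 7 + 3 * Fintype.card V := by
    rw [hUc] at hmoG
    omega
  -- closedness
  have hclo1 : ∀ a ∈ Z, ∀ b, a ≠ b → Imp W p a b → W.Adj a b := by
    intro a ha b hab hi
    by_contra hnab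
    obtain ⟨c, hc, d, hd, hcd, hne, hi2⟩ := h5 V W R Z p hp hWD huniq x y hWxy hWi a ha b hab
      hnab hi
    set W2 := del W c d ⊔ SimpleGraph.edge a b with hW2
    have hGab : G.Adj a b := hG a b hab (hi.mono hWG)
    have hW2G : W2 ≤ G := by
      apply sup_le ((del_le W c d).trans hWG)
      intro u w huw
      rw [SimpleGraph.edge_adj] at huw
      rcases huw.1 with ⟨rfl, rfl⟩ | ⟨rfl, rfl⟩
      · exact hGab
      · exact hGab.symm
    have hW2xy : W2.Adj x y := Or.inl (del_adj.2 ⟨hWxy, fun e => hne e.symm⟩)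
    have hW2D : Dom W2 R Z := by
      refine ⟨hD.disj, hD.card3, ?_, fun u w h => hD.supp u w (hW2G h), ?_⟩
      · intro u hu w hw huw
        refine Or.inl (del_adj.2 ⟨hWD.clique u hu w hw huw, ?_⟩)
        intro e
        rw [Sym2.eq_iff] at e
        rcases e with ⟨e, _⟩ | ⟨e, _⟩
        · exact hD.disj u hu (e ▸ hc)
        · exact hD.disj u hu (e ▸ hd)
      · intro v hv
        refine ⟨hub v, (hhub v hv).1, Or.inl (del_adj.2 ⟨(hhub v hv).2, ?_⟩)⟩
        intro e
        rw [Sym2.eq_iff] at e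
        rcases e with ⟨_, e⟩ | ⟨_, e⟩
        · exact hD.disj _ (hhub v hv).1 (e ▸ hd)
        · exact hD.disj _ (hhub v hv).1 (e ▸ hc)
    have hdeg2 := claimC W2 hW2G hW2xy hi2
    have hcdR : s(c, d) ∉ (DE.cmp R).edgeSet := fun h => hD.disj c h.2.1 hc
    have hup2 : (W2.edgeSet \ (DE.cmp R).edgeSet).ncard ≤ 3 * Z.card := by
      have e1 : W2.edgeSet \ (DE.cmp R).edgeSet ⊆
          insert s(a, b) ((W.edgeSet \ (DE.cmp R).edgeSet) \ {s(c, d)}) := by
        intro e he
        induction e using Sym2.ind with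
        | _ u w =>
          obtain ⟨h7, h8⟩ := he
          rw [SimpleGraph.mem_edgeSet, hW2, SimpleGraph.sup_adj, del_adj,
            SimpleGraph.edge_adj] at h7
          rcases h7 with h7 | h7
          · exact Or.inr ⟨⟨h7.1, h8⟩, h7.2⟩
          · left
            rw [Sym2.eq_iff]
            rcases h7.1 with ⟨rfl, rfl⟩ | ⟨rfl, rfl⟩
            · exact Or.inl ⟨rfl, rfl⟩
            · exact Or.inr ⟨rfl, rfl⟩
      have e2 := Set.ncard_le_ncard e1 (Set.toFinite _)
      have e3 := Set.ncard_insert_le s(a, b) ((W.edgeSet \ (DE.cmp R).edgeSet) \ {s(c, d)})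
      have e4 : ((W.edgeSet \ (DE.cmp R).edgeSet) \ {s(c, d)}).ncard + 1 =
          (W.edgeSet \ (DE.cmp R).edgeSet).ncard :=
        Set.ncard_sdiff_singleton_add_one ⟨hcd, hcdR⟩ (Set.toFinite _)
      omega
    obtain ⟨-, hd5', hd1'⟩ := count h3 hW2D hdeg2 hup2
    -- degrees of a and b
    have key : ∀ u ∈ Z, ∀ w, W2.Adj u w → ¬ W.Adj u w → (∀ z, W2.Adj u z → z ≠ w → W.Adj u z) →
        (u = c ∨ u = d) := by
      intro u hu w h7 h8 h9
      by_contra h10
      push Not at h10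
      have e1 : insert w (nb W u) ⊆ nb W2 u := by
        intro z hz
        rw [mem_insert, mem_nb] at hz
        rw [mem_nb]
        rcases hz with rfl | hz
        · exact h7
        · refine Or.inl (del_adj.2 ⟨hz, ?_⟩)
          intro e
          rw [Sym2.eq_iff] at e
          rcases e with ⟨e, _⟩ | ⟨e, _⟩
          · exact h10.1 e
          · exact h10.2 e
      have e2 := card_le_card e1
      rw [card_insert_of_notMem (fun h => h8 (mem_nb.1 h)), hd5 u hu, hd5' u hu] at e2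
      omega
    have hW2ab : W2.Adj a b := Or.inr (by
      rw [SimpleGraph.edge_adj]
      exact ⟨Or.inl ⟨rfl, rfl⟩, hab⟩)
    rcases hWD.supp c d hcd with hcR | _
    · exact hD.disj c hcR hc
    rcases hD.supp b a hGab.symm with hbR | hbZ
    · have e1 := uniq_of_card (hd1' a ha) (hhub a ha).1 hbR (Or.inl (del_adj.2
        ⟨(hhub a ha).2, by
          intro e
          rw [Sym2.eq_iff] at e
          rcases e with ⟨_, e⟩ | ⟨_, e⟩
          · exact hD.disj _ (hhub a ha).1 (e ▸ hd)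
          · exact hD.disj _ (hhub a ha).1 (e ▸ hc)⟩)) hW2ab
      exact hnab (e1 ▸ (hhub a ha).2)
    · have hrest : ∀ u w z : V, (u = a ∧ w = b ∨ u = b ∧ w = a) → W2.Adj u z → z ≠ w →
          W.Adj u z := by
        intro u w z huw h7 h8
        rw [hW2, SimpleGraph.sup_adj, del_adj, SimpleGraph.edge_adj] at h7
        rcases h7 with h7 | ⟨h7, _⟩
        · exact h7.1
        · exfalso
          rcases huw with ⟨rfl, rfl⟩ | ⟨rfl, rfl⟩
          · rcases h7 with ⟨_, e⟩ | ⟨e, _⟩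
            · exact h8 e
            · exact hab e
          · rcases h7 with ⟨e, _⟩ | ⟨_, e⟩
            · exact hab e.symm
            · exact h8 e
      have ka := key a ha b hW2ab hnab (fun z => hrest a b z (Or.inl ⟨rfl, rfl⟩))
      have kb := key b hbZ a hW2ab.symm (fun h => hnab h.symm)
        (fun z => hrest b a z (Or.inr ⟨rfl, rfl⟩))
      apply hnab
      rcases ka with rfl | rfl <;> rcases kb with rfl | rfl
      · exact absurd rfl hab
      · exact hcd
      · exact hcd.symm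
      · exact absurd rfl hab
  have hclo : ∀ p' : V → Fin 3 → ℝ, MG p' → ∀ a b, a ∈ R ∨ a ∈ Z → b ∈ R ∨ b ∈ Z → a ≠ b →
      Imp W p' a b → W.Adj a b := by
    intro p' hp' a b ha hb hab hi
    have hi' := h1 V W p' p hp' hp a b hi
    rcases ha with ha | ha
    · rcases hb with hb | hb
      · exact hWD.clique a ha b hb hab
      · exact (hclo1 b hb a hab.symm hi'.symm).symm
    · exact hclo1 a ha b hab hi'
  -- no complete graph with five vertices
  have hK5 : ∀ A : Finset V, A.card = 5 → Cq W A → ∀ v ∈ A, v ∉ Z := by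
    intro A hA hcA v hvA hvZ
    have h7 : (A ∩ R).card ≤ 1 := by
      rw [← hd1 v hvZ]
      apply card_le_card
      intro r hr
      rw [mem_inter] at hr
      exact mem_inter.2 ⟨mem_nb.2 (hcA v hvA r hr.1 fun e => hD.disj r hr.2 (e ▸ hvZ)), hr.2⟩
    have h8 : 1 < (A ∩ Z).card := by
      have h9 : A ⊆ (A ∩ R) ∪ (A ∩ Z) := by
        intro a ha
        obtain ⟨b, hb, hba⟩ := exists_mem_ne (by omega : 1 < A.card) a
        rw [mem_union, mem_inter, mem_inter]
        rcases hWD.supp a b (hcA a ha b hb hba.symm) with h | h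
        · exact Or.inl ⟨ha, h⟩
        · exact Or.inr ⟨ha, h⟩
      have h10 := card_le_card h9
      have h11 := card_union_le (A ∩ R) (A ∩ Z)
      omega
    obtain ⟨c, hc, d, hd, hcd⟩ := one_lt_card.1 h8
    rw [mem_inter] at hc hd
    have hAdj := hcA c hc.1 d hd.1 hcd
    have hxyA : ¬ (x ∈ A ∧ y ∈ A) := fun h => hno ⟨A, hA, hcA.mono hWG, h.1, h.2⟩
    have hne : s(c, d) ≠ s(x, y) := by
      intro e
      rw [Sym2.eq_iff] at e
      rcases e with ⟨rfl, rfl⟩ | ⟨rfl, rfl⟩
      · exact hxyA ⟨hc.1, hd.1⟩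
      · exact hxyA ⟨hd.1, hc.1⟩
    refine (hWin c hc.2 d hd.2 hAdj hne).1 ?_
    intro q hq
    refine circuit hp (del (del W x y) c d) A hA hc.1 hd.1 ?_ hq
    intro u hu w hw huw h12 h13
    rw [del_adj, del_adj]
    refine ⟨⟨hcA u hu w hw huw, ?_⟩, ?_⟩
    · intro e
      rw [Sym2.eq_iff] at e
      rcases e with ⟨rfl, rfl⟩ | ⟨rfl, rfl⟩
      · exact hxyA ⟨hu, hw⟩
      · exact hxyA ⟨hw, hu⟩
    · intro e
      rw [Sym2.eq_iff] at e
      rcases e with e | e
      · exact h12 e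
      · exact h13 e
  refine t_core V W R Z hub (h6 V W R Z hub hWD hZne hhub ?_ hd5 hK5 hclo hcW ?_ ?_)
  · intro v hv r hr hvr
    exact huniq v hv r hr (hub v) (hhub v hv).1 hvr (hhub v hv).2
  · intro p' hp'
    rw [mo_eq W hp' hp]
    exact hmoW
  · intro p' hp' a ha b hb hab
    rw [mo_eq W hp' hp, mo_eq (del W a b) hp' hp]
    by_cases hne : s(a, b) = s(x, y)
    · have e1 : del W a b = del W x y := by
        unfold del
        rw [hne]
      rw [e1]
      apply mo_le_of_imp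
      intro u w huw
      by_cases he : s(u, w) = s(x, y)
      · rw [Sym2.eq_iff] at he
        rcases he with ⟨rfl, rfl⟩ | ⟨rfl, rfl⟩
        · exact hWi
        · exact hWi.symm
      · exact imp_of_adj (del_adj.2 ⟨huw, he⟩)
    · exact (hWin a ha b hb hab hne).2

end Pool.Agent.N423.DT
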