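import Mathlib
import Pool.Agent.N423.DC.TK5

/-!
# Proper sequences of cliques in closed graphs
-/

set_option autoImplicit false
set_option linter.unusedSectionVars false

namespace Pool.Agent.N423.DT

open Matrix Finset Pool.Agent.H283R2.DR Pool.Agent.H789R5 Pool.Agent.N423.DE Pool.Agent.N423.DC

variable {V : Type} [Fintype V] [DecidableEq V]

theorem ext3 {p : V → Fin 3 → ℝ} (hp : MG p) (G : SimpleGraph V) {v : V}
    (h : 3 ≤ (nb G v).card) : mo G p + 3 ≤ mo (G.deleteIncidenceSet v) p := by
  obtain ⟨T, hT, hTc⟩ := exists_subset_card_eq h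
  have := ext0 hp G v T hTc.le (fun z hz => mem_nb.1 (hT hz))
  omega

theorem seq_cmp {p : V → Fin 3 → ℝ} (hp : MG p) (n : ℕ) : ∀ U : Finset V, U.card = n →
    HasSeq (DE.cmp U) p := by
  induction n with
  | zero =>
    intro U hU
    have hFb : DE.cmp U = ⊥ := by
      ext a b
      simp only [SimpleGraph.bot_adj, iff_false]
      rintro ⟨-, h, -⟩
      rw [card_eq_zero.1 hU] at h
      simp at h
    refine ⟨[], trivial, by simp, ?_⟩
    have := mo_le (⊥ : SimpleGraph V) p
    rw [hFb]
    simpa using this
  | succ n ih =>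
    intro U hU
    obtain ⟨v, hv⟩ : U.Nonempty := by rw [← card_pos, hU]; omega
    have h1 := ih (U.erase v) (by rw [card_erase_of_mem hv, hU]; rfl)
    rw [← cmp_del] at h1
    refine step h1 (Subset.refl _) ?_ ?_
    · intro a ha b hb hab
      rw [nb_cmp hv] at ha hb
      exact ⟨hab, mem_of_mem_erase ha, mem_of_mem_erase hb⟩
    · by_cases h3 : 3 ≤ (nb (DE.cmp U) v).card
      · have := ext3 hp (DE.cmp U) h3
        omega
      · have := ext0 hp (DE.cmp U) v (nb (DE.cmp U) v) (by omega) (fun z hz => mem_nb.1 hz)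
        omega

theorem tseq (h1 : S_K5T) (h2 : S_GN4) (h3 : S_VTX) : S_SEQ := by
  intro V _ _ G R Z
  induction hn : Z.card generalizing G Z with
  | zero =>
    intro p hp hG hD
    rw [card_eq_zero] at hn
    subst hn
    have e : G = DE.cmp R := by
      ext a b
      constructor
      · intro h
        refine ⟨h.ne, (hD.supp a b h).resolve_right (Finset.notMem_empty a),
          (hD.supp b a h.symm).resolve_right (Finset.notMem_empty b)⟩
      · rintro ⟨hab, ha, hb⟩
        exact hD.clique a ha b hb hab
    rw [e]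
    exact seq_cmp hp _ R rfl
  | succ n ih =>
    intro p hp hG hD
    by_cases hnc : ∃ a b, (a ∈ R ∨ a ∈ Z) ∧ (b ∈ R ∨ b ∈ Z) ∧ a ≠ b ∧ ¬ G.Adj a b
    · obtain ⟨v, hv, hmo⟩ := h3 V G R Z p hp hG hD hnc
      have hs : HasSeq (G.deleteIncidenceSet v) p :=
        ih (G.deleteIncidenceSet v) (Z.erase v) (by rw [card_erase_of_mem hv, hn]; rfl) p hp
          (closed_del hp (by norm_num) hG v) (hD.delV hv)
      by_cases hN3 : (nb G v).card ≤ 3
      · refine step hs (empty_subset _) (fun a ha => by simp at ha) ?_
        have := ext0 hp G v (nb G v) hN3 (fun z hz => mem_nb.1 hz)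
        omega
      have h3 := ext3 hp G (v := v) (by omega)
      by_cases hmo3 : mo (G.deleteIncidenceSet v) p ≤ mo G p + 3
      · have hcl := caseB hp (by norm_num) hG (v := v) (by omega) hmo3
        refine step hs (Subset.refl _) hcl ?_
        omega
      by_cases hN4 : (nb G v).card ≤ 4
      · refine step hs (empty_subset _) (fun a ha => by simp at ha) ?_
        omega
      · obtain ⟨y, hy, hyc⟩ := h2 V G p hp hG v (by omega) hmo
          (fun y hy hi => h1 V G R Z p hp hG hD v y hy hi)
        refine step hs (erase_subset _ _) hyc ?_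
        rw [card_erase_of_mem hy]
        omega
    · push Not at hnc
      have e : G = DE.cmp (R ∪ Z) := by
        ext a b
        constructor
        · intro h
          exact ⟨h.ne, mem_union.2 (hD.supp a b h), mem_union.2 (hD.supp b a h.symm)⟩
        · rintro ⟨hab, ha, hb⟩
          exact hnc a b (mem_union.1 ha) (mem_union.1 hb) hab
      rw [e]
      exact seq_cmp hp _ _ rfl

end Pool.Agent.N423.DT
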