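import Mathlib
import Pool.Agent.N423.DC.TSEQ

/-!
# The rank formula and implied pairs for graphs with a dominating rigid subgraph
-/

set_option autoImplicit false
set_option linter.unusedSectionVars false

namespace Pool.Agent.N423.DT

open Matrix Finset Pool.Agent.H283R2.DR Pool.Agent.H789R5 Pool.Agent.N423.DE Pool.Agent.N423.DC

variable {V : Type} [Fintype V]

theorem linked_symm {d : ℕ} {G : SimpleGraph V} {u v : V} (h : Linked d G u v) :
    Linked d G v u := by
  unfold Linked at *
  rw [SimpleGraph.edge_comm]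
  exact h

/-- all edges of `G'` are implied by `G` -/
theorem linked_of_imp {p : V → Fin 3 → ℝ} (hp : MG p) {G : SimpleGraph V} {u v : V}
    (h : Imp G p u v) : Linked 3 G u v := by
  have h1 := genRank_add hp G
  have h2 := genRank_add hp (G ⊔ SimpleGraph.edge u v)
  have h3 : mo G p ≤ mo (G ⊔ SimpleGraph.edge u v) p := by
    apply mo_le_of_imp
    intro a b hab
    rcases hab with hab | hab
    · exact imp_of_adj hab
    · rw [SimpleGraph.edge_adj] at hab
      rcases hab.1 with ⟨rfl, rfl⟩ | ⟨rfl, rfl⟩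
      · exact h
      · exact h.symm
  have h4 := mo_anti (le_sup_left : G ≤ G ⊔ SimpleGraph.edge u v) p
  unfold Linked
  omega

/-- the set `R` is pairwise linked, and every other vertex is linked to one of its elements -/
def LHub (G : SimpleGraph V) (R : Finset V) : Prop :=
  (∀ a ∈ R, ∀ b ∈ R, a ≠ b → Linked 3 G a b) ∧ ∀ v, v ∉ R → ∃ r ∈ R, Linked 3 G v r

/-- the conclusion: a proper sequence with equality -/
def HasEq (G : SimpleGraph V) (p : V → Fin 3 → ℝ) : Prop :=
  ∃ L : List (Finset V), Proper 5 L ∧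
    mo G p + (cover G L).edgeSet.ncard = 3 * Fintype.card V + L.length

theorem eq_big (hS : S_SEQ) {p : V → Fin 3 → ℝ} (hp : MG p) {G : SimpleGraph V} {R : Finset V}
    (hR : 3 ≤ R.card) (h : LHub G R) : HasEq G p := by
  classical
  have hD : Dom (cl G p) R Rᶜ := by
    refine ⟨fun x hx h => (mem_compl.1 h) hx, hR, ?_, ?_, ?_⟩
    · intro a ha b hb hab
      exact ⟨hab, imp_of_linked hp hab (h.1 a ha b hb hab)⟩
    · intro x y _
      by_cases hx : x ∈ R
      · exact Or.inl hx
      · exact Or.inr (mem_compl.2 hx)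
    · intro v hv
      have hv' := mem_compl.1 hv
      obtain ⟨r, hr, hvr⟩ := h.2 v hv'
      have hne : v ≠ r := fun e => hv' (e ▸ hr)
      exact ⟨r, hr, hne, imp_of_linked hp hne hvr⟩
  obtain ⟨L, hL, hLc, hLl⟩ := hS V (cl G p) R Rᶜ p hp (closed_cl G p) hD
  refine ⟨L, hL, le_antisymm ?_ ?_⟩
  · have h1 : cover G L ≤ cl G p := by
      rintro x y ⟨hne, h | ⟨A, hA, hx, hy⟩⟩
      · exact le_cl G p h
      · exact hLc A hA x hx y hy hne
    have h2 := Set.ncard_le_ncard (SimpleGraph.edgeSet_subset_edgeSet.2 h1) (Set.toFinite _)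
    rw [mo_cl] at hLl
    omega
  · have := upper hp G hL
    omega

theorem eq_pair {p : V → Fin 3 → ℝ} (hp : MG p) {G : SimpleGraph V} {R : Finset V}
    (hR : R.card = 2) (h : LHub G R) : HasEq G p := by
  classical
  refine lower_hub hp (R := R) (by omega) h.1 ?_
  intro v hv
  obtain ⟨r, hr, h⟩ := h.2 v hv
  refine ⟨{r}, Finset.singleton_subset_iff.2 hr, by simp, ?_⟩
  intro r' hr'
  rw [Finset.mem_singleton] at hr'
  subst hr'
  exact h

theorem eq_all (hS : S_SEQ) {p : V → Fin 3 → ℝ} (hp : MG p) {G : SimpleGraph V} {R : Finset V}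
    (hR : R.Nonempty) (h : LHub G R) : HasEq G p := by
  classical
  by_cases h3 : 3 ≤ R.card
  · exact eq_big hS hp h3 h
  by_cases h2 : R.card = 2
  · exact eq_pair hp h2 h
  have h1 : R.card = 1 := by
    have := Finset.card_pos.2 hR
    omega
  obtain ⟨r, rfl⟩ := Finset.card_eq_one.1 h1
  by_cases hx : ∃ x, x ≠ r
  · obtain ⟨x, hx⟩ := hx
    have hd : ∀ v, v ≠ r → Linked 3 G v r := by
      intro v hv
      obtain ⟨s, hs, h'⟩ := h.2 v (by rw [Finset.mem_singleton]; exact hv)
      rw [Finset.mem_singleton] at hs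
      rw [hs] at h'
      exact h'
    refine eq_pair hp (Finset.card_pair hx.symm) ⟨?_, ?_⟩
    · intro a ha b hb hab
      rw [Finset.mem_insert, Finset.mem_singleton] at ha hb
      rcases ha with rfl | rfl <;> rcases hb with rfl | rfl
      · exact absurd rfl hab
      · exact linked_symm (hd b hx)
      · exact hd a hx
      · exact absurd rfl hab
    · intro v hv
      refine ⟨r, Finset.mem_insert_self _ _, hd v ?_⟩
      rintro rfl
      exact hv (Finset.mem_insert_self _ _)
  · push Not at hx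
    have h0 : G = ⊥ := by
      ext a b
      simp only [SimpleGraph.bot_adj, iff_false]
      intro hab
      exact hab.ne ((hx a).trans (hx b).symm)
    refine ⟨[], trivial, ?_⟩
    rw [cover_nil, h0]
    have h1 := mo_lower (⊥ : SimpleGraph V) p
    have h2 := mo_le (⊥ : SimpleGraph V) p
    simp only [SimpleGraph.edgeSet_bot, Set.ncard_empty, List.length_nil, add_zero] at h1 ⊢
    omega

theorem lhub_mono {p : V → Fin 3 → ℝ} (hp : MG p) {G G' : SimpleGraph V} (hle : G ≤ G')
    {R : Finset V} (h : LHub G R) : LHub G' R := by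
  refine ⟨fun a ha b hb hab => linked_of_imp hp ((imp_of_linked hp hab (h.1 a ha b hb hab)).mono hle),
    ?_⟩
  intro v hv
  obtain ⟨r, hr, hvr⟩ := h.2 v hv
  have hne : v ≠ r := fun e => hv (e ▸ hr)
  exact ⟨r, hr, linked_of_imp hp ((imp_of_linked hp hne hvr).mono hle)⟩

/-- each linked pair that is not adjacent is in a set of five pairwise linked vertices -/
theorem five (hS : S_SEQ) {p : V → Fin 3 → ℝ} (hp : MG p) {G : SimpleGraph V} {R : Finset V}
    (hR : R.Nonempty) (h : LHub G R) {u v : V} (huv : u ≠ v) (hl : Linked 3 G u v)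
    (hn : ¬ G.Adj u v) : ∃ A : Finset V, A.card = 5 ∧ u ∈ A ∧ v ∈ A ∧
      ∀ a ∈ A, ∀ b ∈ A, a ≠ b → Linked 3 G a b := by
  classical
  set G' := G ⊔ SimpleGraph.edge u v with hG'
  have hle : G ≤ G' := le_sup_left
  obtain ⟨L, hL, hLe⟩ := eq_all hS hp hR (lhub_mono hp hle h)
  have hmo : mo G p = mo G' p := by
    have h1 := genRank_add hp G
    have h2 := genRank_add hp G'
    unfold Linked at hl
    rw [← hG'] at hl
    omega
  have hcle : cover G L ≤ cover G' L := by
    rintro a b ⟨hab, h1 | h1⟩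
    · exact ⟨hab, Or.inl (hle h1)⟩
    · exact ⟨hab, Or.inr h1⟩
  -- the pair is in a member
  obtain ⟨A, hA, huA, hvA⟩ : ∃ A ∈ L, u ∈ A ∧ v ∈ A := by
    by_contra hno
    push Not at hno
    have hnc : ¬ (cover G L).Adj u v := by
      rintro ⟨_, h1 | ⟨A, hA, h1, h2⟩⟩
      · exact hn h1
      · exact hno A hA h1 h2
    have hlt : (cover G L).edgeSet.ncard < (cover G' L).edgeSet.ncard := by
      apply Set.ncard_lt_ncard _ (Set.toFinite _)
      refine ⟨SimpleGraph.edgeSet_subset_edgeSet.2 hcle, ?_⟩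
      intro hsub
      apply hnc
      have h1 : s(u, v) ∈ (cover G' L).edgeSet :=
        ⟨huv, Or.inl (Or.inr (by rw [SimpleGraph.edge_adj]; exact ⟨Or.inl ⟨rfl, rfl⟩, huv⟩))⟩
      exact hsub h1
    have h1 := upper hp G hL
    omega
  refine ⟨A, proper_card hL A hA, huA, hvA, ?_⟩
  intro a ha b hb hab
  apply linked_of_imp hp
  -- everything in the cover is implied
  have hcc : cover (cover G' L) L = cover G' L := by
    ext x y
    constructor
    · rintro ⟨hxy, ⟨_, h1⟩ | h1⟩
      · exact ⟨hxy, h1⟩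
      · exact ⟨hxy, Or.inr h1⟩
    · exact fun h1 => ⟨h1.ne, Or.inl h1⟩
  have h1 := upper hp (cover G' L) hL
  rw [hcc] at h1
  have h2 : mo G p ≤ mo (cover G' L) p := by omega
  refine imp_of_mo_le (G' := cover G' L) ?_ h2 ?_
  · exact fun x y hxy => ⟨hxy.ne, Or.inl (hle hxy)⟩
  · exact ⟨hab, Or.inr ⟨A, hA, ha, hb⟩⟩

end Pool.Agent.N423.DT
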