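import Mathlib
import Pool.Agent.N423.DC.TK5

/-!
# The neighbours of a vertex with gain at most four
-/

set_option autoImplicit false
set_option linter.unusedSectionVars false

namespace Pool.Agent.N423.DT

open Matrix Finset Pool.Agent.H283R2.DR Pool.Agent.H789R5 Pool.Agent.N423.DE Pool.Agent.N423.DC

theorem del_sup_edge {V : Type} {G : SimpleGraph V} {x y : V} (h : G.Adj x y) :
    del G x y ⊔ SimpleGraph.edge x y = G := by
  ext a b
  rw [SimpleGraph.sup_adj, del_adj, SimpleGraph.edge_adj]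
  constructor
  · rintro (h1 | ⟨⟨rfl, rfl⟩ | ⟨rfl, rfl⟩, _⟩)
    · exact h1.1
    · exact h
    · exact h.symm
  · intro h1
    by_cases he : s(a, b) = s(x, y)
    · rw [Sym2.eq_iff] at he
      exact Or.inr ⟨he, h1.ne⟩
    · exact Or.inl ⟨h1, he⟩

theorem tgn4 (h : S_TWO) : S_GN4 := by
  intro V _ _ G p hp hG v hN hmo hK
  by_cases hco : ∃ y ∈ nb G v, ¬ Imp (del G v y) p v y
  · obtain ⟨y, hy, hyi⟩ := hco
    refine ⟨y, hy, ?_⟩
    have hvy : G.Adj v y := mem_nb.1 hy
    have h1 := mo_lt_of_not_imp hvy.ne hyi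
    rw [del_sup_edge hvy] at h1
    have hnb : nb (del G v y) v = (nb G v).erase y := by
      ext z
      rw [mem_nb, del_adj, mem_erase, mem_nb]
      constructor
      · rintro ⟨h2, h3⟩
        exact ⟨fun e => h3 (by rw [e]), h2⟩
      · rintro ⟨h2, h3⟩
        refine ⟨h3, ?_⟩
        intro e
        rw [Sym2.eq_iff] at e
        rcases e with ⟨_, e⟩ | ⟨e, _⟩
        · exact h2 e
        · exact hvy.ne e
    have hdel : (del G v y).deleteIncidenceSet v = G.deleteIncidenceSet v := by
      ext a b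
      rw [SimpleGraph.deleteIncidenceSet_adj, SimpleGraph.deleteIncidenceSet_adj, del_adj]
      constructor
      · rintro ⟨h2, h3, h4⟩
        exact ⟨h2.1, h3, h4⟩
      · rintro ⟨h2, h3, h4⟩
        refine ⟨⟨h2, ?_⟩, h3, h4⟩
        intro e
        rw [Sym2.eq_iff] at e
        rcases e with ⟨e, _⟩ | ⟨_, e⟩
        · exact h3 e
        · exact h4 e
    intro a ha b hb hab
    by_contra hn
    have h2 : ¬ Imp ((del G v y).deleteIncidenceSet v) p a b :=
      hG.not_imp (((del G v y).deleteIncidenceSet_le v).trans (del_le G v y)) hab hn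
    rw [← hnb] at ha hb
    have h3 := gain1 hp (mem_nb.1 ha) (mem_nb.1 hb) hab (by
      rw [hnb, card_erase_of_mem hy]; omega) (by norm_num) h2
    rw [hdel] at h3
    omega
  · push Not at hco
    have hcl : Cq G (nb G v) := by
      intro a ha b hb hab
      obtain ⟨A, hA, hcA, hvA, haA⟩ := hK a (mem_nb.1 ha) (hco a ha)
      obtain ⟨B, hB, hcB, hvB, hbB⟩ := hK b (mem_nb.1 hb) (hco b hb)
      exact h V G p hp hG v A B hA.ge hB.ge hcA hcB hvA hvB hmo a haA b hbB hab
    obtain ⟨y, hy⟩ : (nb G v).Nonempty := card_pos.1 (by omega)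
    exact ⟨y, hy, hcl.subset (erase_subset _ _)⟩

end Pool.Agent.N423.DT
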