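import Mathlib
import Pool.Agent.N423.DC.StmT

/-!
# Project DT (helper423), file TIMG (helper578): implied pairs and generic placements; the sum of the degrees
-/

set_option autoImplicit false
set_option linter.unusedSectionVars false

namespace Pool.Agent.N423.DT

open Matrix Finset Pool.Agent.H283R2.DR Pool.Agent.H789R5 Pool.Agent.N423.DE Pool.Agent.N423.DC

theorem timg : S_IMG := by
  intro V _ G p p' hp hp' x y h
  classical
  have h1 : mo G p ≤ mo (G ⊔ SimpleGraph.edge x y) p := by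
    apply mo_le_of_imp
    intro a b hab
    rw [SimpleGraph.sup_adj, SimpleGraph.edge_adj] at hab
    rcases hab with hab | ⟨⟨rfl, rfl⟩ | ⟨rfl, rfl⟩, -⟩
    · exact imp_of_adj hab
    · exact h
    · exact h.symm
  by_cases hxy : x = y
  · subst hxy
    intro q _
    simp
  · have e1 : mo G p' ≤ mo G p := hp'.min G p
    have e2 : mo (G ⊔ SimpleGraph.edge x y) p ≤ mo (G ⊔ SimpleGraph.edge x y) p' := hp.min _ p'
    refine imp_of_mo_le (G' := G ⊔ SimpleGraph.edge x y) le_sup_left (by omega) ?_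
    rw [SimpleGraph.sup_adj, SimpleGraph.edge_adj]
    exact Or.inr ⟨Or.inl ⟨rfl, rfl⟩, hxy⟩

namespace TIMG

theorem cross {V : Type} [Fintype V] [DecidableEq V] (B : SimpleGraph V) (R Z : Finset V) :
    ∑ r ∈ R, (nb B r ∩ Z).card = ∑ v ∈ Z, (nb B v ∩ R).card := by
  classical
  have e1 : ∀ (X : Finset V) (r : V), (nb B r ∩ X).card = ∑ v ∈ X, if B.Adj r v then 1 else 0 := by
    intro X r
    rw [← card_filter]
    congr 1
    ext z
    rw [mem_inter, mem_nb, mem_filter, and_comm]
  simp only [e1]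
  rw [sum_comm]
  refine sum_congr rfl fun a _ => sum_congr rfl fun b _ => ?_
  simp only [B.adj_comm a b]

end TIMG

theorem tdsm : S_DSM := by
  intro V _ _ W R Z hD
  classical
  have hset : (W \ DE.cmp R).edgeSet = W.edgeSet \ (DE.cmp R).edgeSet := SimpleGraph.edgeSet_sdiff _ _
  rw [← hset, ← handshake]
  have hZ : ∀ v ∈ Z, nb (W \ DE.cmp R) v = nb W v := by
    intro v hv
    ext z
    rw [mem_nb, mem_nb, SimpleGraph.sdiff_adj]
    refine ⟨fun h => h.1, fun h => ⟨h, fun h2 => ?_⟩⟩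
    exact hD.disj v h2.2.1 hv
  have hR : ∀ v ∈ R, nb (W \ DE.cmp R) v = nb W v ∩ Z := by
    intro v hv
    ext z
    rw [mem_nb, mem_inter, mem_nb, SimpleGraph.sdiff_adj]
    constructor
    · rintro ⟨h1, h2⟩
      refine ⟨h1, ?_⟩
      rcases hD.supp z v h1.symm with h3 | h3
      · exact absurd ⟨h1.ne, hv, h3⟩ h2
      · exact h3
    · rintro ⟨h1, h2⟩
      exact ⟨h1, fun h3 => hD.disj z h3.2.2 h2⟩
  have hO : ∀ v, v ∉ R → v ∉ Z → nb (W \ DE.cmp R) v = ∅ := by
    intro v h1 h2
    rw [eq_empty_iff_forall_notMem]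
    intro z hz
    rw [mem_nb, SimpleGraph.sdiff_adj] at hz
    rcases hD.supp v z hz.1 with h3 | h3
    · exact h1 h3
    · exact h2 h3
  have hdisj : Disjoint Z R := by
    rw [disjoint_left]
    intro a ha hb
    exact hD.disj a hb ha
  have h1 : ∑ v, (nb (W \ DE.cmp R) v).card = ∑ v ∈ Z ∪ R, (nb (W \ DE.cmp R) v).card := by
    symm
    apply sum_subset (subset_univ _)
    intro v _ hv
    rw [mem_union, not_or] at hv
    rw [hO v hv.2 hv.1, card_empty]
  rw [h1, sum_union hdisj, sum_add_distrib, ← TIMG.cross W R Z]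
  congr 1
  · exact sum_congr rfl fun v hv => by rw [hZ v hv]
  · exact sum_congr rfl fun v hv => by rw [hR v hv]

end Pool.Agent.N423.DT
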