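import Mathlib
import Pool.Agent.N423.DC.TGN4

/-!
# A vertex of degree at most four in a dependent subgraph
-/

set_option autoImplicit false
set_option linter.unusedSectionVars false

namespace Pool.Agent.N423.DT

open Matrix Finset Pool.Agent.H283R2.DR Pool.Agent.H789R5 Pool.Agent.N423.DE Pool.Agent.N423.DC

namespace TLOW

variable {V : Type} [Fintype V] [DecidableEq V]

theorem imp_trans {G : SimpleGraph V} {p : V → Fin 3 → ℝ} {x y : V} (h : Imp (del G x y) p x y) :
    mo (del G x y) p ≤ mo G p := by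
  apply mo_le_of_imp
  intro u w huw
  by_cases he : s(u, w) = s(x, y)
  · rw [Sym2.eq_iff] at he
    rcases he with ⟨rfl, rfl⟩ | ⟨rfl, rfl⟩
    · exact h
    · exact h.symm
  · exact imp_of_adj (del_adj.2 ⟨huw, he⟩)

/-- deleting an edge at `v` and then `v` -/
theorem del_del_v {G : SimpleGraph V} {v x y : V} (h : x = v ∨ y = v) :
    (del G x y).deleteIncidenceSet v = G.deleteIncidenceSet v := by
  ext a b
  rw [SimpleGraph.deleteIncidenceSet_adj, SimpleGraph.deleteIncidenceSet_adj, del_adj]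
  constructor
  · rintro ⟨h2, h3, h4⟩
    exact ⟨h2.1, h3, h4⟩
  · rintro ⟨h2, h3, h4⟩
    refine ⟨⟨h2, ?_⟩, h3, h4⟩
    intro e
    rw [Sym2.eq_iff] at e
    rcases e with ⟨rfl, rfl⟩ | ⟨rfl, rfl⟩
    · rcases h with h | h
      · exact h3 h
      · exact h4 h
    · rcases h with h | h
      · exact h4 h
      · exact h3 h

/-- an edge at `v` is lost -/
theorem nb_del_lt {G : SimpleGraph V} {v x y : V} (h : x = v ∨ y = v) (hxy : G.Adj x y) :
    (nb (del G x y) v).card + 1 ≤ (nb G v).card := by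
  have key : ∃ z, G.Adj v z ∧ ¬ (del G x y).Adj v z := by
    rcases h with rfl | rfl
    · exact ⟨y, hxy, fun h => (del_adj.1 h).2 rfl⟩
    · exact ⟨x, hxy.symm, fun h => (del_adj.1 h).2 Sym2.eq_swap⟩
  obtain ⟨z, h1, h2⟩ := key
  have h3 : nb (del G x y) v ⊂ nb G v := by
    rw [ssubset_iff_of_subset]
    · exact ⟨z, mem_nb.2 h1, fun h => h2 (mem_nb.1 h)⟩
    · intro w hw
      exact mem_nb.2 (del_le G x y (mem_nb.1 hw))
  exact card_lt_card h3

theorem nb_del_eq {G : SimpleGraph V} {v x y : V} (hx : x ≠ v) (hy : y ≠ v) :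
    nb (del G x y) v = nb G v := by
  ext z
  rw [mem_nb, mem_nb, del_adj]
  constructor
  · exact fun h => h.1
  · intro h
    refine ⟨h, ?_⟩
    intro e
    rw [Sym2.eq_iff] at e
    rcases e with ⟨e, _⟩ | ⟨e, _⟩
    · exact hx e.symm
    · exact hy e.symm

theorem le_del {G W : SimpleGraph V} (hW : W ≤ G) (v x y : V) :
    (del W x y).deleteIncidenceSet v ≤ del (G.deleteIncidenceSet v) x y := by
  intro a b hab
  rw [SimpleGraph.deleteIncidenceSet_adj, del_adj] at hab
  rw [del_adj, SimpleGraph.deleteIncidenceSet_adj]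
  exact ⟨⟨hW hab.1.1, hab.2.1, hab.2.2⟩, hab.1.2⟩

theorem fact {G W : SimpleGraph V} {p : V → Fin 3 → ℝ} (hW : W ≤ G) {v x y : V}
    (hx : x ≠ v) (hy : y ≠ v) (hxy : W.Adj x y)
    (h : mo ((del W x y).deleteIncidenceSet v) p ≤ mo (W.deleteIncidenceSet v) p) :
    Imp (del (G.deleteIncidenceSet v) x y) p x y := by
  have h1 : Imp ((del W x y).deleteIncidenceSet v) p x y := by
    refine imp_of_mo_le (del_mono (del_le W x y) v) h ?_
    rw [SimpleGraph.deleteIncidenceSet_adj]
    exact ⟨hxy, hx, hy⟩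
  exact h1.mono (le_del hW v x y)

theorem star_del {H1 : SimpleGraph V} {v : V} {N : Finset V} (hiso : ∀ u, ¬ H1.Adj v u) :
    (H1 ⊔ star v N).deleteIncidenceSet v = H1 := by
  ext a b
  rw [SimpleGraph.deleteIncidenceSet_adj, SimpleGraph.sup_adj]
  constructor
  · rintro ⟨h | ⟨_, ⟨h, _⟩ | ⟨h, _⟩⟩, h2, h3⟩
    · exact h
    · exact absurd h h2
    · exact absurd h h3
  · intro h
    exact ⟨Or.inl h, fun e => hiso b (e ▸ h), fun e => hiso a (e ▸ h.symm)⟩

theorem star_nb {H1 : SimpleGraph V} {v : V} {N : Finset V} (hiso : ∀ u, ¬ H1.Adj v u)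
    (hv : v ∉ N) : nb (H1 ⊔ star v N) v = N := by
  ext z
  rw [mem_nb, SimpleGraph.sup_adj]
  constructor
  · rintro (h | ⟨_, ⟨_, h⟩ | ⟨_, h⟩⟩)
    · exact absurd h (hiso z)
    · exact h
    · exact absurd h hv
  · intro h
    exact Or.inr ⟨fun e => hv (e ▸ h), Or.inl ⟨rfl, h⟩⟩

/-- attaching a vertex to a clique -/
theorem star_mo {p : V → Fin 3 → ℝ} (hp : MG p) {H1 : SimpleGraph V} {v : V} {N : Finset V}
    (hiso : ∀ u, ¬ H1.Adj v u) (hv : v ∉ N) (hN : 3 ≤ N.card) (hc : Cq H1 N) :
    mo H1 p = mo (H1 ⊔ star v N) p + 3 := by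
  have h1 := gain_clique hp (G := H1 ⊔ star v N) (v := v) (by
    rw [star_nb hiso hv]
    exact hc.mono le_sup_left)
  rw [star_del hiso] at h1
  obtain ⟨T, hT, hTc⟩ := exists_subset_card_eq hN
  have h2 := ext0 hp (H1 ⊔ star v N) v T hTc.le (fun z hz =>
    Or.inr ⟨fun e => hv (e ▸ hT hz), Or.inl ⟨rfl, hT hz⟩⟩)
  rw [star_del hiso] at h2
  omega

end TLOW

open TLOW in
theorem tlow : S_LOW := by
  intro V _ _ G W p hp hG hW v hN x y hxy hi
  have hmo := imp_trans hi
  have hxyne : x ≠ y := hxy.ne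
  by_cases hN3 : (nb W v).card ≤ 3
  · right
    have h1 := ext0 hp W v (nb W v) hN3 (fun z hz => mem_nb.1 hz)
    by_cases hv : x = v ∨ y = v
    · exfalso
      have h2 := nb_del_lt hv hxy
      have h3 := mo_del_le (del W x y) p v
      rw [del_del_v hv] at h3
      omega
    · push Not at hv
      refine ⟨hv.1, hv.2, fact hW hv.1 hv.2 hxy ?_⟩
      have h3 := mo_del_le (del W x y) p v
      rw [nb_del_eq hv.1 hv.2] at h3
      omega
  have hN4 : (nb W v).card = 4 := by omega
  by_cases hcl : Cq G (nb W v)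
  · have hvN : v ∉ nb W v := not_mem_nb W v
    by_cases hA : x ∈ insert v (nb W v) ∧ y ∈ insert v (nb W v)
    · left
      refine ⟨insert v (nb W v), by rw [card_insert_of_notMem hvN, hN4], ?_, hA.1, hA.2⟩
      intro a ha b hb hab
      rw [mem_insert] at ha hb
      rcases ha with rfl | ha
      · rcases hb with rfl | hb
        · exact absurd rfl hab
        · exact hW (mem_nb.1 hb)
      · rcases hb with rfl | hb
        · exact (hW (mem_nb.1 ha)).symm
        · exact hcl a ha b hb hab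
    · right
      have hxv : x ≠ v := by
        rintro rfl
        exact hA ⟨mem_insert_self _ _, mem_insert_of_mem (mem_nb.2 hxy)⟩
      have hyv : y ≠ v := by
        rintro rfl
        exact hA ⟨mem_insert_of_mem (mem_nb.2 hxy.symm), mem_insert_self _ _⟩
      refine ⟨hxv, hyv, ?_⟩
      set N := nb W v with hNdef
      set H1 := (del W x y).deleteIncidenceSet v ⊔ DE.cmp N with hH1
      have hiso : ∀ u, ¬ H1.Adj v u := by
        rintro u (h | ⟨_, h, _⟩)
        · exact del_isolated _ v u h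
        · exact hvN h
      have hiso2 : ∀ u, ¬ (H1 ⊔ SimpleGraph.edge x y).Adj v u := by
        rintro u (h | h)
        · exact hiso u h
        · rw [SimpleGraph.edge_adj] at h
          rcases h.1 with ⟨e, _⟩ | ⟨e, _⟩
          · exact hxv e.symm
          · exact hyv e.symm
      have hc1 : Cq H1 N := fun a ha b hb hab => Or.inr ⟨hab, ha, hb⟩
      have e1 := star_mo hp hiso hvN (by omega) hc1
      have e2 := star_mo hp hiso2 hvN (by omega) (hc1.mono le_sup_left)
      have hle : del W x y ≤ H1 ⊔ star v N := by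
        intro a b hab
        by_cases hav : a = v
        · subst hav
          exact Or.inr ⟨hab.ne, Or.inl ⟨rfl, mem_nb.2 (del_le W x y hab)⟩⟩
        · by_cases hbv : b = v
          · subst hbv
            exact Or.inr ⟨hab.ne, Or.inr ⟨rfl, mem_nb.2 (del_le W x y hab.symm)⟩⟩
          · refine Or.inl (Or.inl ?_)
            rw [SimpleGraph.deleteIncidenceSet_adj]
            exact ⟨hab, hav, hbv⟩
      have hi2 : Imp (H1 ⊔ star v N) p x y := hi.mono hle
      have e3 : mo (H1 ⊔ star v N) p ≤ mo ((H1 ⊔ SimpleGraph.edge x y) ⊔ star v N) p := by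
        apply mo_le_of_imp
        intro a b hab
        rcases hab with (h | h) | h
        · exact imp_of_adj (Or.inl h)
        · rw [SimpleGraph.edge_adj] at h
          rcases h.1 with ⟨rfl, rfl⟩ | ⟨rfl, rfl⟩
          · exact hi2
          · exact hi2.symm
        · exact imp_of_adj (Or.inr h)
      have hi3 : Imp H1 p x y := by
        refine imp_of_mo_le (G' := H1 ⊔ SimpleGraph.edge x y) le_sup_left (by omega) ?_
        exact Or.inr (by rw [SimpleGraph.edge_adj]; exact ⟨Or.inl ⟨rfl, rfl⟩, hxyne⟩)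
      refine hi3.mono (sup_le (le_del hW v x y) ?_)
      rintro a b ⟨hab, ha, hb⟩
      rw [del_adj, SimpleGraph.deleteIncidenceSet_adj]
      refine ⟨⟨hcl a ha b hb hab, fun e => hvN (e ▸ ha), fun e => hvN (e ▸ hb)⟩, ?_⟩
      intro e
      rw [Sym2.eq_iff] at e
      rcases e with ⟨rfl, rfl⟩ | ⟨rfl, rfl⟩
      · exact hA ⟨mem_insert_of_mem ha, mem_insert_of_mem hb⟩
      · exact hA ⟨mem_insert_of_mem hb, mem_insert_of_mem ha⟩
  · right
    unfold Cq at hcl
    push Not at hcl
    obtain ⟨a, ha, b, hb, hab, hnadj⟩ := hcl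
    have h1 : ¬ Imp (W.deleteIncidenceSet v) p a b :=
      hG.not_imp ((W.deleteIncidenceSet_le v).trans hW) hab hnadj
    have h2 := gain1 hp (mem_nb.1 ha) (mem_nb.1 hb) hab (by omega) (by norm_num) h1
    by_cases hv : x = v ∨ y = v
    · exfalso
      have h3 := nb_del_lt hv hxy
      have h4 := mo_del_le (del W x y) p v
      rw [del_del_v hv] at h4
      omega
    · push Not at hv
      refine ⟨hv.1, hv.2, fact hW hv.1 hv.2 hxy ?_⟩
      have h3 := mo_del_le (del W x y) p v
      rw [nb_del_eq hv.1 hv.2] at h3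
      omega

end Pool.Agent.N423.DT
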