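import Mathlib
import Pool.Agent.N423.DC.StmT

/-!
# A minimal dependent set
-/

set_option autoImplicit false
set_option linter.unusedSectionVars false

namespace Pool.Agent.N423.DT

open Matrix Finset Pool.Agent.H283R2.DR Pool.Agent.H789R5 Pool.Agent.N423.DE Pool.Agent.N423.DC

namespace TMIN

theorem del_adj {V : Type} {G : SimpleGraph V} {x y u w : V} :
    (del G x y).Adj u w ↔ G.Adj u w ∧ s(u, w) ≠ s(x, y) := by
  unfold del
  rw [SimpleGraph.deleteEdges_adj, Set.mem_singleton_iff]

/-- motions without an implied edge -/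
theorem mot_del {V : Type} {W : SimpleGraph V} {p : V → Fin 3 → ℝ} {x y : V}
    (h : Imp (del W x y) p x y) {q : V → Fin 3 → ℝ} (hq : IsMotion (del W x y) p q) :
    IsMotion W p q := by
  intro u w huw
  by_cases he : s(u, w) = s(x, y)
  · rw [Sym2.eq_iff] at he
    rcases he with ⟨rfl, rfl⟩ | ⟨rfl, rfl⟩
    · exact h q hq
    · exact h.symm q hq
  · exact hq u w (del_adj.2 ⟨huw, he⟩)

theorem card_edge {V : Type} [Fintype V] (Y : SimpleGraph V) (c d : V) :
    (Y.edgeSet \ (del Y c d).edgeSet).ncard ≤ 1 := by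
  have h : Y.edgeSet \ (del Y c d).edgeSet ⊆ {s(c, d)} := by
    intro e he
    induction e using Sym2.ind with
    | _ u w =>
      rw [Set.mem_sdiff, SimpleGraph.mem_edgeSet, SimpleGraph.mem_edgeSet, del_adj] at he
      rw [Set.mem_singleton_iff]
      by_contra hne
      exact he.2 ⟨he.1, hne⟩
  exact (Set.ncard_le_ncard h (Set.toFinite _)).trans (by rw [Set.ncard_singleton])

theorem mo_del {V : Type} [Fintype V] (Y : SimpleGraph V) (p : V → Fin 3 → ℝ) (c d : V) :
    mo (del Y c d) p ≤ mo Y p + 1 :=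
  (mo_le_add (G := del Y c d) (G' := Y) p).trans (Nat.add_le_add_left (card_edge Y c d) _)

theorem del_le {V : Type} (G : SimpleGraph V) (x y : V) : del G x y ≤ G :=
  fun _ _ h => (del_adj.1 h).1

theorem del_comm {V : Type} (G : SimpleGraph V) (x y a b : V) :
    del (del G x y) a b = del (del G a b) x y := by
  ext u w
  rw [del_adj, del_adj, del_adj, del_adj]
  tauto

theorem del_mono {V : Type} {G G' : SimpleGraph V} (h : G ≤ G') (x y : V) :
    del G x y ≤ del G' x y := by
  intro u w huw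
  rw [del_adj] at *
  exact ⟨h huw.1, huw.2⟩

/-- an edge that is not implied by the rest -/
theorem mo_lt_del {V : Type} [Fintype V] {Y : SimpleGraph V} {p : V → Fin 3 → ℝ} {a b : V}
    (hab : Y.Adj a b) (h : ¬ Imp (del Y a b) p a b) : mo Y p < mo (del Y a b) p := by
  refine (mo_anti ?_ p).trans_lt (mo_lt_of_not_imp hab.ne h)
  refine sup_le (del_le Y a b) ?_
  intro u w huw
  rw [SimpleGraph.edge_adj] at huw
  rcases huw.1 with ⟨rfl, rfl⟩ | ⟨rfl, rfl⟩
  · exact hab
  · exact hab.symm

/-- adding independent edges to `B'` -/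
theorem indep {V : Type} [Fintype V] {B' W' : SimpleGraph V} {p : V → Fin 3 → ℝ}
    (h : ∀ a b, W'.Adj a b → ¬ B'.Adj a b → ¬ Imp (del W' a b) p a b) :
    ∀ n : ℕ, ∀ Y : SimpleGraph V, B' ≤ Y → Y ≤ W' → (Y.edgeSet \ B'.edgeSet).ncard = n →
      mo Y p + (Y.edgeSet \ B'.edgeSet).ncard ≤ mo B' p := by
  intro n
  induction n with
  | zero =>
    intro Y hY _ hn
    rw [hn, add_zero]
    exact mo_anti hY p
  | succ n ih =>
    intro Y hY hYW hn
    obtain ⟨e, he⟩ : (Y.edgeSet \ B'.edgeSet).Nonempty := by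
      rw [← Set.ncard_pos (Set.toFinite _), hn]
      omega
    induction e using Sym2.ind with
    | _ a b =>
      obtain ⟨he1, he2⟩ := he
      rw [SimpleGraph.mem_edgeSet] at he1 he2
      have hset : (del Y a b).edgeSet \ B'.edgeSet = (Y.edgeSet \ B'.edgeSet) \ {s(a, b)} := by
        ext e
        induction e using Sym2.ind with
        | _ u w =>
          simp only [Set.mem_sdiff, SimpleGraph.mem_edgeSet, del_adj, Set.mem_singleton_iff]
          tauto
      have hcard : ((del Y a b).edgeSet \ B'.edgeSet).ncard = n := by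
        rw [hset, Set.ncard_sdiff_singleton_of_mem (by exact ⟨he1, he2⟩), hn]
        rfl
      have hB : B' ≤ del Y a b := by
        intro u w huw
        rw [del_adj]
        refine ⟨hY huw, fun he => he2 ?_⟩
        rw [Sym2.eq_iff] at he
        rcases he with ⟨rfl, rfl⟩ | ⟨rfl, rfl⟩
        · exact huw
        · exact huw.symm
      have h1 := ih (del Y a b) hB ((del_le Y a b).trans hYW) hcard
      have h2 : ¬ Imp (del Y a b) p a b := fun hc =>
        h a b (hYW he1) he2 (hc.mono (del_mono hYW a b))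
      have h3 := mo_lt_del he1 h2
      omega

theorem main {V : Type} [Fintype V] [DecidableEq V] (G : SimpleGraph V) (R Z : Finset V)
    (p : V → Fin 3 → ℝ) (hp : MG p) (hD : Dom G R Z) (x y : V) (hxy : G.Adj x y)
    (hi : Imp (del G x y) p x y) :
    ∃ W ≤ G, Dom W R Z ∧ W.Adj x y ∧ Imp (del W x y) p x y ∧
      mo W p + (W.edgeSet \ (DE.cmp R).edgeSet).ncard ≤ mo (DE.cmp R) p + 1 ∧
      ∀ a ∈ Z, ∀ b ∈ Z, W.Adj a b → s(a, b) ≠ s(x, y) →
        ¬ Imp (del (del W x y) a b) p a b ∧ mo (del W a b) p ≤ mo W p := by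
  classical
  obtain ⟨W, hW, hmin⟩ := Set.Finite.exists_minimal
    (s := {W : SimpleGraph V | W ≤ G ∧ Dom W R Z ∧ W.Adj x y ∧ Imp (del W x y) p x y})
    (Set.toFinite _) ⟨G, le_refl _, hD, hxy, hi⟩
  obtain ⟨hWG, hDW, hWxy, hWi⟩ := hW
  have hhub : ∀ v, ∃ r, v ∈ Z → r ∈ R ∧ W.Adj v r := by
    intro v
    by_cases hv : v ∈ Z
    · obtain ⟨r, hr, hvr⟩ := hDW.dom v hv
      exact ⟨r, fun _ => ⟨hr, hvr⟩⟩
    · exact ⟨v, fun h => absurd h hv⟩
  choose hub hhub using hhub
  set B := base R Z hub with hB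
  have hBadj : ∀ u w, B.Adj u w ↔ u ≠ w ∧
      ((u ∈ R ∧ w ∈ R) ∨ (u ∈ Z ∧ w = hub u) ∨ (w ∈ Z ∧ u = hub w)) := fun u w => Iff.rfl
  have hBW : B ≤ W := by
    intro u w huw
    obtain ⟨hne, h | h | h⟩ := (hBadj u w).1 huw
    · exact hDW.clique u h.1 w h.2 hne
    · rw [h.2]
      exact (hhub u h.1).2
    · rw [h.2]
      exact (hhub w h.1).2.symm
  -- the motions of `W` and of `W - xy`
  have hmoW : mo (del W x y) p = mo W p := by
    apply le_antisymm _ (mo_anti (del_le W x y) p)
    apply Submodule.finrank_mono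
    intro q hq
    rw [mem_mot] at *
    exact mot_del hWi hq
  -- first claim
  have claim1 : ∀ a b, W.Adj a b → s(a, b) ≠ s(x, y) → ¬ B.Adj a b →
      ¬ Imp (del (del W a b) x y) p x y ∧ ¬ Imp (del (del W x y) a b) p a b ∧
      mo (del W a b) p ≤ mo W p := by
    intro a b hab hne hnB
    have hBd : B ≤ del W a b := by
      intro u w huw
      rw [del_adj]
      refine ⟨hBW huw, fun he => hnB ?_⟩
      rw [Sym2.eq_iff] at he
      rcases he with ⟨rfl, rfl⟩ | ⟨rfl, rfl⟩
      · exact huw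
      · exact huw.symm
    have hDd : Dom (del W a b) R Z := by
      refine ⟨hDW.disj, hDW.card3, ?_, ?_, ?_⟩
      · intro r hr r' hr' hrr
        exact hBd ((hBadj r r').2 ⟨hrr, Or.inl ⟨hr, hr'⟩⟩)
      · intro u w huw
        exact hDW.supp u w (del_le W a b huw)
      · intro v hv
        exact ⟨hub v, (hhub v hv).1,
          hBd ((hBadj v (hub v)).2 ⟨(hhub v hv).2.ne, Or.inr (Or.inl ⟨hv, rfl⟩)⟩)⟩
    have hxyd : (del W a b).Adj x y := del_adj.2 ⟨hWxy, fun h => hne h.symm⟩
    have hn1 : ¬ Imp (del (del W a b) x y) p x y := by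
      intro hc
      have h1 : W ≤ del W a b :=
        hmin ⟨(del_le W a b).trans hWG, hDd, hxyd, hc⟩ (del_le W a b)
      exact (del_adj.1 (h1 hab)).2 rfl
    refine ⟨hn1, ?_, ?_⟩
    · intro hc
      apply hn1
      rw [← del_comm]
      intro q hq
      exact hWi q (mot_del hc hq)
    · have h1 := mo_lt_del hxyd hn1
      have h2 := mo_del (del W x y) p a b
      rw [del_comm] at h2
      omega
  -- second claim
  have hB'W' : del B x y ≤ del W x y := del_mono hBW x y
  have hind := indep (B' := del B x y) (W' := del W x y) (p := p) (by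
    intro a b hab hnab
    have h1 := del_adj.1 hab
    refine (claim1 a b h1.1 h1.2 ?_).2.1
    intro hc
    exact hnab (del_adj.2 ⟨hc, h1.2⟩)) _ (del W x y) hB'W' le_rfl rfl
  rw [hmoW] at hind
  have hWB : mo W p + (W.edgeSet \ B.edgeSet).ncard ≤ mo B p + 1 := by
    by_cases hf : B.Adj x y
    · have h1 : W.edgeSet \ B.edgeSet ⊆ (del W x y).edgeSet \ (del B x y).edgeSet := by
        intro e
        induction e using Sym2.ind with
        | _ u w =>
          simp only [Set.mem_sdiff, SimpleGraph.mem_edgeSet, del_adj]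
          rintro ⟨h1, h2⟩
          refine ⟨⟨h1, fun he => h2 ?_⟩, fun h3 => h2 h3.1⟩
          rw [Sym2.eq_iff] at he
          rcases he with ⟨rfl, rfl⟩ | ⟨rfl, rfl⟩
          · exact hf
          · exact hf.symm
      have h2 := Set.ncard_le_ncard h1 (Set.toFinite _)
      have h3 := mo_del B p x y
      omega
    · have h1 : W.edgeSet \ B.edgeSet ⊆
          insert s(x, y) ((del W x y).edgeSet \ (del B x y).edgeSet) := by
        intro e
        induction e using Sym2.ind with
        | _ u w =>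
          simp only [Set.mem_sdiff, SimpleGraph.mem_edgeSet, del_adj, Set.mem_insert_iff]
          tauto
      have h2 := (Set.ncard_le_ncard h1 (Set.toFinite _)).trans (Set.ncard_insert_le _ _)
      have h3 : mo (del B x y) p ≤ mo B p := by
        apply mo_anti
        intro u w huw
        rw [del_adj]
        refine ⟨huw, fun he => hf ?_⟩
        rw [Sym2.eq_iff] at he
        rcases he with ⟨rfl, rfl⟩ | ⟨rfl, rfl⟩
        · exact huw
        · exact huw.symm
      omega
  have hcmp : base R ∅ hub = DE.cmp R := by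
    ext u w
    constructor
    · rintro ⟨h1, h | h | h⟩
      · exact ⟨h1, h⟩
      · exact absurd h.1 (notMem_empty _)
      · exact absurd h.1 (notMem_empty _)
    · rintro ⟨h1, h⟩
      exact ⟨h1, Or.inl h⟩
  have hb1 := t_bas V R Z hub ⟨hDW.disj, hDW.card3, fun v hv => (hhub v hv).1⟩ p hp
  have hb2 := t_bas V R ∅ hub ⟨fun _ _ => notMem_empty _, hDW.card3,
    fun v hv => absurd hv (notMem_empty _)⟩ p hp
  rw [hcmp, card_empty] at hb2
  rw [← hB] at hb1
  have hBc : (B.edgeSet \ (DE.cmp R).edgeSet).ncard ≤ Z.card := by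
    have h1 : B.edgeSet \ (DE.cmp R).edgeSet ⊆ (Z.image fun v => s(v, hub v) : Finset (Sym2 V)) := by
      intro e
      induction e using Sym2.ind with
      | _ u w =>
        rw [Set.mem_sdiff, SimpleGraph.mem_edgeSet, SimpleGraph.mem_edgeSet, mem_coe, mem_image]
        rintro ⟨h1, h2⟩
        obtain ⟨hne, h | h | h⟩ := (hBadj u w).1 h1
        · exact absurd ⟨hne, h⟩ h2
        · exact ⟨u, h.1, by rw [h.2]⟩
        · exact ⟨w, h.1, by rw [h.2]; exact Sym2.eq_swap⟩
    refine (Set.ncard_le_ncard h1 (Finset.finite_toSet _)).trans ?_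
    rw [Set.ncard_coe_finset]
    exact card_image_le
  have hsub : (W.edgeSet \ (DE.cmp R).edgeSet).ncard ≤
      (W.edgeSet \ B.edgeSet).ncard + (B.edgeSet \ (DE.cmp R).edgeSet).ncard := by
    refine (Set.ncard_le_ncard ?_ (Set.toFinite _)).trans (Set.ncard_union_le _ _)
    intro e he
    by_cases h : e ∈ B.edgeSet
    · exact Or.inr ⟨h, he.2⟩
    · exact Or.inl ⟨he.1, h⟩
  refine ⟨W, hWG, hDW, hWxy, hWi, by omega, ?_⟩
  intro a ha b hb hab hne
  refine (claim1 a b hab hne ?_).2
  intro hc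
  obtain ⟨-, h | h | h⟩ := (hBadj a b).1 hc
  · exact hDW.disj a h.1 ha
  · exact hDW.disj b (h.2 ▸ (hhub a ha).1) hb
  · exact hDW.disj a (h.2 ▸ (hhub b hb).1) ha

end TMIN

theorem tmin : S_MIN := by
  intro V _ _ G R Z p hp hD x y hxy hi
  exact TMIN.main G R Z p hp hD x y hxy hi

end Pool.Agent.N423.DT
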