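import Mathlib
import Pool.Agent.N423.DC.StmT

/-!
# DT/TTCR: a minimal dependent set with the right degrees is a core (helper360)
-/

set_option autoImplicit false
set_option linter.unusedSectionVars false

namespace Pool.Agent.N423.DT

open Matrix Finset Pool.Agent.H283R2.DR Pool.Agent.H789R5 Pool.Agent.N423.DE Pool.Agent.N423.DC

namespace TTCR

variable {V : Type} [Fintype V] [DecidableEq V]

theorem base_empty (R : Finset V) (hub : V → V) : base R ∅ hub = DE.cmp R := by
  ext a b
  constructor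
  · rintro ⟨hab, ⟨ha, hb⟩ | ⟨ha, _⟩ | ⟨ha, _⟩⟩
    · exact ⟨hab, ha, hb⟩
    · exact absurd ha (Finset.notMem_empty _)
    · exact absurd ha (Finset.notMem_empty _)
  · rintro ⟨hab, ha, hb⟩
    exact ⟨hab, Or.inl ⟨ha, hb⟩⟩

end TTCR

open TTCR DC.COR in
/-- **TTCR** -/
theorem ttcr : S_TCR := by
  intro V _ _ W R Z hub hDom hne hhub huniq hdeg hK5 hclo hcard hmo hdel
  obtain ⟨hdis, hR3, hclique, hsupp, hdom⟩ := id hDom
  have hpinG : ∀ p p' : V → Fin 3 → ℝ, MG p → (∀ r ∈ R, p' r = p r) →
      mo W p' + 3 * (R.card + Z.card) = 6 + 3 * Fintype.card V +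
        Module.finrank ℝ (PM W Z ∅ p') ∧ ∀ x y, x ∈ R ∨ x ∈ Z → y ∈ R ∨ y ∈ Z →
      (Imp W p' x y ↔ ∀ q ∈ PM W Z ∅ p', (p' x - p' y) ⬝ᵥ (q x - q y) = 0) :=
    fun p p' hp h => t_pin V W R Z hdis hsupp hR3 hclique p p' hp h
  have hdimG : ∀ p : V → Fin 3 → ℝ, MG p → Module.finrank ℝ (PM W Z ∅ p) = 1 := by
    intro p hp
    have e1 := (hpinG p p hp fun _ _ => rfl).1
    have e2 := hmo p hp
    omega
  refine ⟨hdis, hsupp, hR3, hclique, hne, fun v hv => (hhub v hv).1, fun v hv => (hhub v hv).2,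
    huniq, hdeg, hK5, ?_, ?_, hdimG, ?_, ?_⟩
  · -- closed
    intro p hp x y hx hy hxy hq
    exact hclo p hp x y hx hy hxy (((hpinG p p hp fun _ _ => rfl).2 x y hx hy).2 hq)
  · -- closed without v
    intro p hp v hv x y hx hy hxv hyv hxy hq
    have hle : W.deleteIncidenceSet v ≤ W := W.deleteIncidenceSet_le v
    have hvR : v ∉ R := fun h => hdis v h hv
    have e1 := (t_pin V (W.deleteIncidenceSet v) R (Z.erase v)
      (fun x hx h => hdis x hx (mem_of_mem_erase h)) (fun a b h => by
        rw [SimpleGraph.deleteIncidenceSet_adj] at h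
        rcases hsupp a b h.1 with h5 | h5
        · exact Or.inl h5
        · exact Or.inr (mem_erase.2 ⟨h.2.1, h5⟩)) hR3 (fun a ha b hb hab => by
        rw [SimpleGraph.deleteIncidenceSet_adj]
        exact ⟨hclique a ha b hb hab, fun h => hvR (h ▸ ha), fun h => hvR (h ▸ hb)⟩) p p hp
        (fun _ _ => rfl)).2 x y (hx.imp id fun h => mem_erase.2 ⟨hxv, h⟩)
        (hy.imp id fun h => mem_erase.2 ⟨hyv, h⟩)
    have e2 : Imp (W.deleteIncidenceSet v) p x y := by
      rw [e1]
      intro q hqm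
      apply hq
      rw [mem_PM] at hqm ⊢
      obtain ⟨h5, h6, h7⟩ := hqm
      have hqv : q v = 0 := h6 v (fun h => (mem_erase.1 h).1 rfl)
      refine ⟨fun a b hab ha hb => ?_, fun a ha => ?_, fun a ha => ?_⟩
      · rw [mem_singleton] at ha hb
        refine h5 a b ?_ (Finset.notMem_empty _) (Finset.notMem_empty _)
        rw [SimpleGraph.deleteIncidenceSet_adj]
        exact ⟨hab, ha, hb⟩
      · exact h6 a (fun h => ha (mem_of_mem_erase h))
      · rw [mem_singleton] at ha
        rw [ha]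
        exact hqv
    exact hclo p hp x y hx hy hxy (e2.mono hle)
  · -- dimensions of subgraphs
    rintro p hp G' hG' hc' ⟨x, hx, y, hy, hxy, hnxy⟩
    have hHe : (del W x y).edgeSet = W.edgeSet \ {s(x, y)} := W.edgeSet_deleteEdges _
    have hHle : del W x y ≤ W := W.deleteEdges_le _
    have hH1 := hdel p hp x hx y hy hxy
    have hH2 := mo_anti hHle p
    have hG'e : G'.edgeSet ⊆ W.edgeSet := SimpleGraph.edgeSet_subset_edgeSet.2 hG'
    have hG'H : G'.edgeSet ⊆ (del W x y).edgeSet := by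
      rw [hHe]
      intro e he
      refine ⟨hG'e he, fun h => hnxy ?_⟩
      rw [Set.mem_singleton_iff] at h
      rw [h] at he
      exact he
    have e3 := (t_pin V G' R Z hdis (fun x y h => hsupp x y (hG' h)) hR3 hc' p p hp
      (fun _ _ => rfl)).1
    have e4 := mo_le_add (G := G') (G' := del W x y) p
    have c1 := ncard_diff_add hG'e
    have c2 := ncard_diff_add hG'H
    have c3 : (del W x y).edgeSet.ncard + 1 = W.edgeSet.ncard := by
      rw [hHe]
      exact Set.ncard_sdiff_singleton_add_one (show s(x, y) ∈ W.edgeSet from hxy) (Set.toFinite _)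
    -- the complete graph on R
    have e5 := t_bas V R ∅ hub ⟨fun _ _ => Finset.notMem_empty _, hR3, fun v hv =>
      absurd hv (Finset.notMem_empty v)⟩ p hp
    rw [base_empty] at e5
    have hKG' : DE.cmp R ≤ G' := by
      rintro a b ⟨hab, ha, hb⟩
      exact hc' a ha b hb hab
    have e6 := mo_le_add (G := DE.cmp R) (G' := G') p
    have hKe : (DE.cmp R).edgeSet ⊆ G'.edgeSet := SimpleGraph.edgeSet_subset_edgeSet.2 hKG'
    have c4 := ncard_diff_add hKe
    have c5 := ncard_diff_add (hKe.trans hG'e)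
    have c7 : (∅ : Finset V).card = 0 := card_empty
    rw [c7] at e5
    have e7 := hmo p hp
    omega
  · -- all placements
    intro p p' hp hpp'
    have e1 := (hpinG p p hp fun _ _ => rfl).1
    have e2 := (hpinG p p' hp hpp').1
    have e3 := hp.min W p'
    have e4 := hdimG p hp
    have e5 : 0 < Module.finrank ℝ (PM W Z ∅ p') := by omega
    have e6 : PM W Z ∅ p' ≠ ⊥ := by
      intro h
      rw [h, finrank_bot] at e5
      exact lt_irrefl _ e5
    obtain ⟨q, hq, hq0⟩ := Submodule.exists_mem_ne_zero_of_ne_bot e6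
    exact ⟨q, hq, hq0⟩

end Pool.Agent.N423.DT
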