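import Mathlib
import Pool.Agent.N423.DC.StmT

/-!
# DT/TTWO: a vertex with small gain in two cliques (helper360)
-/

set_option autoImplicit false
set_option linter.unusedSectionVars false

namespace Pool.Agent.N423.DT

open Matrix Finset Pool.Agent.H283R2.DR Pool.Agent.H789R5 Pool.Agent.N423.DE Pool.Agent.N423.DC

namespace TTWO

lemma cont_cross {f g : (Fin 3 → ℝ) → Fin 3 → ℝ} (hf : Continuous f) (hg : Continuous g) :
    Continuous fun x => crossProduct (f x) (g x) := by
  refine continuous_pi fun i => ?_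
  fin_cases i
  · simp only [Fin.zero_eta, DC.TRI.c0]
    fun_prop
  · simp only [Fin.mk_one, DC.TRI.c1]
    fun_prop
  · simp only [Fin.reduceFinMk, DC.TRI.c2]
    fun_prop

lemma cont_fld (T : (Fin 3 → ℝ) × (Fin 3 → ℝ)) : Continuous fun x => fld T x := by
  unfold fld
  exact (cont_cross continuous_const continuous_id).add continuous_const

lemma fld_add' (T T' : (Fin 3 → ℝ) × (Fin 3 → ℝ)) (y : Fin 3 → ℝ) :
    fld (T + T') y = fld T y + fld T' y := by
  simp only [fld, Prod.fst_add, Prod.snd_add, map_add, LinearMap.add_apply]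
  abel

lemma fld_smul' (c : ℝ) (T : (Fin 3 → ℝ) × (Fin 3 → ℝ)) (y : Fin 3 → ℝ) :
    fld (c • T) y = c • fld T y := by
  simp only [fld, Prod.smul_fst, Prod.smul_snd, map_smul, LinearMap.smul_apply, smul_add]

lemma fld_sub' (T T' : (Fin 3 → ℝ) × (Fin 3 → ℝ)) (y : Fin 3 → ℝ) :
    fld (T - T') y = fld T y - fld T' y := by
  have h := fld_add' (T - T') T' y
  rw [sub_add_cancel] at h
  rw [h, add_sub_cancel_right]

lemma fld_zero' (y : Fin 3 → ℝ) : fld 0 y = 0 := by
  simp [fld]

variable {V : Type} [Fintype V] [DecidableEq V]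

lemma upd_line (p : V → Fin 3 → ℝ) (v : V) (x : Fin 3 → ℝ) (s : ℝ) :
    p + s • (Function.update p v x - p) = Function.update p v (p v + s • (x - p v)) := by
  funext u
  by_cases hu : u = v
  · subst hu
    simp only [Pi.add_apply, Pi.smul_apply, Pi.sub_apply, Function.update_self]
  · simp only [Pi.add_apply, Pi.smul_apply, Pi.sub_apply, Function.update_of_ne hu, sub_self,
      smul_zero, add_zero]

lemma dens {p : V → Fin 3 → ℝ} (hp : MG p) (v : V) (F : (Fin 3 → ℝ) → (Fin 3 → ℝ))
    (hF : Continuous F) (h0 : ∀ y, MG (Function.update p v y) → F y = 0) (x : Fin 3 → ℝ) :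
    F x = 0 := by
  have hfin := mgg V p (Function.update p v x) hp
  have hd : Dense ({s : ℝ | ¬ MG (p + s • (Function.update p v x - p))}ᶜ) :=
    hfin.countable.dense_compl ℝ
  have hc : Continuous fun s : ℝ => F (p v + s • (x - p v)) :=
    hF.comp (by fun_prop)
  have hc0 : Continuous fun _ : ℝ => (0 : Fin 3 → ℝ) := continuous_const
  have h1 := Continuous.ext_on hd hc hc0 (by
    intro s hs
    have hs' : MG (p + s • (Function.update p v x - p)) := not_not.1 hs
    rw [upd_line] at hs'
    exact h0 _ hs')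
  have h2 := congrFun h1 1
  simp only [one_smul, add_sub_cancel] at h2
  exact h2

/-- a motion of `G - v` with the infinitesimal isometries of the two cliques -/
def Tr (H : SimpleGraph V) (S T : Finset V) (p : V → Fin 3 → ℝ) (q : V → Fin 3 → ℝ)
    (A B : (Fin 3 → ℝ) × (Fin 3 → ℝ)) : Prop :=
  IsMotion H p q ∧ (∀ r ∈ S, q r = fld A (p r)) ∧ ∀ r ∈ T, q r = fld B (p r)

variable {G : SimpleGraph V} {p : V → Fin 3 → ℝ} {v : V} {S T : Finset V}

/-- motions of `G` at the changed placement -/
lemma tr_of (hS : 5 ≤ S.card) (hT : 5 ≤ T.card)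
    (cS : Cq G S) (cT : Cq G T) (hvS : v ∈ S) (hvT : v ∈ T) {x : Fin 3 → ℝ}
    (hx : MG (Function.update p v x)) {q : V → Fin 3 → ℝ}
    (hq : IsMotion G (Function.update p v x) q) :
    ∃ A B, Tr (G.deleteIncidenceSet v) (S.erase v) (T.erase v) p q A B ∧ q v = fld A x ∧
      q v = fld B x ∧ (∀ r ∈ S, q r = fld A (Function.update p v x r)) ∧
      ∀ r ∈ T, q r = fld B (Function.update p v x r) := by
  obtain ⟨A, hA⟩ := DC.PIN.exists_T tri (by omega) cS hx (fun _ _ => rfl) hq
  obtain ⟨B, hB⟩ := DC.PIN.exists_T tri (by omega) cT hx (fun _ _ => rfl) hq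
  refine ⟨A, B, ⟨?_, ?_, ?_⟩, ?_, ?_, hA, hB⟩
  · intro a b hab
    rw [SimpleGraph.deleteIncidenceSet_adj] at hab
    have h := hq a b hab.1
    rwa [Function.update_of_ne hab.2.1, Function.update_of_ne hab.2.2] at h
  · intro r hr
    have h := hA r (mem_of_mem_erase hr)
    rwa [Function.update_of_ne (ne_of_mem_erase hr)] at h
  · intro r hr
    have h := hB r (mem_of_mem_erase hr)
    rwa [Function.update_of_ne (ne_of_mem_erase hr)] at h
  · have h := hA v hvS
    rwa [Function.update_self] at h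
  · have h := hB v hvT
    rwa [Function.update_self] at h

lemma cq_del {W : Finset V} (cW : Cq G W) : Cq (G.deleteIncidenceSet v) (W.erase v) := by
  intro a ha b hb hab
  rw [SimpleGraph.deleteIncidenceSet_adj]
  exact ⟨cW a (mem_of_mem_erase ha) b (mem_of_mem_erase hb) hab, ne_of_mem_erase ha,
    ne_of_mem_erase hb⟩

/-- the linear map for the count of dimensions -/
noncomputable def Phi (M M' : Submodule ℝ (V → Fin 3 → ℝ)) (v : V) (q q' : V → Fin 3 → ℝ)
    (h : ∀ m ∈ M, ∀ c : Fin 3 → ℝ, ∀ s t : ℝ, m + Pi.single v c + s • q + t • q' ∈ M') :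
    (M × (Fin 3 → ℝ) × ℝ × ℝ) →ₗ[ℝ] M' where
  toFun z := ⟨(z.1 : V → Fin 3 → ℝ) + Pi.single v z.2.1 + z.2.2.1 • q + z.2.2.2 • q',
    h _ z.1.2 _ _ _⟩
  map_add' z z' := by
    apply Subtype.ext
    simp only [Prod.fst_add, Prod.snd_add, Submodule.coe_add, add_smul, Pi.single_add]
    abel
  map_smul' c z := by
    apply Subtype.ext
    simp only [Prod.smul_fst, Prod.smul_snd, Submodule.coe_smul, RingHom.id_apply, smul_add,
      smul_smul, smul_eq_mul, Pi.single_smul]

/-- (B) the relative velocities of `v` are parallel -/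
lemma stepB (hp : MG p) (hS : 5 ≤ S.card) (hT : 5 ≤ T.card)
    (cS : Cq G S) (cT : Cq G T) (hvS : v ∈ S) (hvT : v ∈ T)
    (hmo : mo (G.deleteIncidenceSet v) p ≤ mo G p + 4)
    {q q' : V → Fin 3 → ℝ} {A B A' B' : (Fin 3 → ℝ) × (Fin 3 → ℝ)}
    (h : Tr (G.deleteIncidenceSet v) (S.erase v) (T.erase v) p q A B)
    (h' : Tr (G.deleteIncidenceSet v) (S.erase v) (T.erase v) p q' A' B') {x : Fin 3 → ℝ}
    (hx : MG (Function.update p v x)) :
    crossProduct (fld (B - A) x) (fld (B' - A') x) = 0 := by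
  by_contra hne
  have hli := crossProduct_ne_zero_iff_linearIndependent.1 hne
  rw [LinearIndependent.pair_iff] at hli
  have hS' : 3 ≤ (S.erase v).card := by rw [card_erase_of_mem hvS]; omega
  have hT' : 3 ≤ (T.erase v).card := by rw [card_erase_of_mem hvT]; omega
  have hmem : ∀ m ∈ Mot G (Function.update p v x), ∀ c : Fin 3 → ℝ, ∀ s t : ℝ,
      m + Pi.single v c + s • q + t • q' ∈ Mot (G.deleteIncidenceSet v) p := by
    intro m hm c s t
    have h1 : m ∈ Mot (G.deleteIncidenceSet v) p := by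
      rw [mem_mot] at *
      intro a b hab
      rw [SimpleGraph.deleteIncidenceSet_adj] at hab
      have h := hm a b hab.1
      rwa [Function.update_of_ne hab.2.1, Function.update_of_ne hab.2.2] at h
    have h2 : Pi.single v c ∈ Mot (G.deleteIncidenceSet v) p := by
      rw [mem_mot]
      intro a b hab
      rw [SimpleGraph.deleteIncidenceSet_adj] at hab
      rw [Pi.single_eq_of_ne hab.2.1, Pi.single_eq_of_ne hab.2.2, sub_self, dotProduct_zero]
    have h3 : q ∈ Mot (G.deleteIncidenceSet v) p := (mem_mot _ _ _).2 h.1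
    have h4 : q' ∈ Mot (G.deleteIncidenceSet v) p := (mem_mot _ _ _).2 h'.1
    exact Submodule.add_mem _ (Submodule.add_mem _ (Submodule.add_mem _ h1 h2)
      (Submodule.smul_mem _ s h3)) (Submodule.smul_mem _ t h4)
  have hinj : Function.Injective (Phi _ _ v q q' hmem) := by
    rw [injective_iff_map_eq_zero]
    rintro ⟨⟨m, hm⟩, c, s, t⟩ hz
    have hz' : m + Pi.single v c + s • q + t • q' = 0 := congrArg Subtype.val hz
    obtain ⟨A₁, B₁, ⟨-, hA₁, hB₁⟩, hA₂, hB₂, -, -⟩ :=
      tr_of hS hT cS cT hvS hvT hx ((mem_mot _ _ _).1 hm)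
    have hr : ∀ r, r ≠ v → m r + s • q r + t • q' r = 0 := by
      intro r hrv
      have h1 := congrFun hz' r
      simpa only [Pi.add_apply, Pi.smul_apply, Pi.single_eq_of_ne hrv, add_zero,
        Pi.zero_apply] using h1
    have e0 : A₁ + s • A + t • A' = 0 := by
      refine DC.PIN.T_zero tri hS' hp (p' := p) (fun _ _ => rfl) (R := S.erase v) fun r hr' => ?_
      rw [fld_add', fld_add', fld_smul', fld_smul', ← hA₁ r hr', ← h.2.1 r hr', ← h'.2.1 r hr']
      exact hr r (ne_of_mem_erase hr')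
    have e1 : B₁ + s • B + t • B' = 0 := by
      refine DC.PIN.T_zero tri hT' hp (p' := p) (fun _ _ => rfl) (R := T.erase v) fun r hr' => ?_
      rw [fld_add', fld_add', fld_smul', fld_smul', ← hB₁ r hr', ← h.2.2 r hr', ← h'.2.2 r hr']
      exact hr r (ne_of_mem_erase hr')
    have e2 : s • fld (B - A) x + t • fld (B' - A') x = 0 := by
      have e3 : (B₁ - A₁) + s • (B - A) + t • (B' - A') = 0 := by
        have : (B₁ - A₁) + s • (B - A) + t • (B' - A') =
          (B₁ + s • B + t • B') - (A₁ + s • A + t • A') := by module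
        rw [this, e0, e1, sub_zero]
      have e4 := congrArg (fun Z => fld Z x) e3
      simp only [fld_add', fld_smul', fld_zero'] at e4
      rw [fld_sub' B₁ A₁, ← hA₂, ← hB₂, sub_self, zero_add] at e4
      exact e4
    obtain ⟨hs, ht⟩ := hli s t e2
    subst hs ht
    rw [zero_smul, zero_smul, add_zero, add_zero] at e0
    have hmv : m v = 0 := by rw [hA₂, e0, fld_zero']
    have hc : c = 0 := by
      have h1 := congrFun hz' v
      simp only [Pi.add_apply, Pi.single_eq_same, zero_smul, add_zero,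
        Pi.zero_apply, hmv, zero_add] at h1
      exact h1
    subst hc
    have hm0 : m = 0 := by
      rw [Pi.single_zero, zero_smul, zero_smul, add_zero, add_zero, add_zero] at hz'
      exact hz'
    subst hm0
    rfl
  have h1 := LinearMap.finrank_le_finrank_of_injective hinj
  rw [Module.finrank_prod, Module.finrank_prod, Module.finrank_prod, Module.finrank_self,
    Module.finrank_fintype_fun_eq_card, Fintype.card_fin] at h1
  have h2 : mo G p ≤ mo G (Function.update p v x) := hp.min G _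
  unfold mo at h2 hmo
  omega

end TTWO

open TTWO in
/-- **TTWO** -/
theorem ttwo (h0 : S_IMG) (h1 : S_X2) : S_TWO := by
  intro V _ _ G p hp hG v S T hS hT cS cT hvS hvT hmo a ha b hb hab
  by_contra hadj
  have hav : a ≠ v := by
    rintro rfl
    exact hadj (cT a hvT b hb hab)
  have hbv : b ≠ v := by
    rintro rfl
    exact hadj (cS a ha b hvS hab)
  -- (A)
  have stepA : ∀ x, MG (Function.update p v x) → ∃ q A B,
      Tr (G.deleteIncidenceSet v) (S.erase v) (T.erase v) p q A B ∧ B - A ≠ 0 ∧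
        fld (B - A) x = 0 := by
    intro x hx
    have hni : ¬ Imp G (Function.update p v x) a b := fun hi =>
      hadj (hG a b hab (h0 V G _ _ hx hp a b hi))
    unfold Imp at hni
    push Not at hni
    obtain ⟨q, hq, hqne⟩ := hni
    obtain ⟨A, B, htr, hA, hB, hA', hB'⟩ := tr_of hS hT cS cT hvS hvT hx hq
    refine ⟨q, A, B, htr, ?_, ?_⟩
    · intro hAB
      have hAB' : B = A := sub_eq_zero.1 hAB
      subst hAB'
      apply hqne
      rw [hA' a ha, hB' b hb]
      exact tri.2.2 B _ _
    · rw [fld_sub', ← hA, ← hB, sub_self]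
  -- (C)
  have stepC : ∀ {q q' : V → Fin 3 → ℝ} {A B A' B' : (Fin 3 → ℝ) × (Fin 3 → ℝ)},
      Tr (G.deleteIncidenceSet v) (S.erase v) (T.erase v) p q A B →
      Tr (G.deleteIncidenceSet v) (S.erase v) (T.erase v) p q' A' B' →
      B - A ≠ 0 → ∃ c : ℝ, B' - A' = c • (B - A) := by
    intro q q' A B A' B' h h' hne
    refine h1 (B - A) (B' - A') ?_ hne
    exact dens hp v (fun x => crossProduct (fld (B - A) x) (fld (B' - A') x))
      (cont_cross (cont_fld _) (cont_fld _))
      (fun y hy => stepB hp hS hT cS cT hvS hvT hmo h h' hy)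
  -- (D)
  have hp' : MG (Function.update p v (p v)) := by
    rw [Function.update_eq_self]
    exact hp
  obtain ⟨q₀, A₀, B₀, ht₀, hne₀, -⟩ := stepA (p v) hp'
  have hall : ∀ x, fld (B₀ - A₀) x = 0 := by
    refine dens hp v (fun x => fld (B₀ - A₀) x) (cont_fld _) ?_
    intro y hy
    obtain ⟨q, A, B, ht, hne, hf⟩ := stepA y hy
    obtain ⟨c, hc⟩ := stepC ht₀ ht hne₀
    have hc0 : c ≠ 0 := by
      rintro rfl
      rw [zero_smul] at hc
      exact hne hc
    rw [hc, fld_smul'] at hf
    exact (smul_eq_zero.1 hf).resolve_left hc0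
  exact hne₀ (DC.PIN.T_zero tri (R := S) (by omega) hp (p' := p) (fun _ _ => rfl)
    fun r _ => hall _)

end Pool.Agent.N423.DT
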