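import Mathlib
import Pool.Agent.N423.DC.TK5
import Pool.Agent.N423.DC.TGN4

/-!
# There is a vertex with gain at most four
-/

set_option autoImplicit false
set_option linter.unusedSectionVars false

namespace Pool.Agent.N423.DT

open Matrix Finset Pool.Agent.H283R2.DR Pool.Agent.H789R5 Pool.Agent.N423.DE Pool.Agent.N423.DC

namespace TVTX

variable {V : Type} [Fintype V] [DecidableEq V]

theorem base_sdiff (R Z : Finset V) (hub : V → V) :
    ((base R Z hub).edgeSet \ (DE.cmp R).edgeSet).ncard ≤ Z.card := by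
  have h5 : (base R Z hub).edgeSet \ (DE.cmp R).edgeSet ⊆
      (Z.image fun v => s(v, hub v) : Finset (Sym2 V)) := by
    intro e he
    induction e using Sym2.ind with
    | _ a b =>
      obtain ⟨h6, h7⟩ := he
      rw [SimpleGraph.mem_edgeSet] at h6 h7
      rw [mem_coe, mem_image]
      obtain ⟨hab, ⟨ha, hb⟩ | ⟨ha, hb⟩ | ⟨ha, hb⟩⟩ := h6
      · exact absurd ⟨hab, ha, hb⟩ h7
      · exact ⟨a, ha, by rw [hb]⟩
      · exact ⟨b, ha, by rw [hb, Sym2.eq_swap]⟩
  refine (Set.ncard_le_ncard h5 (Set.toFinite _)).trans ?_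
  rw [Set.ncard_coe_finset]
  exact card_image_le

theorem base_le {G : SimpleGraph V} {R Z : Finset V} (hD : Dom G R Z) {hub : V → V}
    (hh : ∀ v ∈ Z, hub v ∈ R ∧ G.Adj v (hub v)) : base R Z hub ≤ G := by
  intro a b hab
  obtain ⟨hne, ⟨ha, hb⟩ | ⟨ha, rfl⟩ | ⟨hb, rfl⟩⟩ := hab
  · exact hD.clique a ha b hb hne
  · exact (hh a ha).2
  · exact (hh b hb).2.symm

end TVTX

open TVTX in
theorem tvtx (h : S_DSM) : S_VTX := by
  intro V _ _ G R Z p hp hG hD hnc
  choose! hub hhub using hD.dom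
  have hHb : Hb R Z hub := ⟨hD.disj, hD.card3, fun v hv => (hhub v hv).1⟩
  have hbG := base_le hD hhub
  have hb1 := t_bas V R Z hub hHb p hp
  have hb2 := base_sdiff R Z hub
  have hR := mo_cmpR hD.card3 hp
  obtain ⟨F, hF, hmax⟩ := Set.Finite.exists_maximal
    (s := {F : SimpleGraph V | base R Z hub ≤ F ∧ F ≤ G ∧
      mo F p + (F.edgeSet \ (DE.cmp R).edgeSet).ncard ≤ mo (DE.cmp R) p})
    (Set.toFinite _) ⟨base R Z hub, le_refl _, hbG, by omega⟩
  obtain ⟨h1, h2, h3⟩ := hF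
  have hmo : mo F p ≤ mo G p := by
    apply mo_le_of_imp
    intro x y hxy
    by_contra himp
    have hne : x ≠ y := hxy.ne
    have hnadj : ¬ F.Adj x y := fun h => himp (imp_of_adj h)
    have h4 := mo_lt_of_not_imp hne himp
    have h5 : ((F ⊔ SimpleGraph.edge x y).edgeSet \ (DE.cmp R).edgeSet).ncard ≤
        (F.edgeSet \ (DE.cmp R).edgeSet).ncard + 1 := by
      rw [SimpleGraph.edgeSet_sup, SimpleGraph.edgeSet_edge_of_ne hne, Set.union_sdiff_distrib]
      refine (Set.ncard_union_le _ _).trans ?_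
      have : ({s(x, y)} \ (DE.cmp R).edgeSet : Set (Sym2 V)).ncard ≤ 1 := by
        rw [← Set.ncard_singleton s(x, y)]
        exact Set.ncard_le_ncard Set.sdiff_subset (Set.toFinite _)
      omega
    have h6 : F ⊔ SimpleGraph.edge x y ≤ F := by
      refine hmax ⟨h1.trans le_sup_left, ?_, by omega⟩ le_sup_left
      refine sup_le h2 ?_
      intro a b hab
      rw [SimpleGraph.edge_adj] at hab
      rcases hab.1 with ⟨rfl, rfl⟩ | ⟨rfl, rfl⟩
      · exact hxy
      · exact hxy.symm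
    exact hnadj (h6 (Or.inr (by rw [SimpleGraph.edge_adj]; exact ⟨Or.inl ⟨rfl, rfl⟩, hne⟩)))
  have hDF : Dom F R Z := by
    refine ⟨hD.disj, hD.card3, ?_, fun x y hxy => hD.supp x y (h2 hxy), ?_⟩
    · intro a ha b hb hab
      exact h1 ⟨hab, Or.inl ⟨ha, hb⟩⟩
    · intro v hv
      exact ⟨hub v, (hhub v hv).1, h1 ⟨fun e => hD.disj _ (hhub v hv).1 (e ▸ hv),
        Or.inr (Or.inl ⟨hv, rfl⟩)⟩⟩
  have hsum := h V F R Z hDF
  have hUc : (R ∪ Z).card = R.card + Z.card := card_union_of_disjoint (by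
    rw [disjoint_left]
    exact fun a ha hb => hD.disj a ha hb)
  have hc3 := hD.card3
  have hnot := mo_not_cmp hp hG (U := R ∪ Z) (by omega)
    (fun a b h => mem_union.2 (hD.supp a b h)) (by
      obtain ⟨a, b, ha, hb, hab, hn⟩ := hnc
      exact ⟨a, mem_union.2 ha, b, mem_union.2 hb, hab, hn⟩)
  rw [hUc] at hnot
  have hFG := mo_anti h2 p
  by_contra hall
  push Not at hall
  have h6 : ∀ v ∈ Z, 6 ≤ (nb F v).card + (nb F v ∩ R).card := by
    intro v hv
    have e1 := hall v hv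
    have e2 := mo_anti (del_mono h2 v) p
    have e3 := mo_del_le F p v
    obtain ⟨r, hr, hvr⟩ := hDF.dom v hv
    have : 0 < (nb F v ∩ R).card := card_pos.2 ⟨r, mem_inter.2 ⟨mem_nb.2 hvr, hr⟩⟩
    omega
  have h7 : ∑ _v ∈ Z, 6 ≤ ∑ v ∈ Z, ((nb F v).card + (nb F v ∩ R).card) := sum_le_sum h6
  rw [sum_const, smul_eq_mul, hsum] at h7
  omega

end Pool.Agent.N423.DT
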