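import Mathlib
import Pool.Agent.N423.DC.StmT

/-!
# Project DT (helper423), part X2 (helper803): two infinitesimal isometries with parallel velocities
-/

set_option autoImplicit false

namespace Pool.Agent.N423.DT.TX2

open Pool.Agent.N423.DC (fld)

/-- parallel vectors -/
theorem par {a b c p q r : ℝ} (h : ¬ (a = 0 ∧ b = 0 ∧ c = 0)) (h1 : b * r - c * q = 0)
    (h2 : c * p - a * r = 0) (h3 : a * q - b * p = 0) :
    ∃ k : ℝ, p = k * a ∧ q = k * b ∧ r = k * c := by
  have hs : a * a + b * b + c * c ≠ 0 := by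
    intro h0
    apply h
    refine ⟨?_, ?_, ?_⟩ <;> nlinarith [mul_self_nonneg a, mul_self_nonneg b, mul_self_nonneg c]
  refine ⟨(a * p + b * q + c * r) / (a * a + b * b + c * c), ?_, ?_, ?_⟩
  · rw [div_mul_eq_mul_div, eq_div_iff hs]
    linear_combination c * h2 - b * h3
  · rw [div_mul_eq_mul_div, eq_div_iff hs]
    linear_combination a * h3 - c * h1
  · rw [div_mul_eq_mul_div, eq_div_iff hs]
    linear_combination b * h1 - a * h2

/-- `u` kills `v` -/
theorem kill {a b c p q r : ℝ} (h : ¬ (a = 0 ∧ b = 0 ∧ c = 0)) (h12 : q * a = 0) (h13 : r * a = 0)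
    (h21 : p * b = 0) (h23 : r * b = 0) (h31 : p * c = 0) (h32 : q * c = 0)
    (h1 : b * q + c * r = 0) (h2 : a * p + c * r = 0) (h3 : a * p + b * q = 0) :
    p = 0 ∧ q = 0 ∧ r = 0 := by
  have h4 : a * p = 0 := by linarith
  have h5 : b * q = 0 := by linarith
  have h6 : c * r = 0 := by linarith
  by_cases ha : a = 0
  · by_cases hb : b = 0
    · have hc : c ≠ 0 := fun hc => h ⟨ha, hb, hc⟩
      exact ⟨(mul_eq_zero.1 h31).resolve_right hc, (mul_eq_zero.1 h32).resolve_right hc,
        (mul_eq_zero.1 h6).resolve_left hc⟩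
    · exact ⟨(mul_eq_zero.1 h21).resolve_right hb, (mul_eq_zero.1 h5).resolve_left hb,
        (mul_eq_zero.1 h23).resolve_right hb⟩
  · exact ⟨(mul_eq_zero.1 h4).resolve_left ha, (mul_eq_zero.1 h12).resolve_right ha,
      (mul_eq_zero.1 h13).resolve_right ha⟩

theorem core {a b c p q r a' b' c' p' q' r' : ℝ}
    (H1 : ∀ x y z : ℝ, (c * x - a * z + q) * (a' * y - b' * x + r') -
      (a * y - b * x + r) * (c' * x - a' * z + q') = 0)
    (H2 : ∀ x y z : ℝ, (a * y - b * x + r) * (b' * z - c' * y + p') -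
      (b * z - c * y + p) * (a' * y - b' * x + r') = 0)
    (H3 : ∀ x y z : ℝ, (b * z - c * y + p) * (c' * x - a' * z + q') -
      (c * x - a * z + q) * (b' * z - c' * y + p') = 0)
    (hne : ¬ ((a = 0 ∧ b = 0 ∧ c = 0) ∧ (p = 0 ∧ q = 0 ∧ r = 0))) :
    ∃ k : ℝ, (a' = k * a ∧ b' = k * b ∧ c' = k * c) ∧ (p' = k * p ∧ q' = k * q ∧ r' = k * r) := by
  have A0 := H1 0 0 0
  have B0 := H2 0 0 0
  have C0 := H3 0 0 0
  have A1 := H1 1 0 0
  have A1' := H1 (-1) 0 0
  have A2 := H1 0 1 0
  have A2' := H1 0 (-1) 0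
  have A3 := H1 0 0 1
  have A3' := H1 0 0 (-1)
  have B1 := H2 1 0 0
  have B1' := H2 (-1) 0 0
  have B2 := H2 0 1 0
  have B2' := H2 0 (-1) 0
  have B3 := H2 0 0 1
  have B3' := H2 0 0 (-1)
  have C1 := H3 1 0 0
  have C1' := H3 (-1) 0 0
  have C2 := H3 0 1 0
  have C2' := H3 0 (-1) 0
  have C3 := H3 0 0 1
  have C3' := H3 0 0 (-1)
  have n1 : b * c' - c * b' = 0 := by linear_combination (A1 + A1' - 2 * A0) / 2
  have n2 : c * a' - a * c' = 0 := by linear_combination (B2 + B2' - 2 * B0) / 2
  have n3 : a * b' - b * a' = 0 := by linear_combination (C3 + C3' - 2 * C0) / 2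
  have L1x : c * r' - r * c' + (b * q' - q * b') = 0 := by linear_combination (A1 - A1') / 2
  have L1y : q * a' - a * q' = 0 := by linear_combination (A2 - A2') / 2
  have L1z : r * a' - a * r' = 0 := by linear_combination (A3 - A3') / 2
  have L2x : p * b' - b * p' = 0 := by linear_combination (B1 - B1') / 2
  have L2y : a * p' - p * a' + (c * r' - r * c') = 0 := by linear_combination (B2 - B2') / 2
  have L2z : r * b' - b * r' = 0 := by linear_combination (B3 - B3') / 2
  have L3x : p * c' - c * p' = 0 := by linear_combination (C1 - C1') / 2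
  have L3y : q * c' - c * q' = 0 := by linear_combination (C2 - C2') / 2
  have L3z : b * q' - q * b' + (a * p' - p * a') = 0 := by linear_combination (C3 - C3') / 2
  by_cases h : a = 0 ∧ b = 0 ∧ c = 0
  · obtain ⟨ha, hb, hc⟩ := h
    have ht : ¬ (p = 0 ∧ q = 0 ∧ r = 0) := fun h => hne ⟨⟨ha, hb, hc⟩, h⟩
    subst ha hb hc
    obtain ⟨k, hk1, hk2, hk3⟩ := par ht (p := p') (q := q') (r := r')
      (by linear_combination A0) (by linear_combination B0) (by linear_combination C0)
    have hz := kill (p := a') (q := b') (r := c') ht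
      (by linear_combination L2x) (by linear_combination L3x) (by linear_combination L1y)
      (by linear_combination L3y) (by linear_combination L1z) (by linear_combination L2z)
      (by linear_combination -L1x) (by linear_combination -L2y) (by linear_combination -L3z)
    exact ⟨k, ⟨by rw [hz.1]; ring, by rw [hz.2.1]; ring, by rw [hz.2.2]; ring⟩, hk1, hk2, hk3⟩
  · obtain ⟨k, hk1, hk2, hk3⟩ := par h (p := a') (q := b') (r := c') n1 n2 n3
    subst hk1 hk2 hk3
    have hz := kill (p := p' - k * p) (q := q' - k * q) (r := r' - k * r) h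
      (by linear_combination -L1y) (by linear_combination -L1z) (by linear_combination -L2x)
      (by linear_combination -L2z) (by linear_combination -L3x) (by linear_combination -L3y)
      (by linear_combination L1x) (by linear_combination L2y) (by linear_combination L3z)
    exact ⟨k, ⟨rfl, rfl, rfl⟩, sub_eq_zero.1 hz.1, sub_eq_zero.1 hz.2.1, sub_eq_zero.1 hz.2.2⟩

theorem main (T T' : (Fin 3 → ℝ) × (Fin 3 → ℝ))
    (H : ∀ x, crossProduct (fld T x) (fld T' x) = 0) (hT : T ≠ 0) : ∃ c : ℝ, T' = c • T := by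
  have key : ∀ x y z : ℝ, crossProduct (fld T ![x, y, z]) (fld T' ![x, y, z]) = 0 :=
    fun x y z => H _
  have K0 := fun x y z => congrFun (key x y z) 0
  have K1 := fun x y z => congrFun (key x y z) 1
  have K2 := fun x y z => congrFun (key x y z) 2
  simp only [fld, crossProduct, LinearMap.mk₂_apply, Pi.add_apply, Matrix.cons_val_zero,
    Matrix.cons_val_one, Matrix.cons_val, Pi.zero_apply] at K0 K1 K2
  obtain ⟨k, ⟨h1, h2, h3⟩, h4, h5, h6⟩ := core (a := T.1 0) (b := T.1 1) (c := T.1 2) (p := T.2 0)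
    (q := T.2 1) (r := T.2 2) (a' := T'.1 0) (b' := T'.1 1) (c' := T'.1 2) (p' := T'.2 0)
    (q' := T'.2 1) (r' := T'.2 2)
    (fun x y z => by linear_combination K0 x y z) (fun x y z => by linear_combination K1 x y z)
    (fun x y z => by linear_combination K2 x y z) (by
      rintro ⟨⟨h1, h2, h3⟩, h4, h5, h6⟩
      apply hT
      refine Prod.ext (funext fun i => ?_) (funext fun i => ?_)
      · fin_cases i
        · exact h1
        · exact h2
        · exact h3
      · fin_cases i
        · exact h4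
        · exact h5
        · exact h6)
  refine ⟨k, Prod.ext (funext fun i => ?_) (funext fun i => ?_)⟩
  · fin_cases i
    · exact h1
    · exact h2
    · exact h3
  · fin_cases i
    · exact h4
    · exact h5
    · exact h6

end Pool.Agent.N423.DT.TX2

namespace Pool.Agent.N423.DT

/-- Part X2. -/
theorem tx2 : S_X2 := fun T T' H hT => TX2.main T T' H hT

end Pool.Agent.N423.DT
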