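import Mathlib
import Pool.Agent.N423.DC.TFin
import Pool.Agent.N423.DC.TIMG
import Pool.Agent.N423.DC.TLOW
import Pool.Agent.N423.DC.TMIN
import Pool.Agent.N423.DC.TEXC
import Pool.Agent.N423.DC.TTCR
import Pool.Agent.N423.DC.TX2
import Pool.Agent.N423.DC.TTWO
import Pool.Agent.N423.DC.TGN4
import Pool.Agent.N423.DC.TVTX

/-!
# The rank formula for graphs with a dominating rigid subgraph: everything together
-/

set_option autoImplicit false
set_option linter.unusedSectionVars false

namespace Pool.Agent.N423.DT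

open Matrix Finset Pool.Agent.H283R2.DR Pool.Agent.H789R5 Pool.Agent.N423.DE Pool.Agent.N423.DC

theorem t_k5t : S_K5T := tk5 timg tlow tdsm tmin texc ttcr
theorem t_seq : S_SEQ := tseq t_k5t (tgn4 (ttwo timg tx2)) (tvtx tdsm)

end Pool.Agent.N423.DT
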