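import Mathlib
import Pool.Agent.N423.DC.Stm

/-!
# Graphs with a dominating clique: a complete graph with four vertices contains a hub (helper407)
-/

set_option autoImplicit false
set_option linter.unusedSectionVars false

namespace Pool.Agent.N423.DC

open Matrix Finset Pool.Agent.H283R2.DR Pool.Agent.H789R5 Pool.Agent.N423.DE

namespace K4

theorem cr0 {u : Fin 3 → ℝ} (h : ∀ w : Fin 3 → ℝ, crossProduct w u = 0) : u = 0 := by
  have h1 := h ![1, 0, 0]
  have h2 := h ![0, 1, 0]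
  rw [cross_apply] at h1 h2
  have e1 := congrFun h1 1
  have e2 := congrFun h1 2
  have e3 := congrFun h2 2
  simp at e1 e2 e3
  funext i
  fin_cases i
  · simpa using e3
  · simpa using e2
  · simpa using e1

theorem cross_zero {w u : Fin 3 → ℝ} (h : crossProduct w u = 0) :
    (w ⬝ᵥ w) • u = (w ⬝ᵥ u) • w := by
  rw [cross_apply] at h
  have e0 := congrFun h 0
  have e1 := congrFun h 1
  have e2 := congrFun h 2
  simp at e0 e1 e2
  funext i
  fin_cases i
  · simp only [Pi.smul_apply, smul_eq_mul, dotProduct, Fin.sum_univ_three, Fin.zero_eta]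
    linear_combination (w 2) * e1 - (w 1) * e2
  · simp only [Pi.smul_apply, smul_eq_mul, dotProduct, Fin.sum_univ_three, Fin.mk_one]
    linear_combination (w 0) * e2 - (w 2) * e0
  · simp only [Pi.smul_apply, smul_eq_mul, dotProduct, Fin.sum_univ_three, Fin.reduceFinMk]
    linear_combination (w 1) * e0 - (w 0) * e1

theorem w_zero {w u v : Fin 3 → ℝ} (hu : crossProduct w u = 0) (hv : crossProduct w v = 0)
    (hl : ∀ α β : ℝ, α • u + β • v = 0 → α = 0 ∧ β = 0) : w = 0 := by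
  have h1 := cross_zero hu
  have h2 := cross_zero hv
  by_contra hw
  have hS : w ⬝ᵥ w ≠ 0 := by
    intro h
    exact hw (dotProduct_self_eq_zero.1 h)
  have h3 := hl ((w ⬝ᵥ v) * (w ⬝ᵥ w)) (-((w ⬝ᵥ u) * (w ⬝ᵥ w))) (by
    rw [mul_smul, neg_smul, mul_smul, h1, h2, smul_smul, smul_smul, mul_comm (w ⬝ᵥ v),
      add_neg_cancel])
  have h4 : w ⬝ᵥ u = 0 := by
    rcases mul_eq_zero.1 (neg_eq_zero.1 h3.2) with h | h
    · exact h
    · exact absurd h hS
  rw [h4, zero_smul] at h1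
  have h5 : u = 0 := by
    rcases smul_eq_zero.1 h1 with h | h
    · exact absurd h hS
    · exact h
  have h6 := (hl 1 0 (by rw [h5, smul_zero, zero_smul, add_zero])).1
  norm_num at h6

theorem surj {E : Type*} [AddCommGroup E] [Module ℝ E] (TT : Submodule ℝ E)
    (h3 : 3 ≤ Module.finrank ℝ TT) (φ : E →ₗ[ℝ] (Fin 3 → ℝ))
    (hi : ∀ T ∈ TT, φ T = 0 → T = 0) (w : Fin 3 → ℝ) : ∃ T ∈ TT, φ T = w := by
  have h1 : Function.Injective (φ.domRestrict TT) := by
    rw [← LinearMap.ker_eq_bot, LinearMap.ker_eq_bot']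
    intro T hT
    exact Subtype.ext (hi T T.2 hT)
  have h2 := LinearMap.finrank_range_of_inj h1
  have h4 : LinearMap.range (φ.domRestrict TT) = ⊤ := by
    apply Submodule.eq_top_of_finrank_eq
    apply le_antisymm (Submodule.finrank_le _)
    rw [h2, Module.finrank_fin_fun]
    exact h3
  have h5 : w ∈ LinearMap.range (φ.domRestrict TT) := by rw [h4]; trivial
  obtain ⟨T, hT⟩ := h5
  exact ⟨T, T.2, hT⟩

/-- no dependencies among four points -/
def AI (a a' b b' : Fin 3 → ℝ) : Prop := ∀ c1 c2 c3 c4 : ℝ, c1 + c2 + c3 + c4 = 0 →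
  c1 • a + c2 • a' + c3 • b + c4 • b' = 0 → c1 = 0 ∧ c2 = 0 ∧ c3 = 0 ∧ c4 = 0

/-- the fixed point of the field -/
theorem fix (T : (Fin 3 → ℝ) × (Fin 3 → ℝ)) {a a' : Fin 3 → ℝ} {ρ : ℝ} (hρ : ρ ≠ 1)
    (h : fld T a' = ρ • fld T a) : fld T ((1 - ρ)⁻¹ • (a' - ρ • a)) = 0 := by
  have h0 : (1 - ρ) ≠ 0 := sub_ne_zero.2 (Ne.symm hρ)
  unfold fld at h ⊢
  rw [map_smul, map_sub, map_smul]
  have h1 : crossProduct T.1 a' - ρ • crossProduct T.1 a = -((1 - ρ) • T.2) := by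
    rw [smul_add] at h
    rw [sub_smul, one_smul]
    have h2 : crossProduct T.1 a' = ρ • crossProduct T.1 a + ρ • T.2 - T.2 := by
      rw [← h]; abel
    rw [h2]; abel
  rw [h1, smul_neg, smul_smul, inv_mul_cancel₀ h0, one_smul, neg_add_cancel]

theorem caseA (TT : Submodule ℝ ((Fin 3 → ℝ) × (Fin 3 → ℝ))) (h3 : 3 ≤ Module.finrank ℝ TT)
    {a a' b b' : Fin 3 → ℝ} (hA : AI a a' b b') {ρ ρ' : ℝ}
    (h1 : ∀ T ∈ TT, fld T a' = ρ • fld T a) (h2 : ∀ T ∈ TT, fld T b' = ρ' • fld T b)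
    (hρ : ρ ≠ 1) : False := by
  obtain ⟨g, hg⟩ : ∃ g, g = (1 - ρ)⁻¹ • (a' - ρ • a) := ⟨_, rfl⟩
  have hgT : ∀ T ∈ TT, fld T g = 0 := fun T hT => by rw [hg]; exact fix T hρ (h1 T hT)
  have hs := surj TT h3 (LinearMap.fst ℝ _ _) (by
    intro T hT h0
    have h4 := hgT T hT
    have h5 : T.1 = 0 := h0
    unfold fld at h4
    rw [h5, map_zero, LinearMap.zero_apply, zero_add] at h4
    exact Prod.ext h5 h4)
  by_cases hρ' : ρ' = 1
  · have h4 : b' - b = 0 := by
      apply cr0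
      intro w
      obtain ⟨T, hT, hw⟩ := hs w
      have h5 := h2 T hT
      have hw : T.1 = w := hw
      rw [hρ', one_smul] at h5
      unfold fld at h5
      rw [hw, add_left_inj] at h5
      rw [map_sub, h5, sub_self]
    have h5 := (hA 0 0 1 (-1) (by norm_num) (by
      rw [sub_eq_zero.1 h4]; simp)).2.2.1
    norm_num at h5
  · obtain ⟨h, hh⟩ : ∃ h, h = (1 - ρ')⁻¹ • (b' - ρ' • b) := ⟨_, rfl⟩
    have hhT : ∀ T ∈ TT, fld T h = 0 := fun T hT => by rw [hh]; exact fix T hρ' (h2 T hT)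
    have h4 : g - h = 0 := by
      apply cr0
      intro w
      obtain ⟨T, hT, hw⟩ := hs w
      have hw : T.1 = w := hw
      have h5 := hgT T hT
      have h6 := hhT T hT
      unfold fld at h5 h6
      rw [hw] at h5 h6
      rw [map_sub]
      have h7 : crossProduct w g + T.2 = crossProduct w h + T.2 := by rw [h5, h6]
      rw [add_left_inj] at h7
      rw [h7, sub_self]
    have e0 : (1 - ρ) ≠ 0 := sub_ne_zero.2 (Ne.symm hρ)
    have e0' : (1 - ρ') ≠ 0 := sub_ne_zero.2 (Ne.symm hρ')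
    have h5 := (hA (-((1 - ρ)⁻¹ * ρ)) ((1 - ρ)⁻¹) ((1 - ρ')⁻¹ * ρ') (-(1 - ρ')⁻¹) (by
      field_simp; ring) (by
      rw [← h4, hg, hh, smul_sub, smul_sub, smul_smul, smul_smul, neg_smul, neg_smul]
      abel)).2.1
    exact inv_ne_zero e0 h5

theorem alg (TT : Submodule ℝ ((Fin 3 → ℝ) × (Fin 3 → ℝ))) (h3 : 3 ≤ Module.finrank ℝ TT)
    {a a' b b' : Fin 3 → ℝ} (hA : AI a a' b b') {ρ ρ' : ℝ}
    (h1 : ∀ T ∈ TT, fld T a' = ρ • fld T a) (h2 : ∀ T ∈ TT, fld T b' = ρ' • fld T b)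
    (h4 : ∀ T ∈ TT, (a - a') ⬝ᵥ fld T a = 0) : False := by
  by_cases hρ : ρ = 1
  · by_cases hρ' : ρ' = 1
    · have hw : ∀ T ∈ TT, T.1 = 0 := by
        intro T hT
        have e1 := h1 T hT
        have e2 := h2 T hT
        rw [hρ, one_smul] at e1
        rw [hρ', one_smul] at e2
        unfold fld at e1 e2
        rw [add_left_inj] at e1 e2
        refine w_zero (u := a' - a) (v := b' - b) (by rw [map_sub, e1, sub_self])
          (by rw [map_sub, e2, sub_self]) ?_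
        intro α β h
        have h5 := hA (-α) α (-β) β (by ring) (by
          rw [← h, neg_smul, neg_smul, smul_sub, smul_sub]; abel)
        exact ⟨h5.2.1, h5.2.2.2⟩
      obtain ⟨T, hT, hT2⟩ := surj TT h3 (LinearMap.snd ℝ _ _) (by
        intro T hT h0
        exact Prod.ext (hw T hT) h0) (a - a')
      have hT2 : T.2 = a - a' := hT2
      have h5 := h4 T hT
      unfold fld at h5
      rw [hw T hT, map_zero, LinearMap.zero_apply, zero_add, hT2, dotProduct_self_eq_zero,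
        sub_eq_zero] at h5
      have h6 := (hA 1 (-1) 0 0 (by norm_num) (by rw [h5]; simp)).1
      norm_num at h6
    · refine caseA TT h3 (a := b) (a' := b') (b := a) (b' := a') ?_ h2 h1 hρ'
      intro c1 c2 c3 c4 hc h
      have h5 := hA c3 c4 c1 c2 (by linarith) (by rw [← h]; abel)
      exact ⟨h5.2.2.1, h5.2.2.2, h5.1, h5.2.1⟩
  · exact caseA TT h3 hA h1 h2 hρ

theorem ai_of_mg {V : Type} [Fintype V] {p : V → Fin 3 → ℝ} (hp : MG p) {v1 v2 v3 v4 : V}
    (h12 : v1 ≠ v2) (h13 : v1 ≠ v3) (h14 : v1 ≠ v4) (h23 : v2 ≠ v3) (h24 : v2 ≠ v4)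
    (h34 : v3 ≠ v4) : AI (p v1) (p v2) (p v3) (p v4) := by
  have h := hp.pos 4 ![v1, v2, v3, v4] (by norm_num) (by
    intro i j hij
    fin_cases i <;> fin_cases j <;> simp_all [eq_comm])
  rw [affineIndependent_iff] at h
  intro c1 c2 c3 c4 hc hs
  have h1 := h Finset.univ ![c1, c2, c3, c4] (by
    simp [Fin.sum_univ_four]; linarith) (by
    simpa [Fin.sum_univ_four] using hs)
  refine ⟨h1 0 (mem_univ _), h1 1 (mem_univ _), h1 2 (mem_univ _), h1 3 (mem_univ _)⟩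

/-- the space of the statement KAP -/
def UP {V : Type} (G : SimpleGraph V) (Z K KZ : Finset V) (p : V → Fin 3 → ℝ) (z z' : V → V)
    (ρ : V → ℝ) : Submodule ℝ (((Fin 3 → ℝ) × (Fin 3 → ℝ)) × (V → Fin 3 → ℝ)) where
  carrier := {u | u ∈ UU G Z K KZ p ∧ ∀ x ∈ KZ, dlt p (z' x) u = ρ x • dlt p (z x) u ∧
      (p (z x) - p (z' x)) ⬝ᵥ dlt p (z x) u = 0}
  add_mem' := by
    rintro u v ⟨hu, hu'⟩ ⟨hv, hv'⟩
    refine ⟨Submodule.add_mem _ hu hv, fun x hx => ⟨?_, ?_⟩⟩
    · rw [map_add, map_add, (hu' x hx).1, (hv' x hx).1, smul_add]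
    · rw [map_add, dotProduct_add, (hu' x hx).2, (hv' x hx).2, add_zero]
  zero_mem' := ⟨Submodule.zero_mem _, fun x _ => ⟨by rw [map_zero, map_zero, smul_zero],
    by rw [map_zero, dotProduct_zero]⟩⟩
  smul_mem' := by
    rintro c u ⟨hu, hu'⟩
    refine ⟨Submodule.smul_mem _ c hu, fun x hx => ⟨?_, ?_⟩⟩
    · rw [map_smul, map_smul, (hu' x hx).1, smul_comm]
    · rw [map_smul, dotProduct_smul, (hu' x hx).2, smul_zero]

end K4

open K4 in
theorem k4 (h1 : S_KAP) (h2 : S_DJ) (h3 : S_DIM) : S_K4 := by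
  intro V _ _ G R Z hub hC K KZ z z' hcfg hcard
  have hsub : KZ ⊆ K := fun x hx => ((hcfg.mem x).1 hx).1
  have hKZ : KZ = K := Finset.eq_of_subset_of_card_le hsub (by rw [hcfg.card, hcard])
  obtain ⟨p, hp⟩ := exists_mg V 3
  obtain ⟨ρ, -, hfin⟩ := h1 V G R Z hub hC K KZ z z' hcfg p hp
  have hdim := h3 V G R Z hub hC p hp KZ (fun x hx => ((hcfg.mem x).1 hx).2) hcfg.ne
    (by rw [hKZ]; exact hcfg.clique)
  rw [hcard] at hdim hfin
  have hdim2 : Module.finrank ℝ (PM G Z KZ p) = 2 := by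
    have : (4 : ℕ).choose 2 = 6 := rfl
    omega
  have hspan : Submodule.span ℝ {u | u ∈ UU G Z K KZ p ∧ ∀ x ∈ KZ,
      dlt p (z' x) u = ρ x • dlt p (z x) u ∧ (p (z x) - p (z' x)) ⬝ᵥ dlt p (z x) u = 0} =
      UP G Z K KZ p z z' ρ := Submodule.span_eq (UP G Z K KZ p z z' ρ)
  rw [hspan] at hfin
  -- the kernel of the projection
  obtain ⟨TT, hTT⟩ : ∃ TT : Submodule ℝ ((Fin 3 → ℝ) × (Fin 3 → ℝ)),
      TT = (UP G Z K KZ p z z' ρ).comap (LinearMap.inl ℝ _ _) := ⟨_, rfl⟩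
  have hmem : ∀ T, T ∈ TT ↔ (T, (0 : V → Fin 3 → ℝ)) ∈ UP G Z K KZ p z z' ρ := by
    intro T
    rw [hTT, Submodule.mem_comap]
    rfl
  have hTT3 : 3 ≤ Module.finrank ℝ TT := by
    obtain ⟨π, hπ⟩ : ∃ π : (UP G Z K KZ p z z' ρ) →ₗ[ℝ] (V → Fin 3 → ℝ),
        π = (LinearMap.snd ℝ _ _).domRestrict _ := ⟨_, rfl⟩
    have hπu : ∀ u, π u = u.1.2 := fun u => by rw [hπ]; rfl
    have e1 := LinearMap.finrank_range_add_finrank_ker π
    have e2 : Module.finrank ℝ (LinearMap.range π) ≤ 2 := by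
      rw [← hdim2]
      apply Submodule.finrank_mono
      rintro _ ⟨u, rfl⟩
      rw [hπu]
      exact u.2.1.1
    have e3 : Module.finrank ℝ (LinearMap.ker π) ≤ Module.finrank ℝ TT := by
      let f : LinearMap.ker π →ₗ[ℝ] TT :=
        { toFun := fun u => ⟨u.1.1.1, by
            rw [hmem]
            have h0 : u.1.1.2 = 0 := by
              have h5 := u.2
              rw [LinearMap.mem_ker, hπu] at h5
              exact h5
            have h6 := u.1.2
            rw [← h0]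
            exact h6⟩
          map_add' := fun u v => rfl
          map_smul' := fun c u => rfl }
      apply LinearMap.finrank_le_finrank_of_injective (f := f)
      intro u v huv
      have h0 : ∀ u : LinearMap.ker π, u.1.1.2 = 0 := by
        intro u
        have h5 := u.2
        rw [LinearMap.mem_ker, hπu] at h5
        exact h5
      apply Subtype.ext
      apply Subtype.ext
      refine Prod.ext ?_ ?_
      · exact congrArg Subtype.val huv
      · rw [h0 u, h0 v]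
    omega
  -- two vertices
  obtain ⟨x, hx, y, hy, hxy⟩ := Finset.one_lt_card.1 (by omega : 1 < KZ.card)
  have hax := hcfg.adj x hx
  have hay := hcfg.adj y hy
  have hdx := h2 V G R Z hub hC K KZ z z' hcfg x hx y (hsub hy) hxy.symm
  have hne : ∀ v w : V, G.Adj y w → ¬ G.Adj y v → v ≠ w := by
    rintro v w h5 h6 rfl
    exact h6 h5
  have hAI := ai_of_mg hp (v1 := z x) (v2 := z' x) (v3 := z y) (v4 := z' y) hax.2.2.1
    (hne _ _ hay.1 hdx.1) (hne _ _ hay.2.1 hdx.1) (hne _ _ hay.1 hdx.2)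
    (hne _ _ hay.2.1 hdx.2) hay.2.2.1
  have hd : ∀ (T : (Fin 3 → ℝ) × (Fin 3 → ℝ)) (v : V),
      dlt p v (T, (0 : V → Fin 3 → ℝ)) = - fld T (p v) := by
    intro T v
    change (0 : V → Fin 3 → ℝ) v - fld T (p v) = _
    rw [Pi.zero_apply, zero_sub]
  have hq : ∀ T ∈ TT, ∀ v ∈ KZ, fld T (p (z' v)) = ρ v • fld T (p (z v)) ∧
      (p (z v) - p (z' v)) ⬝ᵥ fld T (p (z v)) = 0 := by
    intro T hT v hv
    have h5 := ((hmem T).1 hT).2 v hv
    rw [hd, hd, smul_neg, neg_inj, dotProduct_neg, neg_eq_zero] at h5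
    exact h5
  exact alg TT hTT3 hAI (ρ := ρ x) (ρ' := ρ y) (fun T hT => (hq T hT x hx).1)
    (fun T hT => (hq T hT y hy).1) (fun T hT => (hq T hT x hx).2)

end Pool.Agent.N423.DC
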